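import Pool.Agent.Lib.MP_bcfefa_nt.B.Bas

/-!
Bounds for Petersson densities.
-/

set_option autoImplicit false

noncomputable section

namespace Pool.Agent.Lib.MP_bcfefa_nt.B

open Finset CongruenceSubgroup UpperHalfPlane Matrix MeasureTheory Complex ModularGroup Filter
open Pool.Agent.Lib.MP_88d29b_nt.G
open scoped MatrixGroups ModularForm Manifold ComplexConjugate Topology

variable {u v : ℍ → ℝ}

lemma bdd_pow {δ κ : ℝ} (hδ : 0 < δ) (hκ : 0 ≤ κ) :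
    ∃ A : ℝ, 0 ≤ A ∧ ∀ y : ℝ, 0 < y → y ^ κ ≤ A * Real.exp (δ * y) := by
  have hw : 0 < δ / (κ + 1) := by positivity
  have hw' : δ / (κ + 1) * κ ≤ δ := by
    rw [div_mul_eq_mul_div, div_le_iff₀ (by positivity)]
    nlinarith
  generalize δ / (κ + 1) = w at hw hw'
  refine ⟨w⁻¹ ^ κ, by positivity, fun y hy => ?_⟩
  have h1 : y ≤ w⁻¹ * Real.exp (w * y) := by
    rw [le_inv_mul_iff₀ hw]
    linarith [Real.add_one_le_exp (w * y)]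
  calc y ^ κ ≤ (w⁻¹ * Real.exp (w * y)) ^ κ := Real.rpow_le_rpow hy.le h1 hκ
    _ = w⁻¹ ^ κ * Real.exp (w * y * κ) := by
      rw [Real.mul_rpow (by positivity) (by positivity), ← Real.exp_mul]
    _ ≤ _ := by
      refine mul_le_mul_of_nonneg_left (Real.exp_le_exp.2 ?_) (by positivity)
      nlinarith

/-- Sketch: halve `δ`; `y ^ κ exp(-δ y / 2)` is bounded on `y > 0`. -/
theorem Dec.mul_gro (hu : Dec u) (hv : Gro v) (hu0 : ∀ τ, 0 ≤ u τ) (hv0 : ∀ τ, 0 ≤ v τ) {κ : ℝ}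
    (hκ : 0 ≤ κ) : Dec fun τ => u τ * v τ * τ.im ^ κ := by
  obtain ⟨δ, hδ, h⟩ := hu
  obtain ⟨A, hA, hA'⟩ := bdd_pow (half_pos hδ) hκ
  refine ⟨δ / 2, half_pos hδ, fun ε hε => ?_⟩
  obtain ⟨C, hC⟩ := h ε hε
  obtain ⟨C', hC'⟩ := hv ε hε
  refine ⟨C * C' * A, fun τ hτ => ?_⟩
  have h1 := (hu0 τ).trans (hC τ hτ)
  have h2 := (hv0 τ).trans (hC' τ hτ)
  calc u τ * v τ * τ.im ^ κ
      ≤ C * Real.exp (-δ * τ.im) * C' * (A * Real.exp (δ / 2 * τ.im)) :=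
        mul_le_mul (mul_le_mul (hC τ hτ) (hC' τ hτ) (hv0 τ) h1) (hA' _ τ.im_pos)
          (Real.rpow_nonneg τ.im_pos.le _) (mul_nonneg h1 h2)
    _ = C * C' * A * (Real.exp (-δ * τ.im) * Real.exp (δ / 2 * τ.im)) := by ring
    _ = _ := by
      rw [← Real.exp_add]
      congr 2
      ring

theorem Dec.mono (hv : Dec v) (h : ∀ τ, u τ ≤ v τ) : Dec u := by
  obtain ⟨δ, hδ, h1⟩ := hv
  exact ⟨δ, hδ, fun ε hε => (h1 ε hε).imp fun C hC τ hτ => (h τ).trans (hC τ hτ)⟩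

theorem Dec.gro (hu : Dec u) : Gro u := by
  obtain ⟨δ, hδ, h⟩ := hu
  intro ε hε
  obtain ⟨C, hC⟩ := h ε hε
  refine ⟨|C|, fun τ hτ => (hC τ hτ).trans ?_⟩
  have h1 : Real.exp (-δ * τ.im) ≤ 1 := Real.exp_le_one_iff.2 (by nlinarith [τ.im_pos])
  calc C * Real.exp (-δ * τ.im) ≤ |C| * 1 :=
        mul_le_mul (le_abs_self C) h1 (Real.exp_pos _).le (abs_nonneg C)
    _ = _ := mul_one _

/-- Sketch: write `τ = γ • τ₀` with `im τ₀ ≥ 1 / 2` (`ModularGroup.exists_one_half_le_im_smul`) and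
`!![N, 0; 0, 1] * γ = γ' * !![a, b; 0, d]` (`exists_hermite`), `a d = N`. With `σ = af a b d τ₀`
one has `af N 0 1 τ = γ' • σ`, `im σ = a y₀ / d ∈ [y₀ / N, N y₀]`, and by `im_SL`
`‖den γ τ₀‖ ^ 2 im τ = y₀`, `‖den γ' σ‖ ^ 2 N im τ = im σ ≤ N y₀`, so
`‖den γ τ₀‖ ‖den γ' σ‖ im τ ≤ y₀`. -/
theorem exists_red {N : ℕ} (hN : 0 < N) (τ : ℍ) : ∃ (γ γ' : SL(2, ℤ)) (τ₀ σ : ℍ),
    τ = γ • τ₀ ∧ af N 0 1 τ = γ' • σ ∧ 1 / 2 ≤ τ₀.im ∧ τ₀.im / N ≤ σ.im ∧ σ.im ≤ N * τ₀.im ∧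
      ‖den γ τ₀‖ * ‖den γ' σ‖ * τ.im ≤ τ₀.im := by
  obtain ⟨g, hg⟩ := exists_one_half_le_im_smul τ
  have hτ : τ = g⁻¹ • g • τ := (inv_smul_smul g τ).symm
  generalize g • τ = τ₀ at hg hτ
  generalize g⁻¹ = γ at hτ
  have hN' : (0 : ℤ) < N := by exact_mod_cast hN
  have hD := det_af 0 hN' one_pos
  have hdet : ((!![(N : ℤ), 0; 0, 1] : Mat) * γ).det = N := by
    rw [Matrix.det_mul, γ.det_coe, Matrix.det_fin_two_of]
    simp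
  obtain ⟨γ', a, b, d, ha, had, -, e⟩ := exists_hermite ((!![(N : ℤ), 0; 0, 1] : Mat) * γ)
    (by rw [hdet]; exact hN'.ne')
  rw [hdet] at had
  have hd : 0 < d := (mul_pos_iff_of_pos_left ha).1 (had ▸ hN')
  have h1 : af N 0 1 τ = γ' • af a b d τ₀ := by
    rw [hτ, af, af, ← sm_SL, ← sm_SL, ← sm_mul hD.ne' (det_SL_pos γ).ne', e,
      sm_mul (det_SL_pos γ').ne' (det_af b ha hd).ne']
  have h2 := im_af b ha hd τ₀
  have ha1 : (1 : ℝ) ≤ a := by exact_mod_cast ha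
  have hd1 : (1 : ℝ) ≤ d := by exact_mod_cast hd
  have hadR : (a : ℝ) * d = N := by exact_mod_cast had
  have hy := τ₀.im_pos
  have hNR : (0 : ℝ) < N := by exact_mod_cast hN
  have h3 : (af a b d τ₀).im ≤ N * τ₀.im := by
    rw [h2, div_le_iff₀ (by linarith), ← hadR]
    have : (a : ℝ) * τ₀.im * 1 ≤ a * τ₀.im * (d * d) :=
      mul_le_mul_of_nonneg_left (by nlinarith) (by positivity)
    linarith
  refine ⟨γ, γ', τ₀, af a b d τ₀, hτ, h1, hg, ?_, h3, ?_⟩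
  · rw [h2, div_le_div_iff₀ hNR (by linarith), ← hadR]
    have : τ₀.im * d * 1 ≤ τ₀.im * d * (a * a) :=
      mul_le_mul_of_nonneg_left (by nlinarith) (by positivity)
    linarith
  · have h4 := im_SL γ τ₀
    have h5 := im_SL γ' (af a b d τ₀)
    rw [← hτ, eq_div_iff (pow_ne_zero 2 (norm_ne_zero_iff.2 (den_ne _ _)))] at h4
    rw [← h1, im_af 0 hN' one_pos,
      eq_div_iff (pow_ne_zero 2 (norm_ne_zero_iff.2 (den_ne _ _)))] at h5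
    push_cast at h5
    have h6 : τ.im * ‖den γ' (af a b d τ₀)‖ ^ 2 ≤ τ₀.im := by
      refine le_of_mul_le_mul_left ?_ hNR
      linarith
    nlinarith [mul_nonneg τ.im_pos.le (sq_nonneg (‖den γ τ₀‖ - ‖den γ' (af a b d τ₀)‖))]

/-- Sketch: `exists_red`; the product is at most `K ^ 2 u σ v τ₀ y₀ ^ κ`. -/
theorem bdd_left {κ K : ℝ} (hκ : 0 ≤ κ) (hu0 : ∀ τ, 0 ≤ u τ) (hv0 : ∀ τ, 0 ≤ v τ)
    (hu : ∀ (γ : SL(2, ℤ)) (τ : ℍ), u (γ • τ) ≤ K * ‖den γ τ‖ ^ κ * u τ)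
    (hv : ∀ (γ : SL(2, ℤ)) (τ : ℍ), v (γ • τ) ≤ K * ‖den γ τ‖ ^ κ * v τ)
    (hd : Dec u) (hg : Gro v) {N : ℕ} (hN : 0 < N) :
    ∃ C : ℝ, ∀ τ, u (af N 0 1 τ) * v τ * τ.im ^ κ ≤ C := by
  have hNR : (0 : ℝ) < N := by exact_mod_cast hN
  obtain ⟨δ, hδ, h⟩ := hd
  obtain ⟨C, hC⟩ := h (1 / 2 / N) (by positivity)
  obtain ⟨C', hC'⟩ := hg (1 / 2) (by norm_num)
  obtain ⟨A, hA, hA'⟩ := bdd_pow (div_pos hδ hNR) hκ
  refine ⟨K ^ 2 * (C * C' * A), fun τ => ?_⟩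
  obtain ⟨γ, γ', τ₀, σ, h1, h2, h3, h4, -, h6⟩ := exists_red hN τ
  have h7 := hu γ' σ
  have h8 := hv γ τ₀
  rw [← h2] at h7
  rw [← h1] at h8
  have h9 := hC σ ((div_le_div_of_nonneg_right h3 hNR.le).trans h4)
  have h10 := hC' τ₀ h3
  have hC0 : 0 ≤ C := nonneg_of_mul_nonneg_left ((hu0 σ).trans h9) (Real.exp_pos _)
  have hC1 : 0 ≤ C' := (hv0 τ₀).trans h10
  have ht := τ.im_pos
  have h11 : (‖den γ τ₀‖ * ‖den γ' σ‖ * τ.im) ^ κ ≤ A * Real.exp (δ / N * τ₀.im) :=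
    (Real.rpow_le_rpow (by positivity) h6 hκ).trans (hA' _ τ₀.im_pos)
  have h12 : Real.exp (-δ * σ.im) * Real.exp (δ / N * τ₀.im) ≤ 1 := by
    rw [← Real.exp_add, Real.exp_le_one_iff, div_mul_comm]
    nlinarith [mul_le_mul_of_nonneg_right h4 hδ.le]
  calc u (af N 0 1 τ) * v τ * τ.im ^ κ
      ≤ K * ‖den γ' σ‖ ^ κ * u σ * (K * ‖den γ τ₀‖ ^ κ * v τ₀) * τ.im ^ κ :=
        mul_le_mul_of_nonneg_right (mul_le_mul h7 h8 (hv0 _) ((hu0 _).trans h7)) (by positivity)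
    _ = K ^ 2 * (u σ * v τ₀ * (‖den γ τ₀‖ * ‖den γ' σ‖ * τ.im) ^ κ) := by
        rw [Real.mul_rpow (by positivity) ht.le, Real.mul_rpow (by positivity) (by positivity)]
        ring
    _ ≤ K ^ 2 * (C * Real.exp (-δ * σ.im) * C' * (A * Real.exp (δ / N * τ₀.im))) :=
        mul_le_mul_of_nonneg_left (mul_le_mul (mul_le_mul h9 h10 (hv0 _) (by positivity)) h11
          (by positivity) (by positivity)) (sq_nonneg K)
    _ = K ^ 2 * (C * C' * A) * (Real.exp (-δ * σ.im) * Real.exp (δ / N * τ₀.im)) := by ring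
    _ ≤ _ := mul_le_of_le_one_right (by positivity) h12

end Pool.Agent.Lib.MP_bcfefa_nt.B
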