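import Pool.Agent.Lib.MP_bcfefa_nt.B.QSa

/-!
The link between `IsM` and the modular forms of Mathlib.
-/

set_option autoImplicit false

noncomputable section

namespace Pool.Agent.Lib.MP_bcfefa_nt.B

open Finset CongruenceSubgroup UpperHalfPlane Matrix MeasureTheory Complex ModularGroup Filter
open Pool.Agent.Lib.MP_88d29b_nt.G
open scoped MatrixGroups ModularForm Manifold ComplexConjugate Topology

variable {k : ℕ} {f : ℍ → ℂ} {a : ℕ → ℂ}

lemma mfa_slash (f : ℍ → ℂ) (γ : SL(2, ℤ)) :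
    f ∣[(k : ℤ)] γ = f ↔ ∀ τ : ℍ, f (γ • τ) = den γ τ ^ k * f τ := by
  rw [funext_iff]
  refine forall_congr' fun τ => ?_
  rw [ModularForm.SL_slash_apply, ← den_eq_denom, _root_.zpow_neg, zpow_natCast,
    mul_inv_eq_iff_eq_mul₀ (pow_ne_zero _ (den_ne γ τ)), mul_comm]

lemma mfa_gen (hS : ∀ τ : ℍ, f (S • τ) = (τ : ℂ) ^ k * f τ) (hT : ∀ τ : ℍ, f (T • τ) = f τ)
    (γ : SL(2, ℤ)) : f ∣[(k : ℤ)] γ = f :=
  SlashInvariantForm.slash_action_generators_SL2Z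
    ((mfa_slash f S).2 fun τ => by rw [hS, den_S])
    ((mfa_slash f T).2 fun τ => by rw [hT, den_T, one_pow, one_mul]) γ

lemma mfa_bdd (h : QS f a) : IsBoundedAtImInfty f :=
  (qs_tendsto h).isBigO_one ℝ

/-- Sketch: `SlashInvariantForm.slash_action_eqn_SL''` or `slash_action_eqn'`, and
`ModularForm.hasSum_qExpansion` as in the proof of `exists_QS` (file `GQ1`). -/
theorem isM_coe (F : ModularForm 𝒮ℒ (k : ℤ)) :
    IsM k F (fun n => (qExpansion 1 F).coeff n) := by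
  refine ⟨fun γ => (mfa_slash F γ).1 (F.slash_action_eq' _ ⟨γ, rfl⟩), fun z => ?_⟩
  have h2 := ModularForm.hasSum_qExpansion F (h := 1) one_pos one_mem_strictPeriods_SL z
  have e : ∀ m : ℕ, Function.Periodic.qParam 1 (z : ℂ) ^ m =
      Complex.exp (2 * Real.pi * Complex.I * m * z) := by
    intro m
    rw [Function.Periodic.qParam, ← Complex.exp_nat_mul]
    congr 1
    push_cast
    ring
  simp only [e] at h2
  exact h2

theorem isM_coe_cusp (F : CuspForm 𝒮ℒ (k : ℤ)) :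
    IsM k F (fun n => (qExpansion 1 F).coeff n) ∧ (qExpansion 1 F).coeff 0 = 0 := by
  have h := (ModularForm.isCuspForm_iff_coeffZero_eq_zero (CuspForm.toModularFormₗ F)).1
    (ModularForm.CuspForm.isCuspForm_toModularFormₗ F)
  exact ⟨isM_coe (CuspForm.toModularFormₗ F), h⟩

/-- Sketch: invariance under all of `SL(2, ℤ)` by `SL_ind` and `den_mul`; build the modular form
(see `discriminantEquiv` in Mathlib for the condition at the cusps:
`Subgroup.IsArithmetic.isCusp_iff_isCusp_SL2Z`, `OnePoint.isBoundedAt_iff_forall_SL2Z`), then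
`isM_coe`. -/
theorem exists_mf_of_hol (hf : MDifferentiable 𝓘(ℂ) 𝓘(ℂ) f)
    (hS : ∀ τ : ℍ, f (S • τ) = (τ : ℂ) ^ k * f τ) (hT : ∀ τ : ℍ, f (T • τ) = f τ)
    (hb : IsBoundedAtImInfty f) : ∃ F : ModularForm 𝒮ℒ (k : ℤ), ⇑F = f := by
  refine ⟨⟨⟨f, ?_⟩, hf, fun hc => ?_⟩, rfl⟩
  · rintro _ ⟨γ, rfl⟩
    exact mfa_gen hS hT γ
  · rw [Subgroup.IsArithmetic.isCusp_iff_isCusp_SL2Z] at hc
    rw [OnePoint.isBoundedAt_iff_forall_SL2Z hc]
    intro γ _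
    change IsBoundedAtImInfty (f ∣[(k : ℤ)] γ)
    rw [mfa_gen hS hT γ]
    exact hb

theorem isM_of_hol (hf : MDifferentiable 𝓘(ℂ) 𝓘(ℂ) f)
    (hS : ∀ τ : ℍ, f (S • τ) = (τ : ℂ) ^ k * f τ) (hT : ∀ τ : ℍ, f (T • τ) = f τ)
    (hb : IsBoundedAtImInfty f) : ∃ a, IsM k f a := by
  obtain ⟨F, rfl⟩ := exists_mf_of_hol hf hS hT hb
  exact ⟨_, isM_coe F⟩

theorem isM_of_S (h : QS f a) (hS : ∀ τ : ℍ, f (S • τ) = (τ : ℂ) ^ k * f τ) : IsM k f a := by
  exact ⟨fun γ => (mfa_slash f γ).1 (mfa_gen hS (qs_T h) γ), h⟩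

theorem IsM.exists_mf (h : IsM k f a) :
    ∃ F : ModularForm 𝒮ℒ (k : ℤ), ⇑F = f ∧ ∀ n, (qExpansion 1 F).coeff n = a n := by
  obtain ⟨F, rfl⟩ := exists_mf_of_hol (k := k) (qs_mdiff h.qs)
    (fun τ => by rw [h.inv, den_S]) (qs_T h.qs) (mfa_bdd h.qs)
  exact ⟨F, rfl, congrFun ((isM_coe F).qs.unique h.qs)⟩

/-- Sketch: `ModularForm.toCuspForm`. -/
theorem IsM.exists_cf (h : IsM k f a) (h0 : a 0 = 0) :
    ∃ F : CuspForm 𝒮ℒ (k : ℤ), ⇑F = f ∧ ∀ n, (qExpansion 1 F).coeff n = a n := by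
  obtain ⟨F, rfl, hF⟩ := h.exists_mf
  exact ⟨F.toCuspForm ((hF 0).trans h0), rfl, hF⟩

/-- The Hecke bound. Sketch: `CuspFormClass.qExpansion_isBigO` (the strict width at infinity of
`𝒮ℒ` is `1`), `bound_of_isBigO_nat_atTop`. -/
theorem IsM.hecke_bound (h : IsM k f a) (h0 : a 0 = 0) :
    ∃ C : ℝ, ∀ n : ℕ, 0 < n → ‖a n‖ ≤ C * (n : ℝ) ^ ((k : ℝ) / 2) := by
  obtain ⟨F, -, hF⟩ := h.exists_cf h0
  have h1 := CuspFormClass.qExpansion_isBigO F
  rw [Subgroup.strictWidthInfty_SL2Z] at h1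
  obtain ⟨C, -, hC⟩ := Asymptotics.bound_of_isBigO_nat_atTop h1
  refine ⟨C, fun n hn => ?_⟩
  have h2 : (0 : ℝ) < (n : ℝ) ^ (((k : ℤ) : ℝ) / 2) := Real.rpow_pos_of_pos (Nat.cast_pos.2 hn) _
  have h3 := hC h2.ne'
  rwa [hF, Real.norm_of_nonneg h2.le, Int.cast_natCast] at h3

theorem IsM.mul {k' : ℕ} {g : ℍ → ℂ} {b : ℕ → ℂ} (h : IsM k f a) (h' : IsM k' g b) :
    IsM (k + k') (f * g) (cv a b) := by
  refine ⟨fun γ τ => ?_, qs_mul h.qs h'.qs⟩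
  rw [Pi.mul_apply, Pi.mul_apply, h.inv, h'.inv, pow_add]
  ring

/-- Sketch: `EisensteinSeries.E_qExpansion_coeff`. -/
theorem isM_E (hk : 3 ≤ k) (he : Even k) : IsM k (ModularForm.E hk) (es k) := by
  have h := isM_coe (ModularForm.E hk)
  rwa [funext (EisensteinSeries.E_qExpansion_coeff hk he)] at h

/-- Sketch: if `bet k = 0` then `E = 1` contradicts invariance under `S` at `τ = 2 i`; or use
`riemannZeta_two_mul_nat` and `riemannZeta_ne_zero_of_one_lt_re`. -/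
theorem bet_ne_zero (hk : 3 ≤ k) (he : Even k) : bet k ≠ 0 := by
  obtain ⟨m, rfl⟩ := he.two_dvd
  have hm : m ≠ 0 := by omega
  have h1 : riemannZeta (2 * m) ≠ 0 := by
    refine riemannZeta_ne_zero_of_one_lt_re ?_
    have h2 : (1 : ℝ) < ((2 * m : ℕ) : ℝ) := by exact_mod_cast (by omega : 1 < 2 * m)
    simpa using h2
  have h2 : ((bernoulli (2 * m) : ℚ) : ℂ) ≠ 0 := fun h => h1 (by
    rw [riemannZeta_two_mul_nat hm, h, mul_zero, zero_div])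
  exact neg_ne_zero.2 (div_ne_zero (mul_ne_zero two_ne_zero (Nat.cast_ne_zero.2 (by omega))) h2)

end Pool.Agent.Lib.MP_bcfefa_nt.B
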