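import Pool.Agent.Lib.MP_bcfefa_nt.B.HkA
import Pool.Agent.Lib.MP_bcfefa_nt.B.MFa

/-!
The Hecke operators preserve `MS k`.
-/

set_option autoImplicit false

noncomputable section

namespace Pool.Agent.Lib.MP_bcfefa_nt.B

open Finset CongruenceSubgroup UpperHalfPlane Matrix MeasureTheory Complex ModularGroup Filter
open Pool.Agent.Lib.MP_88d29b_nt.G
open scoped MatrixGroups ModularForm Manifold ComplexConjugate Topology

/-- Sketch: `heckeFun_eq`, `cov_tRep` with `N = 1` (`Gamma0 1` contains everything), `step_spec`,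
`sum_step` (compare the proof of `IsCF.dc` in `GSl`), `inv_iff`; coefficients by `QS.hecke` and
`hh_prime`. -/
theorem IsM.hecke {k : ℕ} (hk : 0 < k) {f : ℍ → ℂ} {a : ℕ → ℂ} (h : IsM k f a) {p : ℕ}
    (hp : p.Prime) : IsM k (heckeFun p k f) (hh k a p) := by
  have h1 : Inv (Gamma0 1) k f := inv_iff.2 fun γ _ τ => h.inv γ τ
  have hc := cov_tRep hp (Nat.coprime_one_right p)
  have h2 : Inv (Gamma0 1) k (heckeFun p k f) := fun γ hγ => by
    rw [heckeFun_eq hp.pos, sl_sum, ← sum_step hc hγ (fun i => sl k f (tRep p i))]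
    refine Finset.sum_congr rfl fun i _ => ?_
    rw [← sl_mul k f (hc.det_ne i) (inside_Snz ⊤ γ trivial), step_spec hc hγ i,
      sl_mul k f (inside_Snz ⊤ _ trivial) (hc.det_ne _), h1 _ (step (Gamma0 1) (tRep p) γ i).2.2]
  refine ⟨fun γ τ => inv_iff.1 h2 γ (Gamma0_mem.2 (Subsingleton.elim _ _)) τ, ?_⟩
  have h3 := h.qs.hecke hp.pos k
  have e : (p : ℂ) ^ ((k : ℤ) - 1) = (p : ℂ) ^ (k - 1) := by
    rw [← zpow_natCast, Nat.cast_sub hk, Nat.cast_one]
  rw [e] at h3
  rwa [funext (hh_prime k a hp)]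

/-- Sketch: strong induction on `m` with `hh_rec`. -/
theorem hh_mem {k : ℕ} (hk : 0 < k) {a : ℕ → ℂ} (ha : a ∈ MS k) {m : ℕ} (hm : 0 < m) :
    hh k a m ∈ MS k := by
  induction m using Nat.strong_induction_on with
  | _ m ih =>
    by_cases h1 : m = 1
    · rwa [h1, hh_one]
    obtain ⟨p, hp, n, rfl⟩ := Nat.exists_prime_and_dvd h1
    have hn : 0 < n := Nat.pos_of_mul_pos_left hm
    have hlt : n < p * n := lt_mul_left hn hp.one_lt
    obtain ⟨g, hg⟩ := ih n hlt hn
    have h2 := (hg.hecke hk hp).mem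
    rw [hh_rec k a hp hn] at h2
    refine ((MS k).add_mem_iff_left ?_).1 h2
    split_ifs with hd
    · exact (MS k).smul_mem _ (ih _ ((Nat.div_le_self n p).trans_lt hlt)
        (Nat.div_pos (Nat.le_of_dvd hn hd) hp.pos))
    · exact (MS k).zero_mem

end Pool.Agent.Lib.MP_bcfefa_nt.B
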