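import Pool.Agent.Lib.MP_bcfefa_nt.B.Avg
import Pool.Agent.Lib.MP_bcfefa_nt.B.Bdd
import Pool.Agent.Lib.MP_bcfefa_nt.B.Tn

/-!
The operator `T_p` is self-adjoint.
-/

set_option autoImplicit false

noncomputable section

namespace Pool.Agent.Lib.MP_bcfefa_nt.B

open Finset CongruenceSubgroup UpperHalfPlane Matrix MeasureTheory Complex ModularGroup Filter
open Pool.Agent.Lib.MP_88d29b_nt.G
open scoped MatrixGroups ModularForm Manifold ComplexConjugate Topology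

variable {k : ℕ} {f h h' : ℍ → ℂ} {a b b' : ℕ → ℂ}

theorem continuous_pm (k : ℕ) {u v : ℍ → ℂ} (hu : Continuous u) (hv : Continuous v) :
    Continuous (pm k u v) := by
  unfold pm
  exact ((Complex.continuous_conj.comp hu).mul hv).mul
    ((Complex.continuous_ofReal.comp UpperHalfPlane.continuous_im).pow k)

/-- Sketch: `im_SL`. -/
theorem pm_smul (k : ℕ) {u v u' v' : ℍ → ℂ} {γ : SL(2, ℤ)} {τ : ℍ}
    (hu : u (γ • τ) = den γ τ ^ k * u' τ) (hv : v (γ • τ) = den γ τ ^ k * v' τ) :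
    pm k u v (γ • τ) = pm k u' v' τ := by
  have h1 : conj (den γ τ) * den γ τ = ((‖den γ τ‖ : ℝ) : ℂ) ^ 2 := Complex.conj_mul' _
  have h2 : ((‖den γ τ‖ : ℝ) : ℂ) ≠ 0 := by
    exact_mod_cast (norm_ne_zero_iff.mpr (den_ne γ τ))
  have h3 : conj (den γ τ) ^ k * den γ τ ^ k * ((τ.im : ℂ) / ((‖den γ τ‖ : ℝ) : ℂ) ^ 2) ^ k =
      (τ.im : ℂ) ^ k := by
    rw [← mul_pow, ← mul_pow, h1, mul_div_cancel₀ _ (pow_ne_zero 2 h2)]
  rw [pm, pm, hu, hv, im_SL, map_mul, map_pow, ← h3]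
  push_cast
  ring

/-- Sketch: `bdd_left` with `κ = k`, `K = 1`, `qs_dec`, `qs_gro`. -/
theorem bd_pm_dil (hf : IsM k f a) (h0 : a 0 = 0) (hh : IsM k h b) {N : ℕ} (hN : 0 < N) :
    Bd (pm k (dil N f) h) := by
  have key : ∀ {g : ℍ → ℂ} {c : ℕ → ℂ}, IsM k g c → ∀ (γ : SL(2, ℤ)) (τ : ℍ),
      ‖g (γ • τ)‖ ≤ 1 * ‖den γ τ‖ ^ (k : ℝ) * ‖g τ‖ := fun hg γ τ => by
    rw [hg.inv, norm_mul, norm_pow, one_mul, Real.rpow_natCast]
  obtain ⟨C, hC⟩ := bdd_left (u := fun τ => ‖f τ‖) (v := fun τ => ‖h τ‖) (κ := (k : ℝ)) (K := 1)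
    (Nat.cast_nonneg k) (fun _ => norm_nonneg _) (fun _ => norm_nonneg _) (key hf) (key hh)
    (qs_dec hf.qs h0) (qs_gro hh.qs) hN
  refine ⟨C, fun τ => ?_⟩
  have := hC τ
  rw [Real.rpow_natCast] at this
  rw [pm, norm_mul, norm_mul, norm_pow, Complex.norm_conj, Complex.norm_real,
    Real.norm_of_nonneg τ.im_pos.le]
  exact this

theorem bd_pm (hf : IsM k f a) (h0 : a 0 = 0) (hh : IsM k h b) : Bd (pm k f h) := by
  have e : dil 1 f = f := by
    funext τ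
    rw [dil, Nat.cast_one, af_one]
  have := bd_pm_dil hf h0 hh one_pos
  rwa [e] at this

theorem Pet_add (hf : IsM k f a) (h0 : a 0 = 0) (hh : IsM k h b) (hh' : IsM k h' b') :
    Pet k f (h + h') = Pet k f h + Pet k f h' := by
  rw [Pet, Pet, Pet, ← avg_add ⊤ (bd_pm hf h0 hh)
    (continuous_pm k (qs_continuous hf.qs) (qs_continuous hh.qs)) (bd_pm hf h0 hh')
    (continuous_pm k (qs_continuous hf.qs) (qs_continuous hh'.qs))]
  congr 1
  funext τ
  simp only [pm, Pi.add_apply]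
  ring

theorem Pet_smul_right (k : ℕ) (x : ℂ) (u v : ℍ → ℂ) : Pet k u (x • v) = x * Pet k u v := by
  rw [Pet, Pet, ← avg_mul]
  congr 1
  funext τ
  simp only [pm, Pi.smul_apply, smul_eq_mul]
  ring

theorem Pet_smul_left (k : ℕ) (x : ℂ) (u v : ℍ → ℂ) : Pet k (x • u) v = conj x * Pet k u v := by
  rw [Pet, Pet, ← avg_mul]
  congr 1
  funext τ
  simp only [pm, Pi.smul_apply, smul_eq_mul, map_mul]
  ring

/-- Sketch: `eq_zero_of_avg`, as in `pet_definite`. -/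
theorem Pet_self_ne_zero (hf : IsM k f a) (h0 : a 0 = 0) (hne : f ≠ 0) : Pet k f f ≠ 0 := by
  intro hz
  have e : ∀ z : ℍ, pm k f f z = ((‖f z‖ ^ 2 * z.im ^ k : ℝ) : ℂ) := fun z => by
    rw [pm, Complex.conj_mul']
    push_cast
    rfl
  obtain ⟨C, hC⟩ := bd_pm hf h0 hf
  have hc := qs_continuous hf.qs
  have h1 := eq_zero_of_avg (A := ⊤) (G := fun z : ℍ => ‖f z‖ ^ 2 * z.im ^ k) (C := C)
    ((hc.norm.pow 2).mul (UpperHalfPlane.continuous_im.pow k))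
    (fun z => mul_nonneg (sq_nonneg _) (pow_nonneg z.im_pos.le k)) (fun z => ?_)
    (fun γ _ z => ?_) ?_
  · apply hne
    funext z
    have h2 := congrFun h1 z
    have h3 : z.im ^ k ≠ 0 := pow_ne_zero _ z.im_pos.ne'
    simpa [h3] using h2
  · have := hC z
    rw [e, Complex.norm_real] at this
    exact (le_abs_self _).trans this
  · have := pm_smul k (hf.inv γ z) (hf.inv γ z)
    rw [e, e] at this
    exact_mod_cast this
  · rw [← hz, Pet]
    congr 1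
    funext z
    rw [e]

/-- The coset representatives for `T_p`. -/
def adjsRho (p : ℕ) : Option (Fin p) → SL(2, ℤ)
  | none => 1
  | some j => Sd (j : ℕ)

/-- The terms of `T_p f`. -/
def adjsU (p k : ℕ) (f : ℍ → ℂ) : Option (Fin p) → ℍ → ℂ
  | none => dil p f
  | some j => fun τ => ((p : ℂ) ^ k)⁻¹ * f (af 1 (j : ℕ) p τ)

lemma adjs_rho (hf : IsM k f a) {p : ℕ} (hp : 0 < p) (i : Option (Fin p)) (τ : ℍ) :
    dil p f (adjsRho p i • τ) = den (adjsRho p i) τ ^ k * adjsU p k f i τ := by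
  have hp' : (0 : ℤ) < p := by exact_mod_cast hp
  have hp0 : (p : ℂ) ≠ 0 := by exact_mod_cast hp.ne'
  rcases i with _ | j
  · simp [adjsRho, adjsU]
  · have hd := den_ne (Sd (j : ℕ)) τ
    rw [den_Sd] at hd
    have e : af p 0 1 (Sd (j : ℕ) • τ) = S • af 1 (j : ℕ) p τ := by
      apply UpperHalfPlane.ext
      rw [coe_af 0 hp' one_pos, coe_S_smul, coe_af _ one_pos hp', coe_SL, den_Sd]
      simp only [Sd, Matrix.SpecialLinearGroup.coe_mk, Matrix.of_apply, Matrix.cons_val',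
        Matrix.cons_val_zero, Matrix.cons_val_one, Matrix.cons_val_fin_one] at hd ⊢
      push_cast at hd ⊢
      field_simp
      ring
    rw [adjsRho, adjsU, dil, e, hf.inv, den_S, coe_af _ one_pos hp', den_Sd]
    push_cast
    rw [one_mul, div_pow]
    field_simp

lemma adjs_hecke (hk : 0 < k) (f : ℍ → ℂ) {p : ℕ} (hp : 0 < p) (τ : ℍ) :
    heckeFun p k f τ = (p : ℂ) ^ (k - 1) * ∑ i, adjsU p k f i τ := by
  have hp' : (0 : ℤ) < p := by exact_mod_cast hp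
  have hp0 : (p : ℂ) ≠ 0 := by exact_mod_cast hp.ne'
  obtain ⟨m, rfl⟩ : ∃ m, k = m + 1 := ⟨k - 1, by omega⟩
  rw [heckeFun, Fintype.sum_option, mul_add, Finset.sum_range, Finset.sum_div, Finset.mul_sum]
  congr 1
  · rw [adjsU, dil, af_eq_ofComplex 0 hp' one_pos]
    simp
  · refine Finset.sum_congr rfl fun j _ => ?_
    simp only [adjsU]
    rw [af_eq_ofComplex _ one_pos hp']
    push_cast
    rw [one_mul, pow_succ]
    field_simp

lemma adjs_gamma (hf : IsM k f a) {p : ℕ} (hp : 0 < p) {γ : SL(2, ℤ)} (hγ : γ ∈ Gamma0 p)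
    (τ : ℍ) : dil p f (γ • τ) = den γ τ ^ k * dil p f τ := by
  have hp' : (0 : ℤ) < p := by exact_mod_cast hp
  have : NeZero p := ⟨hp.ne'⟩
  obtain ⟨z, hz⟩ := mem_Gamma0_iff.mp hγ
  have hdet := γ.det_coe
  rw [Matrix.det_fin_two] at hdet
  have hd : (!![γ 0 0, p * γ 0 1; z, γ 1 1] : Matrix (Fin 2) (Fin 2) ℤ).det = 1 := by
    rw [Matrix.det_fin_two_of]
    rw [hz] at hdet
    linear_combination hdet
  obtain ⟨g, g00, g01, g10, g11⟩ : ∃ g : SL(2, ℤ), g 0 0 = γ 0 0 ∧ g 0 1 = p * γ 0 1 ∧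
      g 1 0 = z ∧ g 1 1 = γ 1 1 := ⟨⟨_, hd⟩, rfl, rfl, rfl, rfl⟩
  have e1 : den g (af p 0 1 τ) = den γ τ := by
    unfold den
    rw [coe_af 0 hp' one_pos, hz, g10, g11]
    push_cast
    ring
  have e2 : af p 0 1 (γ • τ) = g • af p 0 1 τ := by
    apply UpperHalfPlane.ext
    rw [coe_af 0 hp' one_pos, coe_SL, coe_SL, e1, coe_af 0 hp' one_pos, g00, g01]
    push_cast
    ring
  rw [dil, dil, e2, hf.inv, e1]

lemma adjs_fricke (hf : IsM k f a) (hh : IsM k h b) {p : ℕ} (hp : 0 < p) (τ : ℍ) :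
    pm k f (dil p h) τ = pm k (dil p f) h (S • af p 0 1 τ) := by
  have hp' : (0 : ℤ) < p := by exact_mod_cast hp
  have hp0 : (p : ℂ) ≠ 0 := by exact_mod_cast hp.ne'
  have hτ : (τ : ℂ) ≠ 0 := τ.ne_zero
  have e : af p 0 1 (S • af p 0 1 τ) = S • τ := by
    apply UpperHalfPlane.ext
    rw [coe_af 0 hp' one_pos, coe_S_smul, coe_S_smul, coe_af 0 hp' one_pos]
    push_cast
    field_simp
    ring
  have e1 : dil p f (S • af p 0 1 τ) =
      den S (af p 0 1 τ) ^ k * (fun _ : ℍ => ((p : ℂ) ^ k)⁻¹ * f τ) (af p 0 1 τ) := by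
    rw [dil, e, hf.inv, den_S, den_S, coe_af 0 hp' one_pos]
    push_cast
    rw [add_zero, div_one, mul_pow]
    field_simp
  rw [pm_smul k (u' := fun _ : ℍ => ((p : ℂ) ^ k)⁻¹ * f τ) e1 (hh.inv S _), pm, pm,
    im_af 0 hp' one_pos, dil, map_mul, map_inv₀, map_pow,
    map_natCast]
  push_cast
  rw [div_one, mul_pow]
  field_simp

/-- Sketch: `avg_adj` with `F = pm k (dil p f) h`, `F' = pm k f (dil p h)`, `ι = Option (Fin p)`,
`ρ none = 1`, `ρ (some j) = Sd j`. With `σ = af 1 j p τ` one has `af p 0 1 (Sd j • τ) = S • σ`, so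
`dil p f (Sd j • τ) = den (Sd j) τ ^ k * (p ^ k)⁻¹ f σ`, and
`pm k (heckeFun p k f) h τ = p ^ (k - 1) ∑ F (ρ i • τ)` by `pm_smul`, `af_eq_ofComplex`; this is
invariant by `IsM.hecke`. For `γ = (x, y; p z, w)`, `af p 0 1 (γ • τ) = (x, p y; z, w) • af p 0 1 τ`. -/
theorem Pet_adj (hk : 0 < k) (hf : IsM k f a) (h0 : a 0 = 0) (hh : IsM k h b) {p : ℕ}
    (hp : p.Prime) : Pet k (heckeFun p k f) h = Pet k f (heckeFun p k h) := by
  have : NeZero p := ⟨hp.ne_zero⟩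
  have hp0 : (p : ℂ) ^ (k - 1) ≠ 0 := pow_ne_zero _ (by exact_mod_cast hp.ne_zero)
  have e1 : ∀ τ, pm k (heckeFun p k f) h τ =
      (p : ℂ) ^ (k - 1) * ∑ i, pm k (dil p f) h (adjsRho p i • τ) := fun τ => by
    simp only [pm_smul k (adjs_rho hf hp.pos _ τ) (hh.inv _ τ)]
    simp only [pm, adjs_hecke hk f hp.pos, map_mul, map_pow, map_natCast, map_sum,
      Finset.mul_sum, Finset.sum_mul, mul_assoc]
  have e2 : ∀ τ, pm k f (heckeFun p k h) τ =
      (p : ℂ) ^ (k - 1) * ∑ i, pm k f (dil p h) (adjsRho p i • τ) := fun τ => by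
    simp only [pm_smul k (hf.inv _ τ) (adjs_rho hh hp.pos _ τ)]
    simp only [pm, adjs_hecke hk h hp.pos, Finset.mul_sum, Finset.sum_mul]
    exact Finset.sum_congr rfl fun i _ => by ring
  have key := avg_adj (N := p) (adjsRho p) (F := pm k (dil p f) h) (F' := pm k f (dil p h))
    (bd_pm_dil hf h0 hh hp.pos)
    (continuous_pm k ((qs_continuous hf.qs).comp (continuous_af _ _ _)) (qs_continuous hh.qs))
    (fun γ hγ τ => pm_smul k (adjs_gamma hf hp.pos hγ τ) (hh.inv γ τ))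
    (adjs_fricke hf hh hp.pos)
    (fun γ τ => mul_left_cancel₀ hp0 (by
      rw [← e1, ← e1]
      exact pm_smul k ((hf.hecke hk hp).inv γ τ) (hh.inv γ τ)))
    (fun γ τ => mul_left_cancel₀ hp0 (by
      rw [← e2, ← e2]
      exact pm_smul k (hf.inv γ τ) ((hh.hecke hk hp).inv γ τ)))
  rw [Pet, Pet, funext e1, funext e2, avg_mul, avg_mul, key]

end Pool.Agent.Lib.MP_bcfefa_nt.B
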