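import Pool.Agent.Lib.MP_bcfefa_nt.B.QSa

/-!
Vector valued series: reduction to `q`-series.
-/

set_option autoImplicit false

noncomputable section

namespace Pool.Agent.Lib.MP_bcfefa_nt.B

open Finset CongruenceSubgroup UpperHalfPlane Matrix MeasureTheory Complex ModularGroup Filter
open Pool.Agent.Lib.MP_88d29b_nt.G
open scoped MatrixGroups ModularForm Manifold ComplexConjugate Topology

variable {g w : ℍ → Fin 2 → ℂ} {c c' : ℕ → ℂ}

lemma qva_cancel (t x : ℂ) : ee t * (ee (-t) * x) = x := by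
  rw [← mul_assoc, ← ee_add, add_neg_cancel, ee_zero, one_mul]

lemma qva_iff (c : ℕ → ℂ) (j : Fin 2) (τ x : ℂ) :
    HasSum (fun n : ℕ => (if n % 4 = (j : ℕ) then c n else 0) * ee (n * τ / 4)) x ↔
      HasSum (fun n : ℕ => c (4 * n + j) * ee (n * τ)) (ee (-((j : ℕ) * τ / 4)) * x) := by
  have hj := j.2
  have hi : Function.Injective fun n : ℕ => 4 * n + (j : ℕ) := fun a b hab => by
    simp only at hab
    omega
  rw [← hi.hasSum_iff, ← hasSum_mul_left_iff (ee_ne_zero (-((j : ℕ) * τ / 4)))]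
  · refine iff_of_eq (congrArg (fun F => HasSum F _) (funext fun n => ?_))
    have e : (4 * n + (j : ℕ)) % 4 = j := by omega
    simp only [Function.comp_apply, e, if_true]
    rw [mul_left_comm, ← ee_add]
    congr 2
    push_cast
    ring
  · intro n hn
    rw [if_neg, zero_mul]
    intro h
    exact hn ⟨n / 4, by simp only; omega⟩

lemma qva_deriv (x z : ℂ) :
    HasDerivAt (fun z : ℂ => ee (x * z / 4))
      (2 * Real.pi * Complex.I * (x / 4 * ee (x * z / 4))) z := by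
  have h := ((((hasDerivAt_id z).const_mul x).div_const 4).const_mul
    (2 * Real.pi * Complex.I)).cexp
  refine h.congr_deriv ?_
  simp only [ee, id]
  ring

lemma qva_mdiff (x : ℂ) : MDifferentiable 𝓘(ℂ) 𝓘(ℂ) fun τ : ℍ => ee (x * τ / 4) :=
  (Differentiable.mdifferentiable fun z => (qva_deriv x z).differentiableAt).comp
    UpperHalfPlane.mdifferentiable_coe

lemma qva_D (x : ℂ) (τ : ℍ) : DD (fun τ : ℍ => ee (x * τ / 4)) τ = x / 4 * ee (x * τ / 4) := by
  have e : ((fun τ : ℍ => ee (x * τ / 4)) ∘ ofComplex) =ᶠ[𝓝 (τ : ℂ)] fun z => ee (x * z / 4) := by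
    filter_upwards [isOpen_upperHalfPlaneSet.mem_nhds τ.im_pos] with z hz
    simp only [Function.comp_apply, ofComplex_apply_of_im_pos hz]
  rw [DD, Derivative.normalizedDerivOfComplex, e.deriv_eq, (qva_deriv x τ).deriv,
    inv_mul_cancel_left₀ Complex.two_pi_I_ne_zero]

lemma qva_norm (j : ℕ) (τ : ℍ) :
    ‖ee (j * (τ : ℂ) / 4)‖ = Real.exp (-(j * (Real.pi / 2)) * τ.im) := by
  rw [norm_ee]
  congr 1
  simp
  ring

lemma qva_norm_le (j : ℕ) (τ : ℍ) (x : ℂ) : ‖x‖ =
    Real.exp (-(j * (Real.pi / 2)) * τ.im) * ‖ee (-(j * (τ : ℂ) / 4)) * x‖ := by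
  rw [← qva_norm, ← norm_mul, qva_cancel]

/-- Sketch: `Function.Injective.hasSum_iff` for `n ↦ 4 n + j`, then `HasSum.mul_left`. -/
theorem QV.qs (h : QV g c) (j : Fin 2) :
    QS (fun τ => ee (-((j : ℕ) * (τ : ℂ) / 4)) * g τ j) (fun n => c (4 * n + j)) :=
  qs_iff.2 fun τ => (qva_iff c j τ _).1 (h τ j)

theorem QV.of_qs
    (h : ∀ j : Fin 2,
      QS (fun τ => ee (-((j : ℕ) * (τ : ℂ) / 4)) * g τ j) (fun n => c (4 * n + j))) : QV g c :=
  fun τ j => (qva_iff c j τ _).2 (qs_iff.1 (h j) τ)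

theorem QV.mdiff (h : QV g c) (j : Fin 2) : MDifferentiable 𝓘(ℂ) 𝓘(ℂ) fun τ => g τ j := by
  have e : (fun τ => g τ j) = (fun τ : ℍ => ee ((j : ℕ) * (τ : ℂ) / 4)) *
      fun τ : ℍ => ee (-((j : ℕ) * (τ : ℂ) / 4)) * g τ j :=
    funext fun τ => (qva_cancel _ _).symm
  rw [e]
  exact (qva_mdiff _).mul (qs_mdiff (h.qs j))

theorem QV.continuous (h : QV g c) : Continuous g :=
  continuous_pi fun j => (h.mdiff j).continuous

theorem QV.gro (h : QV g c) : Gro fun τ => ‖g τ‖ := by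
  intro ε hε
  choose C hC using fun j => qs_gro (h.qs j) ε hε
  refine ⟨|C 0| + |C 1|, fun τ hτ => ?_⟩
  refine (pi_norm_le_iff_of_nonneg (by positivity)).2 fun j => ?_
  have h1 : Real.exp (-((j : ℕ) * (Real.pi / 2)) * τ.im) ≤ 1 := by
    rw [Real.exp_le_one_iff, neg_mul, neg_nonpos]
    have := τ.im_pos
    positivity
  have h2 : C j ≤ |C 0| + |C 1| := by
    have h0 := le_abs_self (C j)
    have h3 := abs_nonneg (C 0)
    have h4 := abs_nonneg (C 1)
    fin_cases j <;> simp only [Fin.zero_eta, Fin.mk_one] at h0 ⊢ <;> linarith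
  rw [qva_norm_le j τ (g τ j)]
  exact (mul_le_of_le_one_left (norm_nonneg _) h1).trans ((hC j τ hτ).trans h2)

/-- Sketch: component `0` by `qs_dec` (or directly), component `1` has the factor `e(τ / 4)`;
`δ = π / 2` works. -/
theorem QV.dec (h : QV g c) (h0 : c 0 = 0) : Dec fun τ => ‖g τ‖ := by
  obtain ⟨δ, hδ, hd⟩ := qs_dec (h.qs 0) (by simpa using h0)
  refine ⟨min δ (Real.pi / 2), lt_min hδ (by positivity), fun ε hε => ?_⟩
  obtain ⟨C, hC⟩ := hd ε hε
  obtain ⟨C', hC'⟩ := qs_gro (h.qs 1) ε hε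
  refine ⟨|C| + |C'|, fun τ hτ => ?_⟩
  have hy := τ.im_pos
  have e1 : Real.exp (-δ * τ.im) ≤ Real.exp (-min δ (Real.pi / 2) * τ.im) :=
    Real.exp_le_exp.2 (mul_le_mul_of_nonneg_right (neg_le_neg (min_le_left _ _)) hy.le)
  have e2 : Real.exp (-(Real.pi / 2) * τ.im) ≤ Real.exp (-min δ (Real.pi / 2) * τ.im) :=
    Real.exp_le_exp.2 (mul_le_mul_of_nonneg_right (neg_le_neg (min_le_right _ _)) hy.le)
  have a0 : ‖g τ 0‖ ≤ (|C| + |C'|) * Real.exp (-min δ (Real.pi / 2) * τ.im) := by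
    have h1 := hC τ hτ
    simp only [Fin.val_zero, Nat.cast_zero, zero_mul, zero_div, neg_zero, ee_zero, one_mul] at h1
    refine h1.trans ((mul_le_mul_of_nonneg_right (le_abs_self C) (Real.exp_pos _).le).trans ?_)
    exact mul_le_mul (le_add_of_nonneg_right (abs_nonneg _)) e1 (Real.exp_pos _).le
      (by positivity)
  have a1 : ‖g τ 1‖ ≤ (|C| + |C'|) * Real.exp (-min δ (Real.pi / 2) * τ.im) := by
    rw [qva_norm_le (1 : Fin 2) τ (g τ 1), mul_comm]
    refine mul_le_mul ((hC' τ hτ).trans ((le_abs_self C').trans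
      (le_add_of_nonneg_left (abs_nonneg _)))) ?_ (Real.exp_pos _).le (by positivity)
    simpa using e2
  refine (pi_norm_le_iff_of_nonneg (by positivity)).2 fun j => ?_
  fin_cases j
  exacts [a0, a1]

theorem QV.unique (h : QV g c) (h' : QV g c') {n : ℕ} (hn : n % 4 < 2) : c n = c' n := by
  have e := congrFun ((h.qs ⟨n % 4, hn⟩).unique (h'.qs ⟨n % 4, hn⟩)) (n / 4)
  simpa only [Nat.div_add_mod] using e

theorem IsV.unique {lam lam' : ℕ} (h : IsV lam g c) (h' : IsV lam' g c') : c = c' := by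
  funext n
  rcases lt_or_ge (n % 4) 2 with hn | hn
  · exact h.qv.unique h'.qv hn
  · rw [h.sup n hn, h'.sup n hn]

theorem QV.T (h : QV g c) (τ : ℍ) : g (T • τ) = JT *ᵥ g τ := by
  have key : ∀ j : Fin 2, g (ModularGroup.T • τ) j = ee ((j : ℕ) / 4) * g τ j := fun j => by
    have e := qs_T (h.qs j) τ
    simp only [coe_T_smul] at e
    rw [← qva_cancel ((j : ℕ) * ((τ : ℂ) + 1) / 4) (g (ModularGroup.T • τ) j), e, ← mul_assoc,
      ← ee_add]
    congr 2
    ring
  funext j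
  rw [key]
  fin_cases j
  · simp [JT, Matrix.mulVec, dotProduct, Fin.sum_univ_two]
  · have := ee_quarter
    simp only [one_div] at this
    simp [JT, Matrix.mulVec, dotProduct, Fin.sum_univ_two, this]

/-- Sketch: as `qs_D`, or from `QV.qs`, `qs_D` and the product rule. -/
theorem QV.D (h : QV g c) : QV (Dv g) (fun n => (n : ℂ) / 4 * c n) := by
  refine QV.of_qs fun j => ?_
  have h1 := (qs_D (h.qs j)).add ((h.qs j).smul (((j : ℕ) : ℂ) / 4))
  have e : (fun τ : ℍ => ee (-((j : ℕ) * (τ : ℂ) / 4)) * g τ j) =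
      (fun τ : ℍ => ee (-((j : ℕ) : ℂ) * (τ : ℂ) / 4)) * fun τ => g τ j := by
    funext τ
    simp only [Pi.mul_apply, neg_mul, neg_div]
  convert h1 using 1
  · funext τ
    rw [Pi.add_apply, Pi.smul_apply, e, DD,
      Derivative.normalizedDerivOfComplex_mul _ _ (qva_mdiff _) (h.mdiff j)]
    have e2 := qva_D (-((j : ℕ) : ℂ)) τ
    rw [DD] at e2
    rw [Pi.add_apply, Pi.mul_apply, e2]
    simp only [Pi.mul_apply, smul_eq_mul, Dv, neg_mul, neg_div]
    ring
  · funext n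
    simp only [Pi.add_apply, Pi.smul_apply, smul_eq_mul]
    push_cast
    ring

theorem QV.sum {ι : Type} {s : Finset ι} {G : ι → ℍ → Fin 2 → ℂ} {C : ι → ℕ → ℂ}
    (h : ∀ i ∈ s, QV (G i) (C i)) : QV (∑ i ∈ s, G i) (∑ i ∈ s, C i) := by
  classical
  induction s using Finset.induction_on with
  | empty => simpa using qv_zero
  | insert a s ha ih =>
    rw [Finset.sum_insert ha, Finset.sum_insert ha]
    exact (h a (Finset.mem_insert_self _ _)).add
      (ih fun i hi => h i (Finset.mem_insert_of_mem hi))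

end Pool.Agent.Lib.MP_bcfefa_nt.B
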