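import Pool.Agent.Lib.MP_bcfefa_nt.B.TsqF
import Pool.Agent.Lib.MP_bcfefa_nt.B.QVa

/-!
The operator `T(l ^ 2)` on coefficients.
-/

set_option autoImplicit false

noncomputable section

namespace Pool.Agent.Lib.MP_bcfefa_nt.B

open Finset CongruenceSubgroup UpperHalfPlane Matrix MeasureTheory Complex ModularGroup Filter
open Pool.Agent.Lib.MP_88d29b_nt.G
open scoped MatrixGroups ModularForm Manifold ComplexConjugate Topology

variable {lam : ℕ} {g : ℍ → Fin 2 → ℂ} {c : ℕ → ℂ}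

lemma tsqq_mod {N : ℕ} (hN : N % 4 = 1) (n : ℕ) : N * n % 4 = n % 4 := by
  rw [Nat.mul_mod, hN, one_mul, Nat.mod_mod]

/-- Sketch: `N n ≡ n mod 4`; `Function.Injective.hasSum_iff` for `n ↦ N n`, `coe_af`. -/
theorem QV.dil (h : QV g c) {N : ℕ} (hN : N % 4 = 1) :
    QV (dil N g) (fun n => if N ∣ n then c (n / N) else 0) := by
  intro τ j
  have hN0 : 0 < N := by omega
  have hinj : Function.Injective fun n : ℕ => N * n :=
    fun x y e => Nat.eq_of_mul_eq_mul_left hN0 e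
  rw [← hinj.hasSum_iff]
  · refine (h (af N 0 1 τ) j).congr fun s => Finset.sum_congr rfl fun n _ => ?_
    simp only [Function.comp, dvd_mul_right, if_true, Nat.mul_div_cancel_left n hN0,
      tsqq_mod hN]
    rw [coe_af 0 (by exact_mod_cast hN0) one_pos]
    push_cast
    congr 2
    ring
  · intro n hn
    have : ¬ N ∣ n := by
      rintro ⟨k, rfl⟩
      exact hn ⟨k, rfl⟩
    simp [this]

theorem QV.shift (h : QV g c) {l : ℕ} (hl : 0 < l) (x : ℤ) :
    QV (fun τ => g (af l (4 * x) l τ)) (fun n => ee (n * x / l) * c n) := by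
  intro τ j
  have hl' : (0 : ℤ) < l := by exact_mod_cast hl
  have hc : (l : ℂ) ≠ 0 := by exact_mod_cast hl.ne'
  refine (h (af l (4 * x) l τ) j).congr fun s => Finset.sum_congr rfl fun n _ => ?_
  rw [coe_af _ hl' hl']
  have e : (n : ℂ) * ((((l : ℤ) : ℂ) * τ + ((4 * x : ℤ) : ℂ)) / ((l : ℤ) : ℂ)) / 4 =
      n * x / l + n * τ / 4 := by
    push_cast
    field_simp
    ring
  beta_reduce
  rw [e, ee_add]
  split_ifs <;> ring

/-- Sketch: `hasSum_sum`, `gq2_geom`, `Function.Injective.hasSum_iff` for `n ↦ N n`. -/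
theorem QV.extract (h : QV g c) {N : ℕ} (hN : N % 4 = 1) :
    QV (∑ j : Fin N, fun τ => g (af 1 (4 * (j : ℕ)) N τ)) (fun n => N * c (N * n)) := by
  intro τ i
  have hN0 : 0 < N := by omega
  have hN' : (0 : ℤ) < N := by exact_mod_cast hN0
  have hc : (N : ℂ) ≠ 0 := by exact_mod_cast hN0.ne'
  have h1 := hasSum_sum fun (j : Fin N) (_ : j ∈ univ) => h (af 1 (4 * (j : ℕ)) N τ) i
  have h2 : ∀ n : ℕ, ∑ j : Fin N, (if n % 4 = (i : ℕ) then c n else 0) *
      ee (n * (af 1 (4 * (j : ℕ)) N τ : ℂ) / 4) =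
      if N ∣ n then N * ((if n % 4 = (i : ℕ) then c n else 0) * ee (n * τ / (4 * N))) else 0 := by
    intro n
    have e : ∀ j : Fin N, ee (n * (af 1 (4 * (j : ℕ)) N τ : ℂ) / 4) = ee (n * τ / (4 * N)) *
        Complex.exp (2 * Real.pi * Complex.I * (n : ℤ) * (j : ℕ) / N) := by
      intro j
      rw [coe_af _ one_pos hN', ee, ee, ← Complex.exp_add]
      congr 1
      push_cast
      field_simp
    simp only [e, ← mul_assoc]
    rw [← Finset.mul_sum, Fin.sum_univ_eq_sum_range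
      (fun j : ℕ => Complex.exp (2 * Real.pi * Complex.I * (n : ℤ) * j / N)), gq2_geom hN0]
    simp only [Int.natCast_dvd_natCast]
    split_ifs <;> ring
  simp only [h2] at h1
  have hinj : Function.Injective fun n : ℕ => N * n :=
    fun x y e => Nat.eq_of_mul_eq_mul_left hN0 e
  rw [← hinj.hasSum_iff] at h1
  · rw [Finset.sum_apply, Finset.sum_apply]
    refine h1.congr fun s => Finset.sum_congr rfl fun n _ => ?_
    simp only [Function.comp, dvd_mul_right, if_true, tsqq_mod hN]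
    have e : ((N * n : ℕ) : ℂ) * τ / (4 * N) = n * τ / 4 := by
      push_cast
      field_simp
    rw [e]
    split_ifs <;> ring
  · intro n hn
    rw [if_neg]
    rintro ⟨k, rfl⟩
    exact hn ⟨k, rfl⟩

/-- Sketch: choose `h'` (Bezout for `4 h` and `l`); `IsV.Tsq_eq`, the three lemmas above,
`QV.add`, `QV.smul`, `QV.sum`, `IsV.Tsq_cov`; at squares use `gauss_sum`. -/
theorem tsq_spec (hlam : 0 < lam) (hg : IsV lam g c) {l : ℕ} (hl : l.Prime) (h2 : l ≠ 2) :
    ∃ c', IsV lam (Tsq lam l g) c' ∧ ∀ m : ℕ, c' (m ^ 2) = c (l ^ 2 * m ^ 2) +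
      if l ∣ m then (l : ℂ) ^ (2 * lam - 1) * c ((m / l) ^ 2)
      else (l : ℂ) ^ (lam - 1) * c (m ^ 2) := by
  have hodd : Odd l := hl.odd_of_ne_two h2
  have hl0 : 0 < l := hl.pos
  have hc : (l : ℂ) ≠ 0 := by exact_mod_cast hl0.ne'
  have hN : l ^ 2 % 4 = 1 := by
    obtain ⟨k, rfl⟩ := hodd
    have : (2 * k + 1) ^ 2 = 4 * (k ^ 2 + k) + 1 := by ring
    omega
  have hex : ∀ h : Fin l, ∃ x : ℤ, h.val ≠ 0 → ∃ u : ℤ, 4 * (h.val : ℤ) * x + l * u = 1 := by
    intro h
    by_cases h0 : h.val = 0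
    · exact ⟨0, fun hh => absurd h0 hh⟩
    have c1 : Nat.Coprime l h.val :=
      (Nat.Prime.coprime_iff_not_dvd hl).mpr (Nat.not_dvd_of_pos_of_lt (by omega) h.isLt)
    have c2 : Nat.Coprime l 4 := by
      have : Nat.Coprime l 2 := (Nat.coprime_primes hl Nat.prime_two).mpr h2
      exact Nat.Coprime.pow_right 2 this
    have c3 : Nat.Coprime (4 * h.val) l := (Nat.Coprime.mul_right c2 c1).symm
    obtain ⟨a, b, hab⟩ := Nat.isCoprime_iff_coprime.mpr c3
    refine ⟨a, fun _ => ⟨b, ?_⟩⟩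
    push_cast at hab
    linear_combination hab
  choose h' hh' using hex
  have q1 := (hg.qv.dil hN).smul ((l : ℂ) ^ (2 * lam) / l)
  have q2 := QV.sum (s := univ.filter (fun h : Fin l => h.val ≠ 0)) fun h _ =>
    (hg.qv.shift hl0 (h' h)).smul ((l : ℂ) ^ lam / l ^ 2 * gauss l h.val)
  have q3 := (hg.qv.extract hN).smul ((l : ℂ) ^ 2)⁻¹
  have q := (q1.add q2).add q3
  rw [← hg.Tsq_eq hodd h' hh'] at q
  refine ⟨_, ⟨hg.Tsq_cov hl h2, q, fun n hn => ?_⟩, fun m => ?_⟩
  · have e1 : c (l ^ 2 * n) = 0 := hg.sup _ (by rwa [tsqq_mod hN])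
    have e2 : (if l ^ 2 ∣ n then c (n / l ^ 2) else 0) = 0 := by
      split_ifs with hd
      · obtain ⟨k, rfl⟩ := hd
        rw [Nat.mul_div_cancel_left k (by positivity)]
        exact hg.sup _ (by rwa [tsqq_mod hN] at hn)
      · rfl
    simp only [Pi.add_apply, Pi.smul_apply, Finset.sum_apply, smul_eq_mul, e1, e2, hg.sup n hn,
      mul_zero, Finset.sum_const_zero, add_zero]
  · have e : ∑ h ∈ univ.filter (fun h : Fin l => h.val ≠ 0),
        ((l : ℂ) ^ lam / l ^ 2 * gauss l h.val) * (ee (((m ^ 2 : ℕ) : ℂ) * h' h / l) * c (m ^ 2)) =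
        (l : ℂ) ^ lam / l ^ 2 * c (m ^ 2) * if l ∣ m then 0 else (l : ℂ) := by
      rw [← gauss_sum hl h' hh' m, Finset.mul_sum]
      refine Finset.sum_congr rfl fun h _ => ?_
      push_cast
      ring
    simp only [Pi.add_apply, Pi.smul_apply, Finset.sum_apply, smul_eq_mul, e,
      Nat.pow_dvd_pow_iff (two_ne_zero)]
    obtain ⟨k, rfl⟩ : ∃ k, lam = k + 1 := ⟨lam - 1, by omega⟩
    rw [show 2 * (k + 1) - 1 = 2 * k + 1 by omega, Nat.add_sub_cancel]
    split_ifs with hd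
    · rw [Nat.div_pow hd]
      push_cast
      field_simp
      ring
    · push_cast
      field_simp
      ring

end Pool.Agent.Lib.MP_bcfefa_nt.B
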