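import Pool.Agent.Lib.MP_bcfefa_nt.B.Avg
import Pool.Agent.Lib.MP_bcfefa_nt.B.Bdd
import Pool.Agent.Lib.MP_bcfefa_nt.B.TsqQ

/-!
The operator `T(l ^ 2)` is self-adjoint.
-/

set_option autoImplicit false

noncomputable section

namespace Pool.Agent.Lib.MP_bcfefa_nt.B

open Finset CongruenceSubgroup UpperHalfPlane Matrix MeasureTheory Complex ModularGroup Filter
open Pool.Agent.Lib.MP_88d29b_nt.G
open scoped MatrixGroups ModularForm Manifold ComplexConjugate Topology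

variable {lam : ℕ} {g w w' : ℍ → Fin 2 → ℂ} {c c' c'' : ℕ → ℂ}

theorem adjv_cov (lam : ℕ) (u v : Fin 2 → ℂ) (γ : SL(2, ℤ)) (τ : ℍ) :
    (star (den γ τ ^ lam • Jm γ τ *ᵥ u) ⬝ᵥ (den γ τ ^ lam • Jm γ τ *ᵥ v)) *
        (((γ • τ).im : ℂ) ^ lam * (Real.sqrt (γ • τ).im : ℂ)) =
      (star u ⬝ᵥ v) * ((τ.im : ℂ) ^ lam * (Real.sqrt τ.im : ℂ)) := by
  have h0 : 0 < ‖den γ τ‖ := norm_pos_iff.2 (den_ne γ τ)
  have h1 : ((‖den γ τ‖ : ℝ) : ℂ) ≠ 0 := by exact_mod_cast h0.ne'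
  have h2 : conj (den γ τ) * den γ τ = ((‖den γ τ‖ : ℝ) : ℂ) ^ 2 := by
    rw [Complex.conj_mul']
  have h3 : Real.sqrt (γ • τ).im = Real.sqrt τ.im / ‖den γ τ‖ := by
    rw [im_SL, Real.sqrt_div τ.im_pos.le, Real.sqrt_sq h0.le]
  rw [star_smul, smul_dotProduct, dotProduct_smul, star_Jm_dot, h3, im_SL, smul_eq_mul,
    smul_eq_mul, star_pow, ← mul_assoc (star _ ^ lam), ← mul_pow, Complex.star_def, h2]
  push_cast
  rw [div_pow]
  field_simp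

theorem adjv_inv {u v : ℍ → Fin 2 → ℂ} {γ : SL(2, ℤ)} {τ : ℍ}
    (hu : u (γ • τ) = den γ τ ^ lam • Jm γ τ *ᵥ u τ)
    (hv : v (γ • τ) = den γ τ ^ lam • Jm γ τ *ᵥ v τ) : pv lam u v (γ • τ) = pv lam u v τ := by
  rw [pv, pv, hu, hv, adjv_cov]

/-- Sketch: `slv_spec`, `star_Jm_dot`, `im_SL`. -/
theorem pv_smul (lam : ℕ) (u v : ℍ → Fin 2 → ℂ) (γ : SL(2, ℤ)) (τ : ℍ) :
    pv lam u v (γ • τ) = pv lam (slv lam u γ) (slv lam v γ) τ := by
  rw [pv, pv, slv_spec lam u γ τ, slv_spec lam v γ τ, adjv_cov]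

theorem continuous_pv (lam : ℕ) {u v : ℍ → Fin 2 → ℂ} (hu : Continuous u) (hv : Continuous v) :
    Continuous (pv lam u v) := by
  have h1 : Continuous fun τ : ℍ => (τ.im : ℂ) :=
    Complex.continuous_ofReal.comp UpperHalfPlane.continuous_im
  have h2 : Continuous fun τ : ℍ => (Real.sqrt τ.im : ℂ) :=
    Complex.continuous_ofReal.comp (Real.continuous_sqrt.comp UpperHalfPlane.continuous_im)
  exact (hu.star.dotProduct hv).mul ((h1.pow lam).mul h2)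

theorem adjv_rpow (lam : ℕ) {y : ℝ} (hy : 0 < y) :
    y ^ ((lam : ℝ) + 1 / 2) = y ^ lam * Real.sqrt y := by
  rw [Real.rpow_add hy, Real.rpow_natCast, Real.sqrt_eq_rpow]

theorem norm_pv_le (lam : ℕ) (u v : ℍ → Fin 2 → ℂ) (τ : ℍ) :
    ‖pv lam u v τ‖ ≤ 2 * (‖u τ‖ * ‖v τ‖ * τ.im ^ ((lam : ℝ) + 1 / 2)) := by
  have h1 : ∀ j : Fin 2, ‖star (u τ) j * v τ j‖ ≤ ‖u τ‖ * ‖v τ‖ := fun j => by
    rw [norm_mul, Pi.star_apply, norm_star]
    exact mul_le_mul (norm_le_pi_norm _ j) (norm_le_pi_norm _ j) (norm_nonneg _) (norm_nonneg _)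
  have h2 : ‖star (u τ) ⬝ᵥ v τ‖ ≤ 2 * (‖u τ‖ * ‖v τ‖) := by
    rw [dotProduct, Fin.sum_univ_two]
    linarith [norm_add_le (star (u τ) 0 * v τ 0) (star (u τ) 1 * v τ 1), h1 0, h1 1]
  have h3 : ‖(τ.im : ℂ) ^ lam * (Real.sqrt τ.im : ℂ)‖ = τ.im ^ ((lam : ℝ) + 1 / 2) := by
    rw [adjv_rpow lam τ.im_pos, norm_mul, norm_pow, Complex.norm_real, Complex.norm_real,
      Real.norm_of_nonneg τ.im_pos.le, Real.norm_of_nonneg (Real.sqrt_nonneg _)]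
  rw [pv, norm_mul, h3, ← mul_assoc]
  exact mul_le_mul_of_nonneg_right h2 (Real.rpow_nonneg τ.im_pos.le _)

theorem adjv_norm (hg : IsV lam g c) (γ : SL(2, ℤ)) (τ : ℍ) :
    ‖g (γ • τ)‖ ≤ 2 * ‖den γ τ‖ ^ ((lam : ℝ) + 1 / 2) * ‖g τ‖ := by
  rw [hg.cov, norm_smul, norm_pow, adjv_rpow lam (norm_pos_iff.2 (den_ne γ τ))]
  refine (mul_le_mul_of_nonneg_left (norm_Jm_mulVec γ τ _) (by positivity)).trans (le_of_eq ?_)
  ring

/-- Sketch: `bdd_left` with `κ = lam + 1 / 2`, `K = 2` (`norm_Jm_mulVec`), `QV.dec`, `QV.gro`. -/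
theorem bd_pv_dil (hg : IsV lam g c) (h0 : c 0 = 0) (hw : IsV lam w c') {N : ℕ} (hN : 0 < N) :
    Bd (pv lam (dil N g) w) := by
  obtain ⟨C, hC⟩ := bdd_left (u := fun τ => ‖g τ‖) (v := fun τ => ‖w τ‖)
    (κ := (lam : ℝ) + 1 / 2) (K := 2) (by positivity) (fun _ => norm_nonneg _)
    (fun _ => norm_nonneg _) (adjv_norm hg) (adjv_norm hw) (hg.qv.dec h0) hw.qv.gro hN
  exact ⟨2 * C, fun τ => (norm_pv_le lam _ _ τ).trans
    (mul_le_mul_of_nonneg_left (hC τ) zero_le_two)⟩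

theorem bd_pv (hg : IsV lam g c) (h0 : c 0 = 0) (hw : IsV lam w c') : Bd (pv lam g w) := by
  have e : dil 1 g = g := funext fun τ => by
    rw [dil, Nat.cast_one, af_one]
  have h := bd_pv_dil hg h0 hw one_pos
  rwa [e] at h

theorem Bf_add (hg : IsV lam g c) (h0 : c 0 = 0) (hw : IsV lam w c') (hw' : IsV lam w' c'') :
    Bf lam g (w + w') = Bf lam g w + Bf lam g w' := by
  have e : pv lam g (w + w') = fun τ => pv lam g w τ + pv lam g w' τ := funext fun τ => by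
    rw [pv, pv, pv, Pi.add_apply, dotProduct_add, add_mul]
  rw [Bf, e]
  exact avg_add ⊤ (bd_pv hg h0 hw) (continuous_pv lam hg.qv.continuous hw.qv.continuous)
    (bd_pv hg h0 hw') (continuous_pv lam hg.qv.continuous hw'.qv.continuous)

theorem Bf_smul_right (lam : ℕ) (x : ℂ) (u v : ℍ → Fin 2 → ℂ) :
    Bf lam u (x • v) = x * Bf lam u v := by
  have e : pv lam u (x • v) = fun τ => x * pv lam u v τ := funext fun τ => by
    rw [pv, pv, Pi.smul_apply, dotProduct_smul, smul_eq_mul, mul_assoc]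
  rw [Bf, e]
  exact avg_mul ⊤ x _

theorem Bf_smul_left (lam : ℕ) (x : ℂ) (u v : ℍ → Fin 2 → ℂ) :
    Bf lam (x • u) v = conj x * Bf lam u v := by
  have e : pv lam (x • u) v = fun τ => conj x * pv lam u v τ := funext fun τ => by
    rw [pv, pv, Pi.smul_apply, star_smul, smul_dotProduct, smul_eq_mul, mul_assoc,
      Complex.star_def]
  rw [Bf, e]
  exact avg_mul ⊤ _ _

/-- Sketch: with `σ = S • af (l ^ 2) 0 1 τ` one has `af (l ^ 2) 0 1 σ = S • τ`; use `IsV.cov` for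
`S`, `Jm_S`, `JS_scale`, `star_Jm_dot`, `im_SL`, `im_af`. -/
theorem pv_fricke (hg : IsV lam g c) (hw : IsV lam w c') {l : ℕ} (hl : 0 < l) (τ : ℍ) :
    pv lam g (dil (l ^ 2) w) τ = pv lam (dil (l ^ 2) g) w (S • af (l ^ 2 : ℕ) 0 1 τ) := by
  have hN : (0 : ℤ) < (l ^ 2 : ℕ) := by exact_mod_cast pow_pos hl 2
  have hl' : (0 : ℝ) < l := by exact_mod_cast hl
  have hlc : (l : ℂ) ≠ 0 := by exact_mod_cast hl.ne'
  have h1 : (af (l ^ 2 : ℕ) 0 1 τ : ℂ) = (l : ℂ) ^ 2 * τ := by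
    rw [coe_af 0 hN one_pos]
    simp
  have h2 : af (l ^ 2 : ℕ) 0 1 (S • af (l ^ 2 : ℕ) 0 1 τ) = S • τ := by
    apply UpperHalfPlane.ext
    have := τ.ne_zero
    rw [coe_af 0 hN one_pos, coe_S_smul, coe_S_smul, h1]
    push_cast
    field_simp
    ring
  have h3 : (S • τ).im = (l : ℝ) ^ 2 * (S • af (l ^ 2 : ℕ) 0 1 τ).im := by
    rw [← h2, im_af 0 hN one_pos]
    simp
  have h4 : (S • af (l ^ 2 : ℕ) 0 1 τ).im = (S • τ).im / (l : ℝ) ^ 2 := by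
    rw [h3]
    field_simp
  have h5 : Real.sqrt (S • af (l ^ 2 : ℕ) 0 1 τ).im = Real.sqrt (S • τ).im / l := by
    rw [h4, Real.sqrt_div (S • τ).im_pos.le, Real.sqrt_sq hl'.le]
  have h6 : w (S • af (l ^ 2 : ℕ) 0 1 τ) = (((l : ℂ) ^ 2) ^ lam * l) •
      (den S τ ^ lam • Jm S τ *ᵥ w (af (l ^ 2 : ℕ) 0 1 τ)) := by
    rw [hw.cov, Jm_S, Jm_S, JS_scale hl h1, den_S, den_S, h1, smul_mulVec, smul_smul, smul_smul,
      mul_pow]
    congr 1
    ring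
  rw [pv, pv, dil, dil, h2, h6, h5, h4, hg.cov, dotProduct_smul, smul_eq_mul,
    ← adjv_cov lam _ _ S τ]
  push_cast
  rw [div_pow]
  field_simp

theorem adjv_left (hw : IsV lam w c') (l : ℕ) (g : ℍ → Fin 2 → ℂ) (τ : ℍ) :
    pv lam (Tsq lam l g) w τ =
      (l : ℂ) ^ (2 * lam) / l * ∑ i, pv lam (dil (l ^ 2) g) w (rep l i • τ) := by
  have sw : ∀ γ, slv lam w γ = w := fun γ => funext fun τ => slv_eq_iff.2 (hw.cov γ τ)
  have e : conj ((l : ℂ) ^ (2 * lam) / l) = (l : ℂ) ^ (2 * lam) / l := by simp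
  rw [pv, Tsq, star_smul, smul_dotProduct, star_sum, sum_dotProduct, smul_eq_mul, mul_assoc,
    Finset.sum_mul, Complex.star_def, e]
  refine congrArg _ (Finset.sum_congr rfl fun i _ => ?_)
  rw [pv_smul, sw, pv]

theorem adjv_right (hg : IsV lam g c) (l : ℕ) (w : ℍ → Fin 2 → ℂ) (τ : ℍ) :
    pv lam g (Tsq lam l w) τ =
      (l : ℂ) ^ (2 * lam) / l * ∑ i, pv lam g (dil (l ^ 2) w) (rep l i • τ) := by
  have sg : ∀ γ, slv lam g γ = g := fun γ => funext fun τ => slv_eq_iff.2 (hg.cov γ τ)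
  rw [pv, Tsq, dotProduct_smul, dotProduct_sum, smul_eq_mul, mul_assoc, Finset.sum_mul]
  refine congrArg _ (Finset.sum_congr rfl fun i _ => ?_)
  rw [pv_smul, sg, pv]

/-- Sketch: `avg_adj` with `F = pv lam (dil (l ^ 2) g) w`, `F' = pv lam g (dil (l ^ 2) w)`,
`ρ = rep l`. By `pv_smul`, `pv lam (Tsq lam l g) w τ = x ∑ F (rep l i • τ)` with the real number
`x = l ^ (2 lam) / l`, and likewise for `F'`; these are invariant by `IsV.Tsq_cov`; `F` is invariant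
under `Γ_0(l ^ 2)` by `IsV.dil_cov`. -/
theorem Bf_adj (hg : IsV lam g c) (h0 : c 0 = 0) (hw : IsV lam w c') {l : ℕ} (hl : l.Prime)
    (h2 : l ≠ 2) : Bf lam (Tsq lam l g) w = Bf lam g (Tsq lam l w) := by
  have hlc : (l : ℂ) ≠ 0 := by exact_mod_cast hl.ne_zero
  have hx : (l : ℂ) ^ (2 * lam) / l ≠ 0 := div_ne_zero (pow_ne_zero _ hlc) hlc
  have hN : 0 < l ^ 2 := pow_pos hl.pos 2
  have : NeZero (l ^ 2) := ⟨hN.ne'⟩
  have hc : Continuous (dil (l ^ 2) g) := hg.qv.continuous.comp (continuous_af _ _ _)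
  have key := avg_adj (F := pv lam (dil (l ^ 2) g) w) (F' := pv lam g (dil (l ^ 2) w))
    (N := l ^ 2) (rep l) (bd_pv_dil hg h0 hw hN) (continuous_pv lam hc hw.qv.continuous)
    (fun a ha τ => adjv_inv (hg.dil_cov (hl.odd_of_ne_two h2) ha τ) (hw.cov a τ))
    (pv_fricke hg hw hl.pos)
    (fun γ τ => mul_left_cancel₀ hx (by
      rw [← adjv_left hw, ← adjv_left hw]
      exact adjv_inv (hg.Tsq_cov hl h2 γ τ) (hw.cov γ τ)))
    (fun γ τ => mul_left_cancel₀ hx (by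
      rw [← adjv_right hg, ← adjv_right hg]
      exact adjv_inv (hg.cov γ τ) (hw.Tsq_cov hl h2 γ τ)))
  rw [Bf, Bf, funext (adjv_left hw l g), funext (adjv_right hg l w), avg_mul, avg_mul, key]

end Pool.Agent.Lib.MP_bcfefa_nt.B
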