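import Pool.Agent.Lib.MP_bcfefa_nt.B.Bas

/-!
Averages over modular curves: traces and the Fricke involution.
-/

set_option autoImplicit false

noncomputable section

namespace Pool.Agent.Lib.MP_bcfefa_nt.B

open Finset CongruenceSubgroup UpperHalfPlane Matrix MeasureTheory Complex ModularGroup Filter
open Pool.Agent.Lib.MP_88d29b_nt.G
open scoped MatrixGroups ModularForm Manifold ComplexConjugate Topology

variable {F F' : ℍ → ℂ}

theorem Bd.integrable (A : Subgroup SL(2, ℤ)) [A.FiniteIndex] (hb : Bd F) (hc : Continuous F) :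
    Integrable F (pmOf (wt A)) := by
  obtain ⟨C, hC⟩ := hb
  exact Integrable.of_bound hc.aestronglyMeasurable C (Eventually.of_forall hC)

theorem avg_add (A : Subgroup SL(2, ℤ)) [A.FiniteIndex] (hb : Bd F) (hc : Continuous F)
    (hb' : Bd F') (hc' : Continuous F') :
    avgM A (fun τ => F τ + F' τ) = avgM A F + avgM A F' := by
  exact integral_add (hb.integrable A hc) (hb'.integrable A hc')

theorem avg_mul (A : Subgroup SL(2, ℤ)) [A.FiniteIndex] (x : ℂ) (F : ℍ → ℂ) :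
    avgM A (fun τ => x * F τ) = x * avgM A F := by
  exact integral_const_mul x F

/-- Sketch: pass to `Gamma N` by `avg_le`, exchange sum and integral, `avg_sm` with
`δ = ρ i` (`Gamma N` is normal, `Gamma_le_Gamma0`, `sm_SL`), and `avg_le` again. -/
theorem avg_trace {N : ℕ} [NeZero N] {ι : Type} [Fintype ι] (ρ : ι → SL(2, ℤ)) (hb : Bd F)
    (hc : Continuous F) (hinv : ∀ a ∈ Gamma0 N, ∀ τ : ℍ, F (a • τ) = F τ)
    (hsum : ∀ (γ : SL(2, ℤ)) (τ : ℍ), ∑ i, F (ρ i • γ • τ) = ∑ i, F (ρ i • τ)) :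
    avgM ⊤ (fun τ => ∑ i, F (ρ i • τ)) = Fintype.card ι * avgM (Gamma0 N) F := by
  have hci : ∀ i, Continuous fun τ : ℍ => F (ρ i • τ) := fun i => hc.comp (continuous_SL _)
  have hG : ∀ a ∈ CongruenceSubgroup.Gamma N, ∀ τ : ℍ, F (a • τ) = F τ :=
    fun a ha => hinv a (Gamma_le_Gamma0 N ha)
  rw [← avg_le (A := CongruenceSubgroup.Gamma N) le_top (continuous_finsetSum _ fun i _ => hci i)
    fun a _ τ => hsum a τ, ← avg_le (Gamma_le_Gamma0 N) hc hinv, avgM,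
    integral_finsetSum _ fun i _ => Bd.integrable _ (hb.imp fun C h τ => h _) (hci i)]
  have h1 : ∀ i, ∫ τ, F (ρ i • τ) ∂(pmOf (wt (CongruenceSubgroup.Gamma N))) =
      avgM (CongruenceSubgroup.Gamma N) F := fun i => by
    have := avg_sm (L := N) (L' := N) (det_SL_pos (ρ i)).ne' hc hG fun a ha τ => by
      rw [sm_SL, sm_SL, ← hG _ ((Gamma_normal N).conj_mem a ha (ρ i)) (ρ i • τ), smul_smul,
        smul_smul, inv_mul_cancel_right]
    simp only [sm_SL] at this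
    exact this
  simp only [h1, Finset.sum_const, Finset.card_univ, nsmul_eq_mul]

lemma avg_det (N : ℕ) [NeZero N] : 0 < (!![(N : ℤ), 0; 0, 1] : Mat).det :=
  det_af 0 (by exact_mod_cast Nat.pos_of_ne_zero (NeZero.ne N)) one_pos

lemma avg_W (N : ℕ) [NeZero N] (τ : ℍ) :
    S • af N 0 1 τ = sm ((S : SL(2, ℤ)) * !![(N : ℤ), 0; 0, 1]) τ := by
  rw [sm_mul (det_SL_pos S).ne' (avg_det N).ne', sm_SL, af]

lemma avg_detW (N : ℕ) [NeZero N] :
    (((S : SL(2, ℤ)) : Mat) * !![(N : ℤ), 0; 0, 1]).det ≠ 0 := by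
  rw [Matrix.det_mul]
  exact mul_ne_zero (det_SL_pos S).ne' (avg_det N).ne'

/-- Sketch: for `a = (x, y; N z, w)` take `a' = (w, -z; -N y, x)`. -/
theorem fricke_conj {N : ℕ} [NeZero N] {a : SL(2, ℤ)} (ha : a ∈ Gamma0 N) :
    ∃ a' ∈ Gamma0 N, ∀ τ : ℍ, S • af N 0 1 (a • τ) = a' • S • af N 0 1 τ := by
  obtain ⟨z, hz⟩ := (ZMod.intCast_zmod_eq_zero_iff_dvd _ N).1 (Gamma0_mem.1 ha)
  have hd := a.det_coe
  rw [Matrix.det_fin_two, hz] at hd
  obtain ⟨b, hb⟩ : ∃ b : SL(2, ℤ), (b : Mat) = !![a 1 1, -z; -(N * a 0 1), a 0 0] := by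
    refine ⟨⟨_, ?_⟩, rfl⟩
    rw [Matrix.det_fin_two_of]
    linear_combination hd
  refine ⟨b, ?_, fun τ => ?_⟩
  · rw [Gamma0_mem, hb]
    simp
  · rw [avg_W, avg_W, ← sm_SL, ← sm_SL, ← sm_mul (avg_detW N) (det_SL_pos _).ne',
      ← sm_mul (det_SL_pos _).ne' (avg_detW N), hb]
    congr 1
    ext i j
    fin_cases i <;> fin_cases j <;> simp [S, Matrix.mul_apply, Fin.sum_univ_two, hz, mul_comm]

/-- Sketch: `S • af N 0 1 τ = sm (S * !![N, 0; 0, 1]) τ`; `avg_le`, `avg_sm`, `fricke_conj`. -/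
theorem avg_fricke {N : ℕ} [NeZero N] (hc : Continuous F)
    (hinv : ∀ a ∈ Gamma0 N, ∀ τ : ℍ, F (a • τ) = F τ) :
    avgM (Gamma0 N) (fun τ => F (S • af N 0 1 τ)) = avgM (Gamma0 N) F := by
  have h1 : ∀ a ∈ Gamma0 N, ∀ τ : ℍ, F (S • af N 0 1 (a • τ)) = F (S • af N 0 1 τ) :=
    fun a ha τ => by
      obtain ⟨a', ha', e⟩ := fricke_conj ha
      rw [e, hinv a' ha']
  have hc' : Continuous fun τ => F (S • af N 0 1 τ) :=
    hc.comp ((continuous_SL S).comp (continuous_af _ _ _))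
  rw [← avg_le (Gamma_le_Gamma0 N) hc' h1, ← avg_le (Gamma_le_Gamma0 N) hc hinv]
  simp only [avg_W] at h1 ⊢
  exact avg_sm (avg_detW N) hc (fun a ha => hinv a (Gamma_le_Gamma0 N ha))
    fun a ha => h1 a (Gamma_le_Gamma0 N ha)

theorem avg_adj {N : ℕ} [NeZero N] {ι : Type} [Fintype ι] (ρ : ι → SL(2, ℤ)) (hb : Bd F)
    (hc : Continuous F) (hinv : ∀ a ∈ Gamma0 N, ∀ τ : ℍ, F (a • τ) = F τ)
    (hF' : ∀ τ, F' τ = F (S • af N 0 1 τ))
    (hsum : ∀ (γ : SL(2, ℤ)) (τ : ℍ), ∑ i, F (ρ i • γ • τ) = ∑ i, F (ρ i • τ))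
    (hsum' : ∀ (γ : SL(2, ℤ)) (τ : ℍ), ∑ i, F' (ρ i • γ • τ) = ∑ i, F' (ρ i • τ)) :
    avgM ⊤ (fun τ => ∑ i, F (ρ i • τ)) = avgM ⊤ (fun τ => ∑ i, F' (ρ i • τ)) := by
  have e : F' = fun τ => F (S • af N 0 1 τ) := funext hF'
  have hc' : Continuous F' := by
    rw [e]
    exact hc.comp ((continuous_SL S).comp (continuous_af _ _ _))
  have hb' : Bd F' := hb.imp fun C h τ => by rw [hF']; exact h _
  have hinv' : ∀ a ∈ Gamma0 N, ∀ τ : ℍ, F' (a • τ) = F' τ := fun a ha τ => by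
    obtain ⟨a', ha', e⟩ := fricke_conj ha
    rw [hF', hF', e, hinv a' ha']
  rw [avg_trace ρ hb hc hinv hsum, avg_trace ρ hb' hc' hinv' hsum', e, avg_fricke hc hinv]

end Pool.Agent.Lib.MP_bcfefa_nt.B
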