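import Pool.Agent.Lib.MP_bcfefa_nt.B.Defs

/-!
Basic lemmas on `ee`, `den`, `af`, `pt` and generators of the modular group.
-/

set_option autoImplicit false

noncomputable section

namespace Pool.Agent.Lib.MP_bcfefa_nt.B

open Finset CongruenceSubgroup UpperHalfPlane Matrix MeasureTheory Complex ModularGroup
open Pool.Agent.Lib.MP_88d29b_nt.G
open scoped MatrixGroups ModularForm Manifold ComplexConjugate

lemma ee_add (s t : ℂ) : ee (s + t) = ee s * ee t := by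
  rw [ee, ee, ee, mul_add, Complex.exp_add]

@[simp] lemma ee_zero : ee 0 = 1 := by simp [ee]

lemma ee_ne_zero (t : ℂ) : ee t ≠ 0 := Complex.exp_ne_zero _

lemma ee_int (n : ℤ) : ee n = 1 := by
  rw [ee, mul_comm]
  exact Complex.exp_int_mul_two_pi_mul_I n

lemma ee_nat (n : ℕ) : ee n = 1 := by exact_mod_cast ee_int n

lemma ee_add_int (t : ℂ) (n : ℤ) : ee (t + n) = ee t := by rw [ee_add, ee_int, mul_one]

lemma ee_neg (t : ℂ) : ee (-t) = (ee t)⁻¹ := by rw [ee, ee, mul_neg, Complex.exp_neg]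

lemma ee_nat_mul (n : ℕ) (t : ℂ) : ee (n * t) = ee t ^ n := by
  rw [ee, ee, ← Complex.exp_nat_mul]
  congr 1
  ring

lemma norm_ee (t : ℂ) : ‖ee t‖ = Real.exp (-2 * Real.pi * t.im) := by
  rw [ee, Complex.norm_exp]
  congr 1
  simp

lemma conj_ee (t : ℂ) : conj (ee t) = ee (-conj t) := by
  rw [ee, ee, ← Complex.exp_conj]
  congr 1
  simp [Complex.conj_ofReal, map_ofNat]

lemma ee_half : ee (1 / 2) = -1 := by
  rw [ee, ← Complex.exp_pi_mul_I]
  congr 1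
  ring

lemma ee_quarter : ee (1 / 4) = Complex.I := by
  rw [ee, show 2 * (Real.pi : ℂ) * Complex.I * (1 / 4) = Real.pi / 2 * Complex.I by ring]
  exact Complex.exp_pi_div_two_mul_I

lemma qs_iff {f : ℍ → ℂ} {a : ℕ → ℂ} :
    QS f a ↔ ∀ τ : ℍ, HasSum (fun n : ℕ => a n * ee (n * τ)) (f τ) := by
  simp only [QS, ee, mul_assoc]

lemma det_SL_pos (γ : SL(2, ℤ)) : 0 < (γ : Mat).det := by
  rw [γ.det_coe]
  exact one_pos

lemma den_ne (γ : SL(2, ℤ)) (τ : ℍ) : den γ τ ≠ 0 := den_ne_zero (det_SL_pos γ).ne' τ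

lemma den_eq_denom (γ : SL(2, ℤ)) (τ : ℍ) : den γ τ = denom γ τ := by
  rw [den, ModularGroup.denom_apply]

lemma coe_SL (γ : SL(2, ℤ)) (τ : ℍ) :
    ((γ • τ : ℍ) : ℂ) = ((γ 0 0 : ℂ) * τ + (γ 0 1 : ℂ)) / den γ τ := by
  rw [← sm_SL, coe_sm (det_SL_pos γ), den]

lemma im_SL (γ : SL(2, ℤ)) (τ : ℍ) : (γ • τ).im = τ.im / ‖den γ τ‖ ^ 2 := by
  rw [← sm_SL, im_sm (det_SL_pos γ), γ.det_coe, den, Complex.normSq_eq_norm_sq]
  simp

lemma det_cast (γ : SL(2, ℤ)) : (γ 0 0 : ℂ) * γ 1 1 - (γ 0 1 : ℂ) * γ 1 0 = 1 := by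
  have := γ.det_coe
  rw [Matrix.det_fin_two] at this
  exact_mod_cast this

lemma den_mul (γ γ' : SL(2, ℤ)) (τ : ℍ) : den (γ * γ') τ = den γ (γ' • τ) * den γ' τ := by
  have h := den_ne γ' τ
  rw [den, den, coe_SL]
  simp only [Matrix.SpecialLinearGroup.coe_mul, Matrix.mul_apply, Fin.sum_univ_two]
  push_cast
  field_simp
  rw [den]
  ring

@[simp] lemma den_one (τ : ℍ) : den 1 τ = 1 := by simp [den]

@[simp] lemma den_S (τ : ℍ) : den S τ = τ := by simp [den, S]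

@[simp] lemma den_T (τ : ℍ) : den T τ = 1 := by simp [den, T]

lemma den_T_zpow (n : ℤ) (τ : ℍ) : den (T ^ n) τ = 1 := by
  simp [den, coe_T_zpow]

lemma den_Lo (c : ℤ) (τ : ℍ) : den (Lo c) τ = c * τ + 1 := by simp [den, Lo]

lemma den_Sd (d : ℤ) (τ : ℍ) : den (Sd d) τ = τ + d := by simp [den, Sd]

lemma coe_S_smul (τ : ℍ) : ((S • τ : ℍ) : ℂ) = -1 / τ := by
  rw [coe_SL, den_S]
  simp [S]

lemma coe_T_zpow_smul (n : ℤ) (τ : ℍ) : ((T ^ n • τ : ℍ) : ℂ) = τ + n := by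
  rw [coe_SL, den_T_zpow]
  simp [coe_T_zpow]

lemma coe_T_smul (τ : ℍ) : ((T • τ : ℍ) : ℂ) = τ + 1 := by
  simpa using coe_T_zpow_smul 1 τ

lemma Sd_eq (d : ℤ) : Sd d = S * T ^ d := by
  ext i j
  fin_cases i <;> fin_cases j <;>
    simp [Sd, S, coe_T_zpow, Matrix.mul_apply, Fin.sum_univ_two]

lemma det_af {a d : ℤ} (b : ℤ) (ha : 0 < a) (hd : 0 < d) : 0 < (!![a, b; 0, d] : Mat).det := by
  rw [Matrix.det_fin_two_of]
  simpa using mul_pos ha hd

lemma coe_af {a d : ℤ} (b : ℤ) (ha : 0 < a) (hd : 0 < d) (τ : ℍ) :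
    (af a b d τ : ℂ) = (a * τ + b) / d := by
  rw [af, coe_sm (det_af b ha hd)]
  simp

lemma im_af {a d : ℤ} (b : ℤ) (ha : 0 < a) (hd : 0 < d) (τ : ℍ) :
    (af a b d τ).im = a * τ.im / d := by
  have h := congrArg Complex.im (coe_af b ha hd τ)
  rw [UpperHalfPlane.coe_im] at h
  rw [h, ← Complex.ofReal_intCast d, Complex.div_ofReal_im]
  simp

lemma continuous_af (a b d : ℤ) : Continuous (af a b d) := continuous_sm _

lemma af_eq_ofComplex {a d : ℤ} (b : ℤ) (ha : 0 < a) (hd : 0 < d) (τ : ℍ) :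
    af a b d τ = ofComplex ((a * τ + b) / d) := by
  rw [← coe_af b ha hd, ofComplex_apply]

lemma af_one (τ : ℍ) : af 1 0 1 τ = τ := by
  apply UpperHalfPlane.ext
  rw [coe_af 0 one_pos one_pos]
  simp

lemma continuous_SL (γ : SL(2, ℤ)) : Continuous fun τ : ℍ => γ • τ := by
  simpa only [← sm_SL] using continuous_sm (γ : Mat)

lemma coe_pt (x : ℝ) {y : ℝ} (hy : 0 < y) : (pt x y : ℂ) = x + y * Complex.I := by
  rw [pt, ofComplex_apply_of_im_pos (by simpa using hy)]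

lemma im_pt (x : ℝ) {y : ℝ} (hy : 0 < y) : (pt x y).im = y := by
  rw [← UpperHalfPlane.coe_im, coe_pt x hy]
  simp

lemma re_pt (x : ℝ) {y : ℝ} (hy : 0 < y) : (pt x y).re = x := by
  rw [← UpperHalfPlane.coe_re, coe_pt x hy]
  simp

/-- Induction over the generators `S`, `T`, `T⁻¹` of the modular group as a monoid. -/
theorem SL_ind (P : SL(2, ℤ) → Prop) (hS : P S) (hT : P T) (hT' : P T⁻¹)
    (hmul : ∀ a b, P a → P b → P (a * b)) (γ : SL(2, ℤ)) : P γ := by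
  have hS4 : S * S * S * S = (1 : SL(2, ℤ)) := by
    ext i j
    fin_cases i <;> fin_cases j <;> simp [S, Matrix.mul_apply, Fin.sum_univ_two]
  have hSi : P S⁻¹ := by
    rw [inv_eq_of_mul_eq_one_left hS4]
    exact hmul _ _ (hmul _ _ hS hS) hS
  have h1 : P 1 := by simpa using hmul _ _ hT hT'
  have hγ : γ ∈ Subgroup.closure ({S, T} : Set SL(2, ℤ)) := by
    rw [_root_.SpecialLinearGroup.SL2Z_generators]
    trivial
  induction hγ using Subgroup.closure_induction'' with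
  | mem x hx =>
    rcases hx with rfl | rfl
    exacts [hS, hT]
  | inv_mem x hx =>
    rcases hx with rfl | rfl
    exacts [hSi, hT']
  | one => exact h1
  | mul x y _ _ hx hy => exact hmul _ _ hx hy

lemma sl_SL_apply (k : ℕ) (f : ℍ → ℂ) (γ : SL(2, ℤ)) (τ : ℍ) :
    sl k f (γ : Mat) τ = f (γ • τ) * (den γ τ ^ k)⁻¹ := by
  rw [sl_apply _ _ (det_SL_pos γ), γ.det_coe, sm_SL, den]
  simp

lemma inv_iff {k : ℕ} {f : ℍ → ℂ} {Γ : Subgroup SL(2, ℤ)} :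
    Inv Γ k f ↔ ∀ γ ∈ Γ, ∀ τ : ℍ, f (γ • τ) = den γ τ ^ k * f τ := by
  refine forall₂_congr fun γ _ => ?_
  rw [funext_iff]
  refine forall_congr' fun τ => ?_
  rw [sl_SL_apply, mul_inv_eq_iff_eq_mul₀ (pow_ne_zero _ (den_ne γ τ)), mul_comm]

end Pool.Agent.Lib.MP_bcfefa_nt.B
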