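import Pool.Agent.Lib.MP_bcfefa_nt.B.QSa

/-!
Parseval identity on a horizontal line.
-/

set_option autoImplicit false

noncomputable section

namespace Pool.Agent.Lib.MP_bcfefa_nt.B

open Finset CongruenceSubgroup UpperHalfPlane Matrix MeasureTheory Complex ModularGroup Filter
open Pool.Agent.Lib.MP_88d29b_nt.G
open scoped MatrixGroups ModularForm Manifold ComplexConjugate Topology

lemma par_exch {F : ℕ → ℝ → ℂ} {G : ℝ → ℂ} {u : ℕ → ℝ} (hF : ∀ n, Continuous (F n))
    (hu : Summable u) (hb : ∀ n x, ‖F n x‖ ≤ u n) (hG : ∀ x, HasSum (fun n => F n x) (G x)) :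
    HasSum (fun n => ∫ x in (0 : ℝ)..1, F n x) (∫ x in (0 : ℝ)..1, G x) :=
  intervalIntegral.hasSum_integral_of_dominated_convergence (fun n _ => u n)
    (fun n => (hF n).aestronglyMeasurable) (fun n => ae_of_all _ fun x _ => hb n x)
    (ae_of_all _ fun _ _ => hu) intervalIntegrable_const (ae_of_all _ fun x _ => hG x)

/-- The exponentials on the line of height `y`. -/
def parE (y : ℝ) (n : ℕ) (x : ℝ) : ℂ := ee (n * ((x : ℂ) + y * Complex.I))

lemma par_cont (y : ℝ) (n : ℕ) : Continuous (parE y n) := by
  unfold parE ee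
  fun_prop

lemma par_norm (y : ℝ) (n : ℕ) (x : ℝ) : ‖parE y n x‖ = Real.exp (-2 * Real.pi * n * y) := by
  rw [parE, norm_ee, mul_assoc (-2 * Real.pi)]
  simp

lemma par_hasSum {f : ℍ → ℂ} {a : ℕ → ℂ} (h : QS f a) {y : ℝ} (hy : 0 < y) (x : ℝ) :
    HasSum (fun n => a n * parE y n x) (f (pt x y)) := by
  have h1 := qs_iff.1 h (pt x y)
  rwa [coe_pt x hy] at h1

lemma par_orth (y : ℝ) (n m : ℕ) : ∫ x in (0 : ℝ)..1, conj (parE y n x) * parE y m x =
    if m = n then (Real.exp (-4 * Real.pi * n * y) : ℂ) else 0 := by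
  have h1 : ∀ x : ℝ, conj (parE y n x) * parE y m x = ee ((n + m) * (y * Complex.I)) *
      Complex.exp (2 * Real.pi * Complex.I * ((m - n : ℤ) : ℂ) * x) := by
    intro x
    rw [parE, parE, conj_ee, ← ee_add, ee, ee, ← Complex.exp_add]
    congr 1
    simp only [map_mul, map_add, map_natCast, Complex.conj_ofReal, Complex.conj_I]
    push_cast
    ring
  simp only [h1]
  rw [intervalIntegral.integral_const_mul]
  split_ifs with h
  · subst h
    simp only [sub_self, Int.cast_zero, mul_zero, zero_mul, Complex.exp_zero,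
      intervalIntegral.integral_const, sub_zero, one_smul, mul_one, ee]
    push_cast
    congr 1
    linear_combination (4 * (Real.pi : ℂ) * m * y) * Complex.I_mul_I
  · have h2 : ((m - n : ℤ) : ℂ) ≠ 0 := by
      rw [Int.cast_ne_zero, sub_ne_zero]
      exact_mod_cast h
    rw [integral_exp_mul_complex (mul_ne_zero Complex.two_pi_I_ne_zero h2)]
    have h3 := ee_int (m - n)
    rw [ee] at h3
    simp only [Complex.ofReal_one, mul_one, Complex.ofReal_zero, mul_zero, Complex.exp_zero, h3,
      sub_self, zero_div]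

lemma par_coeff {g : ℍ → ℂ} {b : ℕ → ℂ} (h : QS g b) {y : ℝ} (hy : 0 < y) (n : ℕ) :
    ∫ x in (0 : ℝ)..1, conj (parE y n x) * g (pt x y) =
      b n * (Real.exp (-4 * Real.pi * n * y) : ℂ) := by
  have h1 := par_exch (F := fun m x => b m * (conj (parE y n x) * parE y m x))
    (G := fun x => conj (parE y n x) * g (pt x y))
    (fun m => continuous_const.mul
      ((Complex.continuous_conj.comp (par_cont y n)).mul (par_cont y m)))
    ((qs_summable h hy).mul_left (Real.exp (-2 * Real.pi * n * y)))
    (fun m x => by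
      rw [norm_mul, norm_mul, Complex.norm_conj, par_norm, par_norm, mul_left_comm])
    (fun x => by
      simpa only [mul_left_comm] using (par_hasSum h hy x).mul_left (conj (parE y n x)))
  simp only [intervalIntegral.integral_const_mul, par_orth] at h1
  refine h1.unique ?_
  have h2 := hasSum_single (f := fun m => b m *
    if m = n then (Real.exp (-4 * Real.pi * n * y) : ℂ) else 0) n fun m hm => by
      rw [if_neg hm, mul_zero]
  rwa [if_pos rfl] at h2

/-- Sketch: for fixed `y` both series converge normally in `x` (`qs_summable`). First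
`∫ conj (e(n τ)) g τ d x = b n exp(-4 π n y)` by `hasSum_integral_of_summable_norm` (or
`intervalIntegral.hasSum_integral_of_summable_norm`, or `integral_tsum_of_summable_integral_norm`)
and `∫_0^1 e(m x) d x = 0` for an integer `m ≠ 0`; then the same exchange for the series of
`conj f`, with `g` bounded on the line (`qs_gro`). -/
theorem qs_parseval {f g : ℍ → ℂ} {a b : ℕ → ℂ} (h : QS f a) (h' : QS g b) {y : ℝ} (hy : 0 < y) :
    HasSum (fun n : ℕ => conj (a n) * b n * (Real.exp (-4 * Real.pi * n * y) : ℂ))
      (hz (fun τ => conj (f τ) * g τ) y) := by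
  have hb : ∀ m x, ‖b m * parE y m x‖ ≤ ‖b m‖ * Real.exp (-2 * Real.pi * m * y) :=
    fun m x => by rw [norm_mul, par_norm]
  have hc : Continuous fun x : ℝ => g (pt x y) := by
    simp only [← (par_hasSum h' hy _).tsum_eq]
    exact continuous_tsum (fun m => continuous_const.mul (par_cont y m)) (qs_summable h' hy) hb
  have hg : ∀ x : ℝ, ‖g (pt x y)‖ ≤ ∑' m : ℕ, ‖b m‖ * Real.exp (-2 * Real.pi * m * y) :=
    fun x => (par_hasSum h' hy x).norm_le_of_bounded (qs_summable h' hy).hasSum fun m => hb m x
  have h1 := par_exch (F := fun n x => conj (a n) * (conj (parE y n x) * g (pt x y)))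
    (G := fun x => conj (f (pt x y)) * g (pt x y))
    (fun n => continuous_const.mul ((Complex.continuous_conj.comp (par_cont y n)).mul hc))
    ((qs_summable h hy).mul_right (∑' m : ℕ, ‖b m‖ * Real.exp (-2 * Real.pi * m * y)))
    (fun n x => by
      rw [norm_mul, norm_mul, Complex.norm_conj, Complex.norm_conj, par_norm, ← mul_assoc]
      exact mul_le_mul_of_nonneg_left (hg x) (by positivity))
    (fun x => by
      have h2 := (Complex.hasSum_conj'.2 (par_hasSum h hy x)).mul_right (g (pt x y))
      simpa only [map_mul, mul_assoc] using h2)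
  simpa only [intervalIntegral.integral_const_mul, par_coeff h' hy, mul_assoc, hz] using h1

end Pool.Agent.Lib.MP_bcfefa_nt.B
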