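import Pool.Agent.Lib.MP_bcfefa_nt.B.QVa
import Pool.Agent.Lib.MP_bcfefa_nt.B.Par

/-!
Vector valued series: products and the Parseval identity.
-/

set_option autoImplicit false

noncomputable section

namespace Pool.Agent.Lib.MP_bcfefa_nt.B

open Finset CongruenceSubgroup UpperHalfPlane Matrix MeasureTheory Complex ModularGroup Filter
open Pool.Agent.Lib.MP_88d29b_nt.G
open scoped MatrixGroups ModularForm Manifold ComplexConjugate Topology

variable {g w : ℍ → Fin 2 → ℂ} {c c' : ℕ → ℂ}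

lemma qvb_cv (c a : ℕ → ℂ) (n j : ℕ) (hj : j < 4) :
    cv (fun n => c (4 * n + j)) a n = cv c (V4 a) (4 * n + j) := by
  unfold cv
  refine Finset.sum_of_injOn (fun p : ℕ × ℕ => (4 * p.1 + j, 4 * p.2)) ?_ ?_ ?_ ?_
  · intro p _ q _ hpq
    simp only [Prod.mk.injEq] at hpq
    ext <;> omega
  · intro p hp
    simp only [Finset.mem_coe, Finset.HasAntidiagonal.mem_antidiagonal] at hp ⊢
    omega
  · intro q hq hn
    have h4 : ¬ 4 ∣ q.2 := by
      rintro ⟨m, hm⟩
      apply hn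
      rw [Finset.HasAntidiagonal.mem_antidiagonal] at hq
      refine ⟨(n - m, m), ?_, ?_⟩
      · simp only [Finset.mem_coe, Finset.HasAntidiagonal.mem_antidiagonal]
        omega
      · ext
        · simp only
          omega
        · simp only
          omega
    simp [V4, h4]
  · intro p _
    simp [V4]

lemma qvb_cont_pt {y : ℝ} (hy : 0 < y) : Continuous fun x : ℝ => pt x y := by
  rw [UpperHalfPlane.isEmbedding_coe.continuous_iff]
  have e : ((↑) : ℍ → ℂ) ∘ (fun x : ℝ => pt x y) = fun x : ℝ => (x : ℂ) + y * Complex.I := by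
    funext x
    exact coe_pt x hy
  rw [e]
  fun_prop

lemma qvb_conj (j : ℕ) (x : ℝ) {y : ℝ} (hy : 0 < y) :
    conj (ee (-(j * (pt x y : ℂ) / 4))) * ee (-(j * (pt x y : ℂ) / 4)) =
      (Real.exp (Real.pi * j * y) : ℂ) := by
  rw [Complex.conj_mul', norm_ee, ← Complex.ofReal_pow, ← Real.exp_nat_mul, coe_pt x hy]
  congr 2
  simp
  ring

lemma qvb_comp (h : QV g c) (h' : QV w c') {y : ℝ} (hy : 0 < y) (j : Fin 2) :
    HasSum (fun n : ℕ => (if n % 4 = (j : ℕ) then conj (c n) * c' n else 0) *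
        (Real.exp (-Real.pi * n * y) : ℂ))
      (hz (fun τ => conj (g τ j) * w τ j) y) := by
  have hj : (j : ℕ) < 2 := j.2
  have H := (qs_parseval (h.qs j) (h'.qs j) hy).mul_left (Real.exp (-(Real.pi * (j : ℕ) * y)) : ℂ)
  have e1 : (Real.exp (-(Real.pi * (j : ℕ) * y)) : ℂ) *
      hz (fun τ => conj (ee (-((j : ℕ) * (τ : ℂ) / 4)) * g τ j) *
        (ee (-((j : ℕ) * (τ : ℂ) / 4)) * w τ j)) y = hz (fun τ => conj (g τ j) * w τ j) y := by
    unfold hz
    rw [← intervalIntegral.integral_const_mul]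
    congr 1
    funext x
    have e2 := qvb_conj j x hy
    have e3 : (Real.exp (-(Real.pi * (j : ℕ) * y)) : ℂ) *
        (Real.exp (Real.pi * (j : ℕ) * y) : ℂ) = 1 := by
      rw [← Complex.ofReal_mul, ← Real.exp_add]
      simp
    simp only [map_mul]
    linear_combination (Real.exp (-(Real.pi * (j : ℕ) * y)) : ℂ) *
      (conj (g (pt x y) j) * w (pt x y) j) * e2 + (conj (g (pt x y) j) * w (pt x y) j) * e3
  rw [e1] at H
  have hi : Function.Injective fun n : ℕ => 4 * n + (j : ℕ) := fun a b hab => by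
    simp only at hab
    omega
  rw [← hi.hasSum_iff]
  · refine H.congr_fun ?_
    intro n
    have e4 : (4 * n + (j : ℕ)) % 4 = j := by omega
    simp only [Function.comp_apply, e4, if_true]
    have e5 : (Real.exp (-Real.pi * ((4 * n + (j : ℕ) : ℕ) : ℝ) * y) : ℂ) =
        (Real.exp (-(Real.pi * (j : ℕ) * y)) : ℂ) * (Real.exp (-4 * Real.pi * n * y) : ℂ) := by
      rw [← Complex.ofReal_mul, ← Real.exp_add]
      congr 2
      push_cast
      ring
    rw [e5]
    ring
  · intro n hn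
    have : ¬ n % 4 = (j : ℕ) := by
      intro e
      apply hn
      exact ⟨n / 4, by simp only; omega⟩
    simp [this]

/-- Sketch: `QV.of_qs`, `qs_mul`; at index `4 n + j` only `p.2 = 4 m` contributes and then
`p.1 = 4 (n - m) + j` (`Finset.sum_bij` or `Finset.sum_of_injOn`). -/
theorem QV.smul_fun {A : ℍ → ℂ} {a : ℕ → ℂ} (hA : QS A a) (h : QV g c) :
    QV (fun τ => A τ • g τ) (cv c (V4 a)) := by
  refine QV.of_qs fun j => ?_
  have hj : (j : ℕ) < 4 := lt_trans j.2 (by norm_num)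
  have H := qs_mul (h.qs j) hA
  have e1 : (fun τ : ℍ => ee (-((j : ℕ) * (τ : ℂ) / 4)) * (A τ • g τ) j) =
      (fun τ : ℍ => ee (-((j : ℕ) * (τ : ℂ) / 4)) * g τ j) * A := by
    funext τ
    simp only [Pi.smul_apply, smul_eq_mul, Pi.mul_apply]
    ring
  have e2 : (fun n => cv c (V4 a) (4 * n + j)) = cv (fun n => c (4 * n + j)) a := by
    funext n
    exact (qvb_cv c a n j hj).symm
  rw [e1, e2]
  exact H

/-- Sketch: `e(-τ / 4) g_0 w_1 = (g_0) (e(-τ / 4) w_1)`, `qs_mul`, `QS.add`, `QS.smul`. -/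
theorem QV.wedge (h : QV g c) (h' : QV w c') :
    ∃ e : ℕ → ℂ, QS (fun τ => ee (-((τ : ℂ) / 4)) * wg (g τ) (w τ)) e ∧
      e 0 = c 0 * c' 1 - c 1 * c' 0 := by
  have H := (qs_mul (h.qs 0) (h'.qs 1)).add ((qs_mul (h.qs 1) (h'.qs 0)).smul (-1))
  have e1 : (fun τ : ℍ => ee (-((τ : ℂ) / 4)) * wg (g τ) (w τ)) =
      (fun τ : ℍ => ee (-(((0 : Fin 2) : ℕ) * (τ : ℂ) / 4)) * g τ 0) *
        (fun τ : ℍ => ee (-(((1 : Fin 2) : ℕ) * (τ : ℂ) / 4)) * w τ 1) +
      (-1 : ℂ) • ((fun τ : ℍ => ee (-(((1 : Fin 2) : ℕ) * (τ : ℂ) / 4)) * g τ 1) *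
        (fun τ : ℍ => ee (-(((0 : Fin 2) : ℕ) * (τ : ℂ) / 4)) * w τ 0)) := by
    funext τ
    simp [wg]
    ring
  rw [e1]
  refine ⟨_, H, ?_⟩
  simp [cv]
  ring

/-- Sketch: `qs_parseval` for `QV.qs` in each component;
`conj (e(j τ / 4)) e(j τ / 4) = exp(-π j y)`; then put the two series together along
`n ↦ 4 n + j` (`Function.Injective.hasSum_iff`, `HasSum.add`). -/
theorem QV.parseval (h : QV g c) (h' : QV w c') {y : ℝ} (hy : 0 < y) :
    HasSum (fun n : ℕ => (if n % 4 < 2 then conj (c n) * c' n else 0) *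
        (Real.exp (-Real.pi * n * y) : ℂ))
      (hz (fun τ => star (g τ) ⬝ᵥ w τ) y) := by
  have H := (qvb_comp h h' hy 0).add (qvb_comp h h' hy 1)
  have hc : ∀ j : Fin 2, Continuous fun x : ℝ => conj (g (pt x y) j) * w (pt x y) j := by
    intro j
    have h1 : Continuous fun x : ℝ => g (pt x y) j :=
      (continuous_apply j).comp (h.continuous.comp (qvb_cont_pt hy))
    have h2 : Continuous fun x : ℝ => w (pt x y) j :=
      (continuous_apply j).comp (h'.continuous.comp (qvb_cont_pt hy))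
    exact (Complex.continuous_conj.comp h1).mul h2
  have e1 : hz (fun τ => star (g τ) ⬝ᵥ w τ) y =
      hz (fun τ => conj (g τ 0) * w τ 0) y + hz (fun τ => conj (g τ 1) * w τ 1) y := by
    unfold hz
    rw [← intervalIntegral.integral_add ((hc 0).intervalIntegrable _ _)
      ((hc 1).intervalIntegrable _ _)]
    congr 1
    funext x
    simp [dotProduct, Fin.sum_univ_two]
  rw [e1]
  refine H.congr_fun ?_
  intro n
  have : n % 4 = 0 ∨ n % 4 = 1 ∨ n % 4 = 2 ∨ n % 4 = 3 := by omega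
  rcases this with e | e | e | e <;> simp [e]

end Pool.Agent.Lib.MP_bcfefa_nt.B
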