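import Pool.Agent.Lib.MP_bcfefa_nt.B.MFa

/-!
The second Rankin-Cohen bracket.
-/

set_option autoImplicit false

noncomputable section

namespace Pool.Agent.Lib.MP_bcfefa_nt.B

open Finset CongruenceSubgroup UpperHalfPlane Matrix MeasureTheory Complex ModularGroup Filter
open Pool.Agent.Lib.MP_88d29b_nt.G
open scoped MatrixGroups ModularForm Manifold ComplexConjugate Topology

theorem rc_hd {F : ℍ → ℂ} (hF : MDifferentiable 𝓘(ℂ) 𝓘(ℂ) F) (τ : ℍ) :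
    HasDerivAt (F ∘ ofComplex) (2 * Real.pi * Complex.I * DD F τ) τ := by
  rw [DD, Derivative.normalizedDerivOfComplex, mul_inv_cancel_left₀ Complex.two_pi_I_ne_zero]
  exact (UpperHalfPlane.mdifferentiableAt_iff.mp (hF τ)).hasDerivAt

theorem rc_pow (k : ℕ) (t : ℂ) : (k : ℂ) * t ^ (k - 1) * t = k * t ^ k := by
  rcases k with _ | k
  · simp
  · rw [Nat.add_sub_cancel, pow_succ, mul_assoc]

/-- Differentiate `F(-1 / τ) = τ ^ k G(τ) + c τ ^ l H(τ)`. -/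
theorem rc_key {F G H : ℍ → ℂ} (hF : MDifferentiable 𝓘(ℂ) 𝓘(ℂ) F)
    (hG : MDifferentiable 𝓘(ℂ) 𝓘(ℂ) G) (hH : MDifferentiable 𝓘(ℂ) 𝓘(ℂ) H) {k l : ℕ} {c : ℂ}
    (h : ∀ τ : ℍ, F (S • τ) = (τ : ℂ) ^ k * G τ + c * ((τ : ℂ) ^ l * H τ)) (τ : ℍ) :
    DD F (S • τ) = (τ : ℂ) ^ (k + 2) * DD G τ +
      k * (2 * Real.pi * Complex.I)⁻¹ * (τ : ℂ) ^ (k + 1) * G τ +
      c * ((τ : ℂ) ^ (l + 2) * DD H τ +
        l * (2 * Real.pi * Complex.I)⁻¹ * (τ : ℂ) ^ (l + 1) * H τ) := by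
  have h0 : (τ : ℂ) ≠ 0 := τ.ne_zero
  have h1 : HasDerivAt (fun w : ℂ => -1 / w) (((τ : ℂ) ^ 2)⁻¹) τ := by
    have h1 := (hasDerivAt_inv h0).neg
    rw [neg_neg] at h1
    simp only [neg_div, one_div]
    exact h1
  have h2 := rc_hd hF (S • τ)
  rw [coe_S_smul] at h2
  have h3 := h2.comp (τ : ℂ) h1
  have h4 := ((hasDerivAt_pow k (τ : ℂ)).mul (rc_hd hG τ)).add
    (((hasDerivAt_pow l (τ : ℂ)).mul (rc_hd hH τ)).const_mul c)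
  have h5 := h3.unique (h4.congr_of_eventuallyEq (by
    filter_upwards [isOpen_upperHalfPlaneSet.mem_nhds τ.im_pos] with w hw
    have h6 := coe_S_smul ⟨w, hw⟩
    simp only [Function.comp_apply, Pi.add_apply, Pi.mul_apply, ofComplex_apply_of_im_pos hw]
    rw [← show ((S • (⟨w, hw⟩ : ℍ) : ℍ) : ℂ) = -1 / w from h6, ofComplex_apply]
    exact h ⟨w, hw⟩))
  simp only [Function.comp_apply, ofComplex_apply] at h5
  have hp := mul_inv_cancel₀ Complex.two_pi_I_ne_zero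
  have ht := mul_inv_cancel₀ (pow_ne_zero 2 h0)
  have hk := rc_pow k τ
  have hl := rc_pow l τ
  generalize (2 * Real.pi * Complex.I : ℂ)⁻¹ = κ at hp ⊢
  generalize (2 * Real.pi * Complex.I : ℂ) = P at hp h5
  generalize ((τ : ℂ) ^ 2)⁻¹ = u at ht h5
  linear_combination κ * (τ : ℂ) ^ 2 * h5 - P * κ * DD F (S • τ) * ht +
    ((τ : ℂ) ^ (k + 2) * DD G τ + c * (τ : ℂ) ^ (l + 2) * DD H τ - DD F (S • τ)) * hp +
    κ * τ * G τ * hk + c * κ * τ * H τ * hl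

theorem rc_S {μ : ℕ} {F : ℍ → ℂ} {a : ℕ → ℂ} (h : IsM μ F a) (τ : ℍ) :
    F (S • τ) = (τ : ℂ) ^ μ * F τ := by rw [h.inv, den_S]

/-- Sketch: `Derivative.normalizedDerivOfComplex_SL_slash` for `γ = S`, or differentiate
`F(-1 / τ) = τ ^ μ F(τ)`. -/
theorem IsM.D_S {μ : ℕ} {F : ℍ → ℂ} {a : ℕ → ℂ} (h : IsM μ F a) (τ : ℍ) :
    DD F (S • τ) = (τ : ℂ) ^ (μ + 2) * DD F τ +
      μ * (2 * Real.pi * Complex.I)⁻¹ * (τ : ℂ) ^ (μ + 1) * F τ := by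
  have hF := qs_mdiff h.qs
  rw [rc_key hF hF hF (k := μ) (l := 0) (c := 0) (fun σ => by
    rw [rc_S h, zero_mul, add_zero]) τ, zero_mul, add_zero]

theorem IsM.DD_S {μ : ℕ} {F : ℍ → ℂ} {a : ℕ → ℂ} (h : IsM μ F a) (τ : ℍ) :
    DD (DD F) (S • τ) = (τ : ℂ) ^ (μ + 4) * DD (DD F) τ +
      (2 * μ + 2) * (2 * Real.pi * Complex.I)⁻¹ * (τ : ℂ) ^ (μ + 3) * DD F τ +
      μ * (μ + 1) * (2 * Real.pi * Complex.I)⁻¹ ^ 2 * (τ : ℂ) ^ (μ + 2) * F τ := by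
  have hF := qs_mdiff h.qs
  have hD := qs_mdiff (qs_D h.qs)
  rw [rc_key hD hD hF (k := μ + 2) (l := μ + 1) (c := μ * (2 * Real.pi * Complex.I)⁻¹)
    (fun σ => by rw [h.D_S, mul_assoc (_ * _)]) τ]
  push_cast
  ring

/-- Sketch: the function is `(2 μ + 2) D F D G - μ (D D F G + F D D G)`; `isM_of_S`, `qs_mul`,
`qs_D`. -/
theorem rc_mem {μ : ℕ} {a b : ℕ → ℂ} (ha : a ∈ MS μ) (hb : b ∈ MS μ) :
    (fun n => ∑ p ∈ antidiagonal n, rcw μ p * (a p.1 * b p.2)) ∈ MS (2 * (μ + 2)) := by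
  obtain ⟨F, hF⟩ := ha
  obtain ⟨G, hG⟩ := hb
  have h1 := ((qs_mul (qs_D hF.qs) (qs_D hG.qs)).smul (2 * μ + 2)).add
    (((qs_mul (qs_D (qs_D hF.qs)) hG.qs).add (qs_mul hF.qs (qs_D (qs_D hG.qs)))).smul (-μ))
  have h2 := (isM_of_S (k := 2 * (μ + 2)) h1 fun τ => by
    simp only [Pi.add_apply, Pi.smul_apply, Pi.mul_apply, smul_eq_mul, hF.DD_S, hG.DD_S, hF.D_S,
      hG.D_S, rc_S hF, rc_S hG]
    ring).mem
  refine Eq.mp (congrArg (· ∈ MS (2 * (μ + 2))) (funext fun n => ?_)) h2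
  simp only [Pi.add_apply, Pi.smul_apply, smul_eq_mul, cv, mul_sum, ← sum_add_distrib, rcw]
  refine sum_congr rfl fun p _ => ?_
  ring

end Pool.Agent.Lib.MP_bcfefa_nt.B
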