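import Pool.Agent.Lib.MP_bcfefa_nt.B.HkA

/-!
The Shimura lift on coefficients: linearity, kernel, Hecke operators.
-/

set_option autoImplicit false

noncomputable section

namespace Pool.Agent.Lib.MP_bcfefa_nt.B

open Finset CongruenceSubgroup UpperHalfPlane Matrix MeasureTheory Complex ModularGroup Filter
open Pool.Agent.Lib.MP_88d29b_nt.G
open scoped MatrixGroups ModularForm Manifold ComplexConjugate Topology

theorem cf_add (μ : ℕ) (a a' b b' : ℕ → ℂ) : cf μ (a + a') (b + b') = cf μ a b + cf μ a' b' := by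
  funext n
  simp only [cf, Pi.add_apply, ← Finset.sum_add_distrib]
  refine Finset.sum_congr rfl fun p _ => ?_
  simp only [V4, Pi.add_apply]
  split_ifs <;> ring

theorem cf_smul (μ : ℕ) (x : ℂ) (a b : ℕ → ℂ) : cf μ (x • a) (x • b) = x • cf μ a b := by
  funext n
  simp only [cf, Pi.smul_apply, smul_eq_mul, Finset.mul_sum]
  refine Finset.sum_congr rfl fun p _ => ?_
  simp only [V4, Pi.smul_apply, smul_eq_mul]
  split_ifs <;> ring

theorem cf_zero_right (μ : ℕ) (a : ℕ → ℂ) : cf μ a 0 = cv thc (V4 a) := by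
  funext n
  simp only [cf, cv]
  refine Finset.sum_congr rfl fun p _ => ?_
  have h : V4 0 p.2 = 0 := by simp [V4]
  rw [h, mul_zero, add_zero]

theorem thc_sup {n : ℕ} (hn : 2 ≤ n % 4) : thc n = 0 := by
  have h0 : n ≠ 0 := by
    rintro rfl
    omega
  have h1 : ¬ IsSquare n := by
    rintro ⟨r, rfl⟩
    have h2 : r % 4 = 0 ∨ r % 4 = 1 ∨ r % 4 = 2 ∨ r % 4 = 3 := by omega
    rcases h2 with h2 | h2 | h2 | h2 <;> rw [Nat.mul_mod, h2] at hn <;> omega
  rw [thc, if_neg h0, if_neg h1]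

theorem cf_sup (μ : ℕ) (a b : ℕ → ℂ) {n : ℕ} (hn : 2 ≤ n % 4) : cf μ a b n = 0 := by
  refine Finset.sum_eq_zero fun p hp => ?_
  have h1 : p.1 + p.2 = n := by simpa using hp
  by_cases h4 : 4 ∣ p.2
  · rw [thc_sup (n := p.1) (by omega), zero_mul]
  · simp only [V4, if_neg h4, mul_zero, add_zero]

theorem sh_add (lam : ℕ) (c c' : ℕ → ℂ) : sh lam (c + c') = sh lam c + sh lam c' := by
  funext n
  simp only [sh, Pi.add_apply, mul_add, Finset.sum_add_distrib]

theorem sh_smul (lam : ℕ) (x : ℂ) (c : ℕ → ℂ) : sh lam (x • c) = x • sh lam c := by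
  funext n
  simp only [sh, Pi.smul_apply, smul_eq_mul, Finset.mul_sum, mul_left_comm]

/-- Sketch: strong induction, isolate `d = 1`. -/
theorem sh_zero {lam : ℕ} {c : ℕ → ℂ} (h : ∀ n, 0 < n → sh lam c n = 0) :
    ∀ n, 0 < n → c (n ^ 2) = 0 := by
  intro n
  induction n using Nat.strong_induction_on with
  | _ n ih =>
    intro hn
    have h1 := h n hn
    rw [sh, Finset.sum_eq_single 1] at h1
    · simpa using h1
    · intro d hd hd1
      have hdn : d ∣ n := Nat.dvd_of_mem_divisors hd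
      have hd0 : 0 < d := Nat.pos_of_mem_divisors hd
      rw [ih (n / d) (Nat.div_lt_self hn (by omega)) (Nat.div_pos (Nat.le_of_dvd hn hdn) hd0),
        mul_zero]
    · intro h2
      exact absurd (Nat.one_mem_divisors.2 hn.ne') h2

theorem shb_div_mul {l n : ℕ} (hl : l.Prime) (hn : 0 < n) (G : ℕ → ℂ) :
    ∑ d ∈ (l * n).divisors, G d =
      ∑ d ∈ n.divisors, G d + ∑ d ∈ n.divisors, if l ∣ n / d then 0 else G (l * d) := by
  have hl0 : 0 < l := hl.pos
  have hln : l * n ≠ 0 := (Nat.mul_pos hl0 hn).ne'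
  rw [← Finset.sum_filter_add_sum_filter_not (l * n).divisors (fun d => d ∣ n)]
  have e1 : (l * n).divisors.filter (fun d => d ∣ n) = n.divisors := by
    ext d
    simp only [Finset.mem_filter, Nat.mem_divisors]
    exact ⟨fun h => ⟨h.2, hn.ne'⟩, fun h => ⟨⟨h.1.mul_left l, hln⟩, h.1⟩⟩
  have e2 : (l * n).divisors.filter (fun d => ¬ d ∣ n) =
      (n.divisors.filter fun d => ¬ l ∣ n / d).image fun d => l * d := by
    ext e
    simp only [Finset.mem_filter, Nat.mem_divisors, Finset.mem_image]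
    constructor
    · rintro ⟨⟨h1, -⟩, h2⟩
      have h3 : l ∣ e := by
        by_contra h3
        exact h2 (((Nat.Prime.coprime_iff_not_dvd hl).2 h3).symm.dvd_of_dvd_mul_left h1)
      obtain ⟨d, rfl⟩ := h3
      have h4 : d ∣ n := Nat.dvd_of_mul_dvd_mul_left hl0 h1
      refine ⟨d, ⟨⟨h4, hn.ne'⟩, fun h5 => h2 ?_⟩, rfl⟩
      rw [mul_comm]
      exact (Nat.dvd_div_iff_mul_dvd h4).1 h5
    · rintro ⟨d, ⟨⟨h1, -⟩, h2⟩, rfl⟩
      refine ⟨⟨Nat.mul_dvd_mul_left l h1, hln⟩, fun h3 => h2 ?_⟩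
      rw [mul_comm] at h3
      exact (Nat.dvd_div_iff_mul_dvd h1).2 h3
  rw [e1, e2, Finset.sum_image fun a _ b _ hab => Nat.eq_of_mul_eq_mul_left hl0 hab,
    Finset.sum_filter]
  simp only [ite_not]

theorem shb_div_div {l n : ℕ} (hl0 : 0 < l) (hn : 0 < n) (G : ℕ → ℂ) :
    (∑ d ∈ n.divisors, if l ∣ n / d then G d else 0) =
      if l ∣ n then ∑ d ∈ (n / l).divisors, G d else 0 := by
  rw [← Finset.sum_filter]
  split_ifs with hln
  · refine Finset.sum_congr ?_ fun _ _ => rfl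
    ext d
    simp only [Finset.mem_filter, Nat.mem_divisors]
    constructor
    · rintro ⟨⟨h1, -⟩, h2⟩
      refine ⟨(Nat.dvd_div_iff_mul_dvd hln).2 ?_, (Nat.div_pos (Nat.le_of_dvd hn hln) hl0).ne'⟩
      rw [mul_comm]
      exact (Nat.dvd_div_iff_mul_dvd h1).1 h2
    · rintro ⟨h1, -⟩
      have h2 : l * d ∣ n := (Nat.dvd_div_iff_mul_dvd hln).1 h1
      have h3 : d ∣ n := Dvd.dvd.trans (Dvd.intro_left l rfl) h2
      refine ⟨⟨h3, hn.ne'⟩, (Nat.dvd_div_iff_mul_dvd h3).2 ?_⟩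
      rwa [mul_comm]
  · refine Finset.sum_eq_zero fun d hd => ?_
    simp only [Finset.mem_filter, Nat.mem_divisors] at hd
    exact absurd (hd.2.trans (Nat.div_dvd_of_dvd hd.1.1)) hln

/-- The lift intertwines `T(l ^ 2)` and `T_l`. Sketch: put `C(m) = c(m ^ 2)`, `t = lam - 1`, so
`2 lam - 1 = 2 t + 1`. By `hh_prime` the right side is `A(l n) + [l ∣ n] l ^ (2 t + 1) A(n / l)`
with `A(n) = ∑_{d ∣ n} d ^ t C(n / d)`. The divisors of `l n` that do not divide `n` are the `l d`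
with `d ∣ n`, `l ∤ n / d`; the divisors `d` of `n` with `l ∣ n / d` are the divisors of `n / l`. -/
theorem sh_hecke {lam l : ℕ} (hlam : 0 < lam) (hl : l.Prime) {c c' : ℕ → ℂ}
    (h : ∀ m : ℕ, c' (m ^ 2) = c (l ^ 2 * m ^ 2) +
      if l ∣ m then (l : ℂ) ^ (2 * lam - 1) * c ((m / l) ^ 2)
      else (l : ℂ) ^ (lam - 1) * c (m ^ 2)) {n : ℕ} (hn : 0 < n) :
    sh lam c' n = hh (2 * lam) (sh lam c) l n := by
  have hl0 : 0 < l := hl.pos
  rw [hh_prime _ _ hl, sh, sh, shb_div_mul hl hn]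
  have e : (if l ∣ n then (l : ℂ) ^ (2 * lam - 1) * sh lam c (n / l) else 0) =
      ∑ d ∈ n.divisors, if l ∣ n / d then
        (d : ℂ) ^ (lam - 1) * ((l : ℂ) ^ (2 * lam - 1) * c ((n / d / l) ^ 2)) else 0 := by
    rw [shb_div_div hl0 hn]
    split_ifs with hln
    · rw [sh, Finset.mul_sum]
      refine Finset.sum_congr rfl fun d _ => ?_
      rw [Nat.div_div_eq_div_mul, Nat.div_div_eq_div_mul, mul_comm l d, mul_left_comm]
    · rfl
  rw [e, ← Finset.sum_add_distrib, ← Finset.sum_add_distrib]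
  refine Finset.sum_congr rfl fun d hd => ?_
  have hdn : d ∣ n := Nat.dvd_of_mem_divisors hd
  rw [h, Nat.mul_div_assoc l hdn, mul_pow l, Nat.mul_div_mul_left n d hl0]
  split_ifs
  · ring
  · push_cast
    ring

end Pool.Agent.Lib.MP_bcfefa_nt.B
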