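import Pool.Agent.Lib.MP_bcfefa_nt.B.Dth
import Pool.Agent.Lib.MP_bcfefa_nt.B.QVb
import Pool.Agent.Lib.MP_bcfefa_nt.B.RC
import Pool.Agent.Lib.MP_bcfefa_nt.B.ShB

/-!
The vector valued form attached to a pair of modular forms.
-/

set_option autoImplicit false

noncomputable section

namespace Pool.Agent.Lib.MP_bcfefa_nt.B

open Finset CongruenceSubgroup UpperHalfPlane Matrix MeasureTheory Complex ModularGroup Filter
open Pool.Agent.Lib.MP_88d29b_nt.G
open scoped MatrixGroups ModularForm Manifold ComplexConjugate Topology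

theorem isV_th : IsV 0 th thc := by
  exact ⟨fun γ τ => by rw [pow_zero, one_smul, th_cov], qv_th, fun _ hn => thc_sup hn⟩

/-- Sketch: `QV.smul_fun`, `th_cov`. -/
theorem isV_smul_th {k : ℕ} {A : ℍ → ℂ} {a : ℕ → ℂ} (hA : IsM k A a) :
    IsV k (fun τ => A τ • th τ) (cv thc (V4 a)) := by
  refine ⟨fun γ τ => ?_, QV.smul_fun hA.qs qv_th, fun n hn => ?_⟩
  · rw [hA.inv, th_cov, mulVec_smul, smul_smul]
  · rw [← cf_zero_right 0]
    exact cf_sup _ _ _ hn

/-- Sketch: `isV_of_S`; series by `QV.smul_fun`, `qs_D`, `QV.D qv_th`; inversion by `IsM.D_S`,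
`Dth_S`, `th_cov`, `Jm_S`. -/
theorem isV_vec {μ : ℕ} {A G : ℍ → ℂ} {a b : ℕ → ℂ} (hA : IsM (μ + 2) A a) (hG : IsM μ G b) :
    IsV (μ + 2) (vec μ A G) (cf μ a b) := by
  refine isV_of_S ?_ (fun n hn => cf_sup _ _ _ hn) fun τ => ?_
  · have h := (QV.smul_fun (hA.qs.add ((qs_D hG.qs).smul 2)) qv_th).add
      ((QV.smul_fun hG.qs (QV.D qv_th)).smul (-(4 * μ : ℂ)))
    have e1 : vec μ A G = (fun τ => (A + (2 : ℂ) • DD G) τ • th τ) +
        (-(4 * μ : ℂ)) • fun τ => G τ • Dv th τ := by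
      funext τ j
      simp only [vec, Pi.add_apply, Pi.sub_apply, Pi.smul_apply, smul_eq_mul]
      ring
    have e2 : cf μ a b = cv thc (V4 (a + (2 : ℂ) • fun n : ℕ => (n : ℂ) * b n)) +
        (-(4 * μ : ℂ)) • cv (fun n : ℕ => (n : ℂ) / 4 * thc n) (V4 b) := by
      funext n
      simp only [cf, cv, Pi.add_apply, Pi.smul_apply, smul_eq_mul, mul_sum, ← sum_add_distrib]
      refine sum_congr rfl fun p _ => ?_
      by_cases h4 : 4 ∣ p.2
      · obtain ⟨m, hm⟩ := h4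
        simp only [V4, hm, dvd_mul_right, if_true, Nat.mul_div_cancel_left m (by norm_num : 0 < 4),
          Pi.add_apply, Pi.smul_apply, smul_eq_mul]
        push_cast
        ring
      · simp [V4, h4]
    rw [e1, e2]
    exact h
  · have h0 : (τ : ℂ) ≠ 0 := τ.ne_zero
    have hp : (Real.pi : ℂ) ≠ 0 := Complex.ofReal_ne_zero.2 Real.pi_ne_zero
    rw [vec, vec, hA.inv, hG.inv, hG.D_S, th_cov, Dth_S, Jm_S, den_S, mulVec_sub, mulVec_add,
      mulVec_smul, mulVec_smul, mulVec_smul]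
    funext j
    simp only [Pi.add_apply, Pi.sub_apply, Pi.smul_apply, smul_eq_mul]
    field_simp
    ring

theorem cf_mem {μ : ℕ} {a b : ℕ → ℂ} (ha : a ∈ MS (μ + 2)) (hb : b ∈ MS μ) :
    cf μ a b ∈ VS (μ + 2) := (isV_vec (isM_fn ha) (isM_fn hb)).mem

end Pool.Agent.Lib.MP_bcfefa_nt.B
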