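import Pool.Agent.Lib.MP_bcfefa_nt.B.Wr
import Pool.Agent.Lib.MP_bcfefa_nt.B.Vec

/-!
Every vector valued form comes from a pair of modular forms.
-/

set_option autoImplicit false

noncomputable section

namespace Pool.Agent.Lib.MP_bcfefa_nt.B

open Finset CongruenceSubgroup UpperHalfPlane Matrix MeasureTheory Complex ModularGroup Filter
open Pool.Agent.Lib.MP_88d29b_nt.G
open scoped MatrixGroups ModularForm Manifold ComplexConjugate Topology

theorem dcp_smul (x y : ℂ) (u v : Fin 2 → ℂ) : wg (x • u) (y • v) = x * y * wg u v := by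
  simp only [wg, Pi.smul_apply, smul_eq_mul]
  ring

theorem dcp_add (x : ℂ) (u v w : Fin 2 → ℂ) : wg u (v + x • w) = wg u v + x * wg u w := by
  simp only [wg, Pi.add_apply, Pi.smul_apply, smul_eq_mul]
  ring

theorem dcp_det (τ : ℍ) : (JS τ).det ≠ 0 := by
  rw [← Jm_S]
  exact (isUnit_det_Jm S τ).ne_zero

theorem dcp_Wr (τ : ℍ) : Wr (S • τ) = (τ : ℂ) ^ 2 * (JS τ).det * Wr τ := by
  rw [Wr, th_cov, Jm_S, Dth_S, ← one_smul ℂ (JS τ *ᵥ th τ), dcp_smul, wg_mulVec, dcp_add, Wr]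
  simp only [wg]
  ring

/-- Sketch: `A = wg (g τ) (Dv th τ) / Wr τ`; `g τ = A τ • th τ` by Cramer; for the inversion use
`wg_mulVec`, `det_JS`, `Dth_S`, `Wr_S` and `wg g th = 0`; `exists_isM_div`, `QV.wedge`. -/
theorem dec_th {k : ℕ} {g : ℍ → Fin 2 → ℂ} {c : ℕ → ℂ} (h : IsV k g c)
    (h0 : ∀ τ, wg (g τ) (th τ) = 0) : ∃ A a, IsM k A a ∧ g = fun τ => A τ • th τ := by
  obtain ⟨e, he, -⟩ := h.qv.wedge (QV.D qv_th)
  obtain ⟨a, ha⟩ := exists_isM_div (k := k) he fun τ => by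
    have h1 := dcp_det τ
    have h2 := τ.ne_zero
    have h3 := Wr_ne_zero τ
    rw [dcp_Wr, h.cov, den_S, Jm_S, Dth_S, dcp_smul, wg_mulVec, dcp_add, h0]
    field_simp
    ring
  refine ⟨_, a, ha, funext fun τ => funext fun j => ?_⟩
  have h3 := Wr_ne_zero τ
  have h4 := h0 τ
  rw [Pi.smul_apply, smul_eq_mul, div_mul_eq_mul_div, eq_div_iff h3]
  simp only [Wr, wg] at h4 ⊢
  fin_cases j
  · simp only [Fin.zero_eta]
    linear_combination -Dv th τ 0 * h4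
  · simp only [Fin.mk_one]
    linear_combination -Dv th τ 1 * h4

/-- Sketch: `G = (4 μ)⁻¹ • wg (g τ) (th τ) / Wr τ` has weight `μ` (`exists_isM_div`); apply
`dec_th` to `g - vec μ 0 G` (`isV_vec`, `IsV.add`, `IsV.smul`); then `g = vec μ A G` and
`IsV.unique`. -/
theorem dec {μ : ℕ} (hμ : 0 < μ) {c : ℕ → ℂ} (h : c ∈ VS (μ + 2)) :
    ∃ a ∈ MS (μ + 2), ∃ b ∈ MS μ, c = cf μ a b := by
  obtain ⟨g, hg⟩ := h
  obtain ⟨e, he, -⟩ := hg.qv.wedge qv_th
  obtain ⟨b, hb⟩ := exists_isM_div (k := μ) he fun τ => by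
    have h1 := dcp_det τ
    have h2 := τ.ne_zero
    have h3 := Wr_ne_zero τ
    rw [dcp_Wr, hg.cov, den_S, th_cov, Jm_S, ← one_smul ℂ (JS τ *ᵥ th τ), dcp_smul, wg_mulVec]
    field_simp
    ring
  have hG := hb.smul (4 * (μ : ℂ))⁻¹
  have hμ' : (μ : ℂ) ≠ 0 := Nat.cast_ne_zero.2 hμ.ne'
  obtain ⟨A, a, hA, hgA⟩ := dec_th (hg.add ((isV_vec (isM_zero (μ + 2)) hG).smul (-1))) fun τ => by
    have h3 := Wr_ne_zero τ
    have h4 : 4 * (μ : ℂ) * ((4 * (μ : ℂ))⁻¹ * (wg (g τ) (th τ) / Wr τ)) * Wr τ =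
        wg (g τ) (th τ) := by field_simp
    simp only [Pi.add_apply, Pi.smul_apply, vec, smul_eq_mul, Pi.sub_apply, wg, Wr] at h4 ⊢
    linear_combination -h4
  refine ⟨a, hA.mem, _, hG.mem, hg.unique (?_ : IsV (μ + 2) g _)⟩
  have e1 : g = vec μ A ((4 * (μ : ℂ))⁻¹ • fun τ => wg (g τ) (th τ) / Wr τ) := by
    funext τ j
    have h5 := congrFun (congrFun hgA τ) j
    simp only [Pi.add_apply, Pi.smul_apply, vec, smul_eq_mul, Pi.sub_apply, Pi.zero_apply] at h5 ⊢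
    linear_combination h5
  have h6 := isV_vec hA hG
  rwa [← e1] at h6

end Pool.Agent.Lib.MP_bcfefa_nt.B
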