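import Pool.Agent.Lib.MP_88d29b_nt.GPet
import Pool.Agent.Lib.MP_88d29b_nt.GQ2

/-!
Definitions for block B: level one modular forms as coefficient sequences, vector valued forms of
weight `λ + 1 / 2` for the theta multiplier, the Shimura lift on coefficients, Hecke operators and
Petersson products.
-/

set_option autoImplicit false

noncomputable section

namespace Pool.Agent.Lib.MP_bcfefa_nt.B

open Finset CongruenceSubgroup UpperHalfPlane Matrix MeasureTheory Complex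
open Pool.Agent.Lib.MP_88d29b_nt.G
open scoped MatrixGroups ModularForm Manifold ComplexConjugate

/-- `e(t) = exp(2 π i t)`. -/
def ee (t : ℂ) : ℂ := Complex.exp (2 * Real.pi * Complex.I * t)

/-- The automorphy factor `c τ + d`. -/
def den (γ : SL(2, ℤ)) (τ : ℍ) : ℂ := (γ 1 0 : ℂ) * τ + (γ 1 1 : ℂ)

/-- The point `(a τ + b) / d`. -/
def af (a b d : ℤ) (τ : ℍ) : ℍ := sm !![a, b; 0, d] τ

/-- The point `x + i y`. -/
def pt (x y : ℝ) : ℍ := ofComplex ((x : ℂ) + (y : ℂ) * Complex.I)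

/-- The operator `q d / d q`. -/
abbrev DD (f : ℍ → ℂ) : ℍ → ℂ := Derivative.normalizedDerivOfComplex f

/-! ### Scalar forms -/

/-- `f = ∑ a_n q ^ n` is a modular form of weight `k` and level one. -/
structure IsM (k : ℕ) (f : ℍ → ℂ) (a : ℕ → ℂ) : Prop where
  inv : ∀ (γ : SL(2, ℤ)) (τ : ℍ), f (γ • τ) = den γ τ ^ k * f τ
  qs : QS f a

/-- The function with the given coefficients. -/
def fn (a : ℕ → ℂ) (τ : ℍ) : ℂ :=
  ∑' n : ℕ, a n * Complex.exp (2 * Real.pi * Complex.I * n * τ)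

lemma IsM.add {k : ℕ} {f g : ℍ → ℂ} {a b : ℕ → ℂ} (h : IsM k f a) (h' : IsM k g b) :
    IsM k (f + g) (a + b) :=
  ⟨fun γ τ => by simp only [Pi.add_apply, h.inv, h'.inv, mul_add], h.qs.add h'.qs⟩

lemma IsM.smul {k : ℕ} {f : ℍ → ℂ} {a : ℕ → ℂ} (c : ℂ) (h : IsM k f a) :
    IsM k (c • f) (c • a) :=
  ⟨fun γ τ => by simp only [Pi.smul_apply, h.inv, smul_eq_mul, mul_left_comm], h.qs.smul c⟩

lemma isM_zero (k : ℕ) : IsM k 0 0 := ⟨fun _ _ => by simp, qs_zero⟩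

/-- The space of coefficient sequences of modular forms of weight `k` and level one. -/
def MS (k : ℕ) : Submodule ℂ (ℕ → ℂ) where
  carrier := {a | ∃ f, IsM k f a}
  add_mem' := fun ⟨_, h⟩ ⟨_, h'⟩ => ⟨_, h.add h'⟩
  zero_mem' := ⟨_, isM_zero k⟩
  smul_mem' := fun c _ ⟨_, h⟩ => ⟨_, h.smul c⟩

lemma IsM.mem {k : ℕ} {f : ℍ → ℂ} {a : ℕ → ℂ} (h : IsM k f a) : a ∈ MS k := ⟨f, h⟩

lemma IsM.fn_eq {k : ℕ} {f : ℍ → ℂ} {a : ℕ → ℂ} (h : IsM k f a) : fn a = f :=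
  funext fun τ => (h.qs τ).tsum_eq

lemma isM_fn {k : ℕ} {a : ℕ → ℂ} (h : a ∈ MS k) : IsM k (fn a) a := by
  obtain ⟨f, hf⟩ := h
  rwa [hf.fn_eq]

/-- `hh k a m` is the coefficient sequence of `T_m f` in weight `k`. -/
def hh (k : ℕ) (a : ℕ → ℂ) (m n : ℕ) : ℂ :=
  ∑ d ∈ (Nat.gcd m n).divisors, (d : ℂ) ^ (k - 1) * a (m * n / d ^ 2)

/-- The first coefficient of the Eisenstein series of weight `k`. -/
def bet (k : ℕ) : ℂ := -(2 * k / bernoulli k : ℂ)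

/-- The coefficients of the Eisenstein series of weight `k`. -/
def es (k n : ℕ) : ℂ := if n = 0 then 1 else bet k * (ArithmeticFunction.sigma (k - 1) n : ℂ)

/-- The coefficients of a product. -/
def cv (a b : ℕ → ℂ) (n : ℕ) : ℂ := ∑ p ∈ antidiagonal n, a p.1 * b p.2

/-- The weight factor of the second Rankin-Cohen bracket of two forms of weight `μ`. -/
def rcw (μ : ℕ) (p : ℕ × ℕ) : ℂ := 2 * p.1 * p.2 - μ * ((p.1 : ℂ) - p.2) ^ 2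

/-! ### The plus space on coefficients -/

/-- The coefficients of `θ = ∑ q ^ (r ^ 2)`. -/
def thc (n : ℕ) : ℂ := if n = 0 then 1 else if IsSquare n then 2 else 0

/-- The coefficients of `f(4 z)`. -/
def V4 (a : ℕ → ℂ) (n : ℕ) : ℂ := if 4 ∣ n then a (n / 4) else 0

/-- `cf μ a b n = ∑_{4 m + r ^ 2 = n} (a m + (2 m - μ r ^ 2) b m)`, the sum over `r ∈ ℤ`, `m ≥ 0`:
the coefficients of `θ A(4 z) + θ D[G(4 z)] / 2 - μ (D θ) G(4 z)`. -/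
def cf (μ : ℕ) (a b : ℕ → ℂ) (n : ℕ) : ℂ :=
  ∑ p ∈ antidiagonal n, thc p.1 * (V4 a p.2 + ((p.2 : ℂ) / 2 - μ * p.1) * V4 b p.2)

/-- The coefficients of the Shimura lift. -/
def sh (lam : ℕ) (c : ℕ → ℂ) (n : ℕ) : ℂ :=
  ∑ d ∈ n.divisors, (d : ℂ) ^ (lam - 1) * c ((n / d) ^ 2)

/-- The input from block A: a form of the plus space of weight `μ + 5 / 2` is determined by its
coefficients at nonzero squares. -/
def Inj (μ : ℕ) : Prop :=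
  ∀ a ∈ MS (μ + 2), ∀ b ∈ MS μ, (∀ n : ℕ, 0 < n → cf μ a b (n ^ 2) = 0) → a = 0 ∧ b = 0

/-! ### Theta functions and vector valued forms -/

/-- The two Jacobi theta functions of index one. -/
def vt (τ : ℍ) (z : ℂ) (j : Fin 2) : ℂ :=
  ∑' n : ℤ, ee ((2 * (n : ℂ) + (j : ℕ)) ^ 2 * τ / 4 + (2 * (n : ℂ) + (j : ℕ)) * z)

/-- The transformation law of the theta functions with matrix `J`. -/
def Law (γ : SL(2, ℤ)) (τ : ℍ) (J : Matrix (Fin 2) (Fin 2) ℂ) : Prop :=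
  ∀ z : ℂ, vt (γ • τ) (z / den γ τ) = ee ((γ 1 0 : ℂ) * z ^ 2 / den γ τ) • J *ᵥ vt τ z

open Classical in
/-- The theta multiplier. -/
def Jm (γ : SL(2, ℤ)) (τ : ℍ) : Matrix (Fin 2) (Fin 2) ℂ :=
  if h : ∃ J, Law γ τ J then h.choose else 0

/-- The theta multiplier of `S`. -/
def JS (τ : ℍ) : Matrix (Fin 2) (Fin 2) ℂ :=
  (-Complex.I * τ / 2) ^ (1 / 2 : ℂ) • !![1, 1; 1, -1]

/-- The theta multiplier of `T`. -/
def JT : Matrix (Fin 2) (Fin 2) ℂ := !![1, 0; 0, Complex.I]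

/-- Component `j` of `g` is `∑_{n ≡ j mod 4} c_n e(n τ / 4)`. -/
def QV (g : ℍ → Fin 2 → ℂ) (c : ℕ → ℂ) : Prop :=
  ∀ (τ : ℍ) (j : Fin 2),
    HasSum (fun n : ℕ => (if n % 4 = (j : ℕ) then c n else 0) * ee (n * τ / 4)) (g τ j)

/-- `g` is a vector valued form of weight `λ + 1 / 2` with coefficients `c`. -/
structure IsV (lam : ℕ) (g : ℍ → Fin 2 → ℂ) (c : ℕ → ℂ) : Prop where
  cov : ∀ (γ : SL(2, ℤ)) (τ : ℍ), g (γ • τ) = den γ τ ^ lam • Jm γ τ *ᵥ g τ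
  qv : QV g c
  sup : ∀ n, 2 ≤ n % 4 → c n = 0

/-- The vector valued function with the given coefficients. -/
def vfn (c : ℕ → ℂ) (τ : ℍ) (j : Fin 2) : ℂ :=
  ∑' n : ℕ, (if n % 4 = (j : ℕ) then c n else 0) * ee (n * τ / 4)

lemma QV.add {g w : ℍ → Fin 2 → ℂ} {c c' : ℕ → ℂ} (h : QV g c) (h' : QV w c') :
    QV (g + w) (c + c') := fun τ j => by
  have e : (fun n : ℕ => (if n % 4 = (j : ℕ) then (c + c') n else 0) * ee (n * τ / 4)) =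
      fun n : ℕ => (if n % 4 = (j : ℕ) then c n else 0) * ee (n * τ / 4) +
        (if n % 4 = (j : ℕ) then c' n else 0) * ee (n * τ / 4) := by
    funext n
    simp only [Pi.add_apply]
    split_ifs <;> ring
  rw [e]
  exact (h τ j).add (h' τ j)

lemma QV.smul {g : ℍ → Fin 2 → ℂ} {c : ℕ → ℂ} (x : ℂ) (h : QV g c) :
    QV (x • g) (x • c) := fun τ j => by
  have e : (fun n : ℕ => (if n % 4 = (j : ℕ) then (x • c) n else 0) * ee (n * τ / 4)) =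
      fun n : ℕ => x * ((if n % 4 = (j : ℕ) then c n else 0) * ee (n * τ / 4)) := by
    funext n
    simp only [Pi.smul_apply, smul_eq_mul]
    split_ifs <;> ring
  rw [e]
  exact (h τ j).mul_left x

lemma qv_zero : QV 0 0 := fun τ j => by
  simp [hasSum_zero]

lemma IsV.add {lam : ℕ} {g w : ℍ → Fin 2 → ℂ} {c c' : ℕ → ℂ} (h : IsV lam g c)
    (h' : IsV lam w c') : IsV lam (g + w) (c + c') :=
  ⟨fun γ τ => by simp only [Pi.add_apply, h.cov, h'.cov, mulVec_add, smul_add], h.qv.add h'.qv,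
    fun n hn => by simp [h.sup n hn, h'.sup n hn]⟩

lemma IsV.smul {lam : ℕ} {g : ℍ → Fin 2 → ℂ} {c : ℕ → ℂ} (x : ℂ) (h : IsV lam g c) :
    IsV lam (x • g) (x • c) :=
  ⟨fun γ τ => by simp only [Pi.smul_apply, h.cov, mulVec_smul, smul_comm x], h.qv.smul x,
    fun n hn => by simp [h.sup n hn]⟩

lemma isV_zero (lam : ℕ) : IsV lam 0 0 := ⟨fun _ _ => by simp, qv_zero, fun _ _ => rfl⟩

/-- The plus space of weight `λ + 1 / 2`, as a space of coefficient sequences. -/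
def VS (lam : ℕ) : Submodule ℂ (ℕ → ℂ) where
  carrier := {c | ∃ g, IsV lam g c}
  add_mem' := fun ⟨_, h⟩ ⟨_, h'⟩ => ⟨_, h.add h'⟩
  zero_mem' := ⟨_, isV_zero lam⟩
  smul_mem' := fun x _ ⟨_, h⟩ => ⟨_, h.smul x⟩

lemma IsV.mem {lam : ℕ} {g : ℍ → Fin 2 → ℂ} {c : ℕ → ℂ} (h : IsV lam g c) : c ∈ VS lam := ⟨g, h⟩

lemma QV.vfn_eq {g : ℍ → Fin 2 → ℂ} {c : ℕ → ℂ} (h : QV g c) : vfn c = g :=
  funext fun τ => funext fun j => (h τ j).tsum_eq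

lemma isV_vfn {lam : ℕ} {c : ℕ → ℂ} (h : c ∈ VS lam) : IsV lam (vfn c) c := by
  obtain ⟨g, hg⟩ := h
  rwa [hg.qv.vfn_eq]

/-- The theta constants. -/
def th (τ : ℍ) : Fin 2 → ℂ := vt τ 0

/-- The componentwise operator `D`. -/
def Dv (g : ℍ → Fin 2 → ℂ) (τ : ℍ) (j : Fin 2) : ℂ := DD (fun σ => g σ j) τ

/-- The vector valued form with coefficients `cf μ a b`. -/
def vec (μ : ℕ) (A G : ℍ → ℂ) (τ : ℍ) : Fin 2 → ℂ :=
  (A τ + 2 * DD G τ) • th τ - (4 * μ * G τ) • Dv th τ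

/-- The determinant of two vectors. -/
def wg (u v : Fin 2 → ℂ) : ℂ := u 0 * v 1 - u 1 * v 0

/-- The Wronskian of the theta constants. -/
def Wr (τ : ℍ) : ℂ := wg (th τ) (Dv th τ)

/-! ### The Hecke operator `T(l ^ 2)` -/

/-- The weight `λ + 1 / 2` action. -/
def slv (lam : ℕ) (g : ℍ → Fin 2 → ℂ) (γ : SL(2, ℤ)) (τ : ℍ) : Fin 2 → ℂ :=
  (den γ τ ^ lam)⁻¹ • (Jm γ τ)⁻¹ *ᵥ g (γ • τ)

/-- The matrix `(1, 0; c, 1)`. -/
def Lo (c : ℤ) : SL(2, ℤ) := ⟨!![1, 0; c, 1], by simp [Matrix.det_fin_two]⟩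

/-- The matrix `(0, -1; 1, d)`. -/
def Sd (d : ℤ) : SL(2, ℤ) := ⟨!![0, -1; 1, d], by simp [Matrix.det_fin_two]⟩

/-- Representatives of the cosets of `Γ_0(l ^ 2)` for an odd prime `l`. -/
def rep (l : ℕ) : Fin l ⊕ Fin (l ^ 2) → SL(2, ℤ)
  | Sum.inl h => Lo (l * (h : ℕ))
  | Sum.inr j => Sd (4 * (j : ℕ))

/-- The function `g(N τ)`. -/
def dil {α : Type} (N : ℕ) (g : ℍ → α) (τ : ℍ) : α := g (af N 0 1 τ)

/-- The Hecke operator `T(l ^ 2)`. -/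
def Tsq (lam l : ℕ) (g : ℍ → Fin 2 → ℂ) (τ : ℍ) : Fin 2 → ℂ :=
  ((l : ℂ) ^ (2 * lam) / l) • ∑ i, slv lam (dil (l ^ 2) g) (rep l i) τ

/-- The Gauss sum `∑_a e(- a ^ 2 h / l)`. -/
def gauss (l : ℕ) (h : ℤ) : ℂ := ∑ a ∈ range l, ee (-((a : ℂ) ^ 2 * h / l))

/-! ### Petersson products -/

/-- The Petersson density of two scalar functions. -/
def pm (k : ℕ) (f h : ℍ → ℂ) (τ : ℍ) : ℂ := conj (f τ) * h τ * (τ.im : ℂ) ^ k

/-- The Petersson density of two vector valued functions. -/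
def pv (lam : ℕ) (g w : ℍ → Fin 2 → ℂ) (τ : ℍ) : ℂ :=
  (star (g τ) ⬝ᵥ w τ) * ((τ.im : ℂ) ^ lam * (Real.sqrt τ.im : ℂ))

/-- The Petersson product in weight `k`. -/
def Pet (k : ℕ) (f h : ℍ → ℂ) : ℂ := avgM ⊤ (pm k f h)

/-- The Petersson product in weight `λ + 1 / 2`. -/
def Bf (lam : ℕ) (g w : ℍ → Fin 2 → ℂ) : ℂ := avgM ⊤ (pv lam g w)

/-- The strip `0 ≤ x < 1`. -/
def strip : Set ℍ := {τ | 0 ≤ τ.re ∧ τ.re < 1}

/-- The mean value on the horizontal line of height `y`. -/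
def hz (Φ : ℍ → ℂ) (y : ℝ) : ℂ := ∫ x in (0 : ℝ)..1, Φ (pt x y)

/-- Bounded functions. -/
def Bd (F : ℍ → ℂ) : Prop := ∃ C : ℝ, ∀ τ, ‖F τ‖ ≤ C

/-- Exponential decay on every half plane `im τ ≥ ε`. -/
def Dec (Φ : ℍ → ℝ) : Prop :=
  ∃ δ : ℝ, 0 < δ ∧ ∀ ε : ℝ, 0 < ε → ∃ C : ℝ, ∀ τ : ℍ, ε ≤ τ.im → Φ τ ≤ C * Real.exp (-δ * τ.im)

/-- Bounded on every half plane `im τ ≥ ε`. -/
def Gro (Φ : ℍ → ℝ) : Prop := ∀ ε : ℝ, 0 < ε → ∃ C : ℝ, ∀ τ : ℍ, ε ≤ τ.im → Φ τ ≤ C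

end Pool.Agent.Lib.MP_bcfefa_nt.B
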