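import Pool.Agent.Lib.MP_bcfefa_nt.B.Law
import Pool.Agent.Lib.MP_bcfefa_nt.B.QVa

/-!
Vector valued forms from the generators, and the derivative of theta.
-/

set_option autoImplicit false

noncomputable section

namespace Pool.Agent.Lib.MP_bcfefa_nt.B

open Finset CongruenceSubgroup UpperHalfPlane Matrix MeasureTheory Complex ModularGroup Filter
open Pool.Agent.Lib.MP_88d29b_nt.G
open scoped MatrixGroups ModularForm Manifold ComplexConjugate Topology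

/-- Sketch: `SL_ind` with `den_mul`, `Jm_mul`, `QV.T`; for `T⁻¹` use `Jm_mul`, `Jm_one`. -/
theorem isV_of_S {lam : ℕ} {g : ℍ → Fin 2 → ℂ} {c : ℕ → ℂ} (h : QV g c)
    (hs : ∀ n, 2 ≤ n % 4 → c n = 0)
    (hS : ∀ τ : ℍ, g (S • τ) = (τ : ℂ) ^ lam • JS τ *ᵥ g τ) : IsV lam g c := by
  refine ⟨SL_ind (fun γ => ∀ τ : ℍ, g (γ • τ) = den γ τ ^ lam • Jm γ τ *ᵥ g τ) (fun τ => ?_)
    (fun τ => ?_) (fun τ => ?_) fun a b ha hb τ => ?_, h, hs⟩
  · rw [den_S, Jm_S, hS]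
  · rw [den_T, Jm_T, one_pow, one_smul, h.T]
  · have h1 : den T⁻¹ τ = 1 := by simpa using den_T_zpow (-1) τ
    have h2 := Jm_mul T⁻¹ T (T⁻¹ • τ)
    have h3 := h.T (T⁻¹ • τ)
    rw [smul_inv_smul] at h2 h3
    rw [inv_mul_cancel, Jm_one, Jm_T] at h2
    rw [h1, one_pow, one_smul, h3, mulVec_mulVec, ← h2, one_mulVec]
  · rw [mul_smul, ha, hb, den_mul, Jm_mul, mulVec_smul, mulVec_mulVec, smul_smul, mul_pow]

theorem th_cov (γ : SL(2, ℤ)) (τ : ℍ) : th (γ • τ) = Jm γ τ *ᵥ th τ := by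
  have h := Jm_law γ τ 0
  simpa [th] using h

/-- Sketch: differentiate `th (S • τ) j = (-I τ / 2) ^ (1 / 2) (th τ 0 ± th τ 1)` in `τ`. Work with
`F_j = (fun σ => th σ j) ∘ ofComplex`, which is differentiable on the upper half plane
(`QV.mdiff qv_th`, `UpperHalfPlane.mdifferentiable_iff`); the derivative of `-1 / w` is
`1 / w ^ 2`, and the logarithmic derivative of the square root is `1 / (2 w)`
(`HasDerivAt.cpow_const`). -/
theorem Dth_S (τ : ℍ) : Dv th (S • τ) =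
    (τ : ℂ) ^ 2 • JS τ *ᵥ (Dv th τ + (4 * Real.pi * Complex.I * τ)⁻¹ • th τ) := by
  funext j
  have hF : ∀ (σ : ℍ) (i : Fin 2), HasDerivAt ((fun σ : ℍ => th σ i) ∘ ofComplex)
      (deriv ((fun σ : ℍ => th σ i) ∘ ofComplex) σ) σ := fun σ i =>
    (UpperHalfPlane.mdifferentiableAt_iff.1 (qv_th.mdiff i σ)).hasDerivAt
  have h0 : (τ : ℂ) ≠ 0 := τ.ne_zero
  have hz : -Complex.I * τ / 2 ∈ slitPlane := by
    left
    have := τ.im_pos
    simpa using this
  have h1 : HasDerivAt (fun w : ℂ => -1 / w) (1 / (τ : ℂ) ^ 2) τ := by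
    have := (hasDerivAt_const (τ : ℂ) (-1 : ℂ)).fun_div (hasDerivAt_id' (τ : ℂ)) h0
    simpa using this
  have h2 := hF (S • τ) j
  rw [coe_S_smul] at h2
  have h3 := h2.comp (τ : ℂ) h1
  have h4 : HasDerivAt (fun w : ℂ => -Complex.I * w / 2) (-Complex.I / 2) τ := by
    simpa using ((hasDerivAt_id' (τ : ℂ)).const_mul (-Complex.I)).div_const 2
  have h5 := (h4.cpow_const (c := 1 / 2) hz).fun_mul
    (((hF τ 0).const_mul ((!![1, 1; 1, -1] : Matrix (Fin 2) (Fin 2) ℂ) j 0)).fun_add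
      ((hF τ 1).const_mul ((!![1, 1; 1, -1] : Matrix (Fin 2) (Fin 2) ℂ) j 1)))
  have h6 := h3.unique (h5.congr_of_eventuallyEq (by
    filter_upwards [isOpen_upperHalfPlaneSet.mem_nhds τ.im_pos] with w hw
    obtain ⟨σ, rfl⟩ : ∃ σ : ℍ, (σ : ℂ) = w := ⟨⟨w, hw⟩, rfl⟩
    simp only [Function.comp_apply]
    rw [← coe_S_smul, ofComplex_apply, ofComplex_apply, th_cov, Jm_S, JS, smul_mulVec,
      Pi.smul_apply, smul_eq_mul, mulVec, dotProduct, Fin.sum_univ_two]))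
  rw [Complex.cpow_sub _ _ (slitPlane_ne_zero hz), Complex.cpow_one] at h6
  simp only [Function.comp_apply, ofComplex_apply] at h6
  rw [JS, smul_mulVec, Pi.smul_apply, Pi.smul_apply, smul_eq_mul, smul_eq_mul, mulVec, dotProduct,
    Fin.sum_univ_two]
  simp only [Dv, DD, Derivative.normalizedDerivOfComplex, Pi.add_apply, Pi.smul_apply, smul_eq_mul]
  rw [coe_S_smul, (eq_div_iff (one_div_ne_zero (pow_ne_zero 2 h0))).2 h6]
  have hpi : (Real.pi : ℂ) ≠ 0 := Complex.ofReal_ne_zero.2 Real.pi_ne_zero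
  have hI := Complex.I_ne_zero
  field_simp
  ring

end Pool.Agent.Lib.MP_bcfefa_nt.B
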