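import Pool.Agent.Lib.MP_bcfefa_nt.B.Lift
import Pool.Agent.Lib.MP_bcfefa_nt.B.Dcp
import Pool.Agent.Lib.MP_bcfefa_nt.B.TsqQ

/-!
The inverse of the Shimura lift and its compatibility with Hecke operators.
-/

set_option autoImplicit false

noncomputable section

namespace Pool.Agent.Lib.MP_bcfefa_nt.B

open Finset CongruenceSubgroup UpperHalfPlane Matrix MeasureTheory Complex ModularGroup Filter
open Pool.Agent.Lib.MP_88d29b_nt.G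
open scoped MatrixGroups ModularForm Manifold ComplexConjugate Topology

variable {μ : ℕ}

theorem vs_zero (hμ : 0 < μ) (hI : Inj μ) {c : ℕ → ℂ} (hc : c ∈ VS (μ + 2))
    (h : ∀ n, 0 < n → sh (μ + 2) c n = 0) : c = 0 := by
  obtain ⟨a, ha, b, hb, rfl⟩ := dec hμ hc
  obtain ⟨rfl, rfl⟩ := hI a ha b hb (sh_zero h)
  simpa using cf_smul μ 0 0 0

theorem vs_unique (hμ : 0 < μ) (hI : Inj μ) {c c' : ℕ → ℂ} (hc : c ∈ VS (μ + 2))
    (hc' : c' ∈ VS (μ + 2)) (h : ∀ n, 0 < n → sh (μ + 2) c n = sh (μ + 2) c' n) : c = c' := by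
  have := vs_zero hμ hI ((VS _).add_mem hc ((VS _).smul_mem (-1) hc')) fun n hn => by
    rw [sh_add, sh_smul, Pi.add_apply, Pi.smul_apply, h n hn]
    simp
  rw [neg_one_smul] at this
  exact eq_of_add_neg_eq_zero this

theorem exists_R (he : Even μ) (hμ : 0 < μ) (hI : Inj μ) :
    ∃ R : MS (2 * (μ + 2)) →ₗ[ℂ] (ℕ → ℂ),
      ∀ h, R h ∈ VS (μ + 2) ∧ ∀ n, 0 < n → sh (μ + 2) (R h) n = h.1 n := by
  have H : ∀ h : MS (2 * (μ + 2)), ∃ c, c ∈ VS (μ + 2) ∧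
      ∀ n, 0 < n → sh (μ + 2) c n = h.1 n := fun h => by
    obtain ⟨a, ha, b, hb, e⟩ := lift_surj he hμ hI h.2
    exact ⟨_, cf_mem ha hb, e⟩
  choose R hR hR' using H
  refine ⟨⟨⟨R, fun x y => ?_⟩, fun t x => ?_⟩, fun h => ⟨hR h, hR' h⟩⟩
  · refine vs_unique hμ hI (hR _) ((VS _).add_mem (hR _) (hR _)) fun n hn => ?_
    rw [sh_add, Pi.add_apply, hR' _ n hn, hR' _ n hn, hR' _ n hn]
    rfl
  · refine vs_unique hμ hI (hR _) ((VS _).smul_mem t (hR _)) fun n hn => ?_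
    rw [RingHom.id_apply, sh_smul, Pi.smul_apply, hR' _ n hn, hR' _ n hn]
    rfl

/-- The lift intertwines `T(l ^ 2)` and `T_l`. -/
theorem tsq_lift (hμ : 0 < μ) (hI : Inj μ) {c c' h : ℕ → ℂ} (hc : c ∈ VS (μ + 2))
    (hc' : c' ∈ VS (μ + 2)) (hh1 : ∀ n, 0 < n → sh (μ + 2) c n = h n) {l : ℕ} (hl : l.Prime)
    (h2 : l ≠ 2) (hh2 : ∀ n, 0 < n → sh (μ + 2) c' n = hh (2 * (μ + 2)) h l n) :
    vfn c' = Tsq (μ + 2) l (vfn c) ∧ c' 0 = (1 + (l : ℂ) ^ (2 * (μ + 2) - 1)) * c 0 := by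
  obtain ⟨c'', hV, hco⟩ := tsq_spec (by omega) (isV_vfn hc) hl h2
  have e : c' = c'' := vs_unique hμ hI hc' hV.mem fun n hn => by
    rw [hh2 n hn, sh_hecke (by omega) hl hco hn]
    exact (hh_congr_pos _ hh1 hl.pos hn).symm
  subst e
  refine ⟨hV.qv.vfn_eq, ?_⟩
  have := hco 0
  simp only [ne_eq, OfNat.ofNat_ne_zero, not_false_eq_true, zero_pow, mul_zero, dvd_zero,
    if_true, Nat.zero_div] at this
  rw [this]
  ring

lemma vfn_add {lam : ℕ} {c c' : ℕ → ℂ} (hc : c ∈ VS lam) (hc' : c' ∈ VS lam) :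
    vfn (c + c') = vfn c + vfn c' := ((isV_vfn hc).add (isV_vfn hc')).qv.vfn_eq

lemma vfn_smul {lam : ℕ} (x : ℂ) {c : ℕ → ℂ} (hc : c ∈ VS lam) : vfn (x • c) = x • vfn c :=
  ((isV_vfn hc).smul x).qv.vfn_eq

lemma fn_add {k : ℕ} {a b : ℕ → ℂ} (ha : a ∈ MS k) (hb : b ∈ MS k) : fn (a + b) = fn a + fn b :=
  ((isM_fn ha).add (isM_fn hb)).fn_eq

lemma fn_smul {k : ℕ} (x : ℂ) {a : ℕ → ℂ} (ha : a ∈ MS k) : fn (x • a) = x • fn a :=
  ((isM_fn ha).smul x).fn_eq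

/-- The eigenvalue of a cusp form at a large prime is not that of the Eisenstein series. -/
lemma exists_prime_ne {lam : ℕ} (h3 : 3 ≤ lam) {a : ℕ → ℂ} {C : ℝ}
    (hC : ∀ n : ℕ, 0 < n → ‖a n‖ ≤ C * (n : ℝ) ^ (((2 * lam : ℕ) : ℝ) / 2)) :
    ∃ l : ℕ, l.Prime ∧ l ≠ 2 ∧ a l ≠ 1 + (l : ℂ) ^ (2 * lam - 1) := by
  obtain ⟨N, hN⟩ := exists_nat_gt C
  obtain ⟨l, hl, hp⟩ := Nat.exists_infinite_primes (N + 3)
  refine ⟨l, hp, by omega, fun e => ?_⟩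
  have h := hC l hp.pos
  have e1 : ((2 * lam : ℕ) : ℝ) / 2 = (lam : ℕ) := by
    push_cast
    ring
  have e2 : (1 + (l : ℂ) ^ (2 * lam - 1)) = ((1 + l ^ (2 * lam - 1) : ℕ) : ℂ) := by
    push_cast
    rfl
  rw [e, e1, Real.rpow_natCast, e2, Complex.norm_natCast] at h
  have hl1 : (1 : ℝ) ≤ l := by exact_mod_cast hp.one_le
  have h4 : (l : ℝ) ^ (lam + 1) ≤ (l : ℝ) ^ (2 * lam - 1) := pow_le_pow_right₀ hl1 (by omega)
  have h5 : C ≤ l := by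
    have : (N : ℝ) + 3 ≤ l := by exact_mod_cast hl
    linarith
  have h6 : C * (l : ℝ) ^ lam ≤ (l : ℝ) ^ (lam + 1) := by
    rw [pow_succ']
    exact mul_le_mul_of_nonneg_right h5 (by positivity)
  push_cast at h
  linarith

end Pool.Agent.Lib.MP_bcfefa_nt.B
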