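import Pool.Agent.Lib.MP_bcfefa_nt.B.Bas

/-!
Hecke operators on sequences: the basic recursion.
-/

set_option autoImplicit false

noncomputable section

namespace Pool.Agent.Lib.MP_bcfefa_nt.B

open Finset CongruenceSubgroup UpperHalfPlane Matrix MeasureTheory Complex ModularGroup Filter
open Pool.Agent.Lib.MP_88d29b_nt.G
open scoped MatrixGroups ModularForm Manifold ComplexConjugate Topology

variable {k : ℕ} {a b : ℕ → ℂ}

theorem hh_symm (k : ℕ) (a : ℕ → ℂ) (m n : ℕ) : hh k a m n = hh k a n m := by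
  rw [hh, hh, Nat.gcd_comm, mul_comm m]

theorem hh_one (k : ℕ) (a : ℕ → ℂ) : hh k a 1 = a := by
  funext n
  simp [hh]

theorem hh_one_right (k : ℕ) (a : ℕ → ℂ) (m : ℕ) : hh k a m 1 = a m := by
  rw [hh_symm, hh_one]

theorem hh_zero_right (k : ℕ) (a : ℕ → ℂ) (m : ℕ) :
    hh k a m 0 = (ArithmeticFunction.sigma (k - 1) m : ℂ) * a 0 := by
  rw [hh, Nat.gcd_zero_right, ArithmeticFunction.sigma_apply, Nat.cast_sum, sum_mul]
  exact sum_congr rfl fun d _ => by rw [mul_zero, Nat.zero_div, Nat.cast_pow]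

theorem hh_prime (k : ℕ) (a : ℕ → ℂ) {p : ℕ} (hp : p.Prime) (n : ℕ) :
    hh k a p n = a (p * n) + if p ∣ n then (p : ℂ) ^ (k - 1) * a (n / p) else 0 := by
  rw [hh]
  split_ifs with h
  · rw [Nat.gcd_eq_left h, hp.sum_divisors, sq, Nat.mul_div_mul_left _ _ hp.pos]
    simp [add_comm]
  · rw [((Nat.Prime.coprime_iff_not_dvd hp).2 h).gcd_eq_one]
    simp

theorem hh_add (k : ℕ) (a b : ℕ → ℂ) (m : ℕ) : hh k (a + b) m = hh k a m + hh k b m := by
  funext n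
  simp [hh, mul_add, sum_add_distrib]

theorem hh_smul (k : ℕ) (x : ℂ) (a : ℕ → ℂ) (m : ℕ) : hh k (x • a) m = x • hh k a m := by
  funext n
  simp [hh, mul_sum, mul_left_comm]

theorem hh_sum {ι : Type} (k : ℕ) (s : Finset ι) (A : ι → ℕ → ℂ) (m : ℕ) :
    hh k (∑ i ∈ s, A i) m = ∑ i ∈ s, hh k (A i) m := by
  funext n
  simp only [hh, Finset.sum_apply, mul_sum]
  exact sum_comm

theorem hh_congr_pos (k : ℕ) (h : ∀ n, 0 < n → a n = b n) {m n : ℕ} (hm : 0 < m) (hn : 0 < n) :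
    hh k a m n = hh k b m n := by
  refine sum_congr rfl fun d hd => ?_
  have h1 := Nat.dvd_of_mem_divisors hd
  rw [h _ (Nat.div_pos (Nat.le_of_dvd (mul_pos hm hn) ?_)
    (pow_pos (Nat.pos_of_mem_divisors hd) 2))]
  rw [sq]
  exact mul_dvd_mul (h1.trans (Nat.gcd_dvd_left _ _)) (h1.trans (Nat.gcd_dvd_right _ _))

theorem hka_split (f : ℕ → ℂ) {l : ℕ} (hl : l.Prime) {m n : ℕ} (h : Nat.gcd m n ≠ 0) :
    ∑ d ∈ (Nat.gcd (l * m) n).divisors, f d =
      ∑ d ∈ (Nat.gcd m n).divisors with ¬ l ∣ d, f d +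
        if l ∣ n then ∑ e ∈ (Nat.gcd m (n / l)).divisors, f (l * e) else 0 := by
  have h' : Nat.gcd (l * m) n ≠ 0 := by
    simp only [ne_eq, Nat.gcd_eq_zero_iff, mul_eq_zero, hl.ne_zero, false_or] at h ⊢
    exact h
  rw [← sum_filter_add_sum_filter_not _ fun d => l ∣ d, add_comm]
  refine congrArg₂ (· + ·) (sum_congr ?_ fun _ _ => rfl) ?_
  · ext d
    simp only [mem_filter, Nat.mem_divisors, Nat.dvd_gcd_iff]
    exact ⟨fun ⟨⟨⟨a, b⟩, _⟩, c⟩ => ⟨⟨⟨((Nat.Prime.coprime_iff_not_dvd hl).2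
      c).symm.dvd_of_dvd_mul_left a, b⟩, h⟩, c⟩,
      fun ⟨⟨⟨a, b⟩, _⟩, c⟩ => ⟨⟨⟨a.mul_left l, b⟩, h'⟩, c⟩⟩
  · split_ifs with hn
    · obtain ⟨n, rfl⟩ := hn
      rw [Nat.mul_div_cancel_left _ hl.pos, ← sum_image (g := fun e => l * e)
        fun a _ b _ e => Nat.eq_of_mul_eq_mul_left hl.pos e]
      refine sum_congr ?_ fun _ _ => rfl
      ext d
      rw [Nat.gcd_mul_left] at h' ⊢
      simp only [mem_filter, mem_image, Nat.mem_divisors]
      constructor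
      · rintro ⟨⟨a, _⟩, e, rfl⟩
        exact ⟨e, ⟨Nat.dvd_of_mul_dvd_mul_left hl.pos a, right_ne_zero_of_mul h'⟩, rfl⟩
      · rintro ⟨e, ⟨a, _⟩, rfl⟩
        exact ⟨⟨Nat.mul_dvd_mul_left l a, h'⟩, dvd_mul_right l e⟩
    · refine sum_eq_zero fun d hd => (hn ?_).elim
      rw [mem_filter] at hd
      exact hd.2.trans ((Nat.dvd_of_mem_divisors hd.1).trans (Nat.gcd_dvd_right _ _))

theorem hka_key (k : ℕ) (a : ℕ → ℂ) {l : ℕ} (hl : l.Prime) {m n : ℕ} (h : Nat.gcd m n ≠ 0) :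
    hh k a (l * m) n = ∑ d ∈ (Nat.gcd m n).divisors with ¬ l ∣ d,
      (d : ℂ) ^ (k - 1) * a (l * (m * n) / d ^ 2) +
        if l ∣ n then (l : ℂ) ^ (k - 1) * hh k a m (n / l) else 0 := by
  rw [hh, hka_split _ hl h, mul_assoc]
  refine congrArg (_ + ·) ?_
  split_ifs with hn
  · obtain ⟨n, rfl⟩ := hn
    rw [hh, mul_sum, Nat.mul_div_cancel_left _ hl.pos]
    refine sum_congr rfl fun e _ => ?_
    rw [Nat.cast_mul, mul_pow, mul_assoc, mul_pow,
      show l * (m * (l * n)) = l ^ 2 * (m * n) by ring,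
      Nat.mul_div_mul_left _ _ (pow_pos hl.pos 2)]
  · rfl

/-- `T_p T_m = T_(p m) + p ^ (k - 1) T_(m / p)`. Sketch: with `F(d) = d ^ (k - 1) a(p m n / d ^ 2)`
the four sums are the sums of `F(d)` over `d ∣ (m, p n)`, over `d = p e` with `e ∣ (m, n / p)`,
over `d ∣ (p m, n)` and over `d = p e` with `e ∣ (m / p, n)`. Write each as a sum over the divisors
of `p m` of an indicator times `F(d)` and compare the indicators:
`[d ∣ m ∧ d ∣ p n] + [p ∣ d ∧ d ∣ p m ∧ d ∣ n] = [d ∣ p m ∧ d ∣ n] + [p ∣ d ∧ d ∣ m ∧ d ∣ p n]`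
(for `p ∤ d` cancel `p`; for `p ∣ d` both sides agree term by term). -/
theorem hh_rec (k : ℕ) (a : ℕ → ℂ) {p m : ℕ} (hp : p.Prime) (hm : 0 < m) :
    hh k (hh k a m) p =
      hh k a (p * m) + if p ∣ m then (p : ℂ) ^ (k - 1) • hh k a (m / p) else 0 := by
  funext n
  have h : Nat.gcd m n ≠ 0 := Nat.gcd_ne_zero_left hm.ne'
  have e1 := hka_key k a hp h
  have e2 := hka_key k a hp (m := n) (n := m) (Nat.gcd_comm m n ▸ h)
  rw [Nat.gcd_comm, mul_comm n, hh_symm, hh_symm k a n] at e2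
  rw [hh_prime k _ hp, Pi.add_apply, e1, e2]
  split_ifs <;> simp
  ring

end Pool.Agent.Lib.MP_bcfefa_nt.B
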