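import Pool.Agent.Lib.MP_bcfefa_nt.B.HkA

/-!
Hecke operators on sequences: commutation and eigenvectors.
-/

set_option autoImplicit false

noncomputable section

namespace Pool.Agent.Lib.MP_bcfefa_nt.B

open Finset CongruenceSubgroup UpperHalfPlane Matrix MeasureTheory Complex ModularGroup Filter
open Pool.Agent.Lib.MP_88d29b_nt.G
open scoped MatrixGroups ModularForm Manifold ComplexConjugate Topology

variable {k : ℕ} {a : ℕ → ℂ}

theorem hkb_ind {P : ℕ → Prop} (h1 : P 1)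
    (hs : ∀ p m : ℕ, p.Prime → 0 < m → P m → (p ∣ m → P (m / p)) → P (p * m)) :
    ∀ m : ℕ, 0 < m → P m := by
  intro m
  induction m using Nat.strong_induction_on with
  | _ m ih =>
    intro hm
    by_cases h : m = 1
    · rw [h]; exact h1
    · obtain ⟨p, hp, c, rfl⟩ := Nat.exists_prime_and_dvd h
      have hc : 0 < c := Nat.pos_of_mul_pos_left hm
      have hlt : c < p * c := lt_mul_of_one_lt_left hc hp.one_lt
      refine hs p c hp hc (ih c hlt hc) fun hd => ?_
      exact ih _ (lt_of_le_of_lt (Nat.div_le_self _ _) hlt)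
        (Nat.div_pos (Nat.le_of_dvd hc hd) hp.pos)

/-- The Hecke operator as a linear map. -/
def hkb_T (k m : ℕ) : Module.End ℂ (ℕ → ℂ) where
  toFun a := hh k a m
  map_add' a b := hh_add k a b m
  map_smul' x a := hh_smul k x a m

theorem hkb_T_apply (k m : ℕ) (a : ℕ → ℂ) : hkb_T k m a = hh k a m := rfl

theorem hkb_T_one (k : ℕ) : hkb_T k 1 = 1 := LinearMap.ext fun a => hh_one k a

theorem hkb_T_rec (k : ℕ) {p m : ℕ} (hp : p.Prime) (hm : 0 < m) :
    hkb_T k (p * m) =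
      hkb_T k p * hkb_T k m - if p ∣ m then (p : ℂ) ^ (k - 1) • hkb_T k (m / p) else 0 := by
  refine LinearMap.ext fun a => ?_
  have h := hh_rec k a hp hm
  by_cases hd : p ∣ m
  · rw [if_pos hd] at h ⊢
    exact eq_sub_of_add_eq h.symm
  · rw [if_neg hd] at h ⊢
    exact eq_sub_of_add_eq h.symm

theorem hkb_commute (k : ℕ) {L : Module.End ℂ (ℕ → ℂ)}
    (h : ∀ p : ℕ, p.Prime → Commute L (hkb_T k p)) : ∀ n : ℕ, 0 < n → Commute L (hkb_T k n) := by
  refine hkb_ind ?_ fun p m hp hm h1 h2 => ?_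
  · rw [hkb_T_one]; exact Commute.one_right L
  · rw [hkb_T_rec k hp hm]
    refine Commute.sub_right ((h p hp).mul_right h1) ?_
    by_cases hd : p ∣ m
    · rw [if_pos hd]; exact (h2 hd).smul_right _
    · rw [if_neg hd]; exact Commute.zero_right L

theorem hkb_primes (k : ℕ) {p q : ℕ} (hp : p.Prime) (hq : q.Prime) :
    Commute (hkb_T k p) (hkb_T k q) := by
  by_cases h : p = q
  · rw [h]
  · have h1 := hkb_T_rec k hp hq.pos
    have h2 := hkb_T_rec k hq hp.pos
    rw [if_neg fun hd => h ((Nat.prime_dvd_prime_iff_eq hp hq).1 hd), sub_zero] at h1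
    rw [if_neg fun hd => h ((Nat.prime_dvd_prime_iff_eq hq hp).1 hd).symm, sub_zero] at h2
    show _ * _ = _ * _
    rw [← h1, ← h2, mul_comm]

/-- Sketch: first two primes (`hh_rec` with `m` prime, `hh_one`); then strong induction on `n` for a
prime `m`, and on `m` in general, with `T_(p m) = T_p T_m - p ^ (k - 1) T_(m / p)` (`hh_rec`) and
linearity. -/
theorem hh_comm (k : ℕ) (a : ℕ → ℂ) {m n : ℕ} (hm : 0 < m) (hn : 0 < n) :
    hh k (hh k a m) n = hh k (hh k a n) m := by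
  have h : Commute (hkb_T k n) (hkb_T k m) :=
    hkb_commute k (fun p hp => (hkb_commute k (fun q hq => hkb_primes k hp hq) n hn).symm) m hm
  exact LinearMap.congr_fun h.eq a

/-- Sketch: strong induction on `m` with `hh_rec`. -/
theorem hh_eigen {m : ℕ} (hm : 0 < m)
    (h : ∀ p : ℕ, p.Prime → p ∣ m → ∃ x : ℂ, hh k a p = x • a) : ∃ x : ℂ, hh k a m = x • a := by
  revert h
  refine hkb_ind (P := fun m => (∀ p : ℕ, p.Prime → p ∣ m → ∃ x : ℂ, hh k a p = x • a) →
    ∃ x : ℂ, hh k a m = x • a) (fun _ => ⟨1, by rw [hh_one, one_smul]⟩) ?_ m hm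
  intro p c hp hc h1 h2 h
  obtain ⟨x, hx⟩ := h p hp (dvd_mul_right p c)
  obtain ⟨y, hy⟩ := h1 fun q hq hd => h q hq (hd.mul_left p)
  have e := hh_rec k a hp hc
  rw [hy, hh_smul, hx, smul_smul] at e
  by_cases hd : p ∣ c
  · obtain ⟨z, hz⟩ := h2 hd fun q hq hd' =>
      h q hq ((hd'.trans (Nat.div_dvd_of_dvd hd)).mul_left p)
    rw [if_pos hd, hz, smul_smul] at e
    exact ⟨y * x - (p : ℂ) ^ (k - 1) * z, by rw [sub_smul]; exact eq_sub_of_add_eq e.symm⟩
  · rw [if_neg hd, add_zero] at e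
    exact ⟨y * x, e.symm⟩

theorem hh_mul (h1 : a 1 = 1) (h : ∀ p : ℕ, p.Prime → ∃ x : ℂ, hh k a p = x • a) {m : ℕ}
    (hm : 0 < m) : hh k a m = a m • a := by
  obtain ⟨x, hx⟩ := hh_eigen hm fun p hp _ => h p hp
  have e := congrFun hx 1
  rw [hh_one_right, Pi.smul_apply, h1, smul_eq_mul, mul_one] at e
  rw [hx, e]

theorem hkb_sigma (k : ℕ) {p : ℕ} (hp : p.Prime) :
    hh k (fun n => (ArithmeticFunction.sigma (k - 1) n : ℂ)) p =
      (ArithmeticFunction.sigma (k - 1) p : ℂ) •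
        fun n => (ArithmeticFunction.sigma (k - 1) n : ℂ) := by
  funext n
  rcases Nat.eq_zero_or_pos n with rfl | hn
  · rw [hh_zero_right, Pi.smul_apply, smul_eq_mul]
  · have e := congrFun (hh_rec k (fun _ => 1) hp hn) 0
    rw [hh_zero_right, hh_zero_right, Pi.add_apply, hh_zero_right, mul_one, mul_one] at e
    rw [hh_prime k _ hp, Pi.smul_apply, smul_eq_mul, e]
    by_cases hd : p ∣ n
    · rw [if_pos hd, if_pos hd, Pi.smul_apply, hh_zero_right, mul_one, smul_eq_mul]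
    · rw [if_neg hd, if_neg hd, Pi.zero_apply]

/-- Sketch: the sequence `s n = σ_(k - 1)(n)` (with `s 0 = 0`) satisfies
`hh k s p = s p • s` for primes `p`; use `hh_mul`, `hh_congr_pos`, `hh_smul`; for `m = 0` or
`n = 0` use `hh_zero_right`, `hh_symm`. -/
theorem hh_es (k : ℕ) {m n : ℕ} (h : m ≠ 0 ∨ n ≠ 0) :
    bet k * hh k (es k) m n = es k m * es k n := by
  have h0 : ∀ m : ℕ, m ≠ 0 → bet k * hh k (es k) m 0 = es k m * es k 0 := fun m hm => by
    rw [hh_zero_right, ← mul_assoc]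
    congr 1
    rw [es, if_neg hm]
  rcases Nat.eq_zero_or_pos n with rfl | hn
  · exact h0 m (h.resolve_right fun h' => h' rfl)
  rcases Nat.eq_zero_or_pos m with rfl | hm
  · rw [hh_symm, h0 n hn.ne', mul_comm]
  have e := hh_mul (k := k) (a := fun n => (ArithmeticFunction.sigma (k - 1) n : ℂ)) (by simp)
    (fun p hp => ⟨_, hkb_sigma k hp⟩) hm
  have e2 : hh k (es k) m n =
      hh k (bet k • fun n => (ArithmeticFunction.sigma (k - 1) n : ℂ)) m n :=
    hh_congr_pos k (fun j hj => by rw [es, if_neg hj.ne', Pi.smul_apply, smul_eq_mul]) hm hn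
  rw [e2, hh_smul, e, es, es, if_neg hm.ne', if_neg hn.ne']
  simp only [Pi.smul_apply, smul_eq_mul]
  ring

end Pool.Agent.Lib.MP_bcfefa_nt.B
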