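import Pool.Agent.Lib.MP_bcfefa_nt.B.Law

/-!
The theta multiplier and dilation by `l ^ 2`.
-/

set_option autoImplicit false

noncomputable section

namespace Pool.Agent.Lib.MP_bcfefa_nt.B

open Finset CongruenceSubgroup UpperHalfPlane Matrix MeasureTheory Complex ModularGroup Filter
open Pool.Agent.Lib.MP_88d29b_nt.G
open scoped MatrixGroups ModularForm Manifold ComplexConjugate Topology

theorem j1_coe {l : ℕ} (hl : Odd l) (τ : ℍ) :
    (af (l ^ 2 : ℕ) 0 1 τ : ℂ) = (l : ℂ) ^ 2 * τ := by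
  rw [coe_af 0 (by exact_mod_cast pow_pos hl.pos 2) one_pos]
  simp

theorem j1_dil {l : ℕ} (hl : Odd l) {d : ℤ} (hd : IsCoprime (l : ℤ) d) (τ : ℍ) (z : ℂ) :
    vt (af (l ^ 2 : ℕ) 0 1 τ) (l * z) = (l : ℂ)⁻¹ • ∑ a ∈ range l, vt τ (z + a * d / l) := by
  have hl0 : (l : ℂ) ≠ 0 := Nat.cast_ne_zero.2 hl.pos.ne'
  funext j
  have h1 := hasSum_sum fun a (_ : a ∈ range l) => vt_hasSum' τ (z + a * d / l) j
  have h2 : ∀ r : ℤ, (∑ a ∈ range l, if r % 2 = (j : ℕ) then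
      ee ((r : ℂ) ^ 2 * τ / 4 + r * (z + a * d / l)) else 0) =
      (if r % 2 = (j : ℕ) then ee ((r : ℂ) ^ 2 * τ / 4 + r * z) else 0) *
        if (l : ℤ) ∣ r then (l : ℂ) else 0 := by
    intro r
    by_cases h : r % 2 = (j : ℕ)
    · simp only [if_pos h]
      have h3 := gq2_geom hl.pos (r * d)
      have h4 : (l : ℤ) ∣ r * d ↔ (l : ℤ) ∣ r :=
        ⟨hd.dvd_of_dvd_mul_right, fun h => h.mul_right d⟩
      simp only [h4] at h3
      rw [← h3, Finset.mul_sum]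
      refine Finset.sum_congr rfl fun a _ => ?_
      rw [mul_add, ← add_assoc, ee_add]
      congr 1
      rw [ee]
      congr 1
      push_cast
      ring
    · simp [h]
  simp only [h2] at h1
  have hinj : Function.Injective fun r : ℤ => (l : ℤ) * r :=
    mul_right_injective₀ (Int.natCast_ne_zero.2 hl.pos.ne')
  rw [← hinj.hasSum_iff fun r hr => by
    rw [if_neg (fun ⟨s, hs⟩ => hr ⟨s, hs.symm⟩ : ¬ (l : ℤ) ∣ r), mul_zero]] at h1
  have h5 := (vt_hasSum' (af (l ^ 2 : ℕ) 0 1 τ) (l * z) j).mul_right (l : ℂ)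
  have h6 : vt (af (l ^ 2 : ℕ) 0 1 τ) (l * z) j * l = ∑ a ∈ range l, vt τ (z + a * d / l) j := by
    refine h5.unique (h1.congr fun s => Finset.sum_congr rfl fun r _ => ?_)
    have h7 : (l : ℤ) * r % 2 = r % 2 := by
      obtain ⟨k, rfl⟩ := hl
      push_cast
      rw [add_mul, one_mul, mul_assoc, Int.mul_add_emod_self_left]
    simp only [Function.comp, dvd_mul_right, if_true, h7, j1_coe hl]
    congr 3
    push_cast
    ring
  rw [Pi.smul_apply, Finset.sum_apply, ← h6, smul_eq_mul, mul_comm _ (l : ℂ),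
    inv_mul_cancel_left₀ hl0]

/-- Sketch: `vt_hasSum'` on both sides; `∑_a e(r a / l) = l [l ∣ r]` (`gq2_geom`), and
`r ↦ l r` is injective and keeps the parity. -/
theorem vt_dil {l : ℕ} (hl : Odd l) (τ : ℍ) (z : ℂ) :
    vt (af (l ^ 2 : ℕ) 0 1 τ) (l * z) = (l : ℂ)⁻¹ • ∑ a ∈ range l, vt τ (z + a / l) := by
  simpa using j1_dil hl isCoprime_one_right τ z

/-- Sketch: `vt_dil` at `(γ • τ, z / j)`, `j = den γ τ = l c τ + d`; `z / j + a / l` is
`(z + a j / l) / j` with `a j / l = a d / l + (a c) τ`; `Jm_law`, `vt_add_tau`; the exponents add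
up to `l c z ^ 2 / j - a ^ 2 c d / l`. -/
theorem vt_star {l : ℕ} (hl : Odd l) (γ : SL(2, ℤ)) {c : ℤ} (hc : γ 1 0 = l * c) (τ : ℍ) (z : ℂ) :
    vt (af (l ^ 2 : ℕ) 0 1 (γ • τ)) (l * z / den γ τ) =
      ((l : ℂ)⁻¹ * ee (l * c * z ^ 2 / den γ τ)) • Jm γ τ *ᵥ
        ∑ a ∈ range l, ee (-((a : ℂ) ^ 2 * c * γ 1 1 / l)) • vt τ (z + a * γ 1 1 / l) := by
  have hl0 : (l : ℂ) ≠ 0 := Nat.cast_ne_zero.2 hl.pos.ne'
  have hj := den_ne γ τ
  have hd : den γ τ = l * c * τ + γ 1 1 := by rw [den, hc]; push_cast; ring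
  rw [mul_div_assoc, vt_dil hl, mul_smul, mulVec_sum, Finset.smul_sum, Finset.smul_sum,
    Finset.smul_sum]
  refine Finset.sum_congr rfl fun a _ => ?_
  have e : z / den γ τ + a / l = (z + a * γ 1 1 / l + ((a * c : ℤ) : ℂ) * τ) / den γ τ := by
    push_cast
    field_simp
    rw [hd]
    ring
  rw [e, Jm_law γ τ, vt_add_tau, mulVec_smul, mulVec_smul, smul_smul (ee _), smul_smul (ee _),
    ← ee_add, ← ee_add]
  congr 3
  rw [hc]
  push_cast
  field_simp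
  rw [hd]
  ring

/-- Sketch: `Law.eq`; `vt_star` with `c = l γ' 1 0`; `d = γ 1 1` is prime to `l`, so
`∑_a vt τ (z + a d / l) = ∑_a vt τ (z + a / l)` (both are `l • vt (l ^ 2 τ) (l z)`; prove the
version of `vt_dil` with `d`, or use `vt_add_int` and a permutation of `ZMod l`). -/
theorem Jm_conj {l : ℕ} (hl : Odd l) {γ γ' : SL(2, ℤ)} (h00 : γ' 0 0 = γ 0 0)
    (h01 : γ' 0 1 = l ^ 2 * γ 0 1) (h10 : γ 1 0 = l ^ 2 * γ' 1 0) (h11 : γ' 1 1 = γ 1 1) (τ : ℍ) :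
    Jm γ' (af (l ^ 2 : ℕ) 0 1 τ) = Jm γ τ := by
  have hl0 : (l : ℂ) ≠ 0 := Nat.cast_ne_zero.2 hl.pos.ne'
  have hd : den γ' (af (l ^ 2 : ℕ) 0 1 τ) = den γ τ := by
    rw [den, den, j1_coe hl, h10, h11]
    push_cast
    ring
  have hp : γ' • af (l ^ 2 : ℕ) 0 1 τ = af (l ^ 2 : ℕ) 0 1 (γ • τ) := by
    apply UpperHalfPlane.ext
    rw [coe_SL, hd, j1_coe hl, j1_coe hl, coe_SL, h00, h01]
    push_cast
    ring
  have hcop : IsCoprime (l : ℤ) (γ 1 1) := by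
    have h := γ.det_coe
    rw [Matrix.det_fin_two, h10] at h
    exact ⟨-(γ 0 1 * l * γ' 1 0), γ 0 0, by linear_combination h⟩
  refine Law.eq fun z' => ?_
  obtain ⟨z, rfl⟩ : ∃ z, z' = l * z := ⟨z' / l, by field_simp⟩
  rw [hp, hd, vt_star hl γ (c := l * γ' 1 0) (by rw [h10]; ring), j1_dil hl hcop, mulVec_smul,
    smul_smul, mul_comm (ee _)]
  congr 2
  · congr 1
    push_cast
    ring
  · refine Finset.sum_congr rfl fun a _ => ?_
    have e : -((a : ℂ) ^ 2 * ((l * γ' 1 0 : ℤ) : ℂ) * γ 1 1 / l) =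
        ((-(a ^ 2 * γ' 1 0 * γ 1 1) : ℤ) : ℂ) := by
      push_cast
      field_simp
    rw [e, ee_int, one_smul]

end Pool.Agent.Lib.MP_bcfefa_nt.B
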