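import Pool.Agent.Lib.MP_bcfefa_nt.B.J1

/-!
The theta multiplier of the middle cosets, and Gauss sums.
-/

set_option autoImplicit false

noncomputable section

namespace Pool.Agent.Lib.MP_bcfefa_nt.B

open Finset CongruenceSubgroup UpperHalfPlane Matrix MeasureTheory Complex ModularGroup Filter
open Pool.Agent.Lib.MP_88d29b_nt.G
open scoped MatrixGroups ModularForm Manifold ComplexConjugate Topology

theorem j2_shift {l : ℕ} {f : ℤ → ℂ} (hf : ∀ a, f (a + l) = f a) (s : ℤ) :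
    ∑ a ∈ range l, f (a + s) = ∑ a ∈ range l, f a := by
  have step : ∀ s : ℤ, ∑ a ∈ range l, f (a + (s + 1)) = ∑ a ∈ range l, f (a + s) := fun s => by
    have h1 := (sum_range_succ' (fun a : ℕ => f (a + s)) l).symm.trans
      (sum_range_succ (fun a : ℕ => f (a + s)) l)
    rw [add_comm (l : ℤ), hf, Nat.cast_zero, zero_add, add_left_inj] at h1
    rw [← h1]
    exact sum_congr rfl fun a _ => by rw [Nat.cast_succ, add_assoc, add_comm 1]
  induction s using Int.induction_on with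
  | zero => simp only [add_zero]
  | succ n ih => rw [step, ih]
  | pred n ih => rw [← step, sub_add_cancel, ih]

theorem j2_geom {l : ℕ} (hl : 0 < l) (t : ℤ) :
    ∑ j ∈ range l, ee (t * j / l) = if (l : ℤ) ∣ t then (l : ℂ) else 0 := by
  rw [← gq2_geom hl]
  exact sum_congr rfl fun j _ => by rw [ee, ← mul_div_assoc, ← mul_assoc]

/-- Completing the square: `-h a ^ 2 + a r ≡ -h (a - 2 h' r) ^ 2 + h' r ^ 2 mod l`. Sketch: the
function `a ↦ ee (-(a ^ 2 h / l))` on `ℤ` has period `l`; a sum over `range l` of a periodic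
function is invariant under shifts (induction, or `ZMod l` and `Equiv.subRight`). -/
theorem gauss_shift {l : ℕ} (hl : 0 < l) {h h' u : ℤ} (hu : 4 * h * h' + l * u = 1) (r : ℤ) :
    ∑ a ∈ range l, ee (-((a : ℂ) ^ 2 * h / l) + r * a / l) =
      gauss l h * ee ((r : ℂ) ^ 2 * h' / l) := by
  have hl' : (l : ℂ) ≠ 0 := Nat.cast_ne_zero.2 hl.ne'
  have hu' : 4 * (h : ℂ) * h' + l * u = 1 := by exact_mod_cast hu
  have h1 := j2_shift (l := l) (f := fun a => ee (-((a : ℂ) ^ 2 * h / l))) (fun a => by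
    rw [← ee_add_int _ ((2 * a + l) * h)]
    congr 1
    push_cast
    field_simp
    ring) (-(2 * h' * r))
  simp only [Int.cast_natCast] at h1
  rw [gauss, ← h1, sum_mul]
  refine sum_congr rfl fun a _ => ?_
  rw [← ee_add, ← ee_add_int (_ + (r : ℂ) ^ 2 * h' / l) (u * (a * r - h' * r ^ 2))]
  congr 1
  push_cast
  field_simp
  linear_combination (h' * r ^ 2 - a * r : ℂ) * hu'

/-- Sketch: `vt_hasSum`, `hasSum_sum`, `gauss_shift`, `coe_af`. -/
theorem vt_gauss {l : ℕ} (hl : 0 < l) {h h' u : ℤ} (hu : 4 * h * h' + l * u = 1) (τ : ℍ) (z : ℂ) :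
    ∑ a ∈ range l, ee (-((a : ℂ) ^ 2 * h / l)) • vt τ (z + a / l) =
      gauss l h • vt (af l (4 * h') l τ) z := by
  funext j
  rw [Finset.sum_apply]
  refine (hasSum_sum fun a (_ : a ∈ range l) =>
    (vt_hasSum τ (z + a / l) j).mul_left (ee (-((a : ℂ) ^ 2 * h / l)))).unique ?_
  refine ((vt_hasSum _ z j).mul_left (gauss l h)).congr fun s => sum_congr rfl fun n _ => ?_
  have h1 := gauss_shift hl hu (2 * n + (j : ℕ))
  have hl' : (l : ℂ) ≠ 0 := Nat.cast_ne_zero.2 hl.ne'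
  push_cast at h1
  beta_reduce
  rw [coe_af _ (Int.natCast_pos.2 hl) (Int.natCast_pos.2 hl),
    show (2 * (n : ℂ) + (j : ℕ)) ^ 2 * ((((l : ℤ) : ℂ) * τ + (4 * h' : ℤ)) / (l : ℤ)) / 4 +
      (2 * (n : ℂ) + (j : ℕ)) * z = (2 * (n : ℂ) + (j : ℕ)) ^ 2 * h' / l +
      ((2 * (n : ℂ) + (j : ℕ)) ^ 2 * τ / 4 + (2 * (n : ℂ) + (j : ℕ)) * z) by
        push_cast
        field_simp
        ring, ee_add, ← mul_assoc, ← h1, sum_mul]
  refine sum_congr rfl fun a _ => ?_
  rw [← ee_add, ← ee_add]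
  congr 1
  ring

/-- Sketch: `Law.eq`; `γ • af l (4 h') l τ = af (l ^ 2) 0 1 (Lo (l h) • τ)` and
`den γ (af l (4 h') l τ) = den (Lo (l h)) τ / l`; `vt_star` with `c = h`, `vt_gauss`. -/
theorem Jm_mid {l : ℕ} (hl : Odd l) {h h' u : ℤ} {γ : SL(2, ℤ)} (h00 : γ 0 0 = l)
    (h01 : γ 0 1 = -(4 * h')) (h10 : γ 1 0 = h) (h11 : γ 1 1 = u) (τ : ℍ) :
    Jm γ (af l (4 * h') l τ) = (gauss l h / l) • Jm (Lo (l * h)) τ := by
  have hl0 : (0 : ℤ) < l := Int.natCast_pos.2 hl.pos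
  have hl' : (l : ℂ) ≠ 0 := Nat.cast_ne_zero.2 hl.pos.ne'
  have hu : 4 * h * h' + l * u = 1 := by
    have h1 := γ.det_coe
    rw [Matrix.det_fin_two, h00, h01, h10, h11] at h1
    linear_combination h1
  have hu' : 4 * (h : ℂ) * h' + l * u = 1 := by exact_mod_cast hu
  have hd : den γ (af l (4 * h') l τ) = den (Lo (l * h)) τ / l := by
    rw [den_Lo, den, coe_af _ hl0 hl0, h10, h11]
    push_cast
    field_simp
    linear_combination hu'
  have hp : γ • af l (4 * h') l τ = af (l ^ 2 : ℕ) 0 1 (Lo (l * h) • τ) := by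
    have h1 := den_ne (Lo (l * h)) τ
    apply UpperHalfPlane.ext
    rw [coe_SL, hd, coe_af _ hl0 hl0, coe_af _ (Int.natCast_pos.2 (pow_pos hl.pos 2)) one_pos,
      coe_SL, h00, h01, show Lo (l * h) 0 0 = 1 from rfl, show Lo (l * h) 0 1 = 0 from rfl]
    push_cast
    field_simp
    ring
  refine Law.eq fun z => ?_
  have h2 := vt_star hl (Lo (l * h)) (c := h) rfl τ z
  rw [show Lo (l * h) 1 1 = 1 from rfl] at h2
  simp only [Int.cast_one, mul_one] at h2
  rw [hp, hd, h10, div_div_eq_mul_div, mul_comm z, h2, vt_gauss hl.pos hu, mulVec_smul,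
    smul_mulVec, smul_smul, smul_smul, div_div_eq_mul_div, mul_comm _ (l : ℂ), ← mul_assoc]
  congr 1
  ring

/-- Sketch: `gauss_shift` backwards, exchange the sums; `∑_{h ≠ 0} e(-a ^ 2 h / l)` is `l - 1` for
`a = 0` and `-1` otherwise (`gq2_geom`). -/
theorem gauss_sum {l : ℕ} (hl : l.Prime) (h' : Fin l → ℤ)
    (hh' : ∀ h : Fin l, h.val ≠ 0 → ∃ u : ℤ, 4 * (h.val : ℤ) * h' h + l * u = 1) (m : ℕ) :
    ∑ h ∈ univ.filter (fun h : Fin l => h.val ≠ 0), gauss l h.val * ee ((m : ℂ) ^ 2 * h' h / l) =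
      if l ∣ m then 0 else (l : ℂ) := by
  have h1 : ∀ a ∈ range l, ∑ h ∈ range l, ee (-((a : ℂ) ^ 2 * h / l) + (m : ℤ) * a / l) =
      if a = 0 then (l : ℂ) else 0 := fun a ha => by
    have h2 := j2_geom hl.pos (-(a : ℤ) ^ 2)
    push_cast at h2
    simp only [ee_add, ← sum_mul, ← neg_div, ← neg_mul, h2]
    by_cases h0 : a = 0
    · simp [h0]
    · rw [if_neg h0, if_neg, zero_mul]
      rw [dvd_neg, ← Nat.cast_pow, Int.natCast_dvd_natCast]
      exact fun h3 => h0 (Nat.eq_zero_of_dvd_of_lt (hl.dvd_of_dvd_pow h3) (mem_range.1 ha))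
  have h2 : ∑ h ∈ univ.filter (fun h : Fin l => h.val ≠ 0),
      gauss l h.val * ee ((m : ℂ) ^ 2 * h' h / l) = ∑ h ∈ (range l).erase 0,
        ∑ a ∈ range l, ee (-((a : ℂ) ^ 2 * h / l) + (m : ℤ) * a / l) := by
    rw [← filter_ne', sum_filter, sum_filter, ← Fin.sum_univ_eq_sum_range]
    refine sum_congr rfl fun h _ => if_ctx_congr Iff.rfl (fun h0 => ?_) fun _ => rfl
    obtain ⟨u, hu⟩ := hh' h h0
    simpa only [Int.cast_natCast] using (gauss_shift hl.pos hu m).symm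
  rw [h2, sum_erase_eq_sub (mem_range.2 hl.pos), sum_comm, sum_congr rfl h1, sum_ite_eq',
    if_pos (mem_range.2 hl.pos)]
  simp only [Nat.cast_zero, mul_zero, zero_div, neg_zero, zero_add, j2_geom hl.pos,
    Int.natCast_dvd_natCast]
  split_ifs <;> simp

end Pool.Agent.Lib.MP_bcfefa_nt.B
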