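import Pool.Agent.Lib.MP_bcfefa_nt.B.VtS

/-!
The theta multiplier.
-/

set_option autoImplicit false

noncomputable section

namespace Pool.Agent.Lib.MP_bcfefa_nt.B

open Finset CongruenceSubgroup UpperHalfPlane Matrix MeasureTheory Complex ModularGroup Filter
open Pool.Agent.Lib.MP_88d29b_nt.G
open scoped MatrixGroups ModularForm Manifold ComplexConjugate Topology

theorem law_S (τ : ℍ) : Law S τ (JS τ) := fun z => by
  have h : ((S 1 0 : ℤ) : ℂ) = 1 := by simp [S]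
  rw [den_S, h, one_mul, vt_S]

theorem law_T (τ : ℍ) : Law T τ JT := fun z => by
  have h : ((T 1 0 : ℤ) : ℂ) = 0 := by simp [T]
  rw [den_T, h, zero_mul, zero_div, ee_zero, one_smul, div_one, vt_T]

/-- Sketch: `den_mul`; with `j = den γ (γ' • τ)`, `j' = den γ' τ` one has
`c'' / (j j') = c / (j j' ^ 2) + c' / j'` (use `coe_SL`, `det_cast`). -/
theorem Law.mul {γ γ' : SL(2, ℤ)} {τ : ℍ} {J J' : Matrix (Fin 2) (Fin 2) ℂ}
    (h : Law γ (γ' • τ) J) (h' : Law γ' τ J') : Law (γ * γ') τ (J * J') := fun z => by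
  have h1 := den_ne γ (γ' • τ)
  have h2 := den_ne γ' τ
  have hj : den γ (γ' • τ) * den γ' τ =
      (γ 1 0 : ℂ) * ((γ' 0 0 : ℂ) * τ + γ' 0 1) + γ 1 1 * den γ' τ := by
    rw [den, coe_SL]
    field_simp
  have hc : (((γ * γ') 1 0 : ℤ) : ℂ) = γ 1 0 * γ' 0 0 + γ 1 1 * γ' 1 0 := by
    simp [Matrix.mul_apply, Fin.sum_univ_two]
  have hd : den γ' τ = (γ' 1 0 : ℂ) * τ + γ' 1 1 := rfl
  have hk : ((γ 1 0 : ℂ) * γ' 0 0 + γ 1 1 * γ' 1 0) * den γ' τ =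
      γ 1 0 + γ' 1 0 * (den γ (γ' • τ) * den γ' τ) := by
    linear_combination -(γ' 1 0 : ℂ) * hj + (γ 1 0 : ℂ) * γ' 0 0 * hd + (γ 1 0 : ℂ) * det_cast γ'
  rw [mul_smul, den_mul, mul_comm (den γ _), ← div_div, h, h', mulVec_smul, smul_smul, ← ee_add,
    mulVec_mulVec, hc]
  congr 2
  field_simp
  linear_combination -z ^ 2 * hk

/-- Sketch: `SL_ind`; for `T⁻¹` the matrix is `!![1, 0; 0, -I]` (apply `vt_T` at `T⁻¹ • τ`). -/
theorem exists_law (γ : SL(2, ℤ)) (τ : ℍ) : ∃ J, Law γ τ J ∧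
    Jᴴ * J = ((‖den γ τ‖ : ℝ) : ℂ) • (1 : Matrix (Fin 2) (Fin 2) ℂ) := by
  revert τ
  refine SL_ind (fun γ => ∀ τ : ℍ, ∃ J, Law γ τ J ∧
    Jᴴ * J = ((‖den γ τ‖ : ℝ) : ℂ) • (1 : Matrix (Fin 2) (Fin 2) ℂ)) (fun τ => ?_) (fun τ => ?_)
    (fun τ => ?_) (fun a b ha hb τ => ?_) γ
  · exact ⟨JS τ, law_S τ, by rw [den_S, JS_unit]⟩
  · refine ⟨JT, law_T τ, ?_⟩
    ext i j
    fin_cases i <;> fin_cases j <;> simp [JT, Matrix.mul_apply, Fin.sum_univ_two]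
  · have hd : den T⁻¹ τ = 1 := by rw [← _root_.zpow_neg_one, den_T_zpow]
    have hc : ((T⁻¹ 1 0 : ℤ) : ℂ) = 0 := by
      rw [← _root_.zpow_neg_one]
      simp only [coe_T_zpow]
      simp
    have hJ : (!![1, 0; 0, -Complex.I] : Matrix (Fin 2) (Fin 2) ℂ) * JT = 1 := by
      ext i j
      fin_cases i <;> fin_cases j <;> simp [JT, Matrix.mul_apply, Fin.sum_univ_two]
    refine ⟨!![1, 0; 0, -Complex.I], fun z => ?_, ?_⟩
    · have h := vt_T (T⁻¹ • τ) z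
      rw [smul_inv_smul] at h
      rw [hd, hc, zero_mul, zero_div, ee_zero, one_smul, div_one, h, mulVec_mulVec, hJ, one_mulVec]
    · rw [hd]
      ext i j
      fin_cases i <;> fin_cases j <;> simp [Matrix.mul_apply, Fin.sum_univ_two]
  · obtain ⟨J, hJ, hu⟩ := ha (b • τ)
    obtain ⟨J', hJ', hu'⟩ := hb τ
    refine ⟨J * J', hJ.mul hJ', ?_⟩
    rw [conjTranspose_mul, Matrix.mul_assoc, ← Matrix.mul_assoc Jᴴ, hu, Matrix.smul_mul,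
      Matrix.one_mul, Matrix.mul_smul, hu', smul_smul, den_mul, norm_mul, Complex.ofReal_mul]

theorem Jm_law (γ : SL(2, ℤ)) (τ : ℍ) : Law γ τ (Jm γ τ) := by
  have h : ∃ J, Law γ τ J := (exists_law γ τ).imp fun _ h => h.1
  rw [Jm, dif_pos h]
  exact h.choose_spec

theorem Law.eq {γ : SL(2, ℤ)} {τ : ℍ} {J : Matrix (Fin 2) (Fin 2) ℂ} (h : Law γ τ J) :
    Jm γ τ = J :=
  vt_indep τ fun z => smul_right_injective _ (ee_ne_zero _) ((Jm_law γ τ z).symm.trans (h z))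

theorem Jm_mul (γ γ' : SL(2, ℤ)) (τ : ℍ) : Jm (γ * γ') τ = Jm γ (γ' • τ) * Jm γ' τ :=
  ((Jm_law γ _).mul (Jm_law γ' τ)).eq

theorem Jm_unit (γ : SL(2, ℤ)) (τ : ℍ) :
    (Jm γ τ)ᴴ * Jm γ τ = ((‖den γ τ‖ : ℝ) : ℂ) • (1 : Matrix (Fin 2) (Fin 2) ℂ) := by
  obtain ⟨J, h, hu⟩ := exists_law γ τ
  rwa [h.eq]

theorem isUnit_det_Jm (γ : SL(2, ℤ)) (τ : ℍ) : IsUnit (Jm γ τ).det := by
  refine isUnit_iff_ne_zero.2 fun h => ?_
  have h1 := congrArg Matrix.det (Jm_unit γ τ)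
  rw [det_mul, h, mul_zero, det_smul, det_one, mul_one] at h1
  exact pow_ne_zero _ (Complex.ofReal_ne_zero.2 (norm_ne_zero_iff.2 (den_ne γ τ))) h1.symm

theorem Jm_S (τ : ℍ) : Jm S τ = JS τ := (law_S τ).eq

theorem Jm_T (τ : ℍ) : Jm T τ = JT := (law_T τ).eq

theorem Jm_one (τ : ℍ) : Jm 1 τ = 1 :=
  Law.eq fun z => by simp

/-- Sketch: directly from the definition of `vt`: `e((2 n + j) ^ 2 m) = 1`. -/
theorem Jm_T4 (m : ℤ) (τ : ℍ) : Jm (T ^ (4 * m)) τ = 1 := by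
  refine Law.eq fun z => ?_
  have hc : (((T ^ (4 * m)) 1 0 : ℤ) : ℂ) = 0 := by simp [coe_T_zpow]
  rw [den_T_zpow, hc, zero_mul, zero_div, ee_zero, one_smul, div_one, one_mulVec]
  funext j
  refine tsum_congr fun n => ?_
  rw [coe_T_zpow_smul, ← ee_add_int (_ * τ / 4 + _) ((2 * n + (j : ℕ)) ^ 2 * m)]
  congr 1
  push_cast
  ring

/-- Unitarity in the form used for Petersson densities. -/
theorem star_Jm_dot (γ : SL(2, ℤ)) (τ : ℍ) (u v : Fin 2 → ℂ) :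
    star (Jm γ τ *ᵥ u) ⬝ᵥ (Jm γ τ *ᵥ v) = ((‖den γ τ‖ : ℝ) : ℂ) * (star u ⬝ᵥ v) := by
  rw [star_mulVec, ← dotProduct_mulVec, mulVec_mulVec, Jm_unit, smul_mulVec, one_mulVec,
    dotProduct_smul, smul_eq_mul]

lemma law_dot (w : Fin 2 → ℂ) : star w ⬝ᵥ w = ((‖w 0‖ ^ 2 + ‖w 1‖ ^ 2 : ℝ) : ℂ) := by
  simp [dotProduct, Fin.sum_univ_two, Complex.conj_mul']

/-- Sketch: each entry of `J` has square norm at most `‖den γ τ‖` (diagonal of `Jm_unit`). -/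
theorem norm_Jm_mulVec (γ : SL(2, ℤ)) (τ : ℍ) (u : Fin 2 → ℂ) :
    ‖Jm γ τ *ᵥ u‖ ≤ 2 * Real.sqrt ‖den γ τ‖ * ‖u‖ := by
  have h := star_Jm_dot γ τ u u
  rw [law_dot, law_dot, ← Complex.ofReal_mul, Complex.ofReal_inj] at h
  have h0 : ∀ i, ‖u i‖ ^ 2 ≤ ‖u‖ ^ 2 := fun i =>
    pow_le_pow_left₀ (norm_nonneg _) (norm_le_pi_norm u i) 2
  have h1 : ‖den γ τ‖ * (‖u 0‖ ^ 2 + ‖u 1‖ ^ 2) ≤ (2 * Real.sqrt ‖den γ τ‖ * ‖u‖) ^ 2 := by
    rw [mul_pow, mul_pow, Real.sq_sqrt (norm_nonneg _)]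
    have h2 := mul_le_mul_of_nonneg_left (add_le_add (h0 0) (h0 1)) (norm_nonneg (den γ τ))
    have h3 := mul_nonneg (norm_nonneg (den γ τ)) (sq_nonneg ‖u‖)
    linarith
  have hp : 0 ≤ 2 * Real.sqrt ‖den γ τ‖ * ‖u‖ := by positivity
  rw [pi_norm_le_iff_of_nonneg hp, Fin.forall_fin_two]
  constructor
  · exact (pow_le_pow_iff_left₀ (norm_nonneg _) hp two_ne_zero).1 (by linarith [sq_nonneg ‖(Jm γ τ *ᵥ u) 1‖])
  · exact (pow_le_pow_iff_left₀ (norm_nonneg _) hp two_ne_zero).1 (by linarith [sq_nonneg ‖(Jm γ τ *ᵥ u) 0‖])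

end Pool.Agent.Lib.MP_bcfefa_nt.B
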