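import Pool.Agent.Lib.MP_bcfefa_nt.B.Bas

/-!
The Shimura lift of `cf`.
-/

set_option autoImplicit false

noncomputable section

namespace Pool.Agent.Lib.MP_bcfefa_nt.B

open Finset CongruenceSubgroup UpperHalfPlane Matrix MeasureTheory Complex ModularGroup Filter
open Pool.Agent.Lib.MP_88d29b_nt.G
open scoped MatrixGroups ModularForm Manifold ComplexConjugate Topology

lemma sha_dist (x y : ℕ) : ((Nat.dist x y : ℕ) : ℂ) ^ 2 = ((x : ℂ) - y) ^ 2 := by
  rcases le_total x y with h | h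
  · rw [Nat.dist_eq_sub_of_le h, Nat.cast_sub h]
    ring
  · rw [Nat.dist_eq_sub_of_le_right h, Nat.cast_sub h]

lemma sha_card {N : ℕ} {q : ℕ × ℕ} (hq : q.1 + q.2 = N ^ 2) (h4 : 4 ∣ q.2) :
    ((((antidiagonal N).filter fun p : ℕ × ℕ =>
      ((Nat.dist p.1 p.2 ^ 2, 4 * (p.1 * p.2)) : ℕ × ℕ) = q).card : ℕ) : ℂ) = thc q.1 := by
  obtain ⟨s, t⟩ := q
  dsimp only at hq h4 ⊢
  by_cases hs : IsSquare s
  · obtain ⟨r, rfl⟩ := hs
    obtain ⟨u, rfl⟩ := h4
    have hrN : r ≤ N := by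
      by_contra hc
      nlinarith
    obtain ⟨v, rfl⟩ := Nat.exists_eq_add_of_le hrN
    have hv : Even v := by
      have h1 : v * v + 2 * (r * v) = 2 * (2 * u) := by nlinarith
      have h2 : Even (v * v) := by
        rw [even_iff_two_dvd]
        omega
      exact (Nat.even_mul.1 h2).elim id id
    obtain ⟨y, rfl⟩ := hv
    have hu : u = (y + r) * y := by nlinarith
    have he : ((antidiagonal (r + (y + y))).filter fun p : ℕ × ℕ =>
        ((Nat.dist p.1 p.2 ^ 2, 4 * (p.1 * p.2)) : ℕ × ℕ) = (r * r, 4 * u)) =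
        {(y + r, y), (y, y + r)} := by
      ext ⟨i, j⟩
      simp only [Finset.mem_filter, HasAntidiagonal.mem_antidiagonal, Finset.mem_insert,
        Finset.mem_singleton, Prod.mk.injEq]
      constructor
      · rintro ⟨h1, h2, -⟩
        rw [← sq] at h2
        have h3 := Nat.pow_left_injective (by norm_num : (2 : ℕ) ≠ 0) h2
        simp only [Nat.dist] at h3
        omega
      · rintro (⟨rfl, rfl⟩ | ⟨rfl, rfl⟩)
        · refine ⟨by ring, ?_, by rw [hu]⟩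
          rw [Nat.dist_eq_sub_of_le_right (Nat.le_add_right _ _), Nat.add_sub_cancel_left, sq]
        · refine ⟨by ring, ?_, by rw [hu, mul_comm (i + r)]⟩
          rw [Nat.dist_eq_sub_of_le (Nat.le_add_right _ _), Nat.add_sub_cancel_left, sq]
    rw [he, thc]
    rcases Nat.eq_zero_or_pos r with rfl | hr
    · simp
    · rw [if_neg (Nat.mul_pos hr hr).ne', if_pos ⟨r, rfl⟩, Finset.card_pair]
      · norm_num
      · intro h
        have h1 := congrArg Prod.fst h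
        dsimp only at h1
        omega
  · have h0 : s ≠ 0 := by
      rintro rfl
      exact hs ⟨0, rfl⟩
    rw [thc, if_neg h0, if_neg hs, Nat.cast_eq_zero, Finset.card_eq_zero,
      Finset.filter_eq_empty_iff]
    intro p _ hp
    exact hs ⟨Nat.dist p.1 p.2, by rw [← sq]; exact (congrArg Prod.fst hp).symm⟩

/-- Sketch: both sides are sums over the integers `r` with `|r| ≤ N`, `r ≡ N mod 2`. Map
`p ↦ ((p.1 - p.2) ^ 2, 4 p.1 p.2)` from `antidiagonal N` to `antidiagonal (N ^ 2)`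
(`Finset.sum_fiberwise_of_maps_to` or `Finset.sum_comp`); the fibre over `(s, t)` has `thc s`
elements if `4 ∣ t` and is empty otherwise. -/
theorem cf_sq (μ : ℕ) (a b : ℕ → ℂ) (N : ℕ) :
    cf μ a b (N ^ 2) = ∑ p ∈ antidiagonal N, (a (p.1 * p.2) + rcw μ p * b (p.1 * p.2)) := by
  have hmap : ∀ p ∈ antidiagonal N,
      ((Nat.dist p.1 p.2 ^ 2, 4 * (p.1 * p.2)) : ℕ × ℕ) ∈ antidiagonal (N ^ 2) := by
    intro p hp
    rw [HasAntidiagonal.mem_antidiagonal] at hp ⊢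
    rw [← hp]
    have h := sha_dist p.1 p.2
    have h' : ((Nat.dist p.1 p.2 ^ 2 + 4 * (p.1 * p.2) : ℕ) : ℂ) = (((p.1 + p.2) ^ 2 : ℕ) : ℂ) := by
      push_cast
      rw [h]
      ring
    exact_mod_cast h'
  have h1 := Finset.sum_fiberwise_of_maps_to' hmap
    (fun q : ℕ × ℕ => V4 a q.2 + ((q.2 : ℂ) / 2 - μ * q.1) * V4 b q.2)
  have h2 : ∀ p : ℕ × ℕ, a (p.1 * p.2) + rcw μ p * b (p.1 * p.2) =
      V4 a (4 * (p.1 * p.2)) + (((4 * (p.1 * p.2) : ℕ) : ℂ) / 2 -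
        μ * ((Nat.dist p.1 p.2 ^ 2 : ℕ) : ℂ)) * V4 b (4 * (p.1 * p.2)) := by
    intro p
    simp only [V4, dvd_mul_right, if_true, Nat.mul_div_cancel_left _ (by norm_num : 0 < 4), rcw]
    push_cast
    rw [sha_dist]
    ring
  simp only [h2]
  rw [← h1, cf]
  refine Finset.sum_congr rfl fun q hq => ?_
  rw [Finset.sum_const, nsmul_eq_mul]
  by_cases h4 : 4 ∣ q.2
  · rw [sha_card (HasAntidiagonal.mem_antidiagonal.1 hq) h4]
  · simp only [V4, if_neg h4, mul_zero, add_zero]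

/-- Sketch: `cf_sq`; both sides are sums over `(d, p)` with `d ∣ n`, `p ∈ antidiagonal (n / d)`,
matched with `(d p.1, d p.2) ∈ antidiagonal n` and `d ∣ gcd` (`Finset.sum_sigma'`,
`Finset.sum_bij'`); `rcw μ (d p.1, d p.2) = d ^ 2 rcw μ p`. -/
theorem sh_cf {μ : ℕ} (hμ : 0 < μ) (a b : ℕ → ℂ) {n : ℕ} (hn : 0 < n) :
    sh (μ + 2) (cf μ a b) n =
      ∑ p ∈ antidiagonal n, (hh (μ + 2) a p.1 p.2 + rcw μ p * hh μ b p.1 p.2) := by
  obtain ⟨ν, rfl⟩ : ∃ ν, μ = ν + 1 := ⟨μ - 1, by omega⟩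
  simp only [sh, cf_sq, hh, Finset.mul_sum, ← Finset.sum_add_distrib]
  rw [Finset.sum_sigma', Finset.sum_sigma']
  refine Finset.sum_nbij' (fun x => ⟨(x.1 * x.2.1, x.1 * x.2.2), x.1⟩)
    (fun y => ⟨y.2, (y.1.1 / y.2, y.1.2 / y.2)⟩) ?_ ?_ ?_ ?_ ?_
  · rintro ⟨d, i, j⟩ h
    simp only [Finset.mem_sigma, Nat.mem_divisors, HasAntidiagonal.mem_antidiagonal] at h ⊢
    obtain ⟨⟨h1, -⟩, h2⟩ := h
    have h3 : d * i + d * j = n := by rw [← mul_add, h2, Nat.mul_div_cancel' h1]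
    refine ⟨h3, Nat.dvd_gcd (dvd_mul_right _ _) (dvd_mul_right _ _), fun h4 => ?_⟩
    rw [Nat.gcd_eq_zero_iff] at h4
    omega
  · rintro ⟨⟨i, j⟩, d⟩ h
    simp only [Finset.mem_sigma, Nat.mem_divisors, HasAntidiagonal.mem_antidiagonal,
      Nat.dvd_gcd_iff] at h ⊢
    obtain ⟨h1, ⟨h2, h3⟩, -⟩ := h
    refine ⟨⟨h1 ▸ dvd_add h2 h3, hn.ne'⟩, ?_⟩
    rw [← h1, Nat.add_div_of_dvd_right h2]
  · rintro ⟨d, i, j⟩ h
    simp only [Finset.mem_sigma, Nat.mem_divisors] at h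
    have hd : 0 < d := Nat.pos_of_dvd_of_pos h.1.1 hn
    simp only [Nat.mul_div_cancel_left _ hd]
  · rintro ⟨⟨i, j⟩, d⟩ h
    simp only [Finset.mem_sigma, Nat.mem_divisors, Nat.dvd_gcd_iff] at h
    simp only [Nat.mul_div_cancel' h.2.1.1, Nat.mul_div_cancel' h.2.1.2]
  · rintro ⟨d, i, j⟩ h
    simp only [Finset.mem_sigma, Nat.mem_divisors] at h
    have hd : 0 < d := Nat.pos_of_dvd_of_pos h.1.1 hn
    have e : d * i * (d * j) / d ^ 2 = i * j := by
      rw [show d * i * (d * j) = d ^ 2 * (i * j) by ring, Nat.mul_div_cancel_left _ (by positivity)]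
    simp only [e, rcw, Nat.add_sub_cancel, show ν + 1 + 2 - 1 = ν + 2 by omega]
    push_cast
    ring

end Pool.Agent.Lib.MP_bcfefa_nt.B
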