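import Pool.Agent.Lib.MP_bcfefa_nt.B.Sel
import Pool.Agent.Lib.MP_bcfefa_nt.B.RC
import Pool.Agent.Lib.MP_bcfefa_nt.B.ShA
import Pool.Agent.Lib.MP_bcfefa_nt.B.ShB

/-!
The Shimura lift is modular, and bijective under `Inj`.
-/

set_option autoImplicit false

noncomputable section

namespace Pool.Agent.Lib.MP_bcfefa_nt.B

open Finset CongruenceSubgroup UpperHalfPlane Matrix MeasureTheory Complex ModularGroup Filter
open Pool.Agent.Lib.MP_88d29b_nt.G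
open scoped MatrixGroups ModularForm Manifold ComplexConjugate Topology

/-- Sketch: `selberg` for `a` and for `b`; `h = ∑ cv (B i) (C i) + ∑ bracket (B' j) (C' j)`
(`IsM.mul`, `rc_mem`), `sh_cf`. -/
theorem lift_mem {μ : ℕ} (he : Even μ) (hμ : 0 < μ) {a b : ℕ → ℂ} (ha : a ∈ MS (μ + 2))
    (hb : b ∈ MS μ) :
    ∃ h ∈ MS (2 * (μ + 2)), ∀ n, 0 < n → h n = sh (μ + 2) (cf μ a b) n := by
  obtain ⟨r, B, C, h1, h2⟩ := selberg (by omega) (he.add even_two) ha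
  obtain ⟨r', B', C', h3, h4⟩ := selberg hμ he hb
  refine ⟨_, add_mem (sum_mem fun i (_ : i ∈ univ) =>
    two_mul (μ + 2) ▸ ((isM_fn (h1 i).1).mul (isM_fn (h1 i).2)).mem)
    (sum_mem fun i (_ : i ∈ univ) => rc_mem (h3 i).1 (h3 i).2), fun n hn => ?_⟩
  rw [sh_cf hμ a b hn, sum_add_distrib]
  simp only [Pi.add_apply, Finset.sum_apply, cv]
  have h5 : ∀ p ∈ antidiagonal n, p.1 ≠ 0 ∨ p.2 ≠ 0 := fun p hp => by
    have := mem_antidiagonal.1 hp
    omega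
  rw [sum_comm, sum_comm (s := univ)]
  refine congrArg₂ (· + ·) (sum_congr rfl fun p hp => h2 _ _ (h5 p hp))
    (sum_congr rfl fun p hp => ?_)
  rw [← mul_sum, h4 _ _ (h5 p hp)]

/-- Sketch: the linear map `Φ (a, b) = fun n => sh (cf a b) (n + 1)` on `MS (μ + 2) × MS μ` is
injective (`sh_zero`, `Inj`), the linear map `Ψ h = fun n => h (n + 1)` on `MS (2 (μ + 2))` is
injective (`MS_eq_zero`), `range Φ ≤ range Ψ` (`lift_mem`) and the dimensions agree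
(`finrank_MS_add`, `LinearMap.finrank_range_of_inj`, `Submodule.eq_of_le_of_finrank_eq`). -/
theorem lift_surj {μ : ℕ} (he : Even μ) (hμ : 0 < μ) (hI : Inj μ) {h : ℕ → ℂ}
    (hm : h ∈ MS (2 * (μ + 2))) :
    ∃ a ∈ MS (μ + 2), ∃ b ∈ MS μ, ∀ n, 0 < n → sh (μ + 2) (cf μ a b) n = h n := by
  let Φ : (MS (μ + 2) × MS μ) →ₗ[ℂ] ℕ → ℂ :=
    { toFun := fun x n => sh (μ + 2) (cf μ x.1 x.2) (n + 1)
      map_add' := fun x y => funext fun n => congrFun
        ((congrArg (sh (μ + 2)) (cf_add μ x.1 y.1 x.2 y.2)).trans (sh_add _ _ _)) (n + 1)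
      map_smul' := fun c x => funext fun n => congrFun
        ((congrArg (sh (μ + 2)) (cf_smul μ c x.1 x.2)).trans (sh_smul _ _ _)) (n + 1) }
  let Ψ : MS (2 * (μ + 2)) →ₗ[ℂ] ℕ → ℂ := (LinearMap.funLeft ℂ ℂ Nat.succ).comp (MS _).subtype
  have pos : ∀ {P : ℕ → Prop}, (∀ n, P (n + 1)) → ∀ n, 0 < n → P n := fun h n hn =>
    Nat.succ_pred_eq_of_pos hn ▸ h _
  have h1 : Function.Injective Φ := (injective_iff_map_eq_zero Φ).2 fun x hx => by
    obtain ⟨h1, h2⟩ := hI _ x.1.2 _ x.2.2 (sh_zero (lam := μ + 2) (pos (congrFun hx)))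
    exact Prod.ext (Subtype.ext h1) (Subtype.ext h2)
  have h2 : Function.Injective Ψ := (injective_iff_map_eq_zero Ψ).2 fun x hx =>
    Subtype.ext (MS_eq_zero (by omega) x.2 (pos (congrFun hx)))
  have h3 : LinearMap.range Φ = LinearMap.range Ψ := by
    refine Submodule.eq_of_le_of_finrank_eq ?_ ?_
    · rintro _ ⟨x, rfl⟩
      obtain ⟨g, hg, h3⟩ := lift_mem he hμ x.1.2 x.2.2
      exact ⟨⟨g, hg⟩, funext fun n => h3 _ n.succ_pos⟩
    · rw [LinearMap.finrank_range_of_inj h1, LinearMap.finrank_range_of_inj h2,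
        Module.finrank_prod, finrank_MS_add he]
  obtain ⟨x, hx⟩ := h3.ge ⟨⟨h, hm⟩, rfl⟩
  exact ⟨_, x.1.2, _, x.2.2, pos (congrFun hx)⟩

end Pool.Agent.Lib.MP_bcfefa_nt.B
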