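import Pool.Agent.Lib.MP_bcfefa_nt.B.HkA

/-!
Nonvanishing of Dirichlet series in the region of convergence.
-/

set_option autoImplicit false

noncomputable section

namespace Pool.Agent.Lib.MP_bcfefa_nt.B

open Finset CongruenceSubgroup UpperHalfPlane Matrix MeasureTheory Complex ModularGroup Filter
open Pool.Agent.Lib.MP_88d29b_nt.G
open scoped MatrixGroups ModularForm Manifold ComplexConjugate Topology

theorem lnz_term {k : ℕ} {a : ℕ → ℂ} {p : ℕ} (hp : p.Prime)
    (h : ∀ n : ℕ, 0 < n → hh k a p n = a p * a n) (s : ℂ) (n : ℕ) :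
    LSeries.term a s (p * n) = a p / (p : ℂ) ^ s * LSeries.term a s n -
      (p : ℂ) ^ (k - 1) / ((p : ℂ) ^ s) ^ 2 *
        if p ∣ n then LSeries.term a s (n / p) else 0 := by
  rcases Nat.eq_zero_or_pos n with rfl | hn
  · simp
  have h0 : ∀ m : ℕ, m ≠ 0 → (m : ℂ) ^ s ≠ 0 := fun m hm =>
    cpow_ne_zero_iff.2 (Or.inl (Nat.cast_ne_zero.2 hm))
  have h1 := h n hn
  have h2 := h0 p hp.ne_zero
  rw [hh_prime k a hp] at h1
  rw [LSeries.term_of_ne_zero (mul_ne_zero hp.ne_zero hn.ne'), LSeries.term_of_ne_zero hn.ne',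
    Nat.cast_mul, natCast_mul_natCast_cpow]
  split_ifs at h1 ⊢ with hd
  · obtain ⟨m, rfl⟩ := hd
    have hm : m ≠ 0 := right_ne_zero_of_mul hn.ne'
    have h3 := h0 m hm
    rw [Nat.mul_div_cancel_left _ hp.pos] at h1 ⊢
    rw [LSeries.term_of_ne_zero hm, Nat.cast_mul, natCast_mul_natCast_cpow,
      eq_sub_of_add_eq h1]
    field_simp
  · have h3 := h0 n hn.ne'
    rw [add_zero] at h1
    rw [h1]
    field_simp
    ring

open Classical in
theorem lnz_step {k : ℕ} {a : ℕ → ℂ} {p : ℕ} (hp : p.Prime)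
    (h : ∀ n : ℕ, 0 < n → hh k a p n = a p * a n) {s : ℂ} {A : ℕ → Prop}
    (hA : ∀ n, A (p * n) ↔ A n)
    (H : HasSum (fun n => if A n then LSeries.term a s n else 0) 0) :
    HasSum (fun n => if A n ∧ ¬ p ∣ n then LSeries.term a s n else 0) 0 := by
  have hi : Function.Injective fun n : ℕ => p * n := mul_right_injective₀ hp.ne_zero
  have hr : ∀ f : ℕ → ℂ, HasSum (fun n => f (p * n)) 0 →
      HasSum (fun n => if p ∣ n then f n else 0) 0 := fun f hf => by
    refine (hi.hasSum_iff fun x hx => if_neg fun ⟨m, hm⟩ => hx ⟨m, hm.symm⟩).1 ?_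
    simpa [Function.comp_def] using hf
  have h1 := hr (fun n => if A n then LSeries.term a s (n / p) else 0)
    (by simpa only [hA, Nat.mul_div_cancel_left _ hp.pos] using H)
  have h2 := hr (fun n => if A n then LSeries.term a s n else 0) (by
    have := (H.mul_left (a p / (p : ℂ) ^ s)).sub
      (h1.mul_left ((p : ℂ) ^ (k - 1) / ((p : ℂ) ^ s) ^ 2))
    rw [mul_zero, mul_zero, sub_zero] at this
    refine this.congr_fun fun n => ?_
    rw [hA, lnz_term hp h]
    split_ifs <;> simp)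
  have h3 := H.sub h2
  rw [sub_zero] at h3
  refine h3.congr_fun fun n => ?_
  by_cases h4 : A n <;> by_cases h5 : p ∣ n <;> simp [h4, h5]

/-- Sketch: let `t n = LSeries.term a s n` and `L N = ∑' n, [n coprime to all primes < N] t n`. For a
prime `p` and the set `A` of integers prime to the primes below `p`, sum
`a p a n = a (p n) + [p ∣ n] p ^ (k - 1) a (n / p)` against `(p n) ^ (-s)` over `n ∈ A`:
`L (p + 1) = (1 - a p p ^ (-s) + p ^ (k - 1 - 2 s)) L p`. So `L 0 = 0` gives `L N = 0` for all `N`,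
but `‖L N - 1‖ ≤ ∑_{n ≥ N} ‖t n‖ → 0` (`tendsto_sum_nat_add`). -/
theorem lser_ne_zero {k : ℕ} {a : ℕ → ℂ} (h1 : a 1 = 1)
    (h : ∀ p n : ℕ, p.Prime → 0 < n → hh k a p n = a p * a n) {s : ℂ}
    (hs : LSeriesSummable a s) : LSeries a s ≠ 0 := by
  classical
  intro h0
  have H : ∀ N : ℕ, HasSum (fun n => if ∀ q : ℕ, q.Prime → q < N → ¬ q ∣ n then
      LSeries.term a s n else 0) 0 := fun N => by
    induction N with
    | zero =>
      have h2 : HasSum (LSeries.term a s) 0 := h0 ▸ hs.LSeriesHasSum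
      simpa using h2
    | succ N ih =>
      by_cases hN : N.Prime
      · refine (lnz_step hN (fun n => h N n hN) (fun n => ?_) (by simpa using ih)
          (A := fun n => ∀ q : ℕ, q.Prime → q < N → ¬ q ∣ n)).congr_fun fun n => ?_
        · refine forall_congr' fun q => forall_congr' fun hq => forall_congr' fun hlt => ?_
          rw [hq.dvd_mul, Nat.prime_dvd_prime_iff_eq hq hN]
          simp [hlt.ne]
        · refine if_congr ⟨fun h2 => ⟨fun q hq hl => h2 q hq (by omega), h2 N hN (by omega)⟩,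
            fun h2 q hq hl => ?_⟩ rfl rfl
          rcases Nat.lt_succ_iff_lt_or_eq.1 hl with h3 | rfl
          exacts [h2.1 q hq h3, h2.2]
      · refine ih.congr_fun fun n => if_congr ⟨fun h2 q hq hl => h2 q hq (by omega),
          fun h2 q hq hl => ?_⟩ rfl rfl
        rcases Nat.lt_succ_iff_lt_or_eq.1 hl with h3 | rfl
        exacts [h2 q hq h3, absurd hq hN]
  have h2 : Tendsto (fun N : ℕ => ∑' n, if ∀ q : ℕ, q.Prime → q < N → ¬ q ∣ n then
      LSeries.term a s n else 0) atTop (𝓝 (∑' n : ℕ, if n = 1 then (1 : ℂ) else 0)) := by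
    refine tendsto_tsum_of_dominated_convergence (summable_norm_iff.2 hs) (fun n => ?_)
      (Eventually.of_forall fun N n => by split_ifs <;> simp)
    refine tendsto_const_nhds.congr' ((eventually_gt_atTop n.minFac).mono fun N hN => ?_)
    rcases eq_or_ne n 1 with rfl | hn
    · beta_reduce
      rw [if_pos rfl, if_pos fun q hq _ => hq.not_dvd_one, LSeries.term_of_ne_zero one_ne_zero,
        h1]
      simp
    · simp only
      rw [if_neg hn, if_neg fun h3 => h3 _ (Nat.minFac_prime hn) hN n.minFac_dvd]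
  simp only [(H _).tsum_eq, tsum_ite_eq] at h2
  exact zero_ne_one (tendsto_nhds_unique tendsto_const_nhds h2)

/-- Sketch: with `C m = c (m ^ 2)`, `P d = d ^ (lam - 1)` one has `a = P ⍟ C` and
`C = (μ P) ⍟ a` away from `0` (Möbius inversion, for example
`ArithmeticFunction.sum_eq_iff_sum_mul_moebius_eq` for `C n / n ^ (lam - 1)`, or
`ArithmeticFunction.pmul_mul`-type lemmas); `LSeriesSummable.convolution`, `LSeries_convolution'`,
`LSeriesSummable_of_le_const_mul_rpow`. -/
theorem lser_sq {lam : ℕ} (hlam : 0 < lam) {a c : ℕ → ℂ} (h : ∀ n, 0 < n → sh lam c n = a n)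
    {s : ℂ} (hs : (lam : ℝ) < s.re) (ha : LSeriesSummable a s) (hne : LSeries a s ≠ 0) :
    LSeriesSummable (fun m => c (m ^ 2)) s ∧ LSeries (fun m => c (m ^ 2)) s ≠ 0 := by
  let P : ArithmeticFunction ℂ := toArithmeticFunction fun d => (d : ℂ) ^ (lam - 1)
  let C : ArithmeticFunction ℂ := toArithmeticFunction fun m => c (m ^ 2)
  let Q : ArithmeticFunction ℂ :=
    ArithmeticFunction.pmul (ArithmeticFunction.moebius : ArithmeticFunction ℤ) P
  have hP : ∀ n, n ≠ 0 → P n = (n : ℂ) ^ (lam - 1) := fun n hn => if_neg hn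
  have hC : ∀ {n}, n ≠ 0 → C n = c (n ^ 2) := fun hn => if_neg hn
  have h1 : ∀ {n}, n ≠ 0 → (P * C) n = a n := fun {n} hn => by
    rw [← h n (Nat.pos_of_ne_zero hn), sh, ArithmeticFunction.mul_apply,
      Nat.sum_divisorsAntidiagonal fun d e => P d * C e]
    refine Finset.sum_congr rfl fun d hd => ?_
    have hd' := Nat.dvd_of_mem_divisors hd
    rw [hP d (ne_zero_of_dvd_ne_zero hn hd'), hC (Nat.div_ne_zero_iff_of_dvd hd' |>.2
      ⟨hn, ne_zero_of_dvd_ne_zero hn hd'⟩)]
  have h2 : Q * P = 1 := by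
    ext n
    rcases eq_or_ne n 0 with rfl | hn
    · simp
    have h3 := congrArg (fun f : ArithmeticFunction ℂ => f n * (n : ℂ) ^ (lam - 1))
      (ArithmeticFunction.coe_moebius_mul_coe_zeta (R := ℂ))
    simp only [ArithmeticFunction.mul_apply, Finset.sum_mul] at h3
    have h4 : (1 : ArithmeticFunction ℂ) n * (n : ℂ) ^ (lam - 1) = (1 : ArithmeticFunction ℂ) n := by
      rw [ArithmeticFunction.one_apply]
      split_ifs with h5 <;> simp [h5]
    rw [← h4, ← h3, ArithmeticFunction.mul_apply]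
    refine Finset.sum_congr rfl fun x hx => ?_
    obtain ⟨h5, _⟩ := Nat.mem_divisorsAntidiagonal.1 hx
    have h6 : x.1 ≠ 0 := left_ne_zero_of_mul (h5 ▸ hn)
    have h7 : x.2 ≠ 0 := right_ne_zero_of_mul (h5 ▸ hn)
    rw [ArithmeticFunction.pmul_apply, hP _ h6, hP _ h7, ← h5]
    simp [h7, mul_pow, mul_assoc]
  have hb : ∀ n, n ≠ 0 → ‖P n‖ = (n : ℝ) ^ ((lam : ℝ) - 1) := fun n hn => by
    rw [hP n hn, norm_pow, Complex.norm_natCast, ← Real.rpow_natCast, Nat.cast_pred hlam]
  have sP : LSeriesSummable P s :=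
    LSeriesSummable_of_le_const_mul_rpow hs ⟨1, fun n hn => by rw [hb n hn, one_mul]⟩
  have sQ : LSeriesSummable Q s := by
    refine LSeriesSummable_of_le_const_mul_rpow hs ⟨1, fun n hn => ?_⟩
    rw [ArithmeticFunction.pmul_apply, norm_mul, hb n hn]
    refine mul_le_mul_of_nonneg_right ?_ (by positivity)
    rw [ArithmeticFunction.intCoe_apply, Complex.norm_intCast]
    exact_mod_cast ArithmeticFunction.abs_moebius_le_one
  have sC : LSeriesSummable C s := by
    have := ArithmeticFunction.LSeriesSummable_mul sQ ((LSeriesSummable_congr s h1).2 ha)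
    rwa [← mul_assoc, h2, one_mul] at this
  refine ⟨(LSeriesSummable_congr s hC).1 sC, fun h0 => hne ?_⟩
  rw [← LSeries_congr h1, ArithmeticFunction.LSeries_mul' sP sC, LSeries_congr hC, h0, mul_zero]

end Pool.Agent.Lib.MP_bcfefa_nt.B
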