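import Pool.Agent.Lib.MP_bcfefa_nt.B.MFa

/-!
Linear algebra of the spaces `MS k`.
-/

set_option autoImplicit false

noncomputable section

namespace Pool.Agent.Lib.MP_bcfefa_nt.B

open Finset CongruenceSubgroup UpperHalfPlane Matrix MeasureTheory Complex ModularGroup Filter
open Pool.Agent.Lib.MP_88d29b_nt.G
open scoped MatrixGroups ModularForm Manifold ComplexConjugate Topology

/-- Sketch: the form is the constant `a 0` (`qs_const`, `HasSum.unique`); invariance under `S` at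
`τ = 2 i`. -/
theorem MS_eq_zero {k : ℕ} (hk : 0 < k) {a : ℕ → ℂ} (ha : a ∈ MS k)
    (h : ∀ n, 0 < n → a n = 0) : a = 0 := by
  obtain ⟨f, hf⟩ := ha
  have e : a = fun n => if n = 0 then a 0 else 0 := by
    funext n
    split_ifs with hn
    · rw [hn]
    · exact h n (Nat.pos_of_ne_zero hn)
  have hc : ∀ τ, f τ = a 0 := fun τ => (hf.qs τ).unique (e ▸ qs_const (a 0) τ)
  have h1 := hf.inv S (pt 0 2)
  rw [hc, hc, den_S, coe_pt 0 two_pos] at h1
  have h2 : ‖a 0‖ = 2 ^ k * ‖a 0‖ := by simpa using congrArg norm h1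
  have h3 : (1 : ℝ) < 2 ^ k := one_lt_pow₀ one_lt_two hk.ne'
  have h4 : a 0 = 0 := norm_eq_zero.1 (by nlinarith [norm_nonneg (a 0)])
  funext n
  rw [e, h4]
  simp

/-- Sketch: the map `F ↦ coefficients` is linear (from `isM_coe`, `IsM.add`, `QS.unique`),
injective (`QS.eq_zero`) with range `MS k` (`IsM.exists_mf`). -/
theorem nonempty_MS_equiv (k : ℕ) : Nonempty (ModularForm 𝒮ℒ (k : ℤ) ≃ₗ[ℂ] MS k) := by
  let L : ModularForm 𝒮ℒ (k : ℤ) →ₗ[ℂ] MS k :=
    { toFun := fun F => ⟨fun n => (qExpansion 1 F).coeff n, (isM_coe F).mem⟩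
      map_add' := fun F G => Subtype.ext
        ((isM_coe (F + G)).qs.unique ((isM_coe F).add (isM_coe G)).qs)
      map_smul' := fun c F => Subtype.ext
        ((isM_coe (c • F)).qs.unique ((isM_coe F).smul c).qs) }
  refine ⟨LinearEquiv.ofBijective L ⟨(injective_iff_map_eq_zero L).2 fun F hF => ?_, ?_⟩⟩
  · have h1 : (fun n => (qExpansion 1 F).coeff n) = 0 := congrArg Subtype.val hF
    have h2 := (isM_coe F).qs
    rw [h1] at h2
    exact DFunLike.coe_injective h2.eq_zero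
  · rintro ⟨a, f, hf⟩
    obtain ⟨F, -, hF⟩ := hf.exists_mf
    exact ⟨F, Subtype.ext (funext hF)⟩

instance finite_MS (k : ℕ) : FiniteDimensional ℂ (MS k) := by
  obtain ⟨e⟩ := nonempty_MS_equiv k
  exact e.finiteDimensional

/-- Sketch: `ModularForm.dimension_level_one`. -/
theorem finrank_MS {k : ℕ} (hk : Even k) :
    Module.finrank ℂ (MS k) = if k ≡ 2 [MOD 12] then k / 12 else k / 12 + 1 := by
  obtain ⟨e⟩ := nonempty_MS_equiv k
  rw [← e.finrank_eq]
  refine Module.finrank_eq_of_rank_eq ((ModularForm.dimension_level_one k hk).trans ?_)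
  split_ifs <;> simp

theorem finrank_MS_add {μ : ℕ} (hμ : Even μ) :
    Module.finrank ℂ (MS (μ + 2)) + Module.finrank ℂ (MS μ) =
      Module.finrank ℂ (MS (2 * (μ + 2))) := by
  rw [finrank_MS hμ, finrank_MS (hμ.add even_two), finrank_MS (even_two_mul _)]
  obtain ⟨m, rfl⟩ := hμ
  split_ifs with h1 h2 h3 h3 h2 h3 h3 <;> simp only [Nat.ModEq] at h1 h2 h3 <;> omega

theorem MS_two {a : ℕ → ℂ} (ha : a ∈ MS 2) : a = 0 := by
  have h : Module.finrank ℂ (MS 2) = 0 := by
    rw [finrank_MS even_two]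
    rfl
  rw [Submodule.finrank_eq_zero.1 h] at ha
  exact ha

/-- Every functional is a finite combination of the coefficients `a_n`, `n ≥ 1`. Sketch: the span
`W` of these functionals has `W.dualCoannihilator = ⊥` by `MS_eq_zero`, hence `W = ⊤`
(`Subspace.dualCoannihilator_dualAnnihilator_eq`, or `Submodule.span_eq_top_of_ne_zero`); then
`Submodule.span_induction`. -/
theorem dual_span {k : ℕ} (hk : 0 < k) (φ : MS k →ₗ[ℂ] ℂ) :
    ∃ (s : Finset ℕ) (t : ℕ → ℂ), (∀ n ∈ s, 0 < n) ∧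
      ∀ a : MS k, φ a = ∑ n ∈ s, t n * a.1 n := by
  let ev : {n : ℕ // 0 < n} → MS k →ₗ[ℂ] ℂ := fun n => (LinearMap.proj n.1).comp (MS k).subtype
  have htop : Submodule.span ℂ (Set.range ev) = ⊤ := by
    refine Submodule.span_eq_top_of_ne_zero fun z hz => ?_
    by_contra hc
    push Not at hc
    exact hz (Subtype.ext (MS_eq_zero hk z.2 fun n hn => hc _ ⟨⟨n, hn⟩, rfl⟩))
  obtain ⟨c, rfl⟩ := Finsupp.mem_span_range_iff_exists_finsupp.1 (htop ▸ Submodule.mem_top (x := φ))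
  refine ⟨c.support.map (Function.Embedding.subtype _),
    fun n => if h : 0 < n then c ⟨n, h⟩ else 0, fun n hn => ?_, fun a => ?_⟩
  · obtain ⟨m, -, rfl⟩ := Finset.mem_map.1 hn
    exact m.2
  · rw [Finset.sum_map, Finsupp.sum, LinearMap.sum_apply]
    refine Finset.sum_congr rfl fun m _ => ?_
    simp [ev, m.2]

end Pool.Agent.Lib.MP_bcfefa_nt.B
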