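import Pool.Agent.Lib.MP_bcfefa_nt.B.Odd
import Pool.Agent.Lib.MP_bcfefa_nt.B.HkB
import Pool.Agent.Lib.MP_bcfefa_nt.B.Tn
import Pool.Agent.Lib.MP_bcfefa_nt.B.MFb

/-!
Multiplicity one for eigen-functionals.
-/

set_option autoImplicit false

noncomputable section

namespace Pool.Agent.Lib.MP_bcfefa_nt.B

open Finset CongruenceSubgroup UpperHalfPlane Matrix MeasureTheory Complex ModularGroup Filter
open Pool.Agent.Lib.MP_88d29b_nt.G
open scoped MatrixGroups ModularForm Manifold ComplexConjugate Topology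

/-- Sketch: `h - h 1 • a` has first coefficient `0` and is an eigenvector; `hh_eigen`,
`hh_one_right`, `odd_zero`. -/
theorem eigen_unique {k : ℕ} (hk : 0 < k) {a h : ℕ → ℂ} (ha : a ∈ MS k) (hm : h ∈ MS k)
    (h1 : a 1 = 1) {x : ℕ → ℂ} (hx : ∀ l : ℕ, l.Prime → l ≠ 2 → hh k a l = x l • a)
    (hy : ∀ l : ℕ, l.Prime → l ≠ 2 → hh k h l = x l • h) : h = h 1 • a := by
  have hb : h + (-h 1) • a ∈ MS k := (MS k).add_mem hm ((MS k).smul_mem _ ha)
  have h0 := odd_zero hk hb fun n hn => by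
    obtain ⟨y, hy'⟩ := hh_eigen (k := k) (a := h + (-h 1) • a) hn.pos fun p hp hpn => ⟨x p, by
      have hp2 : p ≠ 2 := fun h2 => by
        subst h2
        exact (Nat.not_even_iff_odd.2 hn) (even_iff_two_dvd.2 hpn)
      rw [hh_add, hh_smul, hx p hp hp2, hy p hp hp2, smul_add, smul_comm]⟩
    rw [← hh_one_right k (h + (-h 1) • a) n, hy']
    simp [h1]
  rw [_root_.neg_smul, ← sub_eq_add_neg, sub_eq_zero] at h0
  exact h0

/-- The projector attached to an eigen-functional. -/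
theorem mult_proj {k : ℕ} (hk : 0 < k) {a : MS k} (h1 : a.1 1 = 1) {x : ℕ → ℂ}
    (hx : ∀ l : ℕ, l.Prime → l ≠ 2 → hh k a.1 l = x l • a.1) (φ : MS k →ₗ[ℂ] ℂ)
    (hφ : ∀ l : ℕ, l.Prime → l ≠ 2 → ∀ h h' : MS k, h'.1 = hh k h.1 l → φ h' = x l * φ h)
    {s : Finset ℕ} {t : ℕ → ℂ} (hs : ∀ n ∈ s, 0 < n)
    (ht : ∀ b : MS k, φ b = ∑ n ∈ s, t n * b.1 n) (h : MS k) :
    ∑ n ∈ s, t n • hh k h.1 n = φ h • a.1 := by
  have hP : ∑ n ∈ s, t n • hh k h.1 n ∈ MS k :=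
    (MS k).sum_mem fun n hn => (MS k).smul_mem _ (hh_mem hk h.2 (hs n hn))
  have hc : ∀ (g : MS k) (m : ℕ) (hm : 0 < m),
      (∑ n ∈ s, t n • hh k g.1 n) m = φ ⟨hh k g.1 m, hh_mem hk g.2 hm⟩ := fun g m hm => by
    rw [ht, Finset.sum_apply]
    exact Finset.sum_congr rfl fun n _ => by rw [Pi.smul_apply, smul_eq_mul, hh_symm]
  have he : ∀ l : ℕ, l.Prime → l ≠ 2 →
      hh k (∑ n ∈ s, t n • hh k h.1 n) l = x l • ∑ n ∈ s, t n • hh k h.1 n := fun l hl hl2 => by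
    refine sub_eq_zero.1 (MS_eq_zero hk ((MS k).sub_mem (hh_mem hk hP hl.pos)
      ((MS k).smul_mem _ hP)) fun m hm => ?_)
    have e : hh k (∑ n ∈ s, t n • hh k h.1 n) l = ∑ n ∈ s, t n • hh k (hh k h.1 l) n := by
      rw [hh_sum]
      exact Finset.sum_congr rfl fun n hn => by rw [hh_smul, hh_comm k h.1 (hs n hn) hl.pos]
    rw [Pi.sub_apply, Pi.smul_apply, smul_eq_mul, sub_eq_zero, e, hc h m hm]
    exact (hc ⟨hh k h.1 l, hh_mem hk h.2 hl.pos⟩ m hm).trans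
      (hφ l hl hl2 _ _ (hh_comm k h.1 hl.pos hm))
  rw [eigen_unique hk a.2 hP h1 hx he, hc h 1 one_pos]
  congr 2
  exact Subtype.ext (hh_one k h.1)

/-- Sketch: by `dual_span`, `φ h = (P h) 1` with `P h = ∑ t n • hh k h n`, and
`(P h) n = φ (hh k h n)` for `n ≥ 1` (`hh_comm`). So
`(T_l P h) n = φ (T_l T_n h) = x l (P h) n` for `n ≥ 1`, hence `T_l P h = x l • P h`
(`MS_eq_zero`) and `P h = φ h • a` (`eigen_unique`). The same for `φ'`, `P'`; `P` and `P'`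
commute. -/
theorem mult_one {k : ℕ} (hk : 0 < k) {a : MS k} (h1 : a.1 1 = 1) {x : ℕ → ℂ}
    (hx : ∀ l : ℕ, l.Prime → l ≠ 2 → hh k a.1 l = x l • a.1) (φ φ' : MS k →ₗ[ℂ] ℂ)
    (hφ : ∀ l : ℕ, l.Prime → l ≠ 2 → ∀ h h' : MS k, h'.1 = hh k h.1 l → φ h' = x l * φ h)
    (hφ' : ∀ l : ℕ, l.Prime → l ≠ 2 → ∀ h h' : MS k, h'.1 = hh k h.1 l → φ' h' = x l * φ' h)
    (h : MS k) : φ h * φ' a = φ' h * φ a := by
  obtain ⟨s, t, hs, ht⟩ := dual_span hk φ
  obtain ⟨s', t', hs', ht'⟩ := dual_span hk φ'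
  have e := mult_proj hk h1 hx φ hφ hs ht h
  have e' := mult_proj hk h1 hx φ' hφ' hs' ht' h
  have f : φ h * φ' a = ∑ m ∈ s', ∑ n ∈ s, t' m * (t n * hh k h.1 n m) := by
    rw [ht' a, Finset.mul_sum]
    refine Finset.sum_congr rfl fun m _ => ?_
    have := congrFun e m
    simp only [Finset.sum_apply, Pi.smul_apply, smul_eq_mul] at this
    rw [← Finset.mul_sum, this]
    ring
  have f' : φ' h * φ a = ∑ n ∈ s, ∑ m ∈ s', t n * (t' m * hh k h.1 m n) := by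
    rw [ht a, Finset.mul_sum]
    refine Finset.sum_congr rfl fun n _ => ?_
    have := congrFun e' n
    simp only [Finset.sum_apply, Pi.smul_apply, smul_eq_mul] at this
    rw [← Finset.mul_sum, this]
    ring
  rw [f, f', Finset.sum_comm]
  refine Finset.sum_congr rfl fun n _ => Finset.sum_congr rfl fun m _ => ?_
  rw [hh_symm k h.1 n m]
  ring

end Pool.Agent.Lib.MP_bcfefa_nt.B
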