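import Pool.Agent.Lib.MP_bcfefa_nt.B.Unf
import Pool.Agent.Lib.MP_bcfefa_nt.B.AdjS
import Pool.Agent.Lib.MP_bcfefa_nt.B.Par

/-!
The Rankin integral.
-/

set_option autoImplicit false

noncomputable section

namespace Pool.Agent.Lib.MP_bcfefa_nt.B

open Finset CongruenceSubgroup UpperHalfPlane Matrix MeasureTheory Complex ModularGroup Filter
open Pool.Agent.Lib.MP_88d29b_nt.G
open scoped MatrixGroups ModularForm Manifold ComplexConjugate Topology

variable {lam : ℕ} {f G : ℍ → ℂ} {a e : ℕ → ℂ}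

theorem unfs_inv (hf : IsM (2 * lam) f a) (hG : IsM lam G e) (γ : SL(2, ℤ)) (τ : ℍ) :
    den γ τ ^ lam * pm (2 * lam) f G (γ • τ) = pm (2 * lam) f G τ := by
  have hd := den_ne γ τ
  have hc : conj (den γ τ) ≠ 0 := (_root_.map_ne_zero _).2 hd
  have h1 : (((γ • τ).im : ℝ) : ℂ) = (τ.im : ℂ) / (den γ τ * conj (den γ τ)) := by
    rw [im_SL, Complex.mul_conj, Complex.normSq_eq_norm_sq]
    push_cast
    rfl
  simp only [pm, hf.inv, hG.inv, h1, map_mul, map_pow, div_pow, mul_pow]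
  rw [two_mul, pow_add (den γ τ)]
  field_simp

theorem unfs_dec (hf : QS f a) (h0 : a 0 = 0) (hG : QS G e) {κ : ℝ} (hκ : 0 ≤ κ) :
    Dec fun τ => ‖f τ‖ * ‖G τ‖ * τ.im ^ κ :=
  (qs_dec hf h0).mul_gro (qs_gro hG) (fun _ => norm_nonneg _) (fun _ => norm_nonneg _) hκ

/-- Sketch: `unfold` for `Φ = pm (2 lam) f E` (`isM_E`, `Dec.mul_gro`); by `hz_mul_im`, `hz_conj`,
`integral_conj` the integral is the conjugate of the Mellin transform. -/
theorem unf_s (h3 : 3 ≤ lam) (he : Even lam) (hf : IsM (2 * lam) f a) (h0 : a 0 = 0)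
    (hne : Pet (2 * lam) f (fun τ => ModularForm.E h3 τ * ModularForm.E h3 τ) ≠ 0) :
    mellin (hz fun τ => conj (ModularForm.E h3 τ) * f τ) (2 * lam - 1) ≠ 0 := by
  have hE := isM_E h3 he
  have hdec : Dec fun τ => ‖pm (2 * lam) f (ModularForm.E h3) τ‖ := by
    refine (unfs_dec hf.qs h0 hE.qs (κ := ((2 * lam : ℕ) : ℝ)) (Nat.cast_nonneg _)).mono
      fun τ => le_of_eq ?_
    rw [Real.rpow_natCast]
    simp only [pm, norm_mul, norm_pow, Complex.norm_conj, Complex.norm_real,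
      Real.norm_of_nonneg τ.im_pos.le]
  obtain ⟨κ, -, hκ⟩ := unfold h3 (continuous_pm (2 * lam) (qs_continuous hf.qs)
    (qs_continuous hE.qs)) (unfs_inv hf hE) hdec
  have e1 : Pet (2 * lam) f (fun τ => ModularForm.E h3 τ * ModularForm.E h3 τ) =
      avgM ⊤ fun τ => pm (2 * lam) f (ModularForm.E h3) τ * ModularForm.E h3 τ := by
    unfold Pet
    congr 1
    funext τ
    simp only [pm]
    ring
  intro hz0
  apply hne
  rw [e1, hκ]
  have e2 : ∫ y in Set.Ioi (0 : ℝ), ((y : ℂ) ^ 2)⁻¹ * hz (pm (2 * lam) f (ModularForm.E h3)) y =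
      conj (mellin (hz fun τ => conj (ModularForm.E h3 τ) * f τ) (2 * lam - 1)) := by
    rw [mellin, ← integral_conj]
    refine setIntegral_congr_fun measurableSet_Ioi fun y hy => ?_
    have hy0 : (0 : ℝ) < y := hy
    have hy1 : (y : ℂ) ≠ 0 := by exact_mod_cast hy0.ne'
    have e3 : pm (2 * lam) f (ModularForm.E h3) = fun τ =>
        conj (conj (ModularForm.E h3 τ) * f τ) * (fun t : ℝ => (t : ℂ) ^ (2 * lam)) τ.im := by
      funext τ
      simp only [pm, map_mul, Complex.conj_conj]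
      ring
    have e4 : (2 * lam - 1 - 1 : ℂ) = ((2 * lam : ℕ) : ℂ) - ((2 : ℕ) : ℂ) := by
      push_cast
      ring
    rw [e3, hz_mul_im (fun τ => conj (conj (ModularForm.E h3 τ) * f τ))
      (fun t : ℝ => (t : ℂ) ^ (2 * lam)) hy0, hz_conj, e4, Complex.cpow_sub _ _ hy1,
      Complex.cpow_natCast, Complex.cpow_natCast]
    simp only [smul_eq_mul, map_mul, map_div₀, map_pow, Complex.conj_ofReal]
    field_simp
  rw [e2, hz0, map_zero, mul_zero]

/-- Sketch: `mellin_differentiableAt_of_isBigO_rpow_exp`. At infinity use `qs_dec`, `qs_gro`,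
`norm_hz_le`. At zero apply `inv_bound` to `u = ‖G‖ ‖f‖ im ^ (3 lam)` with `κ = 3 lam`
(`Dec.mul_gro`): `‖G‖ ‖f‖ ≤ C im ^ (-3 lam / 2)`. -/
theorem mellin_rs_differentiableOn (hf : IsM (2 * lam) f a) (h0 : a 0 = 0) (hG : IsM lam G e) :
    DifferentiableOn ℂ (mellin (hz fun τ => conj (G τ) * f τ))
      {s : ℂ | 3 * (lam : ℝ) / 2 < s.re} := by
  intro s hs
  have hc : Continuous fun τ => conj (G τ) * f τ :=
    (Complex.continuous_conj.comp (qs_continuous hG.qs)).mul (qs_continuous hf.qs)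
  obtain ⟨δ, hδ, h1⟩ := unfs_dec hf.qs h0 hG.qs (le_refl 0)
  obtain ⟨C, hC⟩ := h1 1 one_pos
  have hinv : ∀ (γ : SL(2, ℤ)) (τ : ℍ), ‖den γ τ‖ ^ (3 * lam : ℝ) *
      (‖f (γ • τ)‖ * ‖G (γ • τ)‖ * (γ • τ).im ^ (3 * lam : ℝ)) =
        ‖f τ‖ * ‖G τ‖ * τ.im ^ (3 * lam : ℝ) := by
    intro γ τ
    have hd : ‖den γ τ‖ ≠ 0 := norm_ne_zero_iff.2 (den_ne γ τ)
    have e1 : (3 * lam : ℝ) = ((3 * lam : ℕ) : ℝ) := by
      push_cast
      rfl
    rw [e1, Real.rpow_natCast, Real.rpow_natCast, Real.rpow_natCast, hf.inv, hG.inv, im_SL]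
    simp only [norm_mul, norm_pow, div_pow]
    field_simp
    ring
  obtain ⟨D, hD⟩ := inv_bound (u := fun τ => ‖f τ‖ * ‖G τ‖ * τ.im ^ (3 * lam : ℝ))
    (κ := 3 * lam) (fun τ => by have := τ.im_pos; positivity) hinv
    (unfs_dec hf.qs h0 hG.qs (by positivity))
  refine (mellin_differentiableAt_of_isBigO_rpow_exp (b := 3 * (lam : ℝ) / 2) hδ
    ((continuousOn_hz hc).locallyIntegrableOn measurableSet_Ioi) ?_ ?_ hs).differentiableWithinAt
  · refine Asymptotics.IsBigO.of_bound C ?_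
    filter_upwards [eventually_ge_atTop (1 : ℝ)] with y hy
    refine norm_hz_le (by linarith) fun τ hτ => ?_
    have := hC τ (hτ ▸ hy)
    simp only [Real.rpow_zero, mul_one, hτ] at this
    rwa [norm_mul, Complex.norm_conj, mul_comm, Real.norm_of_nonneg (Real.exp_pos _).le]
  · refine Asymptotics.IsBigO.of_bound D ?_
    filter_upwards [self_mem_nhdsWithin] with y hy
    have hy0 : (0 : ℝ) < y := hy
    refine norm_hz_le hy0 fun τ hτ => ?_
    have h2 := hD τ
    simp only [hτ] at h2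
    have h3 : 0 < y ^ (3 * lam : ℝ) := Real.rpow_pos_of_pos hy0 _
    rw [norm_mul, Complex.norm_conj, mul_comm, Real.norm_of_nonneg (Real.rpow_nonneg hy0.le _)]
    refine le_of_mul_le_mul_right (h2.trans_eq ?_) h3
    rw [mul_assoc, ← Real.rpow_add hy0]
    congr 2
    ring

/-- Sketch: `qs_parseval`, `hasSum_mellin` with `p n = 4 π n` (the term `n = 0` vanishes). -/
theorem mellin_rs_eq (hf : QS f a) (h0 : a 0 = 0) (hG : QS G e) {s : ℂ} (hs : 0 < s.re)
    (hsum : LSeriesSummable (fun n => conj (e n) * a n) s) :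
    mellin (hz fun τ => conj (G τ) * f τ) s =
      Complex.Gamma s * (4 * Real.pi : ℂ) ^ (-s) * LSeries (fun n => conj (e n) * a n) s := by
  have hs0 : s ≠ 0 := fun h => by simp [h] at hs
  have hπ : (0 : ℝ) < 4 * Real.pi := by positivity
  have h := hasSum_mellin (a := fun n : ℕ => conj (e n) * a n)
    (p := fun n : ℕ => 4 * Real.pi * n) (F := hz fun τ => conj (G τ) * f τ) (s := s)
    (fun n => by
      rcases Nat.eq_zero_or_pos n with rfl | hn
      · left
        simp [h0]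
      · right
        positivity) hs
    (fun t ht => by simpa only [neg_mul] using qs_parseval hG hf ht)
    (by
      refine (hsum.norm.mul_left ((4 * Real.pi) ^ s.re)⁻¹).congr fun n => ?_
      rw [LSeries.norm_term_eq, Real.mul_rpow hπ.le (Nat.cast_nonneg n)]
      split_ifs with hn
      · simp [hn, h0]
      · rw [div_mul_eq_div_div_swap, div_eq_inv_mul _ ((4 * Real.pi) ^ s.re)])
  rw [← h.tsum_eq, LSeries, ← tsum_mul_left]
  refine tsum_congr fun n => ?_
  have e1 : (((4 * Real.pi * n : ℝ)) : ℂ) ^ s = (4 * Real.pi : ℂ) ^ s * (n : ℂ) ^ s := by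
    have := Complex.mul_cpow_ofReal_nonneg hπ.le (Nat.cast_nonneg n : (0 : ℝ) ≤ n) s
    push_cast at this ⊢
    exact this
  rw [LSeries.term_of_ne_zero' hs0, e1, Complex.cpow_neg]
  ring

end Pool.Agent.Lib.MP_bcfefa_nt.B
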