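import Pool.Agent.Lib.MP_bcfefa_nt.B.RanA
import Pool.Agent.Lib.MP_bcfefa_nt.B.UnfS

/-!
The Rankin identity by analytic continuation.
-/

set_option autoImplicit false

noncomputable section

namespace Pool.Agent.Lib.MP_bcfefa_nt.B

open Finset CongruenceSubgroup UpperHalfPlane Matrix MeasureTheory Complex ModularGroup Filter
open Pool.Agent.Lib.MP_88d29b_nt.G
open scoped MatrixGroups ModularForm Manifold ComplexConjugate Topology

/-- Sketch: on `U = {3 lam / 2 < re s}` the functions `mellin φ s * ζ(2 s - (3 lam - 2))` and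
`conj (bet lam) Γ(s) (4 π) ^ (-s) Lf s Lf (s - (lam - 1))` are holomorphic
(`mellin_rs_differentiableOn`, `differentiableAt_riemannZeta`, `Complex.differentiableAt_Gamma`) and
agree for `re s > 3 lam + 2` (`mellin_rs_eq`, `rankin_series` with `k = 2 lam`, `t = lam - 1`,
`IsM.hecke_bound`, `LSeries_congr`, `LSeries_smul`); identity theorem
`AnalyticOnNhd.eqOn_of_preconnected_of_eventuallyEq`; at `s = 2 lam - 1` the left side is not zero
(`riemannZeta_ne_zero_of_one_lt_re`). -/
theorem rankin {lam : ℕ} (h3 : 3 ≤ lam) (he : Even lam) {f : ℍ → ℂ} {a : ℕ → ℂ}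
    (hf : IsM (2 * lam) f a) (h0 : a 0 = 0)
    (hmul : ∀ m n, 0 < m → 0 < n → hh (2 * lam) a m n = a m * a n) {Lf : ℂ → ℂ}
    (hd : Differentiable ℂ Lf) (hL : ∀ s : ℂ, 2 * (lam : ℝ) + 1 < s.re → Lf s = LSeries a s)
    (hne : mellin (hz fun τ => conj (ModularForm.E h3 τ) * f τ) (2 * lam - 1) ≠ 0) :
    Lf lam ≠ 0 := by
  intro hz0
  obtain ⟨t, ht⟩ : ∃ t, lam = t + 1 := ⟨lam - 1, by omega⟩
  have htR : (lam : ℝ) = t + 1 := by rw [ht]; push_cast; rfl
  have htC : (lam : ℂ) = t + 1 := by rw [ht]; push_cast; rfl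
  have h3R : (3 : ℝ) ≤ lam := by exact_mod_cast h3
  obtain ⟨C, hC⟩ := hf.hecke_bound h0
  have hC' : ∀ n : ℕ, 0 < n → ‖a n‖ ≤ C * (n : ℝ) ^ (2 * lam) := fun n hn => by
    have h1 : (1 : ℝ) ≤ n := by exact_mod_cast hn
    have h2 := hC n hn
    have h4 : 0 ≤ C := nonneg_of_mul_nonneg_left ((norm_nonneg _).trans h2) (by positivity)
    refine h2.trans (mul_le_mul_of_nonneg_left ?_ h4)
    rw [← Real.rpow_natCast]
    exact Real.rpow_le_rpow_of_exponent_le h1 (half_le_self (Nat.cast_nonneg _))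
  have hE := isM_E h3 he
  set U : Set ℂ := {s | 3 * (lam : ℝ) / 2 < s.re} with hU
  have hUo : IsOpen U := isOpen_lt continuous_const Complex.continuous_re
  have hre : ∀ s ∈ U, 1 < (2 * s - (((2 * lam : ℕ) : ℂ) - 1 + t)).re := fun s hs => by
    have : 3 * (lam : ℝ) / 2 < s.re := hs
    simp
    linarith
  have hF : DifferentiableOn ℂ (fun s => mellin (hz fun τ => conj (ModularForm.E h3 τ) * f τ) s *
      riemannZeta (2 * s - (((2 * lam : ℕ) : ℂ) - 1 + t))) U :=
    (mellin_rs_differentiableOn hf h0 hE).mul fun s hs =>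
      ((differentiableAt_riemannZeta fun e => lt_irrefl _ ((hre s hs).trans_eq (by rw [e, one_re]))).comp s
        (by fun_prop)).differentiableWithinAt
  have hpi : (4 * Real.pi : ℂ) ≠ 0 := by simp
  have hG : DifferentiableOn ℂ (fun s => Complex.Gamma s * (4 * Real.pi : ℂ) ^ (-s) *
      (conj (bet lam) * (Lf s * Lf (s - t)))) U := fun s hs => by
    have h1 : 3 * (lam : ℝ) / 2 < s.re := hs
    have h2 : DifferentiableAt ℂ Complex.Gamma s := Complex.differentiableAt_Gamma s fun m e => by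
      rw [e, neg_re, natCast_re] at h1
      linarith [Nat.cast_nonneg (α := ℝ) m]
    exact ((h2.mul (differentiableAt_id.neg.const_cpow (Or.inl hpi))).mul
      (((hd s).mul ((hd _).comp s (differentiableAt_id.sub_const _))).const_mul
        _)).differentiableWithinAt
  have h1 : ((3 * lam + 3 : ℝ) : ℂ) ∈ U := by
    rw [hU, Set.mem_ofPred_eq, ofReal_re]
    linarith
  have h2 : {s : ℂ | 3 * (lam : ℝ) + 2 < s.re} ∈ 𝓝 ((3 * lam + 3 : ℝ) : ℂ) :=
    (isOpen_lt continuous_const Complex.continuous_re).mem_nhds (by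
      rw [Set.mem_ofPred_eq, ofReal_re]
      linarith)
  have h4 : (2 * lam - 1 : ℂ) ∈ U := by
    rw [hU, Set.mem_ofPred_eq]
    simp
    linarith
  have key := (hF.analyticOnNhd hUo).eqOn_of_preconnected_of_eventuallyEq (hG.analyticOnNhd hUo)
    (convex_halfSpace_re_gt _).isPreconnected h1 (by
      filter_upwards [h2] with s hs
      obtain ⟨h5, h6⟩ := rankin_series (t := t) (by omega) hmul hC' (s := s) (by
        push_cast
        linarith)
      have h7 : ∀ {n : ℕ}, n ≠ 0 → conj (es lam n) * a n =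
          (conj (bet lam) • fun n => a n * (ArithmeticFunction.sigma t n : ℂ)) n := fun hn => by
        rw [es, if_neg hn, show lam - 1 = t by omega, map_mul, conj_natCast, Pi.smul_apply,
          smul_eq_mul]
        ring
      rw [mellin_rs_eq hf.qs h0 hE.qs (by linarith)
        ((LSeriesSummable_congr s h7).2 (h5.smul _)), LSeries_congr h7, LSeries_smul,
        hL s (by linarith), hL (s - t) (by rw [sub_re, natCast_re]; linarith), ← h6]
      ring) h4
  simp only at key
  rw [show (2 * lam - 1 : ℂ) - t = lam by rw [htC]; ring, hz0, mul_zero, mul_zero, mul_zero] at key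
  exact mul_ne_zero hne (riemannZeta_ne_zero_of_one_lt_re (hre _ h4)) key

end Pool.Agent.Lib.MP_bcfefa_nt.B
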