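import Pool.Agent.Lib.MP_bcfefa_nt.B.Unf
import Pool.Agent.Lib.MP_bcfefa_nt.B.AdjV
import Pool.Agent.Lib.MP_bcfefa_nt.B.Vec

/-!
The product of a cusp form of half integral weight with `θ E`.
-/

set_option autoImplicit false

noncomputable section

namespace Pool.Agent.Lib.MP_bcfefa_nt.B

open Finset CongruenceSubgroup UpperHalfPlane Matrix MeasureTheory Complex ModularGroup Filter
open Pool.Agent.Lib.MP_88d29b_nt.G
open scoped MatrixGroups ModularForm Manifold ComplexConjugate Topology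

variable {lam : ℕ} {g : ℍ → Fin 2 → ℂ} {c : ℕ → ℂ}

/-- Sketch: `IsV.cov`, `th_cov`, `star_Jm_dot`, `im_SL`. -/
theorem pv_th_cov (hg : IsV lam g c) (γ : SL(2, ℤ)) (τ : ℍ) :
    den γ τ ^ lam * pv lam g th (γ • τ) = pv lam g th τ := by
  have hN : (0 : ℝ) < ‖den γ τ‖ := norm_pos_iff.2 (den_ne γ τ)
  have hN' : ((‖den γ τ‖ : ℝ) : ℂ) ≠ 0 := ofReal_ne_zero.2 hN.ne'
  have e1 : den γ τ ^ lam * conj (den γ τ) ^ lam = (((‖den γ τ‖ : ℝ) : ℂ) ^ 2) ^ lam := by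
    rw [← mul_pow, Complex.mul_conj, Complex.normSq_eq_norm_sq, ofReal_pow]
  have e2 : Real.sqrt (τ.im / ‖den γ τ‖ ^ 2) = Real.sqrt τ.im / ‖den γ τ‖ := by
    rw [Real.sqrt_div τ.im_pos.le, Real.sqrt_sq hN.le]
  rw [pv, pv, hg.cov, th_cov, im_SL, e2, star_smul, smul_dotProduct, star_Jm_dot, smul_eq_mul,
    star_pow, ofReal_div, ofReal_div, ofReal_pow, div_pow, ← mul_assoc (den γ τ ^ lam),
    ← mul_assoc (den γ τ ^ lam), RCLike.star_def, e1]
  field_simp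

/-- Sketch: `QV.parseval` with `qv_th`, then `Function.Injective.hasSum_iff` for `m ↦ m ^ 2`. -/
theorem hasSum_hz_th (hg : IsV lam g c) (h0 : c 0 = 0) {y : ℝ} (hy : 0 < y) :
    HasSum (fun m : ℕ => 2 * conj (c (m ^ 2)) * (Real.exp (-Real.pi * (m : ℝ) ^ 2 * y) : ℂ))
      (hz (fun τ => star (g τ) ⬝ᵥ th τ) y) := by
  have H := hg.qv.parseval qv_th hy
  have hi : Function.Injective fun m : ℕ => m ^ 2 := Nat.pow_left_injective two_ne_zero
  have H2 := (hi.hasSum_iff fun n hn => ?_).2 H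
  · convert H2 using 2 with m
    have h4 : m ^ 2 % 4 < 2 := by
      have : m % 4 = 0 ∨ m % 4 = 1 ∨ m % 4 = 2 ∨ m % 4 = 3 := by omega
      rcases this with h | h | h | h <;> simp [Nat.pow_mod, h]
    rw [Function.comp_apply, if_pos h4]
    rcases eq_or_ne m 0 with rfl | hm
    · simp [h0]
    · rw [thc, if_neg (pow_ne_zero 2 hm), if_pos (IsSquare.sq m)]
      push_cast
      ring
  · have h1 : ¬IsSquare n := fun ⟨r, hr⟩ => hn ⟨r, (sq r).trans hr.symm⟩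
    have h2 : n ≠ 0 := fun h => h1 (h ▸ IsSquare.zero)
    rw [thc, if_neg h2, if_neg h1, mul_zero, ite_self, zero_mul]

/-- Sketch: `unfold` for `Φ = pv lam g th` (`norm_pv_le`, `Dec.mul_gro`, `Dec.mono`); by `hz_mul_im`
the integral is the Mellin transform of `hz (star g ⬝ᵥ th)` at `(2 lam - 1) / 2`;
`hasSum_mellin_pi_mul_sq` with `s = 2 lam - 1` gives
`2 Gammaℝ(s) conj (LSeries (c (m ^ 2)) s)`; `Complex.Gammaℝ_ne_zero_of_re_pos`. -/
theorem unf_v (h3 : 3 ≤ lam) (hg : IsV lam g c) (h0 : c 0 = 0)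
    (hs : LSeriesSummable (fun m => c (m ^ 2)) (2 * lam - 1))
    (hne : LSeries (fun m => c (m ^ 2)) (2 * lam - 1) ≠ 0) :
    Bf lam g (fun τ => ModularForm.E h3 τ • th τ) ≠ 0 := by
  have hd : Dec fun τ => ‖pv lam g th τ‖ := by
    obtain ⟨δ, hδ, H⟩ := Dec.mul_gro (hg.qv.dec h0) qv_th.gro (fun _ => norm_nonneg _)
      (fun _ => norm_nonneg _) (κ := (lam : ℝ) + 1 / 2) (by positivity)
    refine ⟨δ, hδ, fun ε hε => ?_⟩
    obtain ⟨C, hC⟩ := H ε hε
    exact ⟨2 * C, fun τ hτ => (norm_pv_le lam g th τ).trans (by linarith [hC τ hτ])⟩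
  obtain ⟨κ, hκ, H⟩ := unfold h3 (continuous_pv lam hg.qv.continuous qv_th.continuous)
    (pv_th_cov hg) hd
  have e1 : pv lam g (fun τ => ModularForm.E h3 τ • th τ) =
      fun τ => pv lam g th τ * ModularForm.E h3 τ := by
    funext τ
    rw [pv, pv, dotProduct_smul, smul_eq_mul]
    ring
  have e2 : ∫ y in Set.Ioi (0 : ℝ), ((y : ℂ) ^ 2)⁻¹ * hz (pv lam g th) y =
      mellin (hz fun τ => star (g τ) ⬝ᵥ th τ) ((2 * lam - 1) / 2) := by
    refine setIntegral_congr_fun measurableSet_Ioi fun y hy => ?_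
    have hy0 : (0 : ℝ) < y := hy
    have hy1 : (y : ℂ) ≠ 0 := ofReal_ne_zero.2 hy0.ne'
    have e3 : hz (pv lam g th) y = hz (fun τ => star (g τ) ⬝ᵥ th τ) y *
        ((y : ℂ) ^ lam * (Real.sqrt y : ℂ)) :=
      hz_mul_im (fun τ => star (g τ) ⬝ᵥ th τ) (fun y => (y : ℂ) ^ lam * (Real.sqrt y : ℂ)) hy0
    have e4 : (Real.sqrt y : ℂ) = (y : ℂ) ^ (1 / 2 : ℂ) := by
      rw [Real.sqrt_eq_rpow, ofReal_cpow hy0.le]
      push_cast
      rfl
    rw [e3, e4, show (2 * lam - 1 : ℂ) / 2 - 1 = lam + 1 / 2 - 2 by ring, cpow_sub _ _ hy1,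
      cpow_add _ _ hy1, cpow_natCast, cpow_ofNat, smul_eq_mul]
    ring
  rw [Bf, e1, H, e2]
  refine mul_ne_zero hκ ?_
  obtain ⟨n, hn, hn0⟩ : ∃ n : ℕ, (2 * lam - 1 : ℂ) = n ∧ 0 < n :=
    ⟨2 * lam - 1, by rw [Nat.cast_sub (by omega)]; push_cast; rfl, by omega⟩
  rw [hn] at hs hne ⊢
  have hre : 0 < (n : ℂ).re := by
    rw [natCast_re]
    exact Nat.cast_pos.2 hn0
  have hn1 : (n : ℂ) ≠ 0 := Nat.cast_ne_zero.2 hn0.ne'
  have M := hasSum_mellin_pi_mul_sq (a := fun m : ℕ => 2 * conj (c (m ^ 2)))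
    (r := fun m : ℕ => (m : ℝ)) (F := hz fun τ => star (g τ) ⬝ᵥ th τ) hre (fun t ht => by
      convert hasSum_hz_th hg h0 ht using 2 with m
      split_ifs with h
      · have : m = 0 := Nat.cast_eq_zero.1 h
        simp [this, h0]
      · rfl) (by
      refine ((summable_norm_iff.2 hs).mul_left 2).congr fun m => ?_
      rw [LSeries.term_of_ne_zero' hn1, norm_div, norm_mul, Complex.norm_conj, cpow_natCast,
        norm_pow, natCast_re, Real.rpow_natCast, Nat.abs_cast, Complex.norm_natCast,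
        Complex.norm_ofNat, mul_div_assoc])
  have M' := (Complex.hasSum_conj'.2 hs.hasSum).mul_left (Gammaℝ n * 2)
  have e5 : mellin (hz fun τ => star (g τ) ⬝ᵥ th τ) (n / 2) =
      Gammaℝ n * 2 * conj (LSeries (fun m => c (m ^ 2)) n) := by
    refine HasSum.unique (M.congr_fun fun m => ?_) M'
    rw [LSeries.term_of_ne_zero' hn1, map_div₀, cpow_natCast, cpow_natCast, map_pow,
      Complex.conj_natCast, Nat.abs_cast, ofReal_natCast]
    ring
  rw [e5]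
  exact mul_ne_zero (mul_ne_zero (Gammaℝ_ne_zero_of_re_pos hre) two_ne_zero)
    ((map_ne_zero _).2 hne)

end Pool.Agent.Lib.MP_bcfefa_nt.B
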