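import Pool.Agent.Lib.MP_bcfefa_nt.B.Fin
import Pool.Agent.Lib.MP_bcfefa_nt.B.Mult
import Pool.Agent.Lib.MP_bcfefa_nt.B.Lnz
import Pool.Agent.Lib.MP_bcfefa_nt.B.RanB
import Pool.Agent.Lib.MP_bcfefa_nt.B.UnfV

/-!
The central value of the `L`-function of a level one eigenform of weight divisible by four, from
the injectivity statement `Inj`.
-/

set_option autoImplicit false

noncomputable section

namespace Pool.Agent.Lib.MP_bcfefa_nt.B

open Finset CongruenceSubgroup UpperHalfPlane Matrix MeasureTheory Complex ModularGroup Filter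
open Pool.Agent.Lib.MP_88d29b_nt.G
open scoped MatrixGroups ModularForm Manifold ComplexConjugate Topology

theorem main_seq {μ : ℕ} (he : Even μ) (hμ : 0 < μ) (hI : Inj μ) {a : ℕ → ℂ}
    (ha : a ∈ MS (2 * (μ + 2))) (h0 : a 0 = 0) (h1 : a 1 = 1)
    (heig : ∀ p : ℕ, p.Prime → ∃ x : ℂ, hh (2 * (μ + 2)) a p = x • a) {Lf : ℂ → ℂ}
    (hd : Differentiable ℂ Lf)
    (hL : ∀ s : ℂ, 2 * ((μ + 2 : ℕ) : ℝ) + 1 < s.re → Lf s = LSeries a s) :
    Lf (μ + 2 : ℕ) ≠ 0 := by
  have hk : 0 < 2 * (μ + 2) := by omega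
  have h3 : 3 ≤ μ + 2 := by omega
  have he2 : Even (μ + 2) := he.add even_two
  have hf := isM_fn ha
  have hmul : ∀ m : ℕ, 0 < m → hh (2 * (μ + 2)) a m = a m • a := fun m hm => hh_mul h1 heig hm
  obtain ⟨C, hC⟩ := hf.hecke_bound h0
  obtain ⟨R, hR⟩ := exists_R he hμ hI
  set A : MS (2 * (μ + 2)) := ⟨a, ha⟩ with hA
  have hg := isV_vfn (hR A).1
  have hff : Pet (2 * (μ + 2)) (fn a) (fn a) ≠ 0 := by
    refine Pet_self_ne_zero hf h0 fun e => ?_
    have := hf.qs.unique (e ▸ qs_zero)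
    rw [this] at h1
    exact zero_ne_one h1
  -- the action of the Hecke operators on `f` and on its lift
  have hTf : ∀ l : ℕ, l.Prime → heckeFun l (2 * (μ + 2) : ℕ) (fn a) = a l • fn a := fun l hl => by
    rw [← (hf.hecke hk hl).fn_eq, hmul l hl.pos, fn_smul _ ha]
  have hreal : ∀ l : ℕ, l.Prime → conj (a l) = a l := fun l hl => by
    have := Pet_adj hk hf h0 hf hl
    rw [hTf l hl, Pet_smul_left, Pet_smul_right] at this
    exact mul_right_cancel₀ hff this
  have hTg : ∀ l : ℕ, l.Prime → l ≠ 2 → a l • vfn (R A) = Tsq (μ + 2) l (vfn (R A)) ∧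
      a l * R A 0 = (1 + (l : ℂ) ^ (2 * (μ + 2) - 1)) * R A 0 := fun l hl h2 => by
    have := tsq_lift hμ hI (hR A).1 ((VS _).smul_mem (a l) (hR A).1) (hR A).2 hl h2
      fun n hn => by
        rw [sh_smul, Pi.smul_apply, (hR A).2 n hn]
        exact (congrFun (hmul l hl.pos) n).symm
    rwa [vfn_smul _ (hR A).1] at this
  have hc0 : R A 0 = 0 := by
    obtain ⟨l, hl, h2, hne⟩ := exists_prime_ne h3 hC
    by_contra hc
    exact hne (mul_right_cancel₀ hc (hTg l hl h2).2)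
  -- the two functionals
  let φ : MS (2 * (μ + 2)) →ₗ[ℂ] ℂ :=
    { toFun := fun h => Pet (2 * (μ + 2)) (fn a) (fn h.1)
      map_add' := fun x y => by
        rw [Submodule.coe_add, fn_add x.2 y.2, Pet_add hf h0 (isM_fn x.2) (isM_fn y.2)]
      map_smul' := fun t x => by
        rw [Submodule.coe_smul, fn_smul t x.2, Pet_smul_right]
        rfl }
  let φ' : MS (2 * (μ + 2)) →ₗ[ℂ] ℂ :=
    { toFun := fun h => Bf (μ + 2) (vfn (R A)) (vfn (R h))
      map_add' := fun x y => by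
        rw [map_add, vfn_add (hR x).1 (hR y).1,
          Bf_add hg hc0 (isV_vfn (hR x).1) (isV_vfn (hR y).1)]
      map_smul' := fun t x => by
        rw [map_smul, vfn_smul t (hR x).1, Bf_smul_right]
        rfl }
  have hE := isM_E h3 he2
  have hEE : cv (es (μ + 2)) (es (μ + 2)) ∈ MS (2 * (μ + 2)) := by
    rw [two_mul]
    exact (hE.mul hE).mem
  have hfn : fn (cv (es (μ + 2)) (es (μ + 2))) =
      fun τ => ModularForm.E h3 τ * ModularForm.E h3 τ := (hE.mul hE).fn_eq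
  have key := mult_one hk (a := A) h1 (x := a) (fun l hl _ => hmul l hl.pos) φ φ'
    (fun l hl _ h h' e => by
      change Pet _ (fn a) (fn h'.1) = a l * Pet _ (fn a) (fn h.1)
      rw [e, ((isM_fn h.2).hecke hk hl).fn_eq, ← Pet_adj hk hf h0 (isM_fn h.2) hl, hTf l hl,
        Pet_smul_left, hreal l hl])
    (fun l hl h2 h h' e => by
      change Bf _ (vfn (R A)) (vfn (R h')) = a l * Bf _ (vfn (R A)) (vfn (R h))
      rw [(tsq_lift hμ hI (hR h).1 (hR h').1 (hR h).2 hl h2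
          fun n hn => by rw [(hR h').2 n hn, e]).1,
        ← Bf_adj hg hc0 (isV_vfn (hR h).1) hl h2, ← (hTg l hl h2).1, Bf_smul_left, hreal l hl])
    ⟨_, hEE⟩
  -- the lift of `θ E` is `E ^ 2`
  have hV := isV_smul_th hE
  have hRE : R ⟨_, hEE⟩ = bet (μ + 2) • cv thc (V4 (es (μ + 2))) := by
    refine vs_unique hμ hI (hR _).1 ((VS _).smul_mem _ hV.mem) fun n hn => ?_
    rw [(hR _).2 n hn, sh_smul, Pi.smul_apply, ← cf_zero_right μ, sh_cf hμ _ _ hn, smul_eq_mul,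
      Finset.mul_sum]
    change cv _ _ n = _
    rw [cv]
    refine Finset.sum_congr rfl fun p hp => ?_
    have hp' : p.1 ≠ 0 ∨ p.2 ≠ 0 := by
      have := Finset.HasAntidiagonal.mem_antidiagonal.mp hp
      omega
    have e0 : hh μ 0 p.1 p.2 = 0 := by simp [hh]
    rw [e0, mul_zero, add_zero, hh_es _ hp']
  have hsum : LSeriesSummable a (2 * ((μ + 2 : ℕ) : ℂ) - 1) := by
    refine LSeriesSummable_of_le_const_mul_rpow (x := ((μ + 2 : ℕ) : ℝ) + 1) ?_
      ⟨C, fun n hn => ?_⟩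
    · have : (3 : ℝ) ≤ (μ + 2 : ℕ) := by exact_mod_cast h3
      simp only [sub_re, mul_re, re_ofNat, natCast_re, im_ofNat, natCast_im, mul_zero, sub_zero,
        one_re]
      linarith
    · convert hC n (Nat.pos_of_ne_zero hn) using 3
      push_cast
      ring
  have hLne := lser_ne_zero (k := 2 * (μ + 2)) h1
    (fun p n hp _ => congrFun (hmul p hp.pos) n) hsum
  obtain ⟨hs1, hs2⟩ := lser_sq (lam := μ + 2) (by omega) (hR A).2 (by
    have : (3 : ℝ) ≤ (μ + 2 : ℕ) := by exact_mod_cast h3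
    simp only [sub_re, mul_re, re_ofNat, natCast_re, im_ofNat, natCast_im, mul_zero, sub_zero,
      one_re]
    linarith) hsum hLne
  have hB := unf_v h3 hg hc0 hs1 hs2
  have hφ' : φ' ⟨_, hEE⟩ ≠ 0 := by
    change Bf _ (vfn (R A)) (vfn (R ⟨_, hEE⟩)) ≠ 0
    rw [hRE, vfn_smul _ hV.mem, Bf_smul_right, hV.qv.vfn_eq]
    exact mul_ne_zero (bet_ne_zero h3 he2) hB
  have hφ : φ ⟨_, hEE⟩ ≠ 0 := left_ne_zero_of_mul (key ▸ mul_ne_zero hφ' hff)
  refine rankin h3 he2 hf h0 (fun m n hm _ => congrFun (hmul m hm) n) hd hL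
    (unf_s h3 he2 hf h0 ?_)
  rw [← hfn]
  exact hφ

/-- The theorem, from the injectivity statement of block A. -/
theorem main (hI : ∀ μ : ℕ, Even μ → 0 < μ → Inj μ) {k : ℤ} (hk : 0 < k) (h4 : 4 ∣ k)
    (f : CuspForm 𝒮ℒ k) (hf : f ≠ 0)
    (heig : ∀ p : ℕ, p.Prime → ∃ x : ℂ, ∀ n : ℕ,
      (qExpansion 1 f).coeff (p * n) +
        (if p ∣ n then (p : ℂ) ^ (k - 1) * (qExpansion 1 f).coeff (n / p) else 0) =
          x * (qExpansion 1 f).coeff n) :
    ModularForm.L hk f (k / 2) ≠ 0 := by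
  have h12 : 12 ≤ k := by
    by_contra h
    exact hf (rank_zero_iff_forall_zero.mp
      (CuspForm.rank_eq_zero_of_weight_lt_twelve (not_le.mp h)) f)
  obtain ⟨μ, rfl, he, hμ⟩ : ∃ μ : ℕ, k = ((2 * (μ + 2) : ℕ) : ℤ) ∧ Even μ ∧ 0 < μ := by
    obtain ⟨t, rfl⟩ := h4
    refine ⟨2 * (t - 1).toNat, by push_cast; omega, even_two_mul _, by omega⟩
  obtain ⟨hM, h0⟩ := isM_coe_cusp f
  set a : ℕ → ℂ := fun n => (qExpansion 1 f).coeff n with ha
  have heig' : ∀ p : ℕ, p.Prime → ∃ x : ℂ, hh (2 * (μ + 2)) a p = x • a := fun p hp => by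
    obtain ⟨x, hx⟩ := heig p hp
    refine ⟨x, funext fun n => ?_⟩
    rw [hh_prime _ _ hp, Pi.smul_apply, smul_eq_mul, ← hx n, ← zpow_natCast,
      Nat.cast_sub (by omega), Nat.cast_one]
  have h1 : a 1 ≠ 0 := fun h1 => by
    have hz : a = 0 := MS_eq_zero (by omega) hM.mem fun n hn => by
      obtain ⟨x, hx⟩ := hh_eigen hn fun p hp _ => heig' p hp
      rw [← hh_one_right (2 * (μ + 2)) a n, hx, Pi.smul_apply, h1, smul_zero]
    have := hM.qs
    rw [hz] at this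
    exact hf (DFunLike.ext' this.eq_zero)
  have hw : Subgroup.strictWidthInfty 𝒮ℒ = 1 := Subgroup.strictWidthInfty_SL2Z
  have := main_seq he hμ (hI μ he hμ) (a := (a 1)⁻¹ • a) ((MS _).smul_mem _ hM.mem)
    (by rw [Pi.smul_apply, show a 0 = 0 from h0, smul_zero])
    (by rw [Pi.smul_apply, smul_eq_mul, inv_mul_cancel₀ h1])
    (fun p hp => by
      obtain ⟨x, hx⟩ := heig' p hp
      exact ⟨x, by rw [hh_smul, hx, smul_comm]⟩)
    (Lf := fun s => (a 1)⁻¹ * ModularForm.L hk f s)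
    ((CuspForm.differentiable_L hk f).const_mul _) fun s hs => by
      have h := ModularForm.hasSum_L hk f (s := s) (by push_cast at hs ⊢; linarith)
      rw [hw, Complex.ofReal_one, Complex.one_cpow, one_mul] at h
      rw [LSeries_smul, ← h.tsum_eq, LSeries]
      congr 1
      refine tsum_congr fun n => ?_
      rw [LSeries.term_def₀ h0, Complex.cpow_neg, div_eq_mul_inv]
  intro hL
  apply this
  have e : ((((2 * (μ + 2) : ℕ) : ℤ) : ℂ) / 2) = ((μ + 2 : ℕ) : ℂ) := by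
    push_cast
    ring
  rw [e] at hL
  simp only [hL, mul_zero]

end Pool.Agent.Lib.MP_bcfefa_nt.B
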