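import Pool.Agent.Lib.MP_bcfefa_nt.B.MFa

/-!
A form whose odd coefficients vanish is zero.
-/

set_option autoImplicit false

noncomputable section

namespace Pool.Agent.Lib.MP_bcfefa_nt.B

open Finset CongruenceSubgroup UpperHalfPlane Matrix MeasureTheory Complex ModularGroup Filter
open Pool.Agent.Lib.MP_88d29b_nt.G
open scoped MatrixGroups ModularForm Manifold ComplexConjugate Topology

lemma odd_qs_half {f : ℍ → ℂ} {a : ℕ → ℂ} (hq : QS f a) (h : ∀ n, Odd n → a n = 0) :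
    QS (fun τ => f (af 1 0 2 τ)) (fun n => a (2 * n)) := by
  rw [qs_iff] at hq ⊢
  intro τ
  have h1 := hq (af 1 0 2 τ)
  have hinj : Function.Injective fun n : ℕ => 2 * n := fun m n hmn => by
    simpa using hmn
  have h2 := (hinj.hasSum_iff (f := fun n : ℕ => a n * ee (n * (af 1 0 2 τ : ℍ)))
    (a := f (af 1 0 2 τ)) (fun n hn => by
      have hodd : Odd n := by
        rcases Nat.even_or_odd' n with ⟨m, hm | hm⟩
        · exact absurd ⟨m, hm.symm⟩ hn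
        · exact ⟨m, hm⟩
      rw [h n hodd, zero_mul])).mpr h1
  have e : ((fun n : ℕ => a n * ee (n * (af 1 0 2 τ : ℍ))) ∘ fun n : ℕ => 2 * n) =
      fun n : ℕ => a (2 * n) * ee (n * τ) := by
    funext n
    simp only [Function.comp_apply]
    rw [coe_af 0 one_pos two_pos]
    congr 2
    push_cast
    ring
  rwa [e] at h2

lemma odd_af_Lo (τ : ℍ) : af 1 0 2 (Lo 1 • τ) = Lo 2 • af 1 0 2 τ := by
  apply UpperHalfPlane.ext
  have h1 := den_ne (Lo 1) τ
  have h2 := den_ne (Lo 2) (af 1 0 2 τ)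
  rw [coe_af 0 one_pos two_pos, coe_SL, coe_SL]
  rw [den_Lo] at h1 h2 ⊢
  rw [den_Lo]
  rw [coe_af 0 one_pos two_pos] at h2 ⊢
  have e : ((2 : ℤ) : ℂ) * ((((1 : ℤ) : ℂ) * τ + ((0 : ℤ) : ℂ)) / ((2 : ℤ) : ℂ)) + 1 =
      ((1 : ℤ) : ℂ) * τ + 1 := by
    push_cast
    ring
  rw [e]
  simp [Lo]
  ring

lemma odd_S_eq : (S : SL(2, ℤ)) = T⁻¹ * Lo 1 * T⁻¹ := by
  ext i j
  fin_cases i <;> fin_cases j <;>
    simp [Lo, S, T, Matrix.mul_apply, Fin.sum_univ_two, Matrix.SpecialLinearGroup.coe_inv,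
      Matrix.adjugate_fin_two]

lemma odd_af_S (τ : ℍ) : af 1 0 2 (S • τ) = S • af 2 0 1 τ := by
  apply UpperHalfPlane.ext
  have h1 : (τ : ℂ) ≠ 0 := τ.ne_zero
  rw [coe_af 0 one_pos two_pos, coe_S_smul, coe_S_smul, coe_af 0 two_pos one_pos]
  push_cast
  field_simp
  ring

lemma odd_rel {k : ℕ} {f : ℍ → ℂ} {a : ℕ → ℂ} (hf : IsM k f a) (h : ∀ n, Odd n → a n = 0)
    (τ : ℍ) : f (af 1 0 2 τ) = 2 ^ k * f (af 2 0 1 τ) := by
  have hu := odd_qs_half hf.qs h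
  set u : ℍ → ℂ := fun τ => f (af 1 0 2 τ) with hudef
  have hT : ∀ σ : ℍ, u (T⁻¹ • σ) = u σ := fun σ => by
    have := qs_T hu (T⁻¹ • σ)
    rw [smul_inv_smul] at this
    exact this.symm
  have hL : ∀ σ : ℍ, u (Lo 1 • σ) = ((σ : ℂ) + 1) ^ k * u σ := fun σ => by
    simp only [hudef]
    rw [odd_af_Lo, hf.inv, den_Lo, coe_af 0 one_pos two_pos]
    congr 2
    push_cast
    ring
  have hTi : ((T⁻¹ • τ : ℍ) : ℂ) = τ - 1 := by
    have := coe_T_zpow_smul (-1) τ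
    rw [_root_.zpow_neg_one] at this
    rw [this]
    push_cast
    ring
  have hS : u (S • τ) = (τ : ℂ) ^ k * u τ := by
    rw [odd_S_eq, mul_smul, mul_smul, hT, hL, hT, hTi]
    congr 2
    ring
  have hS' : u (S • τ) = (2 * (τ : ℂ)) ^ k * f (af 2 0 1 τ) := by
    simp only [hudef]
    rw [odd_af_S, hf.inv, den_S, coe_af 0 two_pos one_pos]
    congr 2
    push_cast
    ring
  have h1 : (τ : ℂ) ^ k ≠ 0 := pow_ne_zero _ τ.ne_zero
  apply mul_left_cancel₀ h1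
  change (τ : ℂ) ^ k * u τ = _
  rw [← hS, hS', mul_pow]
  ring

/-- Sketch: let `u τ = f (af 1 0 2 τ)`; it has the series `n ↦ a (2 n)`, so `u (T • τ) = u τ`, and
`u (Lo 1 • τ) = (τ + 1) ^ k u τ` since `af 1 0 2 (Lo 1 • τ) = Lo 2 • af 1 0 2 τ`. From
`S = T⁻¹ * Lo 1 * T⁻¹` one gets `u (S • τ) = τ ^ k u τ`, while
`u (S • τ) = f (S • af 2 0 1 τ) = (2 τ) ^ k f (af 2 0 1 τ)`. Hence `u = 2 ^ k f (2 τ)` and
(`QS.dil`, `QS.unique`) `a (2 n) = 2 ^ k [2 ∣ n] a (n / 2)`. Strong induction. -/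
theorem odd_zero {k : ℕ} (hk : 0 < k) {a : ℕ → ℂ} (ha : a ∈ MS k) (h : ∀ n, Odd n → a n = 0) :
    a = 0 := by
  obtain ⟨f, hf⟩ := ha
  have hu := odd_qs_half hf.qs h
  have hd := (hf.qs.dil (l := 2) two_pos).smul ((2 : ℂ) ^ k)
  have e : (fun τ => f (af 1 0 2 τ)) =
      (2 : ℂ) ^ k • fun z : ℍ => f (ofComplex ((2 : ℕ) * (z : ℂ))) := by
    funext τ
    rw [odd_rel hf h τ, af_eq_ofComplex 0 two_pos one_pos]
    simp
  rw [e] at hu
  have hc := hu.unique hd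
  have hc' : ∀ n, a (2 * n) = 2 ^ k * if 2 ∣ n then a (n / 2) else 0 := fun n => by
    simpa using congrFun hc n
  have h2 : (2 : ℂ) ^ k ≠ 1 := by
    have h3 : 2 ^ k ≠ 1 := (Nat.one_lt_two_pow hk.ne').ne'
    exact_mod_cast h3
  funext n
  induction n using Nat.strong_induction_on with
  | _ n ih =>
    rcases Nat.even_or_odd' n with ⟨m, hm | hm⟩
    · rcases Nat.eq_zero_or_pos m with h0 | h0
      · have h4 := hc' 0
        subst h0
        simp only [mul_zero] at hm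
        subst hm
        simp only [mul_zero, dvd_zero, if_true, Nat.zero_div] at h4
        have h5 : ((2 : ℂ) ^ k - 1) * a 0 = 0 := by
          rw [sub_mul, one_mul, ← h4, sub_self]
        rcases mul_eq_zero.mp h5 with h6 | h6
        · exact absurd (sub_eq_zero.mp h6) h2
        · exact h6
      · rw [hm, hc' m]
        have h4 : a (m / 2) = 0 := ih (m / 2) (by omega)
        simp [h4]
    · exact h n ⟨m, hm⟩

end Pool.Agent.Lib.MP_bcfefa_nt.B
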