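import Pool.Agent.Lib.MP_bcfefa_nt.B.Bas

/-!
Analytic facts on `q`-series.
-/

set_option autoImplicit false

noncomputable section

namespace Pool.Agent.Lib.MP_bcfefa_nt.B

open Finset CongruenceSubgroup UpperHalfPlane Matrix MeasureTheory Complex ModularGroup Filter
open Pool.Agent.Lib.MP_88d29b_nt.G
open scoped MatrixGroups ModularForm Manifold ComplexConjugate Topology

variable {f g : ℍ → ℂ} {a b : ℕ → ℂ}

theorem qsa_norm (c : ℂ) (n : ℕ) (w : ℂ) :
    ‖c * ee (n * w)‖ = ‖c‖ * Real.exp (-2 * Real.pi * n * w.im) := by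
  rw [norm_mul, norm_ee]
  congr 2
  simp only [Complex.mul_im, Complex.natCast_re, Complex.natCast_im]
  ring

/-- Sketch: `(h ⟨i y, _⟩).summable`, `summable_norm_iff`, `gq1_norm`. -/
theorem qs_summable (h : QS f a) {y : ℝ} (hy : 0 < y) :
    Summable fun n : ℕ => ‖a n‖ * Real.exp (-2 * Real.pi * n * y) := by
  have h1 := summable_norm_iff.2 (qs_iff.1 h (pt 0 y)).summable
  simpa only [qsa_norm, UpperHalfPlane.coe_im, im_pt 0 hy] using h1

theorem qsa_le (c : ℂ) (n : ℕ) {ε : ℝ} {w : ℂ} (hw : ε ≤ w.im) :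
    ‖c * ee (n * w)‖ ≤ ‖c‖ * Real.exp (-2 * Real.pi * n * ε) := by
  rw [qsa_norm]
  refine mul_le_mul_of_nonneg_left (Real.exp_le_exp.2 ?_) (norm_nonneg _)
  have h1 : 0 ≤ Real.pi * n := by positivity
  nlinarith

theorem qsa_deriv (c : ℂ) (n : ℕ) (w : ℂ) : HasDerivAt (fun z : ℂ => c * ee (n * z))
    (2 * Real.pi * Complex.I * (n * c * ee (n * w))) w := by
  have h := ((((hasDerivAt_id w).const_mul (n : ℂ)).const_mul
    (2 * Real.pi * Complex.I)).cexp).const_mul c
  refine h.congr_deriv ?_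
  simp only [ee, id]
  ring

theorem qsa_eq (h : QS f a) {z : ℂ} (hz : 0 < z.im) :
    (f ∘ ofComplex) =ᶠ[𝓝 z] fun w => ∑' n : ℕ, a n * ee (n * w) := by
  filter_upwards [isOpen_upperHalfPlaneSet.mem_nhds hz] with w hw
  rw [Function.comp_apply, ofComplex_apply_of_im_pos hw]
  exact (qs_iff.1 h ⟨w, hw⟩).tsum_eq.symm

theorem qsa_open (ε : ℝ) : IsOpen {w : ℂ | ε < w.im} :=
  isOpen_lt continuous_const Complex.continuous_im

/-- Sketch: `UpperHalfPlane.mdifferentiable_iff`; on `{im > ε}` use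
`differentiableOn_tsum_of_summable_norm` with the bound of `qs_summable`. -/
theorem qs_mdiff (h : QS f a) : MDifferentiable 𝓘(ℂ) 𝓘(ℂ) f := by
  refine UpperHalfPlane.mdifferentiable_iff.2 fun z hz => ?_
  have hz' : 0 < z.im := hz
  have h1 := differentiableOn_tsum_of_summable_norm (qs_summable h (half_pos hz'))
    (F := fun (n : ℕ) w => a n * ee (n * w))
    (fun n w _ => (qsa_deriv (a n) n w).differentiableAt.differentiableWithinAt)
    (qsa_open (z.im / 2)) fun n w hw => qsa_le _ n (le_of_lt hw)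
  exact ((h1.differentiableAt ((qsa_open _).mem_nhds (half_lt_self hz'))).congr_of_eventuallyEq
    (qsa_eq h hz')).differentiableWithinAt

theorem qs_continuous (h : QS f a) : Continuous f := (qs_mdiff h).continuous

/-- Sketch: Cauchy product, `tsum_mul_tsum_eq_tsum_sum_antidiagonal_of_summable_norm` and
`summable_norm_sum_mul_antidiagonal_of_summable_norm`. -/
theorem qs_mul (h : QS f a) (h' : QS g b) : QS (f * g) (cv a b) := by
  refine qs_iff.2 fun τ => ?_
  have h1 := qs_iff.1 h τ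
  have h2 := qs_iff.1 h' τ
  have h3 := summable_norm_iff.2 h1.summable
  have h4 := summable_norm_iff.2 h2.summable
  have h5 := (summable_norm_sum_mul_antidiagonal_of_summable_norm h3 h4).of_norm.hasSum
  rw [← tsum_mul_tsum_eq_tsum_sum_antidiagonal_of_summable_norm h3 h4, h1.tsum_eq,
    h2.tsum_eq] at h5
  refine h5.congr_fun fun n => ?_
  rw [cv, Finset.sum_mul]
  refine Finset.sum_congr rfl fun p hp => ?_
  rw [← Finset.HasAntidiagonal.mem_antidiagonal.1 hp, Nat.cast_add, add_mul, ee_add]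
  ring

/-- Sketch: `hasSum_deriv_of_summable_norm` on `{im > ε}`; `f ∘ ofComplex` agrees with the series
near `τ`. -/
theorem qs_D (h : QS f a) : QS (DD f) (fun n => n * a n) := by
  refine qs_iff.2 fun τ => ?_
  have hz : 0 < (τ : ℂ).im := τ.im_pos
  have h1 := hasSum_deriv_of_summable_norm (qs_summable h (half_pos hz))
    (F := fun (n : ℕ) w => a n * ee (n * w))
    (fun n w _ => (qsa_deriv (a n) n w).differentiableAt.differentiableWithinAt)
    (qsa_open ((τ : ℂ).im / 2)) (fun n w hw => qsa_le _ n (le_of_lt hw)) (half_lt_self hz)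
  rw [← (qsa_eq h hz).deriv_eq] at h1
  refine (h1.mul_left (2 * Real.pi * Complex.I)⁻¹).congr_fun fun n => ?_
  rw [(qsa_deriv (a n) n τ).deriv, inv_mul_cancel_left₀ Complex.two_pi_I_ne_zero]

theorem qs_gro (h : QS f a) : Gro fun τ => ‖f τ‖ := by
  intro ε hε
  exact ⟨_, fun τ hτ => (qs_iff.1 h τ).norm_le_of_bounded (qs_summable h hε).hasSum
    fun n => qsa_le _ n hτ⟩

/-- Sketch: take `δ = 2 π`; for `n ≥ 1` and `y ≥ ε` one has
`exp(-2 π n y) ≤ exp(-2 π n ε) exp(2 π ε) exp(-2 π y)`. -/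
theorem qs_dec (h : QS f a) (h0 : a 0 = 0) : Dec fun τ => ‖f τ‖ := by
  refine ⟨2 * Real.pi, by positivity, fun ε hε => ⟨(∑' n : ℕ, ‖a n‖ *
    Real.exp (-2 * Real.pi * n * ε)) * Real.exp (2 * Real.pi * ε), fun τ hτ => ?_⟩⟩
  refine (qs_iff.1 h τ).norm_le_of_bounded
    (((qs_summable h hε).hasSum.mul_right _).mul_right _) fun n => ?_
  rcases Nat.eq_zero_or_pos n with rfl | hn
  · simp [h0]
  · rw [qsa_norm, mul_assoc ‖a n‖, mul_assoc ‖a n‖, ← Real.exp_add, ← Real.exp_add,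
      UpperHalfPlane.coe_im]
    refine mul_le_mul_of_nonneg_left (Real.exp_le_exp.2 ?_) (norm_nonneg _)
    have h1 : (1 : ℝ) ≤ n := by exact_mod_cast hn
    nlinarith [mul_nonneg Real.pi_pos.le (mul_nonneg (sub_nonneg.2 h1) (sub_nonneg.2 hτ))]

/-- Sketch: `f - a 0` is a series without constant term, use `qs_dec`. -/
theorem qs_tendsto (h : QS f a) : Tendsto f atImInfty (𝓝 (a 0)) := by
  have h1 : QS (fun τ => f τ - a 0) fun n => if n = 0 then 0 else a n := by
    refine qs_iff.2 fun τ => ((qs_iff.1 h τ).sub (hasSum_ite_eq 0 (a 0))).congr_fun fun n => ?_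
    split_ifs with hn
    · simp [hn]
    · simp
  obtain ⟨δ, hδ, h2⟩ := qs_dec h1 (if_pos rfl)
  obtain ⟨C, hC⟩ := h2 1 one_pos
  have h3 : Tendsto (fun τ : ℍ => C * Real.exp (-δ * τ.im)) atImInfty (𝓝 (C * 0)) :=
    (Real.tendsto_exp_atBot.comp
      (Tendsto.const_mul_atTop_of_neg (neg_lt_zero.2 hδ) tendsto_comap)).const_mul C
  rw [mul_zero] at h3
  rw [← tendsto_sub_nhds_zero_iff]
  exact squeeze_zero_norm' ((atImInfty_mem _).2 ⟨1, hC⟩) h3

theorem qs_T (h : QS f a) (τ : ℍ) : f (T • τ) = f τ := by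
  refine (qs_iff.1 h (T • τ)).unique ((qs_iff.1 h τ).congr_fun fun n => ?_)
  rw [coe_T_smul, mul_add, ee_add, mul_one, ee_nat, mul_one]

theorem qs_const (x : ℂ) : QS (fun _ => x) (fun n => if n = 0 then x else 0) := by
  refine qs_iff.2 fun τ => (hasSum_ite_eq 0 x).congr_fun fun n => ?_
  split_ifs with hn
  · simp [hn]
  · simp

/-- Multiplication by `q`. -/
theorem qs_shift (h : QS f a) :
    QS (fun τ => ee τ * f τ) (fun n => if n = 0 then 0 else a (n - 1)) := by
  refine qs_iff.2 fun τ => (hasSum_nat_add_iff' 1).1 ?_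
  simp only [Finset.sum_range_one, if_true, zero_mul, sub_zero]
  refine ((qs_iff.1 h τ).mul_left (ee τ)).congr_fun fun n => ?_
  rw [if_neg n.succ_ne_zero, Nat.add_sub_cancel, Nat.cast_succ, add_mul, ee_add, one_mul]
  ring

end Pool.Agent.Lib.MP_bcfefa_nt.B
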