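import Pool.Agent.Lib.MP_bcfefa_nt.B.HkA

/-!
The Dirichlet series identity of Rankin.
-/

set_option autoImplicit false

noncomputable section

namespace Pool.Agent.Lib.MP_bcfefa_nt.B

open Finset CongruenceSubgroup UpperHalfPlane Matrix MeasureTheory Complex ModularGroup Filter
open Pool.Agent.Lib.MP_88d29b_nt.G
open scoped MatrixGroups ModularForm Manifold ComplexConjugate Topology

/-- The square supported sequence `d ^ 2 ↦ d ^ r`. -/
def sqs (r n : ℕ) : ℂ := if IsSquare n then (Nat.sqrt n : ℂ) ^ r else 0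

/-- Sketch: `Function.Injective.hasSum_iff` for `d ↦ d ^ 2`, `LSeriesHasSum_one` or
`zeta_eq_tsum_one_div_nat_cpow`. -/
theorem lseriesHasSum_sqs (r : ℕ) {s : ℂ} (hs : (r : ℝ) + 1 < 2 * s.re) :
    LSeriesHasSum (sqs r) s (riemannZeta (2 * s - r)) := by
  have hinj : Function.Injective fun d : ℕ => d ^ 2 := Nat.pow_left_injective two_ne_zero
  have h1 : 1 < (2 * s - r).re := by
    simp only [Complex.sub_re, Complex.mul_re, Complex.re_ofNat, Complex.im_ofNat, zero_mul,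
      sub_zero, Complex.natCast_re]
    linarith
  have h2 : HasSum (LSeries.term 1 (2 * s - r)) (riemannZeta (2 * s - r)) := LSeriesHasSum_one h1
  unfold LSeriesHasSum
  rw [← hinj.hasSum_iff]
  · convert h2 using 1
    funext d
    rcases eq_or_ne d 0 with rfl | hd
    · simp
    · have hd' : (d : ℂ) ≠ 0 := Nat.cast_ne_zero.mpr hd
      have hsq : IsSquare (d ^ 2) := ⟨d, sq d⟩
      simp only [Function.comp_apply]
      rw [LSeries.term_of_ne_zero (pow_ne_zero 2 hd), LSeries.term_of_ne_zero hd, sqs, if_pos hsq,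
        Nat.sqrt_eq', Pi.one_apply, Complex.cpow_sub _ _ hd', Complex.cpow_natCast, sq,
        Nat.cast_mul, Complex.natCast_mul_natCast_cpow, two_mul, Complex.cpow_add _ _ hd',
        one_div_div]
  · intro n hn
    have hsq : ¬IsSquare n := fun ⟨d, hd⟩ => hn ⟨d, by simp only [hd, sq]⟩
    rw [LSeries.term_def, sqs, if_neg hsq]
    simp

lemma rana_left {N m n d : ℕ}
    (hx : (⟨(m, n), d⟩ : Σ _ : ℕ × ℕ, ℕ) ∈
      N.divisorsAntidiagonal.sigma fun p => (Nat.gcd p.1 p.2).divisors) :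
    ∃ m' n' : ℕ, m = d * m' ∧ n = d * n' ∧ 0 < d ∧ 0 < m' ∧ 0 < n' ∧ N = m' * n' * d ^ 2 ∧
      N / d ^ 2 = m' * n' := by
  simp only [Finset.mem_sigma, Nat.mem_divisorsAntidiagonal, Nat.mem_divisors,
    Nat.dvd_gcd_iff] at hx
  obtain ⟨⟨h1, h2⟩, ⟨⟨m', rfl⟩, ⟨n', rfl⟩⟩, -⟩ := hx
  have hN : N = m' * n' * d ^ 2 := by rw [← h1]; ring
  have h3 := hN ▸ h2
  have hd : 0 < d := Nat.pos_of_ne_zero fun h => h3 (by simp [h])
  refine ⟨m', n', rfl, rfl, hd, Nat.pos_of_ne_zero fun h => h3 (by simp [h]),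
    Nat.pos_of_ne_zero fun h => h3 (by simp [h]), hN, ?_⟩
  rw [hN, Nat.mul_div_cancel _ (pow_pos hd 2)]

lemma rana_right {N u v e : ℕ}
    (hy : (⟨(u, v), e⟩ : Σ _ : ℕ × ℕ, ℕ) ∈
      (N.divisorsAntidiagonal.filter fun q => IsSquare q.2).sigma fun q => q.1.divisors) :
    ∃ m d : ℕ, u = m * e ∧ v = d ^ 2 ∧ 0 < d ∧ 0 < m ∧ 0 < e ∧ N = m * e * d ^ 2 := by
  simp only [Finset.mem_sigma, Finset.mem_filter, Nat.mem_divisorsAntidiagonal,
    Nat.mem_divisors] at hy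
  obtain ⟨⟨⟨h1, h2⟩, ⟨d, rfl⟩⟩, ⟨m, rfl⟩, -⟩ := hy
  have hN : N = m * e * d ^ 2 := by rw [← h1]; ring
  have h3 := hN ▸ h2
  exact ⟨m, d, mul_comm _ _, (sq d).symm, Nat.pos_of_ne_zero fun h => h3 (by simp [h]),
    Nat.pos_of_ne_zero fun h => h3 (by simp [h]), Nat.pos_of_ne_zero fun h => h3 (by simp [h]), hN⟩

/-- Sketch: the left side at `N` is `∑_{m n = N} ∑_{d ∣ (m, n)} d ^ (k - 1) a(N / d ^ 2) n ^ t`;
put `m = d m'`, `n = d n'`. -/
theorem rankin_conv {k t : ℕ} {a : ℕ → ℂ}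
    (hmul : ∀ m n, 0 < m → 0 < n → hh k a m n = a m * a n) :
    LSeries.convolution a (fun n => a n * (n : ℂ) ^ t) =
      LSeries.convolution (fun n => a n * (ArithmeticFunction.sigma t n : ℂ))
        (sqs (k - 1 + t)) := by
  funext N
  simp only [LSeries.convolution_def]
  have hL : ∑ p ∈ N.divisorsAntidiagonal, a p.1 * (a p.2 * (p.2 : ℂ) ^ t) =
      ∑ p ∈ N.divisorsAntidiagonal, ∑ d ∈ (Nat.gcd p.1 p.2).divisors,
        (d : ℂ) ^ (k - 1) * a (N / d ^ 2) * (p.2 : ℂ) ^ t := by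
    refine Finset.sum_congr rfl fun p hp => ?_
    obtain ⟨h1, h2⟩ := Nat.ne_zero_of_mem_divisorsAntidiagonal hp
    rw [← mul_assoc, ← hmul _ _ (Nat.pos_of_ne_zero h1) (Nat.pos_of_ne_zero h2), hh,
      Finset.sum_mul, (Nat.mem_divisorsAntidiagonal.mp hp).1]
  have hR : ∑ q ∈ N.divisorsAntidiagonal,
      a q.1 * (ArithmeticFunction.sigma t q.1 : ℂ) * sqs (k - 1 + t) q.2 =
      ∑ q ∈ N.divisorsAntidiagonal with IsSquare q.2, ∑ e ∈ q.1.divisors,
        a q.1 * (e : ℂ) ^ t * (Nat.sqrt q.2 : ℂ) ^ (k - 1 + t) := by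
    rw [Finset.sum_filter]
    refine Finset.sum_congr rfl fun q _ => ?_
    rw [sqs]
    split_ifs
    · rw [ArithmeticFunction.sigma_apply, Nat.cast_sum, Finset.mul_sum, Finset.sum_mul]
      simp only [Nat.cast_pow]
    · rw [mul_zero]
  rw [hL, hR, Finset.sum_sigma', Finset.sum_sigma']
  refine Finset.sum_nbij' (fun x => ⟨(N / x.2 ^ 2, x.2 ^ 2), x.1.2 / x.2⟩)
    (fun y => ⟨(Nat.sqrt y.1.2 * (y.1.1 / y.2), Nat.sqrt y.1.2 * y.2), Nat.sqrt y.1.2⟩)
    ?_ ?_ ?_ ?_ ?_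
  · rintro ⟨⟨m, n⟩, d⟩ hx
    obtain ⟨m, n, rfl, rfl, hd, hm, hn, hN, hN'⟩ := rana_left hx
    simp only [Finset.mem_sigma, Finset.mem_filter, Nat.mem_divisorsAntidiagonal,
      Nat.mem_divisors, hN', Nat.mul_div_cancel_left n hd]
    refine ⟨⟨⟨hN.symm, ?_⟩, ⟨d, sq d⟩⟩, Dvd.intro_left m rfl, (Nat.mul_pos hm hn).ne'⟩
    rw [hN]
    positivity
  · rintro ⟨⟨u, v⟩, e⟩ hy
    obtain ⟨m, d, rfl, rfl, hd, hm, he, hN⟩ := rana_right hy
    simp only [Finset.mem_sigma, Nat.mem_divisorsAntidiagonal, Nat.mem_divisors, Nat.sqrt_eq',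
      Nat.mul_div_cancel m he]
    refine ⟨⟨by rw [hN]; ring, by rw [hN]; positivity⟩,
      Nat.dvd_gcd (Dvd.intro _ rfl) (Dvd.intro _ rfl), ?_⟩
    exact (Nat.gcd_pos_of_pos_left _ (Nat.mul_pos hd hm)).ne'
  · rintro ⟨⟨m, n⟩, d⟩ hx
    obtain ⟨m, n, rfl, rfl, hd, hm, hn, hN, hN'⟩ := rana_left hx
    simp only [hN', Nat.mul_div_cancel_left n hd, Nat.sqrt_eq', Nat.mul_div_cancel m hn]
  · rintro ⟨⟨u, v⟩, e⟩ hy
    obtain ⟨m, d, rfl, rfl, hd, hm, he, hN⟩ := rana_right hy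
    have hN' : N / d ^ 2 = m * e := by
      rw [hN, Nat.mul_div_cancel _ (pow_pos hd 2)]
    simp only [Nat.sqrt_eq', hN', Nat.mul_div_cancel_left e hd]
  · rintro ⟨⟨m, n⟩, d⟩ hx
    obtain ⟨m, n, rfl, rfl, hd, hm, hn, hN, hN'⟩ := rana_left hx
    simp only [Nat.mul_div_cancel_left n hd, Nat.sqrt_eq']
    push_cast
    ring

lemma rana_summable {b : ℕ → ℂ} {C : ℝ} {j : ℕ} (hC : ∀ n : ℕ, 0 < n → ‖b n‖ ≤ C * (n : ℝ) ^ j)
    {s : ℂ} (hs : (j : ℝ) + 1 < s.re) : LSeriesSummable b s := by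
  refine LSeriesSummable_of_le_const_mul_rpow hs ⟨C, fun n hn => ?_⟩
  rw [add_sub_cancel_right, Real.rpow_natCast]
  exact hC n (Nat.pos_of_ne_zero hn)

/-- Sketch: `LSeries_convolution'`, `LSeriesSummable_of_le_const_mul_rpow`, `σ t n ≤ n ^ (t + 1)`
(`ArithmeticFunction.sigma_le_pow_succ`), and `LSeries (a n n ^ t) s = LSeries a (s - t)` term by
term. -/
theorem rankin_series {k t : ℕ} (hk : 0 < k) {a : ℕ → ℂ}
    (hmul : ∀ m n, 0 < m → 0 < n → hh k a m n = a m * a n) {C : ℝ}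
    (hC : ∀ n : ℕ, 0 < n → ‖a n‖ ≤ C * (n : ℝ) ^ k) {s : ℂ} (hs : (k : ℝ) + t + 2 < s.re) :
    LSeriesSummable (fun n => a n * (ArithmeticFunction.sigma t n : ℂ)) s ∧
      LSeries (fun n => a n * (ArithmeticFunction.sigma t n : ℂ)) s *
        riemannZeta (2 * s - (k - 1 + t)) = LSeries a s * LSeries a (s - t) := by
  have hC0 : 0 ≤ C := by simpa using (norm_nonneg _).trans (hC 1 one_pos)
  have hk' : ((k - 1 + t : ℕ) : ℂ) = k - 1 + t := by
    rw [Nat.cast_add, Nat.cast_sub hk, Nat.cast_one]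
  have hk'' : ((k - 1 + t : ℕ) : ℝ) = k - 1 + t := by
    rw [Nat.cast_add, Nat.cast_sub hk, Nat.cast_one]
  have hk0 : (0 : ℝ) ≤ k := Nat.cast_nonneg k
  have ht0 : (0 : ℝ) ≤ t := Nat.cast_nonneg t
  have hz := lseriesHasSum_sqs (k - 1 + t) (s := s) (by rw [hk'']; linarith)
  rw [hk'] at hz
  have h1 : LSeriesSummable (fun n => a n * (ArithmeticFunction.sigma t n : ℂ)) s := by
    refine rana_summable (j := k + (t + 1)) (C := C) (fun n hn => ?_) (by push_cast; linarith)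
    have h : ((ArithmeticFunction.sigma t n : ℕ) : ℝ) ≤ (n : ℝ) ^ (t + 1) := by
      exact_mod_cast ArithmeticFunction.sigma_le_pow_succ t n
    rw [norm_mul, Complex.norm_natCast, pow_add, ← mul_assoc]
    exact mul_le_mul (hC n hn) h (Nat.cast_nonneg _) (by positivity)
  have h2 : LSeriesSummable a s := rana_summable hC (by linarith)
  have h3 : LSeriesSummable (fun n => a n * (n : ℂ) ^ t) s := by
    refine rana_summable (j := k + t) (C := C) (fun n hn => ?_) (by push_cast; linarith)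
    rw [norm_mul, norm_pow, Complex.norm_natCast, pow_add, ← mul_assoc]
    exact mul_le_mul_of_nonneg_right (hC n hn) (by positivity)
  have h4 : LSeries (fun n => a n * (n : ℂ) ^ t) s = LSeries a (s - t) := by
    refine tsum_congr fun n => ?_
    rcases eq_or_ne n 0 with rfl | hn
    · simp
    · have hn' : (n : ℂ) ≠ 0 := Nat.cast_ne_zero.mpr hn
      rw [LSeries.term_of_ne_zero hn, LSeries.term_of_ne_zero hn, Complex.cpow_sub _ _ hn',
        Complex.cpow_natCast, div_div_eq_mul_div]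
  refine ⟨h1, ?_⟩
  rw [← hz.LSeries_eq, ← LSeries_convolution' h1 hz.LSeriesSummable, ← rankin_conv hmul,
    LSeries_convolution' h2 h3, h4]

end Pool.Agent.Lib.MP_bcfefa_nt.B
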