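import Pool.Agent.Lib.MP_bcfefa_nt.B.Bas

/-!
Coset representatives of `Γ_0(l ^ 2)`.
-/

set_option autoImplicit false

noncomputable section

namespace Pool.Agent.Lib.MP_bcfefa_nt.B

open Finset CongruenceSubgroup UpperHalfPlane Matrix MeasureTheory Complex ModularGroup Filter
open Pool.Agent.Lib.MP_88d29b_nt.G
open scoped MatrixGroups ModularForm Manifold ComplexConjugate Topology

/-- The lower left entry of `γ (rep l i)⁻¹`. -/
def repLl (l : ℕ) (γ : SL(2, ℤ)) : Fin l ⊕ Fin (l ^ 2) → ℤ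
  | Sum.inl h => γ 1 0 - γ 1 1 * (l * (h : ℕ))
  | Sum.inr j => γ 1 0 * (4 * (j : ℕ)) - γ 1 1

lemma rep_ll (l : ℕ) (γ : SL(2, ℤ)) (i : Fin l ⊕ Fin (l ^ 2)) :
    (γ * (rep l i)⁻¹) 1 0 = repLl l γ i := by
  have key : ∀ δ : SL(2, ℤ), (γ * δ⁻¹) 1 0 = γ 1 0 * δ 1 1 - γ 1 1 * δ 1 0 := by
    intro δ
    have e : (γ * δ⁻¹) 1 0 = ((γ : Mat) * adjugate (δ : Mat)) 1 0 := rfl
    rw [e, Matrix.adjugate_fin_two]
    simp [Matrix.mul_apply, Fin.sum_univ_two]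
    ring
  rw [key]
  rcases i with h | j
  · simp [rep, repLl, Lo]
  · simp [rep, repLl, Sd]

lemma rep_iff (l : ℕ) (γ : SL(2, ℤ)) (i : Fin l ⊕ Fin (l ^ 2)) :
    (∃ t ∈ Gamma0 (l ^ 2), γ = t * rep l i) ↔ (l : ℤ) ^ 2 ∣ repLl l γ i := by
  have key : γ * (rep l i)⁻¹ ∈ Gamma0 (l ^ 2) ↔ (l : ℤ) ^ 2 ∣ repLl l γ i := by
    rw [Gamma0_mem, rep_ll, ZMod.intCast_zmod_eq_zero_iff_dvd]
    push_cast
    rfl
  rw [← key]
  constructor
  · rintro ⟨t, ht, rfl⟩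
    simpa using ht
  · intro h
    exact ⟨_, h, by simp⟩

lemma rep_cop {l : ℕ} (hl : l.Prime) (h2 : l ≠ 2) : IsCoprime ((l : ℤ) ^ 2) 4 := by
  have h : Nat.Coprime l 2 := (Nat.coprime_primes hl Nat.prime_two).mpr h2
  have h' : IsCoprime (l : ℤ) ((2 : ℕ) : ℤ) := Nat.isCoprime_iff_coprime.mpr h
  have := h'.pow (m := 2) (n := 2)
  simpa using this

lemma rep_fin {N : ℕ} (hN : 0 < N) (x : ℤ) : ∃ h : Fin N, (N : ℤ) ∣ x - (h : ℕ) := by
  have hN' : (0 : ℤ) < N := by exact_mod_cast hN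
  have h0 := Int.emod_nonneg x hN'.ne'
  have h1 := Int.emod_lt_of_pos x hN'
  refine ⟨⟨(x % N).toNat, by omega⟩, x / N, ?_⟩
  have := Int.mul_ediv_add_emod x N
  simp only [Int.toNat_of_nonneg h0]
  omega

lemma rep_fin_eq {N : ℕ} {a b : Fin N} (h : (N : ℤ) ∣ ((a : ℕ) : ℤ) - (b : ℕ)) : a = b := by
  have ha := a.2
  have hb := b.2
  have := Int.eq_zero_of_abs_lt_dvd h (by rw [abs_lt]; constructor <;> omega)
  apply Fin.ext
  omega

/-- Sketch: let `(c, d)` be the bottom row of `γ`. The lower left entry of `γ (Lo x)⁻¹` is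
`c - d x`, that of `γ (Sd y)⁻¹` is `c y - d`. If `l ∣ c` then `d` is prime to `l`: solve
`c / l ≡ d h mod l`. Otherwise solve `4 c j ≡ d mod l ^ 2`. -/
theorem rep_ex {l : ℕ} (hl : l.Prime) (h2 : l ≠ 2) (γ : SL(2, ℤ)) :
    ∃ i, ∃ t ∈ Gamma0 (l ^ 2), γ = t * rep l i := by
  have hd : γ 0 0 * γ 1 1 - γ 0 1 * γ 1 0 = 1 := by
    have := γ.det_coe
    rwa [Matrix.det_fin_two] at this
  simp only [rep_iff]
  by_cases hc : (l : ℤ) ∣ γ 1 0
  · obtain ⟨c, hc⟩ := hc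
    obtain ⟨h, u, hu⟩ := rep_fin hl.pos (γ 0 0 * c)
    refine ⟨Sum.inl h, γ 1 1 * u - c * c * γ 0 1, ?_⟩
    simp only [repLl]
    rw [hc] at hd ⊢
    linear_combination (γ 1 1 * l) * hu - (l * c) * hd
  · have hp : Prime (l : ℤ) := Nat.prime_iff_prime_int.mp hl
    have h1 : IsCoprime ((l : ℤ) ^ 2) (γ 1 0) :=
      IsCoprime.pow_left ((hp.coprime_iff_not_dvd).mpr hc)
    obtain ⟨v, u, huv⟩ := (rep_cop hl h2).mul_right h1
    obtain ⟨j, w, hw⟩ := rep_fin (pow_pos hl.pos 2) (u * γ 1 1)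
    refine ⟨Sum.inr j, -(v * γ 1 1) - 4 * γ 1 0 * w, ?_⟩
    simp only [repLl]
    push_cast at hw
    linear_combination (γ 1 1) * huv - (4 * γ 1 0) * hw

theorem rep_inj {l : ℕ} (hl : l.Prime) (h2 : l ≠ 2) (i j : Fin l ⊕ Fin (l ^ 2)) {t : SL(2, ℤ)}
    (ht : t ∈ Gamma0 (l ^ 2)) (h : rep l i = t * rep l j) : i = j := by
  have hp : Prime (l : ℤ) := Nat.prime_iff_prime_int.mp hl
  have hl0 : (l : ℤ) ≠ 0 := hp.ne_zero
  have hd := (rep_iff l (rep l i) j).mp ⟨t, ht, h⟩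
  rcases i with a | a <;> rcases j with b | b
  · simp [repLl, rep, Lo] at hd
    rw [← mul_sub, sq, mul_dvd_mul_iff_left hl0] at hd
    rw [rep_fin_eq hd]
  · simp [repLl, rep, Lo] at hd
    obtain ⟨u, hu⟩ := hd
    exact absurd ⟨(a : ℕ) * (4 * (b : ℕ)) - l * u, by linear_combination -hu⟩ hp.not_dvd_one
  · simp [repLl, rep, Sd] at hd
    obtain ⟨u, hu⟩ := hd
    exact absurd ⟨(b : ℕ) * (4 * (a : ℕ)) + l * u, by linear_combination hu⟩ hp.not_dvd_one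
  · simp [repLl, rep, Sd] at hd
    rw [← mul_sub] at hd
    have := (rep_cop hl h2).dvd_of_dvd_mul_left hd
    rw [rep_fin_eq (N := l ^ 2) (a := b) (b := a) (by exact_mod_cast this)]

/-- Right multiplication permutes the cosets. -/
theorem rep_perm {l : ℕ} (hl : l.Prime) (h2 : l ≠ 2) (γ : SL(2, ℤ)) :
    ∃ e : Equiv.Perm (Fin l ⊕ Fin (l ^ 2)), ∀ i, ∃ t ∈ Gamma0 (l ^ 2),
      rep l i * γ = t * rep l (e i) := by
  choose f t ht hf using fun i => rep_ex hl h2 (rep l i * γ)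
  have hinj : Function.Injective f := by
    intro i j hij
    refine rep_inj hl h2 i j (t := t i * (t j)⁻¹) (mul_mem (ht i) (inv_mem (ht j))) ?_
    have h1 : rep l i = t i * rep l (f i) * γ⁻¹ := by rw [← hf, mul_inv_cancel_right]
    have h2 : rep l j = t j * rep l (f j) * γ⁻¹ := by rw [← hf, mul_inv_cancel_right]
    rw [h1, h2, hij]
    group
  exact ⟨Equiv.ofBijective f (Finite.injective_iff_bijective.mp hinj),
    fun i => ⟨t i, ht i, hf i⟩⟩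

end Pool.Agent.Lib.MP_bcfefa_nt.B
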