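import Pool.Agent.Lib.MP_bcfefa_nt.B.Tn
import Pool.Agent.Lib.MP_bcfefa_nt.B.MFb

/-!
The Selberg identity.
-/

set_option autoImplicit false

noncomputable section

namespace Pool.Agent.Lib.MP_bcfefa_nt.B

open Finset CongruenceSubgroup UpperHalfPlane Matrix MeasureTheory Complex ModularGroup Filter
open Pool.Agent.Lib.MP_88d29b_nt.G
open scoped MatrixGroups ModularForm Manifold ComplexConjugate Topology

/-- Sketch: for `k = 2` use `MS_two`. For `k ≥ 4` let `F m = hh k a m` for `m ≥ 1` and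
`F 0 = (a 0 / bet k) • es k`; all `F m` lie in `MS k` and `F m n = F n m` (`hh_symm`,
`hh_zero_right`). Take a basis `B i` of `MS k` (`Module.finBasis`) and `C i m = repr (F m) i`. By
`dual_span`, `C i m = ∑_n t_n F m n = ∑_n t_n F n m`, so `C i = ∑_n t_n • F n ∈ MS k`. -/
theorem selberg {k : ℕ} (hk : 0 < k) (he : Even k) {a : ℕ → ℂ} (ha : a ∈ MS k) :
    ∃ (r : ℕ) (B C : Fin r → ℕ → ℂ), (∀ i, B i ∈ MS k ∧ C i ∈ MS k) ∧
      ∀ m n : ℕ, (m ≠ 0 ∨ n ≠ 0) → ∑ i, B i m * C i n = hh k a m n := by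
  by_cases h2 : k = 2
  · subst h2
    refine ⟨0, Fin.elim0, Fin.elim0, fun i => i.elim0, fun m n _ => ?_⟩
    simp [MS_two ha, hh]
  have hk3 : 3 ≤ k := by
    obtain ⟨j, rfl⟩ := he
    omega
  have hex : ∃ F : ℕ → MS k, ∀ m n, (m ≠ 0 ∨ n ≠ 0) → (F m).1 n = hh k a m n := by
    refine ⟨fun m => if hm : m = 0 then ⟨_, (MS k).smul_mem (a 0 / bet k) (isM_E hk3 he).mem⟩
      else ⟨_, hh_mem hk ha (Nat.pos_of_ne_zero hm)⟩, fun m n h => ?_⟩
    by_cases hm : m = 0
    · have hn : n ≠ 0 := h.resolve_left fun h' => h' hm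
      have hb := bet_ne_zero hk3 he
      simp only [dif_pos hm, Pi.smul_apply, smul_eq_mul, es, if_neg hn]
      rw [hm, hh_symm, hh_zero_right]
      field_simp
    · simp only [dif_neg hm]
  obtain ⟨F, hF⟩ := hex
  let b := Module.finBasis ℂ (MS k)
  refine ⟨_, fun i => (b i).1, fun i n => b.repr (F n) i, fun i => ⟨(b i).2, ?_⟩, fun m n h => ?_⟩
  · obtain ⟨s, t, hs, ht⟩ := dual_span hk (b.coord i)
    have h1 : (fun n => b.repr (F n) i) = ∑ m ∈ s, t m • (F m).1 := by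
      funext n
      rw [← Module.Basis.coord_apply, ht, Finset.sum_apply]
      refine Finset.sum_congr rfl fun m hm => ?_
      rw [Pi.smul_apply, smul_eq_mul, hF n m (Or.inr (hs m hm).ne'), hF m n (Or.inl (hs m hm).ne'),
        hh_symm]
    change (fun n => b.repr (F n) i) ∈ MS k
    rw [h1]
    exact Submodule.sum_mem _ fun m _ => Submodule.smul_mem _ _ (F m).2
  · have h1 := congrFun (congrArg Subtype.val (b.sum_repr (F n))) m
    rw [hF n m h.symm, hh_symm, Submodule.coe_sum, Finset.sum_apply] at h1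
    rw [← h1]
    exact Finset.sum_congr rfl fun i _ => mul_comm _ _

end Pool.Agent.Lib.MP_bcfefa_nt.B
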