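import Pool.Agent.Lib.MP_bcfefa_nt.B.J1
import Pool.Agent.Lib.MP_bcfefa_nt.B.Rep

/-!
The operator `T(l ^ 2)`: covariance.
-/

set_option autoImplicit false

noncomputable section

namespace Pool.Agent.Lib.MP_bcfefa_nt.B

open Finset CongruenceSubgroup UpperHalfPlane Matrix MeasureTheory Complex ModularGroup Filter
open Pool.Agent.Lib.MP_88d29b_nt.G
open scoped MatrixGroups ModularForm Manifold ComplexConjugate Topology

variable {lam : ℕ} {g : ℍ → Fin 2 → ℂ} {c : ℕ → ℂ}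

theorem slv_mul (lam : ℕ) (g : ℍ → Fin 2 → ℂ) (γ γ' : SL(2, ℤ)) :
    slv lam g (γ * γ') = slv lam (slv lam g γ) γ' := by
  funext τ
  rw [slv, slv, slv, den_mul, Jm_mul, Matrix.mul_inv_rev, mulVec_smul, mulVec_mulVec, mul_pow,
    _root_.mul_inv_rev, mul_smul, mul_smul γ γ' τ]

theorem slv_spec (lam : ℕ) (g : ℍ → Fin 2 → ℂ) (γ : SL(2, ℤ)) (τ : ℍ) :
    g (γ • τ) = den γ τ ^ lam • Jm γ τ *ᵥ slv lam g γ τ := by
  rw [slv, mulVec_smul, mulVec_mulVec, mul_nonsing_inv _ (isUnit_det_Jm γ τ), one_mulVec,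
    smul_inv_smul₀ (pow_ne_zero _ (den_ne γ τ))]

theorem slv_eq_iff {γ : SL(2, ℤ)} {τ : ℍ} {v : Fin 2 → ℂ} :
    slv lam g γ τ = v ↔ g (γ • τ) = den γ τ ^ lam • Jm γ τ *ᵥ v := by
  refine ⟨fun h => h ▸ slv_spec lam g γ τ, fun h => ?_⟩
  rw [slv, h, mulVec_smul, mulVec_mulVec, nonsing_inv_mul _ (isUnit_det_Jm γ τ), one_mulVec,
    inv_smul_smul₀ (pow_ne_zero _ (den_ne γ τ))]

/-- Sketch: for `γ = (a, b; l ^ 2 c, d)` let `γ' = (a, l ^ 2 b; c, d)`; then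
`l ^ 2 (γ τ) = γ' (l ^ 2 τ)`, `den γ' (l ^ 2 τ) = den γ τ`, and `Jm_conj`. -/
theorem IsV.dil_cov (h : IsV lam g c) {l : ℕ} (hl : Odd l) {γ : SL(2, ℤ)}
    (hγ : γ ∈ Gamma0 (l ^ 2)) (τ : ℍ) :
    dil (l ^ 2) g (γ • τ) = den γ τ ^ lam • Jm γ τ *ᵥ dil (l ^ 2) g τ := by
  obtain ⟨m, hm⟩ : ((l ^ 2 : ℕ) : ℤ) ∣ γ 1 0 :=
    (ZMod.intCast_zmod_eq_zero_iff_dvd _ _).1 (Gamma0_mem.1 hγ)
  have hd := γ.det_coe
  rw [Matrix.det_fin_two, hm] at hd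
  push_cast at hm hd
  let γ' : SL(2, ℤ) := ⟨!![γ 0 0, l ^ 2 * γ 0 1; m, γ 1 1], by
    rw [Matrix.det_fin_two_of]
    linear_combination hd⟩
  have hp : (0 : ℤ) < (l ^ 2 : ℕ) := by exact_mod_cast pow_pos hl.pos 2
  have h1 : den γ' (af (l ^ 2 : ℕ) 0 1 τ) = den γ τ := by
    rw [den, den, coe_af 0 hp one_pos, hm]
    simp only [γ', Matrix.of_apply, Matrix.cons_val', Matrix.cons_val_zero, Matrix.cons_val_one,
      Matrix.cons_val_fin_one]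
    push_cast
    ring
  have h2 : af (l ^ 2 : ℕ) 0 1 (γ • τ) = γ' • af (l ^ 2 : ℕ) 0 1 τ := by
    apply UpperHalfPlane.ext
    rw [coe_SL γ', h1, coe_af 0 hp one_pos, coe_af 0 hp one_pos, coe_SL]
    simp only [γ', Matrix.of_apply, Matrix.cons_val', Matrix.cons_val_zero, Matrix.cons_val_one,
      Matrix.cons_val_fin_one]
    push_cast
    ring
  rw [dil, dil, h2, h.cov, h1, Jm_conj hl (γ := γ) (γ' := γ') rfl rfl hm rfl]

/-- Sketch: `slv` is linear in the function; `slv_mul`, `rep_perm`, `IsV.dil_cov`. -/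
theorem IsV.Tsq_cov (h : IsV lam g c) {l : ℕ} (hl : l.Prime) (h2 : l ≠ 2) (γ : SL(2, ℤ))
    (τ : ℍ) : Tsq lam l g (γ • τ) = den γ τ ^ lam • Jm γ τ *ᵥ Tsq lam l g τ := by
  obtain ⟨e, he⟩ := rep_perm hl h2 γ
  have key : ∀ i, slv lam (dil (l ^ 2) g) (rep l i) (γ • τ) =
      den γ τ ^ lam • Jm γ τ *ᵥ slv lam (dil (l ^ 2) g) (rep l (e i)) τ := by
    intro i
    obtain ⟨t, ht, e1⟩ := he i
    have e2 : slv lam (dil (l ^ 2) g) t = dil (l ^ 2) g :=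
      funext fun σ => slv_eq_iff.2 (h.dil_cov (hl.odd_of_ne_two h2) ht σ)
    rw [← slv_eq_iff, ← slv_mul, e1, slv_mul, e2]
  rw [Tsq, Tsq, Finset.sum_congr rfl fun i _ => key i, mulVec_smul, smul_comm (den γ τ ^ lam),
    ← Finset.smul_sum, ← mulVec_sum,
    Equiv.sum_comp e fun i => slv lam (dil (l ^ 2) g) (rep l i) τ]

end Pool.Agent.Lib.MP_bcfefa_nt.B
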