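import Pool.Agent.Lib.MP_bcfefa_nt.B.TsqA
import Pool.Agent.Lib.MP_bcfefa_nt.B.J2

/-!
The operator `T(l ^ 2)`: the three kinds of terms.
-/

set_option autoImplicit false

noncomputable section

namespace Pool.Agent.Lib.MP_bcfefa_nt.B

open Finset CongruenceSubgroup UpperHalfPlane Matrix MeasureTheory Complex ModularGroup Filter
open Pool.Agent.Lib.MP_88d29b_nt.G
open scoped MatrixGroups ModularForm Manifold ComplexConjugate Topology

variable {lam : ℕ} {g : ℍ → Fin 2 → ℂ} {c : ℕ → ℂ}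

theorem slv_Lo_zero (lam : ℕ) (g : ℍ → Fin 2 → ℂ) : slv lam g (Lo 0) = g := by
  funext τ
  have h : Lo 0 = 1 := by
    ext i j
    fin_cases i <;> fin_cases j <;> simp [Lo]
  rw [h, slv, den_one, Jm_one, one_smul]
  simp

/-- Sketch: `slv_eq_iff`; with `γ = (l, -4 h'; h, u)` and `σ = af l (4 h') l τ` one has
`l ^ 2 (Lo (l h) τ) = γ σ`, `den γ σ = den (Lo (l h)) τ / l`; `IsV.cov`, `Jm_mid`. -/
theorem IsV.slv_mid (hg : IsV lam g c) {l : ℕ} (hl : Odd l) {h h' u : ℤ}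
    (hu : 4 * h * h' + l * u = 1) (τ : ℍ) :
    slv lam (dil (l ^ 2) g) (Lo (l * h)) τ =
      (gauss l h / (l : ℂ) ^ (lam + 1)) • g (af l (4 * h') l τ) := by
  have hl0 : 0 < l := hl.pos
  have hlz : (0 : ℤ) < l := by exact_mod_cast hl0
  have hlc : (l : ℂ) ≠ 0 := by exact_mod_cast hl0.ne'
  have huc : 4 * (h : ℂ) * h' + l * u = 1 := by exact_mod_cast hu
  let γ : SL(2, ℤ) := ⟨!![l, -(4 * h'); h, u], by
    rw [Matrix.det_fin_two_of]
    linear_combination hu⟩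
  have h00 : γ 0 0 = l := rfl
  have h01 : γ 0 1 = -(4 * h') := rfl
  have h10 : γ 1 0 = h := rfl
  have h11 : γ 1 1 = u := rfl
  have hσ := coe_af (4 * h') hlz hlz τ
  have hD := den_ne (Lo (l * h)) τ
  have hden : den γ (af l (4 * h') l τ) = den (Lo (l * h)) τ / l := by
    rw [den, den_Lo, hσ, h10, h11]
    push_cast
    field_simp
    linear_combination huc
  have hpt : af ((l ^ 2 : ℕ) : ℤ) 0 1 (Lo (l * h) • τ) = γ • af l (4 * h') l τ := by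
    apply UpperHalfPlane.ext
    rw [coe_af 0 (by positivity) one_pos, coe_SL, coe_SL, hden, hσ, h00, h01]
    have e0 : Lo (l * h) 0 0 = 1 := rfl
    have e1 : Lo (l * h) 0 1 = 0 := rfl
    rw [e0, e1]
    push_cast
    field_simp
    ring
  rw [slv_eq_iff, dil, hpt, hg.cov, hden, Jm_mid hl h00 h01 h10 h11, smul_mulVec, mulVec_smul,
    smul_smul, smul_smul]
  congr 1
  rw [div_pow]
  field_simp
  ring

/-- Sketch: with `σ = af 1 (4 j) (l ^ 2) τ` one has `l ^ 2 (Sd (4 j) τ) = S σ`; `Sd_eq`, `Jm_mul`,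
`Jm_T4`, `Jm_S`, `JS_scale`. -/
theorem IsV.slv_Sd (hg : IsV lam g c) {l : ℕ} (hl : 0 < l) (j : ℤ) (τ : ℍ) :
    slv lam (dil (l ^ 2) g) (Sd (4 * j)) τ =
      ((l : ℂ) ^ (2 * lam + 1))⁻¹ • g (af 1 (4 * j) (l ^ 2 : ℕ) τ) := by
  have hlc : (l : ℂ) ≠ 0 := by exact_mod_cast hl.ne'
  have hl2 : (0 : ℤ) < ((l ^ 2 : ℕ) : ℤ) := by positivity
  have hσ := coe_af (4 * j) one_pos hl2 τ
  have hD := den_ne (Sd (4 * j)) τ
  have hD' := hD
  rw [den_Sd] at hD'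
  have hpt : af ((l ^ 2 : ℕ) : ℤ) 0 1 (Sd (4 * j) • τ) = S • af 1 (4 * j) (l ^ 2 : ℕ) τ := by
    apply UpperHalfPlane.ext
    rw [coe_af 0 hl2 one_pos, coe_SL, coe_S_smul, hσ, den_Sd]
    have e0 : Sd (4 * j) 0 0 = 0 := rfl
    have e1 : Sd (4 * j) 0 1 = -1 := rfl
    rw [e0, e1]
    push_cast at hD' ⊢
    field_simp
    ring
  have hT : ((T ^ (4 * j) • τ : ℍ) : ℂ) = (l : ℂ) ^ 2 * af 1 (4 * j) (l ^ 2 : ℕ) τ := by
    rw [coe_T_zpow_smul, hσ]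
    push_cast
    field_simp
  have hJ : Jm (Sd (4 * j)) τ = (l : ℂ) • JS (af 1 (4 * j) (l ^ 2 : ℕ) τ) := by
    rw [Sd_eq, Jm_mul, Jm_T4, Jm_S, Matrix.mul_one, JS_scale hl hT]
  have hden : den (Sd (4 * j)) τ = (l : ℂ) ^ 2 * af 1 (4 * j) (l ^ 2 : ℕ) τ := by
    rw [den_Sd, ← hT, coe_T_zpow_smul]
  rw [slv_eq_iff, dil, hpt, hg.cov, den_S, Jm_S, hJ, hden, smul_mulVec, mulVec_smul,
    smul_smul, smul_smul]
  congr 1
  field_simp
  ring

theorem IsV.Tsq_eq (hg : IsV lam g c) {l : ℕ} (hl : Odd l) (h' : Fin l → ℤ)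
    (hh' : ∀ h : Fin l, h.val ≠ 0 → ∃ u : ℤ, 4 * (h.val : ℤ) * h' h + l * u = 1) :
    Tsq lam l g = ((l : ℂ) ^ (2 * lam) / l) • dil (l ^ 2) g +
      ∑ h ∈ univ.filter (fun h : Fin l => h.val ≠ 0),
        ((l : ℂ) ^ lam / l ^ 2 * gauss l h.val) • (fun τ => g (af l (4 * h' h) l τ)) +
      ((l : ℂ) ^ 2)⁻¹ • ∑ j : Fin (l ^ 2), fun τ => g (af 1 (4 * (j : ℕ)) (l ^ 2 : ℕ) τ) := by
  have hl0 : 0 < l := hl.pos
  have hlc : (l : ℂ) ≠ 0 := by exact_mod_cast hl0.ne'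
  have : NeZero l := ⟨hl0.ne'⟩
  funext τ
  have e1 : ∑ h ∈ univ.filter (fun h : Fin l => ¬ h.val ≠ 0),
      slv lam (dil (l ^ 2) g) (rep l (Sum.inl h)) τ = dil (l ^ 2) g τ := by
    have : univ.filter (fun h : Fin l => ¬ h.val ≠ 0) = {0} := by
      ext h
      simp
    rw [this, sum_singleton, rep]
    simp [slv_Lo_zero]
  have e2 : ∀ h ∈ univ.filter (fun h : Fin l => h.val ≠ 0),
      ((l : ℂ) ^ (2 * lam) / l) • slv lam (dil (l ^ 2) g) (rep l (Sum.inl h)) τ =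
        ((l : ℂ) ^ lam / l ^ 2 * gauss l h.val) • g (af l (4 * h' h) l τ) := by
    intro h hh
    obtain ⟨u, hu⟩ := hh' h (mem_filter.mp hh).2
    rw [rep, hg.slv_mid hl hu, smul_smul]
    congr 1
    field_simp
    ring
  have e3 : ∀ j ∈ (univ : Finset (Fin (l ^ 2))),
      ((l : ℂ) ^ (2 * lam) / l) • slv lam (dil (l ^ 2) g) (rep l (Sum.inr j)) τ =
        ((l : ℂ) ^ 2)⁻¹ • g (af 1 (4 * (j : ℕ)) (l ^ 2 : ℕ) τ) := by
    intro j _
    rw [rep, hg.slv_Sd hl0, smul_smul]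
    congr 1
    field_simp
    ring
  rw [Tsq, Fintype.sum_sum_type, ← sum_filter_add_sum_filter_not univ (fun h : Fin l => h.val ≠ 0),
    e1, smul_add, smul_add, smul_sum, smul_sum, sum_congr rfl e2, sum_congr rfl e3]
  simp only [Pi.add_apply, Pi.smul_apply, Finset.sum_apply, smul_sum]
  abel

end Pool.Agent.Lib.MP_bcfefa_nt.B
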