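import Pool.Agent.Lib.MP_bcfefa_nt.B.Bas

/-!
Unfolding: the integral over the strip.
-/

set_option autoImplicit false

noncomputable section

namespace Pool.Agent.Lib.MP_bcfefa_nt.B

open Finset CongruenceSubgroup UpperHalfPlane Matrix MeasureTheory Complex ModularGroup Filter
open Pool.Agent.Lib.MP_88d29b_nt.G
open scoped MatrixGroups ModularForm Manifold ComplexConjugate Topology

theorem measurableSet_strip : MeasurableSet strip := by
  exact (measurableSet_le measurable_const UpperHalfPlane.continuous_re.measurable).inter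
    (measurableSet_lt UpperHalfPlane.continuous_re.measurable measurable_const)

theorem continuousOn_hz {Φ : ℍ → ℂ} (hc : Continuous Φ) : ContinuousOn (hz Φ) (Set.Ioi 0) := by
  rw [continuousOn_iff_continuous_domRestrict]
  refine intervalIntegral.continuous_parametric_intervalIntegral_of_continuous'
    (f := fun (y : Set.Ioi (0 : ℝ)) (x : ℝ) => Φ (pt x y)) (hc.comp ?_) 0 1
  rw [isEmbedding_coe.continuous_iff]
  refine Continuous.congr ?_ fun p => (coe_pt p.2 p.1.2).symm
  fun_prop

theorem norm_hz_le {Φ : ℍ → ℂ} {y B : ℝ} (hy : 0 < y) (h : ∀ τ : ℍ, τ.im = y → ‖Φ τ‖ ≤ B) :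
    ‖hz Φ y‖ ≤ B := by
  simpa [hz] using intervalIntegral.norm_integral_le_of_norm_le_const (a := 0) (b := 1)
    (f := fun x : ℝ => Φ (pt x y)) fun x _ => h _ (im_pt x hy)

theorem hz_mul_im (Φ : ℍ → ℂ) (ρ : ℝ → ℂ) {y : ℝ} (hy : 0 < y) :
    hz (fun τ => Φ τ * ρ τ.im) y = hz Φ y * ρ y := by
  simp only [hz, im_pt _ hy, intervalIntegral.integral_mul_const]

theorem hz_conj (Φ : ℍ → ℂ) (y : ℝ) : hz (fun τ => conj (Φ τ)) y = conj (hz Φ y) := by
  simp only [hz, intervalIntegral.integral_of_le zero_le_one, integral_conj]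

/-- Sketch: `UpperHalfPlane.volume_def` (density `1 / y ^ 2` with respect to the pull back of the
Lebesgue measure of `ℂ`), `MeasurableEmbedding` for `UpperHalfPlane.coe`,
`Complex.volume_preserving_equiv_real_prod`, then Fubini (`setIntegral_prod`, `integral_prod_symm`)
on `Ico 0 1 ×ˢ Ioi 0`; compare `volume_fd_lt_top` in `GWt2`. -/
theorem strip_integral {Φ : ℍ → ℂ} (hc : Continuous Φ) {B : ℝ → ℝ} (hB : ∀ τ, ‖Φ τ‖ ≤ B τ.im)
    (hi : IntegrableOn (fun y => B y / y ^ 2) (Set.Ioi 0)) :
    IntegrableOn Φ strip ∧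
      ∫ τ in strip, Φ τ = ∫ y in Set.Ioi (0 : ℝ), ((y : ℂ) ^ 2)⁻¹ * hz Φ y := by
  set R : Set (ℝ × ℝ) := Set.Ico 0 1 ×ˢ Set.Ioi 0 with hR
  have hRm : MeasurableSet R := measurableSet_Ico.prod measurableSet_Ioi
  have h1 : MeasurePreserving UpperHalfPlane.coe (volume.comap UpperHalfPlane.coe)
      (volume.restrict (.range UpperHalfPlane.coe)) :=
    ⟨measurable_coe, by rw [measurableEmbedding_coe.map_comap]⟩
  have h2 := h1.restrict_preimage (measurableEquivRealProd.measurable hRm)
  have hsub : measurableEquivRealProd ⁻¹' R ⊆ Set.range UpperHalfPlane.coe :=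
    fun z hz => ⟨⟨z, hz.2⟩, rfl⟩
  rw [Measure.restrict_restrict_of_subset hsub,
    show UpperHalfPlane.coe ⁻¹' (measurableEquivRealProd ⁻¹' R) = strip from
      Set.ext fun τ => ⟨fun h => h.1, fun h => ⟨h, τ.im_pos⟩⟩] at h2
  have h3 := (volume_preserving_equiv_real_prod.restrict_preimage hRm).comp h2
  have he := measurableEquivRealProd.measurableEmbedding.comp measurableEmbedding_coe
  set F : ℝ × ℝ → ℂ := fun p => ((p.2 : ℂ) ^ 2)⁻¹ * Φ (pt p.1 p.2) with hF
  have hd0 : Measurable fun z : ℍ => (NNReal.mk z.im z.im_pos.le : NNReal) :=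
    (UpperHalfPlane.continuous_im.subtype_mk _).measurable
  have hd : Measurable fun z : ℍ => ((1 / NNReal.mk z.im z.im_pos.le : NNReal) ^ 2) :=
    (measurable_const.div hd0).pow_const 2
  have e : (fun z : ℍ => ((1 / NNReal.mk z.im z.im_pos.le : NNReal) ^ 2) • Φ z) =
      F ∘ measurableEquivRealProd ∘ UpperHalfPlane.coe := by
    funext z
    have h : pt z.re z.im = z := UpperHalfPlane.ext (by rw [coe_pt _ z.im_pos]; exact z.re_add_im)
    show _ = ((z.im : ℂ) ^ 2)⁻¹ * Φ (pt z.re z.im)
    rw [h, NNReal.smul_def, real_smul]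
    simp
  have hFc : ContinuousOn F R := by
    rw [continuousOn_iff_continuous_domRestrict]
    refine Continuous.mul (Continuous.inv₀ (by fun_prop) fun p =>
      pow_ne_zero _ (ofReal_ne_zero.2 p.2.2.out.ne')) (hc.comp ?_)
    rw [isEmbedding_coe.continuous_iff]
    refine Continuous.congr ?_ fun p => (coe_pt p.1.1 p.2.2).symm
    fun_prop
  have hFi : Integrable F ((volume.restrict (Set.Ico 0 1)).prod (volume.restrict (Set.Ioi 0))) := by
    have h4 := (integrable_const (μ := volume.restrict (Set.Ico (0 : ℝ) 1)) (1 : ℝ)).mul_prod hi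
    rw [Measure.prod_restrict] at h4 ⊢
    refine h4.mono' (hFc.aestronglyMeasurable hRm) ((ae_restrict_iff' hRm).2
      (Eventually.of_forall fun p hp => ?_))
    have h5 := hB (pt p.1 p.2)
    rw [im_pt _ hp.2] at h5
    rw [hF, norm_mul, norm_inv, norm_pow, norm_real, Real.norm_eq_abs, sq_abs, one_mul,
      div_eq_inv_mul]
    exact mul_le_mul_of_nonneg_left h5 (inv_nonneg.2 (sq_nonneg _))
  constructor
  · rw [IntegrableOn, volume_def, restrict_withDensity measurableSet_strip,
      integrable_withDensity_iff_integrable_smul hd, e, ← Function.comp_assoc, Function.comp_assoc,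
      h3.integrable_comp_emb he, hR, Measure.volume_eq_prod, ← Measure.prod_restrict]
    exact hFi
  · rw [volume_def, setIntegral_withDensity_eq_setIntegral_smul hd _ measurableSet_strip, e]
    refine (h3.integral_comp he F).trans ?_
    rw [hR, Measure.volume_eq_prod, ← Measure.prod_restrict, integral_prod_symm F hFi]
    refine integral_congr_ae (Eventually.of_forall fun y => ?_)
    simp only [hF, hz, intervalIntegral.integral_of_le zero_le_one, integral_const_mul,
      integral_Ico_eq_integral_Ioc]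

end Pool.Agent.Lib.MP_bcfefa_nt.B
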