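import Pool.Agent.Lib.MP_bcfefa_nt.B.Bas

/-!
Unfolding: the measure theoretic step.
-/

set_option autoImplicit false

noncomputable section

namespace Pool.Agent.Lib.MP_bcfefa_nt.B

open Finset CongruenceSubgroup UpperHalfPlane Matrix MeasureTheory Complex ModularGroup Filter
open Pool.Agent.Lib.MP_88d29b_nt.G
open scoped MatrixGroups ModularForm Manifold ComplexConjugate Topology

/-- Sketch: let `ψ = wt ⊤`, `m = ∫⁻ ψ` (`wt_spec`, `IsWt.mass_ne_zero`), `κ = (m⁻¹).toReal`. One has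
`ψ ≤ 1`. Unfold `avgM`, `pmOf` (`integral_smul_measure`, `integral_withDensity_eq_integral_toReal_smul`).
`∑_γ ∫⁻ ψ(τ) ‖G (γ τ)‖ = ∑_γ ∫⁻ ψ(γ⁻¹ τ) ‖G τ‖ = ∫⁻ ‖G‖ < ⊤` (`lintegral_SL`, `gwt1_unfold`), so
`integral_tsum` applies twice; between the two uses change variables by
`measurePreserving_smul` / `integral_smul_eq_self`; `∑_γ (ψ (γ⁻¹ τ)).toReal = 1`. -/
theorem avg_unfold {G : ℍ → ℂ} (hm : Measurable G) (hi : Integrable G) :
    ∃ κ : ℂ, κ ≠ 0 ∧ avgM ⊤ (fun τ => ∑' γ : SL(2, ℤ), G (γ • τ)) = κ * ∫ τ, G τ := by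
  obtain ⟨hw, hfin⟩ := wt_spec (⊤ : Subgroup SL(2, ℤ))
  unfold avgM pmOf
  generalize wt (⊤ : Subgroup SL(2, ℤ)) = ψ at hw hfin
  have hs : ∀ z : ℍ, ∑' g : SL(2, ℤ), ψ (g⁻¹ • z) = 1 := fun z => by
    rw [← hw.sum z]
    exact ((Equiv.inv _).tsum_eq fun g : SL(2, ℤ) => ψ (g • z)).trans
      (Subgroup.topEquiv.toEquiv.tsum_eq fun g : SL(2, ℤ) => ψ (g • z)).symm
  have hlt : ∀ z, ψ z ≠ ⊤ := fun z => by
    have h := ENNReal.le_tsum (f := fun g : SL(2, ℤ) => ψ (g⁻¹ • z)) 1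
    rw [hs, inv_one, one_smul] at h
    exact ne_top_of_le_ne_top ENNReal.one_ne_top h
  have hm1 : ∀ g : SL(2, ℤ), Measurable fun z : ℍ => (ψ (g⁻¹ • z)).toReal • G z := fun g =>
    (hw.meas.comp (gwt1_meas _)).ennreal_toReal.smul hm
  have hm2 : ∀ g : SL(2, ℤ), Measurable fun z : ℍ => (ψ z).toReal • G (g • z) := fun g =>
    hw.meas.ennreal_toReal.smul (hm.comp (gwt1_meas g))
  have hb : ∑' g : SL(2, ℤ), ∫⁻ z : ℍ, ‖(ψ (g⁻¹ • z)).toReal • G z‖ₑ ≠ ⊤ := by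
    rw [← lintegral_tsum fun g => (hm1 g).enorm.aemeasurable]
    refine ne_of_eq_of_ne (lintegral_congr fun z => ?_) hi.2.ne
    simp only [enorm_smul, Real.enorm_toReal (hlt _)]
    rw [ENNReal.tsum_mul_right, hs, one_mul]
  have hb' : ∑' g : SL(2, ℤ), ∫⁻ z : ℍ, ‖(ψ z).toReal • G (g • z)‖ₑ ≠ ⊤ := by
    refine ne_of_eq_of_ne (tsum_congr fun g => ?_) hb
    rw [← lintegral_SL g (hm1 g).enorm]
    simp only [inv_smul_smul]
  refine ⟨((∫⁻ z, ψ z)⁻¹).toReal, Complex.ofReal_ne_zero.2 (ENNReal.toReal_ne_zero.2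
    ⟨ENNReal.inv_ne_zero.2 hfin, ENNReal.inv_ne_top.2 hw.mass_ne_zero⟩), ?_⟩
  rw [integral_smul_measure, integral_withDensity_eq_integral_toReal_smul hw.meas
    (Eventually.of_forall fun z => (hlt z).lt_top), real_smul]
  congr 1
  simp only [← tsum_const_smul'']
  rw [integral_tsum (fun g => (hm2 g).aestronglyMeasurable) hb']
  have e : ∀ g : SL(2, ℤ), ∫ z : ℍ, (ψ z).toReal • G (g • z) =
      ∫ z : ℍ, (ψ (g⁻¹ • z)).toReal • G z := fun g => by
    rw [← integral_smul_eq_self (fun z : ℍ => (ψ (g⁻¹ • z)).toReal • G z) (g := toGL (g : Mat))]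
    refine integral_congr_ae (Eventually.of_forall fun z => ?_)
    have h : toGL (g : Mat) • z = g • z := sm_SL g z
    simp only [h, inv_smul_smul]
  rw [tsum_congr e, ← integral_tsum (fun g => (hm1 g).aestronglyMeasurable) hb]
  refine integral_congr_ae (Eventually.of_forall fun z => ?_)
  have h := ENNReal.hasSum_toReal (f := fun g : SL(2, ℤ) => ψ (g⁻¹ • z)) (by
    rw [hs]; exact ENNReal.one_ne_top)
  rw [← ENNReal.tsum_toReal_eq fun g => hlt _, hs, ENNReal.toReal_one] at h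
  exact (h.smul_const (G z)).tsum_eq.trans (one_smul _ _)

end Pool.Agent.Lib.MP_bcfefa_nt.B
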