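import Pool.Agent.Lib.MP_bcfefa_nt.B.UnfG
import Pool.Agent.Lib.MP_bcfefa_nt.B.UnfM
import Pool.Agent.Lib.MP_bcfefa_nt.B.UnfB

/-!
The unfolding theorem.
-/

set_option autoImplicit false

noncomputable section

namespace Pool.Agent.Lib.MP_bcfefa_nt.B

open Finset CongruenceSubgroup UpperHalfPlane Matrix MeasureTheory Complex ModularGroup Filter
open Pool.Agent.Lib.MP_88d29b_nt.G
open scoped MatrixGroups ModularForm Manifold ComplexConjugate Topology

/-- A function of weight `-κ` with exponential decay. Sketch: `u τ / im τ ^ (κ / 2)` is invariant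
(`im_SL`); move `τ` into `im ≥ 1 / 2` (`ModularGroup.exists_one_half_le_im_smul`). -/
theorem inv_bound {u : ℍ → ℝ} {κ : ℝ} (hu0 : ∀ τ, 0 ≤ u τ)
    (hu : ∀ (γ : SL(2, ℤ)) (τ : ℍ), ‖den γ τ‖ ^ κ * u (γ • τ) = u τ) (hd : Dec u) :
    ∃ C : ℝ, ∀ τ : ℍ, u τ ≤ C * τ.im ^ (κ / 2) := by
  obtain ⟨δ, hδ, h⟩ := hd
  obtain ⟨C, hC⟩ := h (1 / 2) one_half_pos
  obtain ⟨n, hn⟩ := exists_nat_ge (-(κ / 2))
  have key : ∀ y : ℝ, 1 / 2 ≤ y → Real.exp (-δ * y) ≤
      (n.factorial / δ ^ n * (1 / 2) ^ (-(κ / 2) - n)) * y ^ (κ / 2) := fun y hy => by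
    have hy0 : 0 < y := lt_of_lt_of_le one_half_pos hy
    have h1 : Real.exp (-δ * y) * y ^ n ≤ n.factorial / δ ^ n := by
      have h2 := Real.pow_div_factorial_le_exp (δ * y) (mul_pos hδ hy0).le n
      rw [div_le_iff₀ (by positivity), mul_pow] at h2
      rw [neg_mul, Real.exp_neg, le_div_iff₀ (by positivity), mul_assoc,
        inv_mul_le_iff₀ (Real.exp_pos _), mul_comm]
      exact h2
    have h3 : y ^ (-(κ / 2) - n) ≤ (1 / 2) ^ (-(κ / 2) - n) :=
      Real.rpow_le_rpow_of_nonpos one_half_pos hy (sub_nonpos.2 hn)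
    have h4 : Real.exp (-δ * y) = Real.exp (-δ * y) * y ^ n * y ^ (-(κ / 2) - n) * y ^ (κ / 2) := by
      rw [← Real.rpow_natCast, mul_assoc, mul_assoc, ← Real.rpow_add hy0, ← Real.rpow_add hy0,
        show (n : ℝ) + (-(κ / 2) - n + κ / 2) = 0 by ring, Real.rpow_zero, mul_one]
    rw [h4]
    gcongr
  refine ⟨|C| * (n.factorial / δ ^ n * (1 / 2) ^ (-(κ / 2) - n)), fun τ => ?_⟩
  obtain ⟨γ, hγ⟩ := ModularGroup.exists_one_half_le_im_smul τ
  have hd0 : 0 < ‖den γ τ‖ := norm_pos_iff.2 (den_ne γ τ)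
  have h5 : τ.im ^ (κ / 2) = ‖den γ τ‖ ^ κ * (γ • τ).im ^ (κ / 2) := by
    rw [im_SL, Real.div_rpow τ.im_pos.le (sq_nonneg _), ← Real.rpow_natCast,
      ← Real.rpow_mul hd0.le, Nat.cast_ofNat, mul_div_cancel₀ κ two_ne_zero,
      mul_div_cancel₀ _ (Real.rpow_pos_of_pos hd0 κ).ne']
  rw [← hu γ τ, h5, mul_left_comm, mul_assoc]
  refine mul_le_mul_of_nonneg_left ((hC _ hγ).trans ?_) (Real.rpow_nonneg hd0.le κ)
  exact (mul_le_mul_of_nonneg_right (le_abs_self C) (Real.exp_pos _).le).trans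
    (mul_le_mul_of_nonneg_left (key _ hγ) (abs_nonneg C))

/-- Sketch: `strip_integral` with `B y = C y ^ (k / 2)` for `y ≤ 1` (`inv_bound`) and
`B y = C' exp(-δ y)` for `y > 1`; `avg_unfold` for `G = strip.indicator Φ`, `hasSum_strip`,
`integral_indicator`. -/
theorem unfold {k : ℕ} (hk : 3 ≤ k) {Φ : ℍ → ℂ} (hc : Continuous Φ)
    (hΦ : ∀ (γ : SL(2, ℤ)) (τ : ℍ), den γ τ ^ k * Φ (γ • τ) = Φ τ) (hd : Dec fun τ => ‖Φ τ‖) :
    ∃ κ : ℂ, κ ≠ 0 ∧ avgM ⊤ (fun τ => Φ τ * ModularForm.E hk τ) =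
      κ * ∫ y in Set.Ioi (0 : ℝ), ((y : ℂ) ^ 2)⁻¹ * hz Φ y := by
  obtain ⟨C, hC⟩ := inv_bound (u := fun τ => ‖Φ τ‖) (κ := k) (fun _ => norm_nonneg _)
    (fun γ τ => by rw [← hΦ γ τ, norm_mul, norm_pow, Real.rpow_natCast]) hd
  obtain ⟨δ, hδ, h⟩ := hd
  obtain ⟨C', hC'⟩ := h 1 one_pos
  have hk' : (3 : ℝ) ≤ k := by exact_mod_cast hk
  have hi : IntegrableOn (fun y : ℝ =>
      (if y ≤ 1 then C * y ^ ((k : ℝ) / 2) else C' * Real.exp (-δ * y)) / y ^ 2) (Set.Ioi 0) := by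
    rw [← Set.Ioc_union_Ioi_eq_Ioi zero_le_one]
    refine IntegrableOn.union ?_ ?_
    · have h1 := (intervalIntegral.intervalIntegrable_rpow' (r := (k : ℝ) / 2 - 2) (a := 0) (b := 1)
        (by linarith)).1.const_mul C
      refine IntegrableOn.congr_fun h1 (fun y hy => ?_) measurableSet_Ioc
      simp only [if_pos hy.2, Real.rpow_sub hy.1, Real.rpow_two, mul_div_assoc]
    · have h1 := (exp_neg_integrableOn_Ioi 1 hδ).const_mul |C'|
      refine IntegrableOn.congr_fun (f := fun y : ℝ => C' * Real.exp (-δ * y) / y ^ 2)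
        (h1.mono' (Measurable.aestronglyMeasurable (by fun_prop)) ((ae_restrict_iff' measurableSet_Ioi).2
          (Eventually.of_forall fun y hy => ?_))) (fun y hy => ?_) measurableSet_Ioi
      · rw [norm_div, norm_mul, Real.norm_eq_abs, Real.norm_of_nonneg (Real.exp_pos _).le,
          Real.norm_of_nonneg (sq_nonneg _)]
        exact div_le_self (by positivity) (one_le_pow₀ hy.out.le)
      · simp only [if_neg (not_le.2 hy.out)]
  obtain ⟨h1, h2⟩ := strip_integral hc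
    (B := fun y => if y ≤ 1 then C * y ^ ((k : ℝ) / 2) else C' * Real.exp (-δ * y)) (fun τ => by
      split_ifs with hy
      exacts [hC τ, hC' τ (not_le.1 hy).le]) hi
  obtain ⟨κ, hκ, h3⟩ := avg_unfold (hc.measurable.indicator measurableSet_strip)
    ((integrable_indicator_iff measurableSet_strip).2 h1)
  refine ⟨κ / 2, div_ne_zero hκ two_ne_zero, ?_⟩
  simp only [fun τ => (hasSum_strip hk hΦ τ).tsum_eq] at h3
  rw [integral_indicator measurableSet_strip, h2, avgM, integral_const_mul] at h3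
  rw [avgM]
  linear_combination h3 / 2

end Pool.Agent.Lib.MP_bcfefa_nt.B
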