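import Pool.Agent.Lib.MP_bcfefa_nt.B.Bas

/-!
Unfolding: the Eisenstein series as a sum over the modular group.
-/

set_option autoImplicit false

noncomputable section

namespace Pool.Agent.Lib.MP_bcfefa_nt.B

open Finset CongruenceSubgroup UpperHalfPlane Matrix MeasureTheory Complex ModularGroup Filter
open Pool.Agent.Lib.MP_88d29b_nt.G
open scoped MatrixGroups ModularForm Manifold ComplexConjugate Topology

theorem exists_unique_strip (τ : ℍ) : ∃! n : ℤ, T ^ n • τ ∈ strip := by
  have h : ∀ n : ℤ, (T ^ n • τ : ℍ).re = τ.re + n := fun n => by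
    have := congrArg Complex.re (coe_T_zpow_smul n τ)
    simpa using this
  refine ⟨-⌊τ.re⌋, ?_, fun n hn => ?_⟩
  · refine ⟨?_, ?_⟩ <;> rw [h] <;> push_cast
    · linarith [Int.floor_le τ.re]
    · linarith [Int.lt_floor_add_one τ.re]
  · obtain ⟨h1, h2⟩ := hn
    rw [h] at h1 h2
    have : ⌊τ.re⌋ = -n := Int.floor_eq_iff.2 ⟨by push_cast; linarith, by push_cast; linarith⟩
    rw [this, neg_neg]

theorem unfg_row (n : ℤ) (g : SL(2, ℤ)) (j : Fin 2) : (T ^ n * g) 1 j = g 1 j := by
  simp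

theorem unfg_top (n : ℤ) (g : SL(2, ℤ)) (j : Fin 2) : (T ^ n * g) 0 j = g 0 j + n * g 1 j := by
  simp [coe_T_zpow, Matrix.mul_apply, Fin.sum_univ_two]

theorem unfg_same {g h : SL(2, ℤ)} (h0 : g 1 0 = h 1 0) (h1 : g 1 1 = h 1 1) :
    ∃ n : ℤ, T ^ n * h = g := by
  have hg := g.det_coe
  have hh := h.det_coe
  rw [Matrix.det_fin_two] at hg hh
  refine ⟨g 0 1 * h 0 0 - g 0 0 * h 0 1, ?_⟩
  ext i j
  fin_cases i <;> fin_cases j
  · refine (unfg_top _ h 0).trans ?_
    change _ = g 0 0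
    rw [h0, h1] at hg
    linear_combination g 0 0 * hh - h 0 0 * hg
  · refine (unfg_top _ h 1).trans ?_
    change _ = g 0 1
    rw [h0, h1] at hg
    linear_combination g 0 1 * hh - h 0 1 * hg
  · exact (unfg_row _ h 0).trans h0.symm
  · exact (unfg_row _ h 1).trans h1.symm

/-- Sketch: `IsCoprime.exists_SL2_row`; two matrices with the same bottom row differ by `T ^ n`
(`ModularGroup.exists_eq_T_zpow_of_c_eq_zero` gives `± T ^ n`; or compute directly). -/
theorem exists_section : ∃ σ : EisensteinSeries.gammaSet 1 1 0 → SL(2, ℤ),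
    (∀ v, σ v 1 0 = v.1 0 ∧ σ v 1 1 = v.1 1) ∧
      Function.Bijective fun p : EisensteinSeries.gammaSet 1 1 0 × ℤ => T ^ p.2 * σ p.1 := by
  choose σ hσ using fun v : EisensteinSeries.gammaSet 1 1 0 =>
    ((EisensteinSeries.mem_gammaSet_one v.1).1 v.2).exists_SL2_row 1
  refine ⟨σ, hσ, ?_, fun g => ?_⟩
  · rintro ⟨v, n⟩ ⟨w, m⟩ h
    have h' : T ^ n * σ v = T ^ m * σ w := h
    have hv : v = w := by
      refine Subtype.ext (funext fun j => ?_)
      have h1 := unfg_row n (σ v) j
      rw [h', unfg_row] at h1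
      fin_cases j
      · exact (hσ v).1.symm.trans (h1.symm.trans (hσ w).1)
      · exact (hσ v).2.symm.trans (h1.symm.trans (hσ w).2)
    subst hv
    have h2 := congrArg (fun g : SL(2, ℤ) => g 0 1) (mul_right_cancel h')
    simp only [coe_T_zpow] at h2
    have h3 : n = m := by simpa using h2
    rw [h3]
  · have hg : (g 1) ∈ EisensteinSeries.gammaSet 1 1 0 :=
      (EisensteinSeries.mem_gammaSet_one _).2 (Matrix.SpecialLinearGroup.isCoprime_row g 1)
    obtain ⟨n, hn⟩ := unfg_same (hσ ⟨_, hg⟩).1.symm (hσ ⟨_, hg⟩).2.symm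
    exact ⟨(⟨_, hg⟩, n), hn⟩

/-- Sketch: `E hk τ = (1 / 2) ∑' v : gammaSet 1 1 0, eisSummand k v τ` by definition, and the series
is summable (`EisensteinSeries.summable_norm_eisSummand`, `Summable.subtype`). Choose for each `v`
the integer `n v` with `T ^ n v • σ v • τ ∈ strip`; the map `v ↦ T ^ n v * σ v` is injective, the
summand vanishes off its range, and on it equals `Φ τ * eisSummand k v τ`
(`Function.Injective.hasSum_iff`). -/
theorem hasSum_strip {k : ℕ} (hk : 3 ≤ k) {Φ : ℍ → ℂ}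
    (hΦ : ∀ (γ : SL(2, ℤ)) (τ : ℍ), den γ τ ^ k * Φ (γ • τ) = Φ τ) (τ : ℍ) :
    HasSum (fun γ : SL(2, ℤ) => strip.indicator Φ (γ • τ)) (2 * (Φ τ * ModularForm.E hk τ)) := by
  obtain ⟨σ, hσ, hinj, hsur⟩ := exists_section
  choose n hn hu using fun v => exists_unique_strip (σ v • τ)
  have hi : Function.Injective fun v => T ^ n v * σ v := fun v w h =>
    congrArg Prod.fst (hinj (a₁ := (v, n v)) (a₂ := (w, n w)) h)
  refine (hi.hasSum_iff fun γ hγ => ?_).1 ?_
  · obtain ⟨⟨v, m⟩, rfl⟩ := hsur γ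
    refine Set.indicator_of_notMem (fun h => hγ ⟨v, ?_⟩) _
    rw [mul_smul] at h
    exact congrArg (fun m : ℤ => T ^ m * σ v) (hu v m h).symm
  · have hs : Summable fun v : EisensteinSeries.gammaSet 1 1 0 =>
        EisensteinSeries.eisSummand k v.1 τ :=
      (EisensteinSeries.summable_norm_eisSummand (by exact_mod_cast hk) τ).of_norm.subtype _
    have hE : ModularForm.E hk τ = (1 / 2 : ℂ) * ∑' v : EisensteinSeries.gammaSet 1 1 0,
        EisensteinSeries.eisSummand k v.1 τ := rfl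
    have h1 := hs.hasSum.mul_left (Φ τ)
    have e1 : ((fun γ : SL(2, ℤ) => strip.indicator Φ (γ • τ)) ∘ fun v => T ^ n v * σ v) =
        fun v => Φ τ * EisensteinSeries.eisSummand k v.1 τ := by
      funext v
      have h2 : (T ^ n v * σ v) • τ ∈ strip := by
        rw [mul_smul]
        exact hn v
      have h3 := hΦ (T ^ n v * σ v) τ
      have h4 := den_ne (T ^ n v * σ v) τ
      have h5 : EisensteinSeries.eisSummand k v.1 τ = (den (T ^ n v * σ v) τ ^ k)⁻¹ := by
        rw [EisensteinSeries.eisSummand, den, unfg_row, unfg_row, (hσ v).1, (hσ v).2,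
          _root_.zpow_neg, zpow_natCast]
      rw [Function.comp_apply, Set.indicator_of_mem h2, h5, ← h3]
      field_simp
    have e2 : 2 * (Φ τ * ModularForm.E hk τ) = Φ τ * ∑' v : EisensteinSeries.gammaSet 1 1 0,
        EisensteinSeries.eisSummand k v.1 τ := by
      rw [hE]
      ring
    rw [e1, e2]
    exact h1

end Pool.Agent.Lib.MP_bcfefa_nt.B
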