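import Pool.Agent.Lib.MP_bcfefa_nt.B.Bas

/-!
The theta functions of index one: elementary properties.
-/

set_option autoImplicit false

noncomputable section

namespace Pool.Agent.Lib.MP_bcfefa_nt.B

open Finset CongruenceSubgroup UpperHalfPlane Matrix MeasureTheory Complex ModularGroup Filter
open Pool.Agent.Lib.MP_88d29b_nt.G
open scoped MatrixGroups ModularForm Manifold ComplexConjugate Topology

theorem vta_hasSum (τ : ℍ) (z : ℂ) (j : Fin 2) :
    HasSum (fun n : ℤ => ee ((2 * (n : ℂ) + (j : ℕ)) ^ 2 * τ / 4 + (2 * (n : ℂ) + (j : ℕ)) * z))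
      (ee (((j : ℕ) : ℂ) ^ 2 * τ / 4 + (j : ℕ) * z) *
        jacobiTheta₂ (2 * z + (j : ℕ) * τ) (2 * τ)) := by
  have h : 0 < (2 * (τ : ℂ)).im := by simpa using τ.im_pos
  refine ((hasSum_jacobiTheta₂_term (2 * z + (j : ℕ) * τ) h).mul_left _).congr_fun fun n => ?_
  rw [ee, ee, jacobiTheta₂_term, ← Complex.exp_add]
  congr 1
  ring

/-- Sketch: `jacobiTheta₂_term`, `summable_jacobiTheta₂_term_iff`; the term of `vt` is
`ee (j ^ 2 τ / 4 + j z)` times `jacobiTheta₂_term n (2 z + j τ) (2 τ)`. -/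
theorem vt_hasSum (τ : ℍ) (z : ℂ) (j : Fin 2) :
    HasSum (fun n : ℤ => ee ((2 * (n : ℂ) + (j : ℕ)) ^ 2 * τ / 4 + (2 * (n : ℂ) + (j : ℕ)) * z))
      (vt τ z j) := by
  exact (vta_hasSum τ z j).summable.hasSum

theorem vt_eq (τ : ℍ) (z : ℂ) (j : Fin 2) :
    vt τ z j = ee (((j : ℕ) : ℂ) ^ 2 * τ / 4 + (j : ℕ) * z) *
      jacobiTheta₂ (2 * z + (j : ℕ) * τ) (2 * τ) := by
  exact (vta_hasSum τ z j).tsum_eq

/-- The series over all integers `r` of the parity of `j`. Sketch: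
`Function.Injective.hasSum_iff` for `n ↦ 2 n + j`. -/
theorem vt_hasSum' (τ : ℍ) (z : ℂ) (j : Fin 2) :
    HasSum (fun r : ℤ => if r % 2 = (j : ℕ) then ee ((r : ℂ) ^ 2 * τ / 4 + r * z) else 0)
      (vt τ z j) := by
  have hj := j.2
  have hg : Function.Injective fun n : ℤ => 2 * n + (j : ℕ) := fun a b h => by
    dsimp only at h
    omega
  refine (hg.hasSum_iff fun r hr => if_neg fun h => hr ⟨r / 2, by dsimp only; omega⟩).1 ?_
  refine (vt_hasSum τ z j).congr_fun fun n => ?_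
  rw [Function.comp_apply, if_pos (by omega)]
  push_cast
  rfl

theorem vt_add_vt (τ : ℍ) (z : ℂ) : vt τ z 0 + vt τ z 1 = jacobiTheta₂ z (τ / 2) := by
  have h : 0 < ((τ : ℂ) / 2).im := by simpa using τ.im_pos
  refine ((vt_hasSum' τ z 0).add (vt_hasSum' τ z 1)).unique
    ((hasSum_jacobiTheta₂_term z h).congr_fun fun r => ?_)
  have e : jacobiTheta₂_term r z (τ / 2) = ee ((r : ℂ) ^ 2 * τ / 4 + r * z) := by
    rw [ee, jacobiTheta₂_term]
    congr 1
    ring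
  rw [e]
  rcases Int.emod_two_eq_zero_or_one r with h1 | h1 <;> simp [h1]

theorem vt_add_int (τ : ℍ) (z : ℂ) (m : ℤ) : vt τ (z + m) = vt τ z := by
  funext j
  refine tsum_congr fun n => ?_
  rw [← ee_add_int (_ + _ * z) ((2 * n + (j : ℕ)) * m)]
  congr 1
  push_cast
  ring

theorem vt_sub_half (τ : ℍ) (z : ℂ) (j : Fin 2) :
    vt τ (z - 1 / 2) j = (-1) ^ (j : ℕ) * vt τ z j := by
  rw [vt, vt, ← tsum_mul_left]
  refine tsum_congr fun n => ?_
  rw [← ee_half, ← ee_nat_mul, ← ee_add, ← ee_add_int _ (n + (j : ℕ))]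
  congr 1
  push_cast
  ring

/-- Sketch: shift `n ↦ n + m` (`Equiv.addRight`, `Equiv.tsum_eq`). -/
theorem vt_add_tau (τ : ℍ) (z : ℂ) (m : ℤ) :
    vt τ (z + m * τ) = ee (-((m : ℂ) ^ 2 * τ) - 2 * m * z) • vt τ z := by
  funext j
  rw [Pi.smul_apply, smul_eq_mul, vt, vt, ← tsum_mul_left, ← (Equiv.addRight (-m)).tsum_eq]
  refine tsum_congr fun n => ?_
  rw [← ee_add, Equiv.coe_addRight]
  congr 1
  push_cast
  ring

theorem vt_T (τ : ℍ) (z : ℂ) : vt (T • τ) z = JT *ᵥ vt τ z := by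
  have h : ∀ j : Fin 2, vt (T • τ) z j = ee (((j : ℕ) : ℂ) ^ 2 / 4) * vt τ z j := fun j => by
    rw [vt, vt, ← tsum_mul_left]
    refine tsum_congr fun n => ?_
    rw [← ee_add, coe_T_smul, eq_comm, ← ee_add_int _ (n ^ 2 + n * (j : ℕ))]
    congr 1
    push_cast
    ring
  have h4 := ee_quarter
  rw [one_div] at h4
  funext j
  rw [h]
  fin_cases j <;> simp [JT, mulVec, dotProduct, h4]

theorem vta_ne {σ : ℂ} (hσ : 0 < σ.im) : ∃ x : ℝ, jacobiTheta₂ x σ ≠ 0 := by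
  by_contra h0
  push Not at h0
  have h1 : HasSum (fun n : ℤ => ∫ x in (0 : ℝ)..1, jacobiTheta₂_term n x σ)
      (∫ _ in (0 : ℝ)..1, (0 : ℂ)) := by
    refine intervalIntegral.hasSum_integral_of_dominated_convergence
      (fun n _ => ‖jacobiTheta₂_term n 0 σ‖) (fun n => Continuous.aestronglyMeasurable ?_)
      (fun n => Eventually.of_forall fun t _ => ?_)
      (Eventually.of_forall fun t _ => ((summable_jacobiTheta₂_term_iff 0 σ).2 hσ).norm)
      intervalIntegrable_const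
      (Eventually.of_forall fun t _ => h0 t ▸ hasSum_jacobiTheta₂_term t hσ)
    · unfold jacobiTheta₂_term
      fun_prop
    · simp [norm_jacobiTheta₂_term]
  have h2 : ∀ n : ℤ, ∫ x in (0 : ℝ)..1, jacobiTheta₂_term n x σ = if n = 0 then 1 else 0 := by
    intro n
    split_ifs with hn
    · simp [hn, jacobiTheta₂_term]
    · have hc : 2 * (Real.pi : ℂ) * Complex.I * n ≠ 0 :=
        mul_ne_zero Complex.two_pi_I_ne_zero (Int.cast_ne_zero.2 hn)
      have h3 := ee_int n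
      rw [ee] at h3
      simp only [jacobiTheta₂_term, Complex.exp_add, intervalIntegral.integral_mul_const,
        integral_exp_mul_complex hc]
      simp [h3]
  simp only [h2, intervalIntegral.integral_zero] at h1
  exact one_ne_zero ((hasSum_ite_eq (0 : ℤ) (1 : ℂ)).unique h1)

/-- Sketch: `∫_0^1 e(-j x) vt τ x j d x = ee (j ^ 2 τ / 4) ≠ 0` by
`hasSum_integral_of_summable_norm`; or apply `QS.unique` style arguments. -/
theorem exists_vt_ne_zero (τ : ℍ) (j : Fin 2) : ∃ z, vt τ z j ≠ 0 := by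
  obtain ⟨x, hx⟩ := vta_ne (σ := 2 * τ) (by simpa using τ.im_pos)
  refine ⟨(x - (j : ℕ) * τ) / 2, ?_⟩
  rw [vt_eq, show 2 * ((x - (j : ℕ) * τ : ℂ) / 2) + (j : ℕ) * τ = x by ring]
  exact mul_ne_zero (ee_ne_zero _) hx

/-- Sketch: compare `z` and `z - 1 / 2` (`vt_sub_half`), then `exists_vt_ne_zero`. -/
theorem vt_indep (τ : ℍ) {J J' : Matrix (Fin 2) (Fin 2) ℂ}
    (h : ∀ z, J *ᵥ vt τ z = J' *ᵥ vt τ z) : J = J' := by
  ext i j
  obtain ⟨z, hz⟩ := exists_vt_ne_zero τ j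
  have h1 := congrFun (h z) i
  have h2 := congrFun (h (z - 1 / 2)) i
  simp only [mulVec, dotProduct, Fin.sum_univ_two, vt_sub_half, Fin.val_zero, Fin.val_one] at h1 h2
  refine mul_right_cancel₀ hz ?_
  fin_cases j
  · exact (by linear_combination (h1 + h2) / 2 : J i 0 * vt τ z 0 = J' i 0 * vt τ z 0)
  · exact (by linear_combination (h1 - h2) / 2 : J i 1 * vt τ z 1 = J' i 1 * vt τ z 1)

/-- Sketch: `vt_hasSum` at `z = 0`; for `j = 0` the exponents are `n ^ 2`, for `j = 1` they are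
`(2 n + 1) ^ 2 / 4`; use `HasSum.sigma` / `hasSum_fiberwise`-type lemmas for `r ↦ r.natAbs ^ 2`,
or `HasSum.nat_add_neg` and `Function.Injective.hasSum_iff` for `m ↦ m ^ 2`. -/
theorem qv_th : QV th thc := by
  intro τ j
  refine ((Nat.pow_left_injective two_ne_zero).hasSum_iff fun n hn => ?_).1 ?_
  · have h0 : n ≠ 0 := fun h => hn ⟨0, h.symm⟩
    have h1 : ¬ IsSquare n := fun ⟨r, hr⟩ => hn ⟨r, (hr.trans (sq r).symm).symm⟩
    simp [thc, h0, h1]
  have h1 := (vt_hasSum' τ 0 j).nat_add_neg.sub (hasSum_ite_eq (0 : ℕ)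
    (if (0 : ℤ) % 2 = (j : ℕ) then ee (((0 : ℤ) : ℂ) ^ 2 * τ / 4 + (0 : ℤ) * 0) else 0))
  rw [add_sub_cancel_right] at h1
  refine h1.congr_fun fun m => ?_
  have h2 : m ^ 2 % 4 = m % 2 := by
    have h : m % 4 = 0 ∨ m % 4 = 1 ∨ m % 4 = 2 ∨ m % 4 = 3 := by omega
    rcases h with h | h | h | h <;> rw [Nat.pow_mod, h] <;> omega
  rw [Function.comp_apply, h2]
  by_cases hm : m = 0
  · subst hm
    fin_cases j <;> simp [thc]
  · have h3 : thc (m ^ 2) = 2 := by rw [thc, if_neg (pow_ne_zero 2 hm), if_pos ⟨m, sq m⟩]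
    rw [h3, if_neg hm, sub_zero]
    by_cases h4 : m % 2 = (j : ℕ)
    · rw [if_pos h4, if_pos (by omega), if_pos (by omega)]
      push_cast
      rw [neg_sq, mul_zero, mul_zero, add_zero, two_mul]
    · rw [if_neg h4, if_neg (by omega), if_neg (by omega), zero_mul, add_zero]

end Pool.Agent.Lib.MP_bcfefa_nt.B
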