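import Pool.Agent.Lib.MP_bcfefa_nt.B.VtA

/-!
The theta functions of index one: inversion.
-/

set_option autoImplicit false

noncomputable section

namespace Pool.Agent.Lib.MP_bcfefa_nt.B

open Finset CongruenceSubgroup UpperHalfPlane Matrix MeasureTheory Complex ModularGroup Filter
open Pool.Agent.Lib.MP_88d29b_nt.G
open scoped MatrixGroups ModularForm Manifold ComplexConjugate Topology

lemma vtS_ne (τ : ℍ) : -Complex.I * (τ : ℂ) / 2 ≠ 0 :=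
  div_ne_zero (mul_ne_zero (neg_ne_zero.mpr Complex.I_ne_zero) τ.ne_zero) two_ne_zero

lemma vtS_sq (τ : ℍ) :
    (-Complex.I * (τ : ℂ) / 2) ^ (1 / 2 : ℂ) * (-Complex.I * (τ : ℂ) / 2) ^ (1 / 2 : ℂ) =
      -Complex.I * (τ : ℂ) / 2 := by
  rw [← Complex.cpow_add _ _ (vtS_ne τ)]
  norm_num

lemma vtS_key (τ : ℍ) (z : ℂ) (j : Fin 2) :
    vt (S • τ) (z / τ) j = ee (z ^ 2 / τ) * ((-Complex.I * (τ : ℂ) / 2) ^ (1 / 2 : ℂ) *
      jacobiTheta₂ (z - (j : ℕ) / 2) (τ / 2)) := by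
  have hτ : (τ : ℂ) ≠ 0 := τ.ne_zero
  have hr : (-Complex.I * (τ : ℂ) / 2) ^ (1 / 2 : ℂ) ≠ 0 := by
    intro h
    have := vtS_sq τ
    rw [h, zero_mul] at this
    exact vtS_ne τ this.symm
  rw [vt_eq, coe_S_smul, jacobiTheta₂_functional_equation (z - (j : ℕ) / 2) (τ / 2)]
  have e1 : -Complex.I * ((τ : ℂ) / 2) = -Complex.I * (τ : ℂ) / 2 := by ring
  have e2 : (z - ((j : ℕ) : ℂ) / 2) / ((τ : ℂ) / 2) = 2 * (z / τ) + (j : ℕ) * (-1 / (τ : ℂ)) := by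
    field_simp
    ring
  have e3 : -1 / ((τ : ℂ) / 2) = 2 * (-1 / (τ : ℂ)) := by
    field_simp
  have e4 : ee (((j : ℕ) : ℂ) ^ 2 * (-1 / (τ : ℂ)) / 4 + (j : ℕ) * (z / τ)) =
      ee (z ^ 2 / τ) *
        Complex.exp (-Real.pi * Complex.I * (z - ((j : ℕ) : ℂ) / 2) ^ 2 / ((τ : ℂ) / 2)) := by
    rw [ee, ee, ← Complex.exp_add]
    congr 1
    field_simp
    ring
  rw [e1, e2, e3, e4]
  field_simp

/-- Sketch: `vt τ z 0 + (-1) ^ j vt τ z 1 = jacobiTheta₂ (z - j / 2) (τ / 2)` (`vt_add_vt`,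
`vt_sub_half`), `jacobiTheta₂_functional_equation (z - j / 2) (τ / 2)`, and `vt_eq` at
`(-1 / τ, z / τ)`; the exponents add up to `z ^ 2 / τ`. -/
theorem vt_S (τ : ℍ) (z : ℂ) : vt (S • τ) (z / τ) = ee (z ^ 2 / τ) • JS τ *ᵥ vt τ z := by
  funext j
  rw [vtS_key, ← vt_add_vt]
  fin_cases j
  · simp [JS, Matrix.mulVec, dotProduct, Fin.sum_univ_two]
    left
    ring
  · have h0 := vt_sub_half τ z 0
    have h1 := vt_sub_half τ z 1
    simp only [Fin.mk_one, Fin.isValue, Fin.val_one, Nat.cast_one]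
    rw [h0, h1]
    simp [JS, Matrix.mulVec, dotProduct, Fin.sum_univ_two]
    left
    ring

theorem JS_unit (τ : ℍ) :
    (JS τ)ᴴ * JS τ = ((‖(τ : ℂ)‖ : ℝ) : ℂ) • (1 : Matrix (Fin 2) (Fin 2) ℂ) := by
  set r : ℂ := (-Complex.I * (τ : ℂ) / 2) ^ (1 / 2 : ℂ) with hr
  have h1 : ‖r‖ * ‖r‖ = ‖(τ : ℂ)‖ / 2 := by
    rw [← norm_mul, hr, vtS_sq]
    simp
  have h2 : conj r * r = ((‖(τ : ℂ)‖ : ℝ) : ℂ) / 2 := by
    rw [Complex.conj_mul', sq]
    exact_mod_cast h1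
  rw [JS, ← hr]
  ext i j
  fin_cases i <;> fin_cases j <;>
    simp [Matrix.mul_apply, Fin.sum_univ_two, Matrix.conjTranspose_apply, h2]

theorem det_JS (τ : ℍ) : (JS τ).det = Complex.I * τ := by
  have h := vtS_sq τ
  rw [JS, Matrix.det_smul, Matrix.det_fin_two_of, Fintype.card_fin, sq, h]
  ring

/-- Sketch: `Complex.mul_cpow_ofReal_nonneg` does not apply directly; use
`Complex.real_smul_cpow`-type lemmas, or compare squares and real parts (both square roots have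
positive real part), or `Complex.cpow_def` with `Complex.log_ofReal_mul`. -/
theorem JS_scale {σ σ' : ℍ} {l : ℕ} (hl : 0 < l) (h : (σ' : ℂ) = (l : ℂ) ^ 2 * σ) :
    JS σ' = (l : ℂ) • JS σ := by
  have hl' : (0 : ℝ) < l := by exact_mod_cast hl
  have e : -Complex.I * (σ' : ℂ) / 2 = (((l : ℝ) ^ 2 : ℝ) : ℂ) * (-Complex.I * (σ : ℂ) / 2) := by
    rw [h]
    push_cast
    ring
  have e2 : ((((l : ℝ) ^ 2 : ℝ) : ℂ)) ^ (1 / 2 : ℂ) = l := by
    rw [show (1 / 2 : ℂ) = ((1 / 2 : ℝ) : ℂ) by push_cast; rfl,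
      ← Complex.ofReal_cpow (by positivity), ← Real.sqrt_eq_rpow, Real.sqrt_sq hl'.le]
    simp
  rw [JS, JS, e, smul_smul]
  congr 1
  rw [← e2, Complex.cpow_def_of_ne_zero, Complex.cpow_def_of_ne_zero (vtS_ne σ),
    Complex.cpow_def_of_ne_zero, Complex.log_ofReal_mul (by positivity) (vtS_ne σ),
    ← Complex.exp_add, Complex.ofReal_log (by positivity), add_mul]
  · exact_mod_cast (by positivity : (0 : ℝ) < (l : ℝ) ^ 2).ne'
  · exact mul_ne_zero (by exact_mod_cast (by positivity : (0 : ℝ) < (l : ℝ) ^ 2).ne') (vtS_ne σ)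

end Pool.Agent.Lib.MP_bcfefa_nt.B
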