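import Pool.Agent.Lib.MP_bcfefa_nt.B.Dth
import Pool.Agent.Lib.MP_bcfefa_nt.B.QVb
import Pool.Agent.Lib.MP_bcfefa_nt.B.MFa

/-!
The Wronskian of the theta constants does not vanish.
-/

set_option autoImplicit false

noncomputable section

namespace Pool.Agent.Lib.MP_bcfefa_nt.B

open Finset CongruenceSubgroup UpperHalfPlane Matrix MeasureTheory Complex ModularGroup Filter
open Pool.Agent.Lib.MP_88d29b_nt.G
open scoped MatrixGroups ModularForm Manifold ComplexConjugate Topology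

theorem wg_mulVec (J : Matrix (Fin 2) (Fin 2) ℂ) (u v : Fin 2 → ℂ) :
    wg (J *ᵥ u) (J *ᵥ v) = J.det * wg u v := by
  simp only [wg, Matrix.mulVec, dotProduct, Fin.sum_univ_two, Matrix.det_fin_two]
  ring

theorem Wr_S (τ : ℍ) : Wr (S • τ) = (τ : ℂ) ^ 2 * (Complex.I * τ) * Wr τ := by
  rw [Wr, Dth_S, th_cov, Jm_S, ← mulVec_smul, wg_mulVec, det_JS, Wr]
  simp only [wg, Pi.smul_apply, Pi.add_apply, smul_eq_mul]
  ring

/-- Sketch: `QV.wedge qv_th (QV.D qv_th)`. -/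
theorem Wr_qs : ∃ e : ℕ → ℂ, QS (fun τ => ee (-((τ : ℂ) / 4)) * Wr τ) e ∧ e 0 = 1 / 2 := by
  obtain ⟨e, h, h0⟩ := QV.wedge qv_th (QV.D qv_th)
  refine ⟨e, h, ?_⟩
  rw [h0]
  simp [thc]
  norm_num

/-- Sketch: `Wr ^ 4 = e(τ) (e(-τ / 4) Wr) ^ 4` has a `q`-series with `a 0 = 0`, `a 1 = 1 / 16`
(`qs_mul`, `qs_shift`), weight `12` under `S` (`Wr_S`); `isM_of_S`, `IsM.exists_cf`,
`CuspForm.exists_smul_discriminant_of_weight_eq_twelve`, `ModularForm.discriminant_ne_zero`. -/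
theorem Wr_ne_zero (τ : ℍ) : Wr τ ≠ 0 := by
  obtain ⟨e, h, h0⟩ := Wr_qs
  have h1 := qs_shift (qs_mul (qs_mul h h) (qs_mul h h))
  have e1 : (fun σ : ℍ => ee σ * (((fun τ : ℍ => ee (-((τ : ℂ) / 4)) * Wr τ) *
      fun τ : ℍ => ee (-((τ : ℂ) / 4)) * Wr τ) * ((fun τ : ℍ => ee (-((τ : ℂ) / 4)) * Wr τ) *
      fun τ : ℍ => ee (-((τ : ℂ) / 4)) * Wr τ)) σ) = fun σ => Wr σ ^ 4 := by
    funext σ
    have e2 : ee σ * ee (-((σ : ℂ) / 4)) ^ 4 = 1 := by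
      rw [← ee_nat_mul, ← ee_add, ← ee_zero]
      congr 1
      push_cast
      ring
    simp only [Pi.mul_apply]
    linear_combination Wr σ ^ 4 * e2
  rw [e1] at h1
  have h2 := isM_of_S (k := 12) h1 fun σ => by
    rw [Wr_S, mul_pow, mul_pow, mul_pow, Complex.I_pow_four]
    ring
  obtain ⟨F, hF, -⟩ := h2.exists_cf (if_pos rfl)
  obtain ⟨c, hc⟩ := CuspForm.exists_smul_discriminant_of_weight_eq_twelve F
  have h3 : ∀ σ, c * ModularForm.discriminant σ = Wr σ ^ 4 := fun σ =>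
    (DFunLike.congr_fun hc σ).trans (congrFun hF σ)
  intro hτ
  have h4 := h3 τ
  rw [hτ, zero_pow four_ne_zero] at h4
  have h5 : c = 0 := (mul_eq_zero.1 h4).resolve_right (ModularForm.discriminant_ne_zero τ)
  have h6 : (fun τ : ℍ => ee (-((τ : ℂ) / 4)) * Wr τ) = fun _ => 0 := by
    funext σ
    have h7 := h3 σ
    rw [h5, zero_mul] at h7
    rw [pow_eq_zero_iff four_ne_zero |>.1 h7.symm, mul_zero]
  have h7 := qs_tendsto h
  rw [h6, h0] at h7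
  have h8 := tendsto_nhds_unique h7 tendsto_const_nhds
  norm_num at h8

/-- Division by the Wronskian. Sketch: the quotient is `(e(-τ / 4) N) / (e(-τ / 4) Wr)`:
holomorphic, invariant under `T` (`qs_T`), it tends to `2 e 0` (`qs_tendsto`); `isM_of_hol`. -/
theorem exists_isM_div {k : ℕ} {N : ℍ → ℂ} {e : ℕ → ℂ}
    (hN : QS (fun τ => ee (-((τ : ℂ) / 4)) * N τ) e)
    (hS : ∀ τ : ℍ, N (S • τ) / Wr (S • τ) = (τ : ℂ) ^ k * (N τ / Wr τ)) :
    ∃ a, IsM k (fun τ => N τ / Wr τ) a := by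
  obtain ⟨e', h, h0⟩ := Wr_qs
  have e1 : (fun τ : ℍ => N τ / Wr τ) =
      (fun τ : ℍ => ee (-((τ : ℂ) / 4)) * N τ) / fun τ : ℍ => ee (-((τ : ℂ) / 4)) * Wr τ :=
    funext fun τ => (mul_div_mul_left _ _ (ee_ne_zero _)).symm
  refine isM_of_hol ?_ hS (fun τ => ?_) ?_
  · rw [e1]
    exact (qs_mdiff hN).div (qs_mdiff h) fun τ => mul_ne_zero (ee_ne_zero _) (Wr_ne_zero τ)
  · refine (congrFun e1 _).trans (Eq.trans ?_ (congrFun e1 τ).symm)
    rw [Pi.div_apply, Pi.div_apply, qs_T hN, qs_T h]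
  · rw [e1]
    exact ((qs_tendsto hN).div (qs_tendsto h) (by rw [h0]; norm_num)).isBigO_one ℝ

end Pool.Agent.Lib.MP_bcfefa_nt.B
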